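import Pool.Agent.Helper60.GM67.MaxP

/-! Approximate maximum principle at nearby scales. -/

namespace Pool.Agent.Helper60.GM67

open MeasureTheory Set Metric Filter Topology
open Pool.Agent.R216.VPD (E)

variable {N : ℕ}

theorem geo_sum {n : ℕ} (hn : 1 ≤ n) {M ρ τ : ℝ} (hM : 2 ≤ M) (hρ : 0 < ρ) (hτ : 0 ≤ τ) (κ : ℕ) :
    ∑ i ∈ Finset.range (κ + 1), (if τ ≤ ρ / M ^ i then ((ρ / M ^ i) ^ n)⁻¹ else 0)
      ≤ 2 * ((max τ (ρ / M ^ κ)) ^ n)⁻¹ := by
  have hM0 : 0 < M := by linarith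
  induction κ with
  | zero =>
    simp only [zero_add, Finset.range_one, Finset.sum_singleton, pow_zero, div_one]
    split_ifs with h
    · rw [max_eq_right h]
      have : 0 < (ρ ^ n)⁻¹ := by positivity
      linarith
    · positivity
  | succ κ ih =>
    rw [Finset.sum_range_succ]
    have hlt : ρ / M ^ (κ + 1) ≤ ρ / M ^ κ := by
      rw [pow_succ]
      refine div_le_div_of_nonneg_left hρ.le (by positivity) ?_
      have : 0 < M ^ κ := by positivity
      nlinarith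
    have hpos : 0 < ρ / M ^ (κ + 1) := by positivity
    split_ifs with h
    · rw [max_eq_right (h.trans hlt)] at ih
      rw [max_eq_right h]
      have h1 : ρ / M ^ κ = M * (ρ / M ^ (κ + 1)) := by
        rw [pow_succ]; field_simp
      rw [h1, mul_pow, mul_inv] at ih
      have h2 : (M ^ n)⁻¹ ≤ 1 / 2 := by
        rw [inv_le_comm₀ (by positivity) (by norm_num)]
        calc (1 / 2 : ℝ)⁻¹ = 2 := by norm_num
          _ ≤ M := hM
          _ ≤ M ^ n := le_self_pow₀ (by linarith) (by omega)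
      have h4 : 0 < ((ρ / M ^ (κ + 1)) ^ n)⁻¹ := by positivity
      nlinarith
    · push Not at h
      rw [max_eq_left h.le, add_zero]
      refine ih.trans ?_
      have hτ0 : 0 < τ := hpos.trans h
      have : (τ ^ n) ≤ (max τ (ρ / M ^ κ)) ^ n := by
        have := le_max_left τ (ρ / M ^ κ)
        gcongr
      have := inv_anti₀ (by positivity) this
      linarith

theorem Psi_low (h3 : 3 ≤ N) {t : ℝ} (ht : 0 < t) (z : E N) :
    2 * ((max ‖z‖ t) ^ (N - 2))⁻¹ ≤ ((N : ℝ) - 2) * Psi t z := by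
  have hN' : (3 : ℝ) ≤ N := by exact_mod_cast h3
  have hn : 0 < (N : ℝ) - 2 := by linarith
  rcases le_total ‖z‖ t with h | h
  · rw [max_eq_right h]
    have := mul_le_mul_of_nonneg_left (Psi_ge_near (N := N) ht h) hn.le
    refine le_trans (le_of_eq ?_) this
    field_simp
  · rw [max_eq_left h, Psi_far h3 ht h]
    unfold G
    refine le_of_eq ?_
    field_simp

theorem Psi_up (h3 : 3 ≤ N) {t q : ℝ} (ht : 0 < t) (hq : 0 < q) {u v : E N} (hu : t ≤ ‖u‖)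
    (hv : q * ‖u‖ ≤ ‖v‖) : Psi t v ≤ (q ^ (N - 2))⁻¹ * Psi t u := by
  have hN' : (3 : ℝ) ≤ N := by exact_mod_cast h3
  have hn : 0 < (N : ℝ) - 2 := by linarith
  have hu0 : 0 < ‖u‖ := ht.trans_le hu
  have hv0 : 0 < ‖v‖ := lt_of_lt_of_le (by positivity) hv
  refine (Psi_le_G h3 ht (norm_pos_iff.1 hv0)).trans ?_
  rw [Psi_far h3 ht hu]
  unfold G
  have h1 : (‖v‖ ^ (N - 2))⁻¹ ≤ (q ^ (N - 2))⁻¹ * (‖u‖ ^ (N - 2))⁻¹ := by
    rw [← mul_inv, ← mul_pow]
    exact inv_anti₀ (by positivity) (by gcongr)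
  calc 2 / ((N : ℝ) - 2) * (‖v‖ ^ (N - 2))⁻¹
      ≤ 2 / ((N : ℝ) - 2) * ((q ^ (N - 2))⁻¹ * (‖u‖ ^ (N - 2))⁻¹) := by gcongr
    _ = _ := by ring

theorem Psi_down (h3 : 3 ≤ N) {s t q : ℝ} (hs : 0 < s) (ht : 0 < t) (hq : 0 < q) {u v : E N}
    (hu : 0 < ‖u‖) (htv : t ≤ ‖v‖) (hv : ‖v‖ ≤ q * ‖u‖) :
    (q ^ (N - 2))⁻¹ * Psi s u ≤ Psi t v := by
  have hN' : (3 : ℝ) ≤ N := by exact_mod_cast h3
  have hn : 0 < (N : ℝ) - 2 := by linarith
  have hv0 : 0 < ‖v‖ := ht.trans_le htv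
  have h0 := Psi_le_G h3 hs (norm_pos_iff.1 hu)
  have h2 : (q ^ (N - 2))⁻¹ * Psi s u ≤ (q ^ (N - 2))⁻¹ * G u := by gcongr
  refine h2.trans ?_
  rw [Psi_far h3 ht htv]
  unfold G
  have h1 : (q ^ (N - 2))⁻¹ * (‖u‖ ^ (N - 2))⁻¹ ≤ (‖v‖ ^ (N - 2))⁻¹ := by
    rw [← mul_inv, ← mul_pow]
    exact inv_anti₀ (by positivity) (by gcongr)
  calc (q ^ (N - 2))⁻¹ * (2 / ((N : ℝ) - 2) * (‖u‖ ^ (N - 2))⁻¹)
      = 2 / ((N : ℝ) - 2) * ((q ^ (N - 2))⁻¹ * (‖u‖ ^ (N - 2))⁻¹) := by ring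
    _ ≤ _ := by gcongr

theorem VV_mono (h3 : 3 ≤ N) {t T : ℝ} (ht : 0 < t) (htT : t ≤ T) (ν : Measure (E N))
    [IsFiniteMeasure ν] (w : E N) : VV T ν w ≤ VV t ν w :=
  integral_mono (Psi_int h3 (ht.trans_le htT) ν w) (Psi_int h3 ht ν w)
    fun x => Psi_anti h3 ht htT _

theorem meas_ball (ν : Measure (E N)) [SFinite ν] (r : ℝ) :
    Measurable (fun x => ν (closedBall x r)) := by
  have hS : MeasurableSet {p : E N × E N | dist p.2 p.1 ≤ r} :=
    measurableSet_le (by fun_prop) measurable_const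
  exact measurable_measure_prodMk_left hS

theorem P0_pos (h3 : 3 ≤ N) : 0 < P N 0 := P_pos h3 0

/-- number of bad scales -/
theorem bad_count (h3 : 3 ≤ N) {M : ℝ} (hM : 2 ≤ M) {c1 : ℝ} (hc1 : 0 < c1) (κ : ℕ)
    (ν : Measure (E N)) [IsFiniteMeasure ν] (x : E N) {ρ B : ℝ} (hρ : 0 < ρ) (hB : 0 < B)
    (hx : VV (ρ / M ^ (κ + 1)) ν x ≤ B) :
    ∑ i ∈ Finset.range (κ + 1), (if c1 * B * (ρ / M ^ (i + 1)) ^ (N - 2)
      ≤ (ν (closedBall x (ρ / M ^ i))).toReal then (1 : ℝ) else 0)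
      ≤ ((N : ℝ) - 2) * M ^ (N - 2) / c1 := by
  have hN' : (3 : ℝ) ≤ N := by exact_mod_cast h3
  have hn : 0 < (N : ℝ) - 2 := by linarith
  have hM0 : 0 < M := by linarith
  have hterm : ∀ i ∈ Finset.range (κ + 1), (c1 * B * (M ^ (N - 2))⁻¹) *
      (if c1 * B * (ρ / M ^ (i + 1)) ^ (N - 2)
      ≤ (ν (closedBall x (ρ / M ^ i))).toReal then (1 : ℝ) else 0)
      ≤ ∫ z, (if ‖x - z‖ ≤ ρ / M ^ i then ((ρ / M ^ i) ^ (N - 2))⁻¹ else 0) ∂ν := by
    intro i _
    have h1 : ∫ z, (if ‖x - z‖ ≤ ρ / M ^ i then ((ρ / M ^ i) ^ (N - 2))⁻¹ else 0) ∂ν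
        = (ν (closedBall x (ρ / M ^ i))).toReal * ((ρ / M ^ i) ^ (N - 2))⁻¹ := by
      have h2 : (fun z => if ‖x - z‖ ≤ ρ / M ^ i then ((ρ / M ^ i) ^ (N - 2))⁻¹ else 0)
          = (closedBall x (ρ / M ^ i)).indicator (fun _ => ((ρ / M ^ i) ^ (N - 2))⁻¹) := by
        funext z
        by_cases hz : ‖x - z‖ ≤ ρ / M ^ i
        · rw [if_pos hz, indicator_of_mem]
          rw [mem_closedBall, dist_comm, dist_eq_norm]; exact hz
        · rw [if_neg hz, indicator_of_notMem]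
          rw [mem_closedBall, dist_comm, dist_eq_norm]; exact hz
      rw [h2, integral_indicator measurableSet_closedBall]
      simp [Measure.real]
    rw [h1]
    have hpos : 0 < ((ρ / M ^ i) ^ (N - 2))⁻¹ := by positivity
    split_ifs with h
    · rw [mul_one]
      have h2 : c1 * B * (M ^ (N - 2))⁻¹ = c1 * B * (ρ / M ^ (i + 1)) ^ (N - 2)
          * ((ρ / M ^ i) ^ (N - 2))⁻¹ := by
        rw [pow_succ, ← div_div, div_pow (ρ / M ^ i)]
        field_simp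
      rw [h2]
      exact mul_le_mul_of_nonneg_right h hpos.le
    · rw [mul_zero]; positivity
  have hsum := Finset.sum_le_sum hterm
  rw [← Finset.mul_sum, ← integral_finsetSum] at hsum
  · have h4 : ∫ z, ∑ i ∈ Finset.range (κ + 1),
        (if ‖x - z‖ ≤ ρ / M ^ i then ((ρ / M ^ i) ^ (N - 2))⁻¹ else 0) ∂ν
        ≤ ∫ z, ((N : ℝ) - 2) * Psi (ρ / M ^ κ) (x - z) ∂ν := by
      refine integral_mono_of_nonneg (Eventually.of_forall fun z => ?_)
        ((Psi_int h3 (by positivity) ν x).const_mul _) (Eventually.of_forall fun z => ?_)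
      · refine Finset.sum_nonneg fun i _ => ?_
        split_ifs
        · positivity
        · exact le_rfl
      · exact (geo_sum (by omega) hM hρ (norm_nonneg _) κ).trans (Psi_low h3 (by positivity) _)
    rw [integral_const_mul] at h4
    have h5 : VV (ρ / M ^ κ) ν x ≤ VV (ρ / M ^ (κ + 1)) ν x := by
      refine VV_mono h3 (by positivity) ?_ ν x
      rw [pow_succ]
      refine div_le_div_of_nonneg_left hρ.le (by positivity) ?_
      have : 0 < M ^ κ := by positivity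
      nlinarith
    have h6 : ∫ z, Psi (ρ / M ^ κ) (x - z) ∂ν = VV (ρ / M ^ κ) ν x := rfl
    rw [h6] at h4
    have h7 : (c1 * B * (M ^ (N - 2))⁻¹) * ∑ i ∈ Finset.range (κ + 1),
        (if c1 * B * (ρ / M ^ (i + 1)) ^ (N - 2)
        ≤ (ν (closedBall x (ρ / M ^ i))).toReal then (1 : ℝ) else 0) ≤ ((N : ℝ) - 2) * B := by
      refine hsum.trans (h4.trans ?_)
      exact mul_le_mul_of_nonneg_left (h5.trans hx) hn.le
    rw [le_div_iff₀ hc1]
    have h8 : 0 < M ^ (N - 2) := by positivity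
    have h9 : B * (c1 * ∑ i ∈ Finset.range (κ + 1),
        (if c1 * B * (ρ / M ^ (i + 1)) ^ (N - 2)
        ≤ (ν (closedBall x (ρ / M ^ i))).toReal then (1 : ℝ) else 0))
        ≤ B * (((N : ℝ) - 2) * M ^ (N - 2)) := by
      have := mul_le_mul_of_nonneg_right h7 h8.le
      have e1 : (c1 * B * (M ^ (N - 2))⁻¹) * (∑ i ∈ Finset.range (κ + 1),
        (if c1 * B * (ρ / M ^ (i + 1)) ^ (N - 2)
        ≤ (ν (closedBall x (ρ / M ^ i))).toReal then (1 : ℝ) else 0)) * M ^ (N - 2)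
        = B * (c1 * ∑ i ∈ Finset.range (κ + 1),
        (if c1 * B * (ρ / M ^ (i + 1)) ^ (N - 2)
        ≤ (ν (closedBall x (ρ / M ^ i))).toReal then (1 : ℝ) else 0)) := by
        field_simp
      rw [e1] at this
      linarith
    have h10 := le_of_mul_le_mul_left h9 hB
    linarith
  · intro i _
    have h2 : (fun z => if ‖x - z‖ ≤ ρ / M ^ i then ((ρ / M ^ i) ^ (N - 2))⁻¹ else 0)
        = (closedBall x (ρ / M ^ i)).indicator (fun _ => ((ρ / M ^ i) ^ (N - 2))⁻¹) := by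
      funext z
      by_cases hz : ‖x - z‖ ≤ ρ / M ^ i
      · rw [if_pos hz, indicator_of_mem]
        rw [mem_closedBall, dist_comm, dist_eq_norm]; exact hz
      · rw [if_neg hz, indicator_of_notMem]
        rw [mem_closedBall, dist_comm, dist_eq_norm]; exact hz
    rw [h2]
    exact (integrable_const _).indicator measurableSet_closedBall

end Pool.Agent.Helper60.GM67
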