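import Pool.Agent.Helper60.GM67.AMP

/-! Approximate maximum principle: the main lemma. -/

namespace Pool.Agent.Helper60.GM67

open MeasureTheory Set Metric Filter Topology
open Pool.Agent.R216.VPD (E)

variable {N : ℕ}

/-- pigeonhole over scales: some scale has a small bad set -/
theorem bad_scale (h3 : 3 ≤ N) {M : ℝ} (hM : 2 ≤ M) {c1 : ℝ} (hc1 : 0 < c1) (κ : ℕ)
    (ν : Measure (E N)) [IsFiniteMeasure ν] {A : Set (E N)} (hA : MeasurableSet A)
    {ρ B : ℝ} (hρ : 0 < ρ) (hB : 0 < B)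
    (hx : ∀ x ∈ A, VV (ρ / M ^ (κ + 1)) ν x ≤ B) :
    ∃ i < κ + 1, (ν (A ∩ {x | c1 * B * (ρ / M ^ (i + 1)) ^ (N - 2)
      ≤ (ν (closedBall x (ρ / M ^ i))).toReal})).toReal
      ≤ (((N : ℝ) - 2) * M ^ (N - 2) / c1) * (ν A).toReal / ((κ : ℝ) + 1) := by
  set W : ℕ → Set (E N) := fun i => {x | c1 * B * (ρ / M ^ (i + 1)) ^ (N - 2)
      ≤ (ν (closedBall x (ρ / M ^ i))).toReal} with hW
  have hWm : ∀ i, MeasurableSet (W i) := fun i =>
    measurableSet_le measurable_const (meas_ball ν _).ennreal_toReal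
  have h1 : ∑ i ∈ Finset.range (κ + 1), (ν (A ∩ W i)).toReal
      ≤ (((N : ℝ) - 2) * M ^ (N - 2) / c1) * (ν A).toReal := by
    have h2 : ∀ i, (ν (A ∩ W i)).toReal = ∫ x in A, (W i).indicator (fun _ => (1 : ℝ)) x ∂ν := by
      intro i
      rw [integral_indicator (hWm i), Measure.restrict_restrict (hWm i), inter_comm]
      simp [Measure.real]
    simp only [h2]
    rw [← integral_finsetSum]
    · have h4 : (((N : ℝ) - 2) * M ^ (N - 2) / c1) * (ν A).toReal
          = ∫ _ in A, (((N : ℝ) - 2) * M ^ (N - 2) / c1) ∂ν := by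
        simp [Measure.real, mul_comm]
      rw [h4]
      refine setIntegral_mono_on ?_ (integrable_const _) hA fun x hxA => ?_
      · exact integrable_finsetSum _ fun i _ => (integrable_const _).indicator (hWm i)
      · refine le_trans (le_of_eq ?_) (bad_count h3 hM hc1 κ ν x hρ hB (hx x hxA))
        refine Finset.sum_congr rfl fun i _ => ?_
        by_cases h : c1 * B * (ρ / M ^ (i + 1)) ^ (N - 2) ≤ (ν (closedBall x (ρ / M ^ i))).toReal
        · rw [if_pos h, indicator_of_mem (by exact h)]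
        · rw [if_neg h, indicator_of_notMem (by exact h)]
    · exact fun i _ => (integrable_const _).indicator (hWm i)
  by_contra hcon
  push Not at hcon
  have h5 : ∑ i ∈ Finset.range (κ + 1),
      ((((N : ℝ) - 2) * M ^ (N - 2) / c1) * (ν A).toReal / ((κ : ℝ) + 1))
      < ∑ i ∈ Finset.range (κ + 1), (ν (A ∩ W i)).toReal := by
    refine Finset.sum_lt_sum_of_nonempty ⟨0, by simp⟩ fun i hi => ?_
    exact hcon i (Finset.mem_range.1 hi)
  rw [Finset.sum_const, Finset.card_range, nsmul_eq_mul] at h5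
  have h6 : ((κ + 1 : ℕ) : ℝ) * ((((N : ℝ) - 2) * M ^ (N - 2) / c1) * (ν A).toReal / ((κ : ℝ) + 1))
      = (((N : ℝ) - 2) * M ^ (N - 2) / c1) * (ν A).toReal := by
    push_cast
    field_simp
  rw [h6] at h5
  linarith

/-- the approximate maximum principle -/
theorem amp (h3 : 3 ≤ N) {η : ℝ} (hη : 0 < η) : ∃ (M : ℝ) (J κ : ℕ), 2 ≤ M ∧
    ∀ (ν : Measure (E N)) [IsFiniteMeasure ν] (K : Set (E N)), MeasurableSet K → ν Kᶜ = 0 →
      ∀ (y : E N) (ρ B a : ℝ), 0 < ρ → 0 < B → a ≤ B → VV ρ ν y ≤ B →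
      (∃ x ∈ K, ‖x - y‖ ≤ ρ) → (∀ x ∈ K, ‖x - y‖ ≤ M ^ J * ρ → VV (ρ / M ^ κ) ν x ≤ a) →
      VV (ρ / M) ν y ≤ a + η * B := by
  have hN' : (3 : ℝ) ≤ N := by exact_mod_cast h3
  have hn : 0 < (N : ℝ) - 2 := by linarith
  have hP0 := P0_pos h3
  -- choice of `M`
  obtain ⟨M, hM2, hMη⟩ : ∃ M : ℝ, 2 ≤ M ∧ ((1 - 1 / M) ^ (N - 2))⁻¹ ≤ 1 + η / 4 := by
    have h1 : Tendsto (fun M : ℝ => ((1 - 1 / M) ^ (N - 2))⁻¹) atTop (𝓝 (((1 - 0) ^ (N - 2))⁻¹)) := by
      have h2 : Tendsto (fun M : ℝ => 1 / M) atTop (𝓝 0) := by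
        simpa using tendsto_inv_atTop_zero
      exact (((tendsto_const_nhds.sub h2).pow (N - 2)).inv₀ (by simp))
    simp only [sub_zero, one_pow, inv_one] at h1
    have h2 := h1.eventually_lt_const (show (1 : ℝ) < 1 + η / 4 by linarith)
    obtain ⟨M, hM1, hM2⟩ := (h2.and (eventually_ge_atTop (2 : ℝ))).exists
    exact ⟨M, hM2, hM1.le⟩
  have hM0 : 0 < M := by linarith
  set n : ℕ := N - 2 with hndef
  have hn1 : 1 ≤ n := by omega
  obtain ⟨J, hJ⟩ := exists_nat_gt (4 / η)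
  have hJ0 : (0 : ℝ) < J := lt_of_le_of_lt (by positivity) hJ
  set c1 : ℝ := η / (4 * P N 0) with hc1def
  have hc1 : 0 < c1 := by positivity
  set C2 : ℝ := P N 0 * M ^ n * ((((N : ℝ) - 2) * M ^ n / c1)
    * (((N : ℝ) - 2) / 2 * (M ^ J) ^ n)) with hC2
  have hC2p : 0 < C2 := by positivity
  obtain ⟨κ, hκ⟩ := exists_nat_gt (C2 / (η / 4))
  refine ⟨M, J, κ + 1, hM2, ?_⟩
  intro ν _ K hK hνK y ρ B a hρ hB haB hVB hx0 hxa
  -- the annulus
  set F : ℝ → ℝ := fun r => ∫ x in {x | ‖x - y‖ < r}, Psi ρ (y - x) ∂ν with hF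
  have hPi : ∀ (t : ℝ), 0 < t → ∀ w : E N, Integrable (fun x => Psi t (w - x)) ν :=
    fun t ht w => Psi_int h3 ht ν w
  have hballm : ∀ r : ℝ, MeasurableSet {x : E N | ‖x - y‖ < r} := fun r =>
    measurableSet_lt (by fun_prop) measurable_const
  have hFle : ∀ r, F r ≤ VV ρ ν y := fun r =>
    setIntegral_le_integral (hPi ρ hρ y) (Eventually.of_forall fun x => (Psi_pos h3 hρ _).le)
  have hF0 : ∀ r, 0 ≤ F r := fun r => integral_nonneg fun x => (Psi_pos h3 hρ _).le
  obtain ⟨j, hjJ, hj⟩ : ∃ j < J, F (M ^ (j + 1) * ρ) - F (M ^ j * ρ) ≤ B / J := by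
    by_contra hcon
    push Not at hcon
    have hne : (Finset.range J).Nonempty := by
      refine ⟨0, Finset.mem_range.2 ?_⟩
      exact_mod_cast hJ0
    have h1 : ∑ _j ∈ Finset.range J, B / J
        < ∑ j ∈ Finset.range J, (F (M ^ (j + 1) * ρ) - F (M ^ j * ρ)) :=
      Finset.sum_lt_sum_of_nonempty hne fun j hj => hcon j (Finset.mem_range.1 hj)
    rw [Finset.sum_range_sub (fun j => F (M ^ j * ρ)), Finset.sum_const, Finset.card_range,
      nsmul_eq_mul] at h1
    have h2 : (J : ℝ) * (B / J) = B := by field_simp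
    have h4 := hFle (M ^ J * ρ)
    have h5 := hF0 (M ^ 0 * ρ)
    linarith
  set R : ℝ := M ^ j * ρ with hR
  have hMj : 1 ≤ M ^ j := one_le_pow₀ (by linarith)
  have hRρ : ρ ≤ R := by rw [hR]; exact le_mul_of_one_le_left hρ.le hMj
  have hR0 : 0 < R := hρ.trans_le hRρ
  have hRJ : R ≤ M ^ J * ρ := by
    rw [hR]
    have : M ^ j ≤ M ^ J := pow_le_pow_right₀ (by linarith) hjJ.le
    exact mul_le_mul_of_nonneg_right this hρ.le
  have hMR : M ^ (j + 1) * ρ = M * R := by rw [hR, pow_succ]; ring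
  have hMR2 : 2 * R ≤ M * R := mul_le_mul_of_nonneg_right hM2 hR0.le
  rw [hMR] at hj
  set A1 : Set (E N) := {x | ‖x - y‖ < R} with hA1
  set A3 : Set (E N) := {x | ‖x - y‖ < M * R}ᶜ with hA3
  have hA1m : MeasurableSet A1 := hballm R
  have hA3m : MeasurableSet A3 := (hballm (M * R)).compl
  set V3 : ℝ := ∫ x in A3, Psi ρ (y - x) ∂ν with hV3
  have hV3eq : V3 = VV ρ ν y - F (M * R) := by
    have := integral_add_compl (hballm (M * R)) (hPi ρ hρ y)
    have e1 : VV ρ ν y = ∫ x, Psi ρ (y - x) ∂ν := rfl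
    rw [e1, ← this]
    simp only [hF]
    ring
  have hV30 : 0 ≤ V3 := integral_nonneg fun x => (Psi_pos h3 hρ _).le
  -- the scale
  set A : Set (E N) := A1 ∩ K with hA
  have hAm : MeasurableSet A := hA1m.inter hK
  have hAJ : ∀ x ∈ A, VV (ρ / M ^ (κ + 1)) ν x ≤ a := by
    intro x hx
    refine hxa x hx.2 ?_
    have : ‖x - y‖ < R := hx.1
    linarith
  obtain ⟨i, hi, hbad⟩ := bad_scale h3 hM2 hc1 κ ν hAm hρ hB (fun x hx => (hAJ x hx).trans haB)
  set W : Set (E N) := {x | c1 * B * (ρ / M ^ (i + 1)) ^ (N - 2)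
      ≤ (ν (closedBall x (ρ / M ^ i))).toReal} with hW
  have hWm : MeasurableSet W := measurableSet_le measurable_const (meas_ball ν _).ennreal_toReal
  set t : ℝ := ρ / M ^ (i + 1) with ht
  have htp : 0 < t := by positivity
  have htM : M * t = ρ / M ^ i := by rw [ht, pow_succ]; field_simp
  have htρM : t ≤ ρ / M := by
    rw [ht, pow_succ]
    refine div_le_div_of_nonneg_left hρ.le hM0 ?_
    have : 1 ≤ M ^ i := one_le_pow₀ (by linarith)
    exact le_mul_of_one_le_left hM0.le this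
  have hρMρ : ρ / M ≤ ρ := div_le_self hρ.le (by linarith)
  have htρ : t ≤ ρ := htρM.trans hρMρ
  have hMt2 : 2 * t ≤ M * t := mul_le_mul_of_nonneg_right hM2 htp.le
  have htκ : ρ / M ^ (κ + 1) ≤ t := by
    rw [ht]
    refine div_le_div_of_nonneg_left hρ.le (by positivity) ?_
    exact pow_le_pow_right₀ (by linarith) (by omega)
  have htκ0 : 0 < ρ / M ^ (κ + 1) := by positivity
  -- lower bound for the far part
  set l3 : ℝ := ((1 + 1 / M) ^ n)⁻¹ with hl3
  set l1 : ℝ := ((1 - 1 / M) ^ n)⁻¹ with hl1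
  have hM1 : 1 / M ≤ 1 / 2 := one_div_le_one_div_of_le two_pos hM2
  have hMinv : 0 < 1 / M := by positivity
  have hl3p : 0 < l3 := by positivity
  have hb1 : 0 < 1 - 1 / M := by linarith
  have hl1p : 0 < l1 := by positivity
  have hfar : ∀ w : E N, ‖w - y‖ ≤ R → l3 * V3 ≤ ∫ x in A3, Psi t (w - x) ∂ν := by
    intro w hw
    rw [hV3, ← integral_const_mul]
    refine setIntegral_mono_on ((hPi ρ hρ y).integrableOn.const_mul _) (hPi t htp w).integrableOn
      hA3m fun x hx => ?_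
    have hx1 : M * R ≤ ‖x - y‖ := by
      rw [hA3, mem_compl_iff, mem_ofPred_eq, not_lt] at hx
      exact hx
    have hx2 : ‖y - x‖ = ‖x - y‖ := norm_sub_rev _ _
    have hyx0 : 0 < ‖y - x‖ := by rw [hx2]; exact lt_of_lt_of_le (mul_pos hM0 hR0) hx1
    refine Psi_down h3 hρ htp (by positivity) hyx0 ?_ ?_
    · have : ‖x - y‖ ≤ ‖w - x‖ + ‖w - y‖ := by
        calc ‖x - y‖ = ‖(w - y) - (w - x)‖ := by congr 1; abel
          _ ≤ ‖w - y‖ + ‖w - x‖ := norm_sub_le _ _
          _ = _ := by ring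
      linarith
    · have h1 : ‖w - x‖ ≤ ‖y - x‖ + R := by
        calc ‖w - x‖ = ‖(w - y) + (y - x)‖ := by congr 1; abel
          _ ≤ ‖w - y‖ + ‖y - x‖ := norm_add_le _ _
          _ ≤ _ := by linarith
      have h2 : R ≤ 1 / M * ‖y - x‖ := by
        rw [hx2, one_div, inv_mul_eq_div, le_div_iff₀ hM0]; linarith
      linarith
  -- the good part
  set S : Set (E N) := A ∩ Wᶜ with hS
  have hSm : MeasurableSet S := hAm.inter hWm.compl
  set σ : Measure (E N) := ν.restrict S with hσ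
  have hSA3 : Disjoint S A3 := by
    rw [Set.disjoint_left]
    intro x hx hx3
    have h1 : ‖x - y‖ < R := hx.1.1
    rw [hA3, mem_compl_iff, mem_ofPred_eq, not_lt] at hx3
    linarith
  set m : ℝ := P N 0 * (c1 * B) + l1 * (a - l3 * V3) with hm
  have hm0 : 0 ≤ m := by
    obtain ⟨x0, hx0K, hx0y⟩ := hx0
    have h1 := hfar x0 (hx0y.trans hRρ)
    have h2 : ∫ x in A3, Psi t (x0 - x) ∂ν ≤ VV t ν x0 :=
      setIntegral_le_integral (hPi t htp x0) (Eventually.of_forall fun x => (Psi_pos h3 htp _).le)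
    have h4 := VV_mono h3 htκ0 htκ ν x0
    have h5 := hxa x0 hx0K (hx0y.trans (hRρ.trans hRJ))
    have h6 : 0 ≤ a - l3 * V3 := by linarith
    positivity
  have hmp : ∀ w, σ (closedBall w t) ≠ 0 → VV t σ w ≤ m := by
    intro w hw
    rw [hσ, Measure.restrict_apply measurableSet_closedBall] at hw
    obtain ⟨w2, hw2b, hw2S⟩ := nonempty_of_measure_ne_zero hw
    have hw2y : ‖w2 - y‖ < R := hw2S.1.1
    have hw2W : (ν (closedBall w2 (M * t))).toReal < c1 * B * t ^ n := by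
      have := hw2S.2
      rw [hW, mem_compl_iff, mem_ofPred_eq, not_le] at this
      rw [htM]
      exact this
    rw [mem_closedBall, dist_eq_norm] at hw2b
    set Q : Set (E N) := closedBall w2 (M * t) with hQ
    have hpt : ∀ x, Psi t (w - x) ≤ Q.indicator (fun _ => P N 0 * (t ^ n)⁻¹) x
        + l1 * Psi t (w2 - x) := by
      intro x
      have hpos2 := Psi_pos h3 htp (w2 - x)
      by_cases hxQ : x ∈ Q
      · rw [indicator_of_mem hxQ]
        have := Psi_le htp (w - x)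
        have h2 : 0 < l1 * Psi t (w2 - x) := by positivity
        linarith
      · rw [indicator_of_notMem hxQ, zero_add]
        rw [hQ, mem_closedBall, not_le, dist_comm, dist_eq_norm] at hxQ
        refine Psi_up h3 htp hb1 ?_ ?_
        · linarith
        · have h1 : ‖w2 - x‖ ≤ ‖w2 - w‖ + ‖w - x‖ := by
            calc ‖w2 - x‖ = ‖(w2 - w) + (w - x)‖ := by congr 1; abel
              _ ≤ _ := norm_add_le _ _
          have h2 : t ≤ 1 / M * ‖w2 - x‖ := by
            rw [one_div, inv_mul_eq_div, le_div_iff₀ hM0]; linarith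
          have h3' : (1 - 1 / M) * ‖w2 - x‖ = ‖w2 - x‖ - 1 / M * ‖w2 - x‖ := by ring
          rw [h3']
          linarith
    have hQi : Integrable (Q.indicator (fun _ => P N 0 * (t ^ n)⁻¹)) σ :=
      (integrable_const _).indicator measurableSet_closedBall
    have h1 : VV t σ w ≤ (∫ x, Q.indicator (fun _ => P N 0 * (t ^ n)⁻¹) x ∂σ)
        + l1 * VV t σ w2 := by
      have e1 : VV t σ w ≤ ∫ x, (Q.indicator (fun _ => P N 0 * (t ^ n)⁻¹) x
          + l1 * Psi t (w2 - x)) ∂σ :=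
        integral_mono (Psi_int h3 htp σ w) (hQi.add ((Psi_int h3 htp σ w2).const_mul _)) hpt
      rw [integral_add hQi ((Psi_int h3 htp σ w2).const_mul _), integral_const_mul] at e1
      exact e1
    have h2 : ∫ x, Q.indicator (fun _ => P N 0 * (t ^ n)⁻¹) x ∂σ ≤ P N 0 * (c1 * B) := by
      rw [integral_indicator measurableSet_closedBall, setIntegral_const, smul_eq_mul]
      have e1 : σ.real Q ≤ (ν Q).toReal := by
        rw [Measure.real]
        refine ENNReal.toReal_mono (measure_ne_top _ _) ?_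
        exact Measure.restrict_apply_le _ _
      have e2 : 0 < t ^ n := by positivity
      have e3 : 0 < P N 0 * (t ^ n)⁻¹ := by positivity
      calc σ.real Q * (P N 0 * (t ^ n)⁻¹) ≤ (c1 * B * t ^ n) * (P N 0 * (t ^ n)⁻¹) :=
            mul_le_mul_of_nonneg_right (e1.trans hw2W.le) e3.le
        _ = P N 0 * (c1 * B) := by field_simp
    have h4 : VV t σ w2 + l3 * V3 ≤ a := by
      have e1 := hfar w2 hw2y.le
      have e2 : VV t σ w2 = ∫ x in S, Psi t (w2 - x) ∂ν := rfl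
      have e3 : (∫ x in S, Psi t (w2 - x) ∂ν) + ∫ x in A3, Psi t (w2 - x) ∂ν
          = ∫ x in S ∪ A3, Psi t (w2 - x) ∂ν :=
        (setIntegral_union hSA3 hA3m (hPi t htp w2).integrableOn (hPi t htp w2).integrableOn).symm
      have e4 : ∫ x in S ∪ A3, Psi t (w2 - x) ∂ν ≤ VV t ν w2 :=
        setIntegral_le_integral (hPi t htp w2)
          (Eventually.of_forall fun x => (Psi_pos h3 htp _).le)
      have e5 := VV_mono h3 htκ0 htκ ν w2
      have e6 := hAJ w2 hw2S.1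
      linarith
    have h5 : l1 * VV t σ w2 ≤ l1 * (a - l3 * V3) :=
      mul_le_mul_of_nonneg_left (by linarith) hl1p.le
    rw [hm]
    linarith
  have hσsupp : σ (closedBall 0 (‖y‖ + R))ᶜ = 0 := by
    rw [hσ, Measure.restrict_apply measurableSet_closedBall.compl]
    have : (closedBall (0 : E N) (‖y‖ + R))ᶜ ∩ S = ∅ := by
      ext x
      simp only [mem_inter_iff, mem_compl_iff, mem_empty_iff_false, iff_false, not_and]
      intro hx hxS
      apply hx
      have h1 : ‖x - y‖ < R := hxS.1.1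
      rw [mem_closedBall, dist_zero_right]
      have : ‖x‖ ≤ ‖x - y‖ + ‖y‖ := by
        calc ‖x‖ = ‖(x - y) + y‖ := by congr 1; abel
          _ ≤ _ := norm_add_le _ _
      linarith
    rw [this, measure_empty]
  have hgood : VV t σ y ≤ m :=
    max_principle h3 (by have := norm_nonneg y; linarith) hσsupp htp hm0 hmp y
  -- assembling
  have hρM0 : 0 < ρ / M := by positivity
  have p1 : VV (ρ / M) ν y = (∫ x in A1, Psi (ρ / M) (y - x) ∂ν)
      + ∫ x in A1ᶜ, Psi (ρ / M) (y - x) ∂ν := (integral_add_compl hA1m (hPi _ hρM0 y)).symm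
  have p2 : ∫ x in A1ᶜ, Psi (ρ / M) (y - x) ∂ν = VV ρ ν y - F R := by
    have e1 : ∫ x in A1ᶜ, Psi (ρ / M) (y - x) ∂ν = ∫ x in A1ᶜ, Psi ρ (y - x) ∂ν := by
      refine setIntegral_congr_fun hA1m.compl fun x hx => ?_
      rw [hA1, mem_compl_iff, mem_ofPred_eq, not_lt] at hx
      have hx' : ρ ≤ ‖y - x‖ := by rw [norm_sub_rev]; linarith
      rw [Psi_far h3 hρ hx', Psi_far h3 hρM0 (hρMρ.trans hx')]
    rw [e1]
    have := integral_add_compl hA1m (hPi ρ hρ y)
    have e2 : VV ρ ν y = ∫ x, Psi ρ (y - x) ∂ν := rfl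
    rw [e2, ← this]
    simp only [hF, hA1]
    ring
  have p3 : ∫ x in A1, Psi (ρ / M) (y - x) ∂ν
      = (∫ x in S, Psi (ρ / M) (y - x) ∂ν) + ∫ x in A ∩ W, Psi (ρ / M) (y - x) ∂ν := by
    have e1 : ∫ x in A1, Psi (ρ / M) (y - x) ∂ν = ∫ x in A, Psi (ρ / M) (y - x) ∂ν := by
      refine setIntegral_congr_set ?_
      rw [hA]
      have h0 : ∀ᵐ x ∂ν, x ∈ K := by rw [ae_iff]; exact hνK
      filter_upwards [h0] with x hx
      have : (x ∈ A1) = (x ∈ A1 ∩ K) := by
        simp [hx]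
      exact this
    have e2 : S ∪ (A ∩ W) = A := by
      rw [hS, ← inter_union_distrib_left, union_comm, union_compl_self, inter_univ]
    rw [e1]
    conv_lhs => rw [← e2]
    refine setIntegral_union ?_ (hAm.inter hWm) (hPi _ hρM0 y).integrableOn
      (hPi _ hρM0 y).integrableOn
    rw [Set.disjoint_left]
    intro x hx hx2
    exact hx.2 hx2.2
  have p4 : ∫ x in S, Psi (ρ / M) (y - x) ∂ν ≤ m := by
    have e1 : ∫ x in S, Psi (ρ / M) (y - x) ∂ν = VV (ρ / M) σ y := rfl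
    rw [e1]
    exact (VV_mono h3 htp htρM σ y).trans hgood
  -- the bad part
  have hνA : (ν A).toReal ≤ ((N : ℝ) - 2) / 2 * R ^ n * B := by
    have e1 : (ν A).toReal * (2 * (R ^ n)⁻¹) ≤ ((N : ℝ) - 2) * B := by
      have e2 : (ν A).toReal * (2 * (R ^ n)⁻¹) = ∫ _ in A, 2 * (R ^ n)⁻¹ ∂ν := by
        simp [Measure.real]
      have e3 : ∫ _ in A, 2 * (R ^ n)⁻¹ ∂ν ≤ ∫ x in A, ((N : ℝ) - 2) * Psi ρ (y - x) ∂ν := by
        refine setIntegral_mono_on (integrable_const _) ((hPi ρ hρ y).integrableOn.const_mul _)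
          hAm fun x hx => ?_
        have hx1 : ‖y - x‖ ≤ R := by
          rw [norm_sub_rev]
          exact le_of_lt hx.1
        refine le_trans ?_ (Psi_low h3 hρ (y - x))
        have : max ‖y - x‖ ρ ≤ R := max_le hx1 hRρ
        have hmx : 0 < max ‖y - x‖ ρ := lt_max_of_lt_right hρ
        gcongr
      have e4 : ∫ x in A, ((N : ℝ) - 2) * Psi ρ (y - x) ∂ν ≤ ((N : ℝ) - 2) * VV ρ ν y := by
        rw [integral_const_mul]
        refine mul_le_mul_of_nonneg_left ?_ hn.le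
        exact setIntegral_le_integral (hPi ρ hρ y)
          (Eventually.of_forall fun x => (Psi_pos h3 hρ _).le)
      have e5 : ((N : ℝ) - 2) * VV ρ ν y ≤ ((N : ℝ) - 2) * B :=
        mul_le_mul_of_nonneg_left hVB hn.le
      linarith
    have hRn : 0 < R ^ n := by positivity
    have e6 : (ν A).toReal * (2 * (R ^ n)⁻¹) = 2 * (ν A).toReal / R ^ n := by
      field_simp
    rw [e6, div_le_iff₀ hRn] at e1
    linarith
  have p5 : ∫ x in A ∩ W, Psi (ρ / M) (y - x) ∂ν ≤ η / 4 * B := by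
    have e1 : ∫ x in A ∩ W, Psi (ρ / M) (y - x) ∂ν
        ≤ (P N 0 * ((ρ / M) ^ n)⁻¹) * (ν (A ∩ W)).toReal := by
      have e2 : ∫ x in A ∩ W, Psi (ρ / M) (y - x) ∂ν
          ≤ ∫ _ in A ∩ W, P N 0 * ((ρ / M) ^ n)⁻¹ ∂ν :=
        integral_mono (hPi _ hρM0 y).integrableOn (integrable_const _) fun x => Psi_le hρM0 _
      refine e2.trans (le_of_eq ?_)
      simp [Measure.real, mul_comm]
    have hκ1 : (0 : ℝ) < (κ : ℝ) + 1 := by positivity
    have e3 : (P N 0 * ((ρ / M) ^ n)⁻¹) * (ν (A ∩ W)).toReal ≤ C2 * B / ((κ : ℝ) + 1) := by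
      have q0 : 0 ≤ P N 0 * ((ρ / M) ^ n)⁻¹ := by positivity
      have q1 : 0 ≤ ((N : ℝ) - 2) * M ^ n / c1 := by positivity
      calc (P N 0 * ((ρ / M) ^ n)⁻¹) * (ν (A ∩ W)).toReal
          ≤ (P N 0 * ((ρ / M) ^ n)⁻¹) * ((((N : ℝ) - 2) * M ^ n / c1) * (ν A).toReal
            / ((κ : ℝ) + 1)) := mul_le_mul_of_nonneg_left hbad q0
        _ ≤ (P N 0 * ((ρ / M) ^ n)⁻¹) * ((((N : ℝ) - 2) * M ^ n / c1)
            * (((N : ℝ) - 2) / 2 * R ^ n * B) / ((κ : ℝ) + 1)) := by gcongr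
        _ ≤ (P N 0 * ((ρ / M) ^ n)⁻¹) * ((((N : ℝ) - 2) * M ^ n / c1)
            * (((N : ℝ) - 2) / 2 * (M ^ J * ρ) ^ n * B) / ((κ : ℝ) + 1)) := by gcongr
        _ = C2 * B / ((κ : ℝ) + 1) := by
            rw [hC2, mul_pow, div_pow]
            have : ρ ^ n ≠ 0 := by positivity
            field_simp
    have e4 : C2 * B / ((κ : ℝ) + 1) ≤ η / 4 * B := by
      rw [div_le_iff₀ hκ1]
      have : C2 ≤ η / 4 * ((κ : ℝ) + 1) := by
        rw [div_lt_iff₀ (by positivity)] at hκ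
        linarith
      have := mul_le_mul_of_nonneg_right this hB.le
      linarith
    linarith
  have p6 : B / J ≤ η / 4 * B := by
    rw [div_le_iff₀ hJ0]
    have : 1 ≤ η / 4 * J := by
      rw [div_lt_iff₀ hη] at hJ
      linarith
    have := mul_le_mul_of_nonneg_right this hB.le
    linarith
  have p7 : P N 0 * (c1 * B) = η / 4 * B := by
    rw [hc1def]; field_simp
  have hll : 1 ≤ l1 * l3 := by
    rw [hl1, hl3, ← mul_inv, ← mul_pow]
    have e1 : (1 - 1 / M) * (1 + 1 / M) = 1 - (1 / M) ^ 2 := by ring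
    rw [e1]
    have e2 : 0 < 1 - (1 / M) ^ 2 := by
      have := pow_lt_one₀ hMinv.le (show 1 / M < 1 by linarith) two_ne_zero
      linarith
    refine (one_le_inv₀ (by positivity)).2 ?_
    refine pow_le_one₀ e2.le ?_
    have : 0 ≤ (1 / M) ^ 2 := by positivity
    linarith
  have ha0 : 0 ≤ a := by
    obtain ⟨x0, hx0K, hx0y⟩ := hx0
    have h5 := hxa x0 hx0K (hx0y.trans (hRρ.trans hRJ))
    refine le_trans ?_ h5
    exact integral_nonneg fun x => (Psi_pos h3 htκ0 _).le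
  have hl1a : l1 * a ≤ a + η / 4 * B := by
    have e1 : l1 * a ≤ (1 + η / 4) * a := mul_le_mul_of_nonneg_right hMη ha0
    have e2 : η / 4 * a ≤ η / 4 * B := mul_le_mul_of_nonneg_left haB (by positivity)
    linarith
  have hV3' : V3 ≤ l1 * l3 * V3 := le_mul_of_one_le_left hV30 hll
  rw [p1, p2, p3]
  have hsplit : VV ρ ν y - F R = (F (M * R) - F R) + V3 := by rw [hV3eq]; ring
  rw [hsplit]
  have hm' : m = η / 4 * B + l1 * a - l1 * l3 * V3 := by rw [hm, p7]; ring
  rw [hm'] at p4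
  linarith

end Pool.Agent.Helper60.GM67
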