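import Pool.Agent.Helper60.GM67.Sol2

/-! Contraction estimates. -/

namespace Pool.Agent.Helper60.GM67

open MeasureTheory Set Metric Filter Topology
open Pool.Agent.R216.VPD (E D bv)
open scoped ContDiff

variable {N : ℕ}

/-- smooth absolute value -/
noncomputable def rt (δ t : ℝ) : ℝ := √(t ^ 2 + δ ^ 2)

/-- smooth sign -/
noncomputable def sg (δ t : ℝ) : ℝ := t / rt δ t

theorem rt_ge {δ : ℝ} (_hδ : 0 < δ) (t : ℝ) : δ ≤ rt δ t := by
  unfold rt
  refine Real.le_sqrt_of_sq_le ?_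
  nlinarith [sq_nonneg t]

theorem rt_pos {δ : ℝ} (hδ : 0 < δ) (t : ℝ) : 0 < rt δ t := hδ.trans_le (rt_ge hδ t)

theorem rt_sq (δ t : ℝ) : rt δ t ^ 2 = t ^ 2 + δ ^ 2 := by
  unfold rt; exact Real.sq_sqrt (by positivity)

theorem abs_le_rt (δ t : ℝ) : |t| ≤ rt δ t := by
  unfold rt
  refine Real.le_sqrt_of_sq_le ?_
  rw [sq_abs]
  nlinarith [sq_nonneg δ]

theorem rt_le {δ : ℝ} (hδ : 0 < δ) (t : ℝ) : rt δ t ≤ |t| + δ := by
  unfold rt
  rw [Real.sqrt_le_left (by positivity)]
  nlinarith [sq_abs t, abs_nonneg t]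

theorem rt_contDiff {δ : ℝ} (hδ : 0 < δ) : ContDiff ℝ 2 (rt δ) := by
  unfold rt
  refine ContDiff.sqrt (by fun_prop) fun t => ?_
  positivity

theorem hasDerivAt_rt {δ : ℝ} (hδ : 0 < δ) (t : ℝ) : HasDerivAt (rt δ) (sg δ t) t := by
  have h1 : HasDerivAt (fun t : ℝ => t ^ 2 + δ ^ 2) (2 * t) t := by
    have : HasDerivAt (fun y : ℝ => y ^ 2) (2 * t) t := by simpa using hasDerivAt_pow 2 t
    exact this.add_const _
  have h2 := h1.sqrt (by positivity)
  refine HasDerivAt.congr_deriv h2 ?_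
  unfold sg rt
  rw [mul_div_mul_left _ _ two_ne_zero]

theorem sg_contDiff {δ : ℝ} (hδ : 0 < δ) : ContDiff ℝ 2 (sg δ) := by
  unfold sg
  exact contDiff_id.div (rt_contDiff hδ) fun t => (rt_pos hδ t).ne'

theorem hasDerivAt_sg {δ : ℝ} (hδ : 0 < δ) (t : ℝ) :
    HasDerivAt (sg δ) (δ ^ 2 / rt δ t ^ 3) t := by
  have hp := rt_pos hδ t
  have h1 := (hasDerivAt_id t).div (hasDerivAt_rt hδ t) hp.ne'
  refine HasDerivAt.congr_deriv h1 ?_
  have h2 := rt_sq δ t
  unfold sg
  simp only [id]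
  have h3 : δ ^ 2 = rt δ t ^ 2 - t ^ 2 := by rw [h2]; ring
  rw [h3]
  field_simp

theorem sg_abs {δ : ℝ} (hδ : 0 < δ) (t : ℝ) : |sg δ t| ≤ 1 := by
  unfold sg
  rw [abs_div, abs_of_pos (rt_pos hδ t), div_le_one (rt_pos hδ t)]
  exact abs_le_rt δ t

theorem sg_der_nonneg {δ : ℝ} (hδ : 0 < δ) (t : ℝ) : 0 ≤ δ ^ 2 / rt δ t ^ 3 := by
  have := rt_pos hδ t
  positivity

theorem sg_der_le {δ : ℝ} (hδ : 0 < δ) (t : ℝ) : δ ^ 2 / rt δ t ^ 3 ≤ 1 / δ := by
  have hp := rt_pos hδ t
  have h1 := rt_ge hδ t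
  rw [div_le_div_iff₀ (by positivity) hδ]
  have : δ ^ 3 ≤ rt δ t ^ 3 := by gcongr
  nlinarith

theorem sg_lip {δ : ℝ} (hδ : 0 < δ) (a b : ℝ) : |sg δ a - sg δ b| ≤ 1 / δ * |a - b| := by
  have h1 := Convex.norm_image_sub_le_of_norm_hasDerivWithin_le (f := sg δ)
    (f' := fun t => δ ^ 2 / rt δ t ^ 3) (s := univ) (C := 1 / δ) (x := b) (y := a)
    (fun t _ => (hasDerivAt_sg hδ t).hasDerivWithinAt) (fun t _ => by
      rw [Real.norm_eq_abs, abs_of_nonneg (sg_der_nonneg hδ t)]
      exact sg_der_le hδ t) convex_univ (mem_univ _) (mem_univ _)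
  simpa [Real.norm_eq_abs] using h1

theorem sg_lower {δ : ℝ} (hδ : 0 < δ) {g : ℝ → ℝ} {Cg L : ℝ} (hg : Adm g Cg L) (a b : ℝ) :
    |g a - g b| - L * δ ≤ (g a - g b) * sg δ (a - b) := by
  set t := a - b with ht
  have hp := rt_pos hδ t
  have h1 : (g a - g b) * sg δ t = |g a - g b| * (|t| / rt δ t) := by
    unfold sg
    rcases le_total a b with hab | hab
    · have := hg.mono hab
      rw [abs_of_nonpos (by linarith : g a - g b ≤ 0), abs_of_nonpos (by linarith : t ≤ 0)]
      ring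
    · have := hg.mono hab
      rw [abs_of_nonneg (by linarith : 0 ≤ g a - g b), abs_of_nonneg (by linarith : 0 ≤ t)]
  rw [h1]
  have h2 := hg.lip a b
  rw [← ht] at h2
  have h3 := rt_le hδ t
  have h4 := abs_le_rt δ t
  have h5 : |g a - g b| * (1 - |t| / rt δ t) ≤ L * δ := by
    have e1 : 1 - |t| / rt δ t = (rt δ t - |t|) / rt δ t := by field_simp
    rw [e1, ← mul_div_assoc, div_le_iff₀ hp]
    have e2 : |g a - g b| * (rt δ t - |t|) ≤ (L * |t|) * δ := by
      refine mul_le_mul h2 (by linarith) (by linarith) ?_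
      exact mul_nonneg hg.Lpos.le (abs_nonneg _)
    have e3 : (L * |t|) * δ ≤ L * δ * rt δ t := by
      have := hg.Lpos
      have : L * δ * |t| ≤ L * δ * rt δ t := mul_le_mul_of_nonneg_left h4 (by positivity)
      linarith
    linarith
  nlinarith

theorem le_of_small {X Y K : ℝ} {b : ℝ} (hb : 0 < b)
    (h : ∀ e, 0 < e → e ≤ b → X ≤ Y + e * K) : X ≤ Y := by
  refine le_of_forall_pos_le_add fun ε hε => ?_
  have hK : 0 < |K| + 1 := by positivity
  set e := min b (ε / (|K| + 1)) with he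
  have he0 : 0 < e := by rw [he]; positivity
  have h1 := h e he0 (min_le_left _ _)
  have h2 : e * K ≤ ε := by
    calc e * K ≤ e * (|K| + 1) := by
          refine mul_le_mul_of_nonneg_left ?_ he0.le
          linarith [le_abs_self K]
      _ ≤ ε / (|K| + 1) * (|K| + 1) := by
          refine mul_le_mul_of_nonneg_right (min_le_right _ _) hK.le
      _ = ε := by field_simp
  linarith

theorem fr_sub {r : ℝ} (hr : 0 < r) {m : Measure (E N)} {s s' : E N → ℝ} (hs : Integrable s m)
    (hs' : Integrable s' m) (y : E N) :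
    fr r m s y - fr r m s' y = fr r m (fun x => s x - s' x) y := by
  unfold fr
  rw [← mul_sub]
  congr 1
  unfold cv
  rw [← integral_sub (integrable_cv (eta_CC hr) hs y) (integrable_cv (eta_CC hr) hs' y)]
  congr 1; funext x; ring

/-- contraction estimate for the nonlinear term -/
theorem sol_contract (h3 : 3 ≤ N) {Ω : Set (E N)}
    (hb : Bornology.IsBounded Ω) {m : Measure (E N)} [SFinite m] {s s' : E N → ℝ}
    (hsm : Measurable s) (hsm' : Measurable s')
    {r0 r0' : ℝ} (h : Dat Ω m s r0) (h' : Dat Ω m s' r0') {g g' : ℝ → ℝ} {Cg L Cg' L' : ℝ}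
    (hg : Adm g Cg L) (hg' : Adm g' Cg' L') {u u' : E N → ℝ} (hu : Measurable u)
    (hu' : Measurable u') (hsol : Sol Ω m s r0 g u) (hsol' : Sol Ω m s' r0' g' u') :
    ∫ y in Ω, |g (u y) - g (u' y)|
      ≤ (∫ x, |s x - s' x| ∂m) + ∫ y in Ω, |g (u' y) - g' (u' y)| := by
  have hgu : BM (fun y => g (u y)) := BM_g hg hu
  have hgu' : BM (fun y => g (u' y)) := BM_g hg hu'
  have hg'u' : BM (fun y => g' (u' y)) := BM_g hg' hu'
  have hui := hsol.1
  have hui' := hsol'.1
  set X := ∫ y in Ω, |g (u y) - g (u' y)| with hX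
  set D0 := ∫ x, |s x - s' x| ∂m with hD0
  set D1 := ∫ y in Ω, |g (u' y) - g' (u' y)| with hD1
  have iX : IntegrableOn (fun y => |g (u y) - g (u' y)|) Ω := ((hgu.sub hgu').integrableOn hb).abs
  have iD1 : IntegrableOn (fun y => |g (u' y) - g' (u' y)|) Ω :=
    ((hgu'.sub hg'u').integrableOn hb).abs
  set S0 := (∫ x, |s x| ∂m) + ∫ x, |s' x| ∂m with hS0
  set c0 : ℝ := (bN N)⁻¹ * (2 * omN N) with hc0
  -- the estimate for fixed `δ`, `r`, `e`
  have key : ∀ δ, 0 < δ → ∀ r, 0 < r → r ≤ min r0 r0' → ∀ e, 0 < e → e ≤ 1 →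
      X - L * δ * (volume Ω).toReal ≤ (D0 + D1 + (Cg + Cg') * (1 / δ) * (c0 * r ^ 2 * S0))
        + e * (1 / δ + L + L' + (Cg + Cg') * (1 / δ) * 2) := by
    intro δ hδ r hr hrr e he he1
    obtain ⟨φ, hφ, hd⟩ := hsol.2 r hr (hrr.trans (min_le_left _ _)) e he
    obtain ⟨φ', hφ', hd'⟩ := hsol'.2 r hr (hrr.trans (min_le_right _ _)) e he
    have hZm := Zr_meas (r := r) (m := m) hsm
    have hZm' := Zr_meas (r := r) (m := m) hsm'
    obtain ⟨hZi, hZ1⟩ := Zr_L1 h3 hr h.int
    obtain ⟨hZi', hZ1'⟩ := Zr_L1 h3 hr h'.int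
    have hF := fr_BM hr h.int
    have hF' := fr_BM hr h'.int
    have hφm := hφ.1.1.continuous.measurable
    have hφm' := hφ'.1.1.continuous.measurable
    have hgB : BM (fun y => g (Zr r m s y + φ y)) := BM_g hg (hZm.add hφm)
    have hgB' : BM (fun y => g' (Zr r m s' y + φ' y)) := BM_g hg' (hZm'.add hφm')
    have h1 := hφ.sub hb hφ' (hF.sub hgB) (hF'.sub hgB')
    have h2 := h1.test hb (sg_contDiff hδ) (hasDerivAt_sg hδ) (by unfold sg; simp)
      (by positivity : (0 : ℝ) < 1 / δ) (sg_der_nonneg hδ) (sg_der_le hδ)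
    have hsgc : Continuous (sg δ) := (sg_contDiff hδ).continuous
    have hsd : BM (fun y => sg δ (φ y - φ' y)) :=
      ⟨hsgc.measurable.comp (hφm.sub hφm'), 1, fun y => sg_abs hδ _⟩
    have hsu : BM (fun y => sg δ (u y - u' y)) :=
      ⟨hsgc.measurable.comp (hu.sub hu'), 1, fun y => sg_abs hδ _⟩
    have i1 : IntegrableOn (fun y => |fr r m (fun x => s x - s' x) y|) Ω :=
      ((fr_L1 h3 hr (h.int.sub h'.int)).1.integrableOn).abs
    have hG : BM (fun y => g (Zr r m s y + φ y) - g' (Zr r m s' y + φ' y)) := hgB.sub hgB'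
    have i2 : IntegrableOn (fun y => (g (Zr r m s y + φ y) - g' (Zr r m s' y + φ' y))
        * sg δ (φ y - φ' y)) Ω := hG.mul_int (hsd.integrableOn hb)
    have h4 : ∫ y in Ω, (g (Zr r m s y + φ y) - g' (Zr r m s' y + φ' y)) * sg δ (φ y - φ' y)
        ≤ D0 + 1 / δ * e ^ 2 := by
      have e1 : ∫ y in Ω, ((fr r m s y - g (Zr r m s y + φ y))
          - (fr r m s' y - g' (Zr r m s' y + φ' y))) * sg δ (φ y - φ' y)
          ≤ ∫ y in Ω, (|fr r m (fun x => s x - s' x) y|
            - (g (Zr r m s y + φ y) - g' (Zr r m s' y + φ' y)) * sg δ (φ y - φ' y)) := by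
        refine integral_mono (((hF.sub hgB).sub (hF'.sub hgB')).mul_int (hsd.integrableOn hb))
          (i1.sub i2) fun y => ?_
        simp only
        have e2 := fr_sub hr h.int h'.int y
        have e3 : fr r m (fun x => s x - s' x) y * sg δ (φ y - φ' y)
            ≤ |fr r m (fun x => s x - s' x) y| := by
          refine (le_abs_self _).trans ?_
          rw [abs_mul]
          exact mul_le_of_le_one_right (abs_nonneg _) (sg_abs hδ _)
        rw [← e2] at e3 ⊢
        linarith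
      rw [integral_sub i1 i2] at e1
      have e4 : ∫ y in Ω, |fr r m (fun x => s x - s' x) y| ≤ D0 :=
        (setIntegral_le_integral (fr_L1 h3 hr (h.int.sub h'.int)).1.abs
          (Eventually.of_forall fun y => abs_nonneg _)).trans (fr_L1 h3 hr (h.int.sub h'.int)).2
      have e5 : 1 / δ * (e + e) ^ 2 / 4 = 1 / δ * e ^ 2 := by ring
      rw [e5] at h2
      linarith
    have hZφ : IntegrableOn (fun y => Zr r m s y + φ y) Ω := hZi.integrableOn.add (hφ.1.int hb)
    have hZφ' : IntegrableOn (fun y => Zr r m s' y + φ' y) Ω :=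
      hZi'.integrableOn.add (hφ'.1.int hb)
    have iE : IntegrableOn (fun y => |Zr r m s y + φ y - u y|) Ω := (hZφ.sub hui).abs
    have iE' : IntegrableOn (fun y => |Zr r m s' y + φ' y - u' y|) Ω := (hZφ'.sub hui').abs
    have iZ : IntegrableOn (fun y => |Zr r m s y|) Ω := hZi.integrableOn.abs
    have iZ' : IntegrableOn (fun y => |Zr r m s' y|) Ω := hZi'.integrableOn.abs
    have hC : 0 ≤ Cg + Cg' := add_nonneg hg.Cg_nonneg hg'.Cg_nonneg
    set K := (Cg + Cg') * (1 / δ) with hK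
    have hKp : 0 ≤ K := by positivity
    have h5 : X - L * δ * (volume Ω).toReal ≤ ∫ y in Ω, (g (u y) - g (u' y)) * sg δ (u y - u' y) := by
      have hcc : IntegrableOn (fun _ : E N => L * δ) Ω := iob hb continuous_const
      have e1 : X - L * δ * (volume Ω).toReal = ∫ y in Ω, (|g (u y) - g (u' y)| - L * δ) := by
        rw [integral_sub iX hcc]
        simp [Measure.real, mul_comm, hX]
      rw [e1]
      refine integral_mono (iX.sub hcc) ((hgu.sub hgu').mul_int (hsu.integrableOn hb)) fun y => ?_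
      exact sg_lower hδ hg _ _
    have h6 : ∫ y in Ω, (g (u y) - g (u' y)) * sg δ (u y - u' y)
        ≤ ∫ y in Ω, ((g (Zr r m s y + φ y) - g' (Zr r m s' y + φ' y)) * sg δ (φ y - φ' y)
          + (L + K) * |Zr r m s y + φ y - u y| + (L' + K) * |Zr r m s' y + φ' y - u' y|
          + |g (u' y) - g' (u' y)| + K * |Zr r m s y| + K * |Zr r m s' y|) := by
      refine integral_mono ((hgu.sub hgu').mul_int (hsu.integrableOn hb))
        (((((i2.add (iE.const_mul _)).add (iE'.const_mul _)).add iD1).add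
          (iZ.const_mul _)).add (iZ'.const_mul _)) fun y => ?_
      simp only
      set U := Zr r m s y + φ y with hU
      set U' := Zr r m s' y + φ' y with hU'
      set q1 := sg δ (u y - u' y) with hq1
      set q2 := sg δ (φ y - φ' y) with hq2
      have a1 : |q1| ≤ 1 := sg_abs hδ _
      have a2 : |q1 - q2| ≤ 1 / δ * |(u y - u' y) - (φ y - φ' y)| := sg_lip hδ _ _
      have a3 : |(u y - u' y) - (φ y - φ' y)|
          ≤ |U - u y| + |U' - u' y| + |Zr r m s y| + |Zr r m s' y| := by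
        have e1 : (u y - u' y) - (φ y - φ' y)
            = -(U - u y) + (U' - u' y) + Zr r m s y + -(Zr r m s' y) := by
          rw [hU, hU']; ring
        rw [e1]
        have e2 := abs_add_le (-(U - u y) + (U' - u' y) + Zr r m s y) (-(Zr r m s' y))
        have e3 := abs_add_le (-(U - u y) + (U' - u' y)) (Zr r m s y)
        have e4 := abs_add_le (-(U - u y)) (U' - u' y)
        rw [abs_neg] at e2 e4
        linarith
      have a4 : (g (u y) - g U) * q1 ≤ L * |U - u y| := by
        refine (le_abs_self _).trans ?_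
        rw [abs_mul]
        refine (mul_le_of_le_one_right (abs_nonneg _) a1).trans ?_
        have := hg.lip (u y) U
        rwa [abs_sub_comm (u y) U] at this
      have a5 : (g' U' - g' (u' y)) * q1 ≤ L' * |U' - u' y| := by
        refine (le_abs_self _).trans ?_
        rw [abs_mul]
        exact (mul_le_of_le_one_right (abs_nonneg _) a1).trans (hg'.lip U' (u' y))
      have a6 : (g' (u' y) - g (u' y)) * q1 ≤ |g (u' y) - g' (u' y)| := by
        refine (le_abs_self _).trans ?_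
        rw [abs_mul, abs_sub_comm]
        exact mul_le_of_le_one_right (abs_nonneg _) a1
      have a7 : (g U - g' U') * (q1 - q2)
          ≤ K * (|U - u y| + |U' - u' y| + |Zr r m s y| + |Zr r m s' y|) := by
        refine (le_abs_self _).trans ?_
        rw [abs_mul]
        have e1 : |g U - g' U'| ≤ Cg + Cg' :=
          (abs_sub _ _).trans (add_le_add (hg.bdd U) (hg'.bdd U'))
        calc |g U - g' U'| * |q1 - q2| ≤ (Cg + Cg') * (1 / δ * |(u y - u' y) - (φ y - φ' y)|) :=
              mul_le_mul e1 a2 (abs_nonneg _) hC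
          _ ≤ (Cg + Cg') * (1 / δ * (|U - u y| + |U' - u' y| + |Zr r m s y| + |Zr r m s' y|)) := by
              gcongr
          _ = _ := by rw [hK]; ring
      nlinarith
    have e1 : IntegrableOn (fun y => (g (Zr r m s y + φ y) - g' (Zr r m s' y + φ' y))
        * sg δ (φ y - φ' y) + (L + K) * |Zr r m s y + φ y - u y|) Ω := i2.add (iE.const_mul _)
    have e2 : IntegrableOn (fun y => (g (Zr r m s y + φ y) - g' (Zr r m s' y + φ' y))
        * sg δ (φ y - φ' y) + (L + K) * |Zr r m s y + φ y - u y|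
        + (L' + K) * |Zr r m s' y + φ' y - u' y|) Ω := e1.add (iE'.const_mul _)
    have e3 : IntegrableOn (fun y => (g (Zr r m s y + φ y) - g' (Zr r m s' y + φ' y))
        * sg δ (φ y - φ' y) + (L + K) * |Zr r m s y + φ y - u y|
        + (L' + K) * |Zr r m s' y + φ' y - u' y| + |g (u' y) - g' (u' y)|) Ω := e2.add iD1
    have e4 : IntegrableOn (fun y => (g (Zr r m s y + φ y) - g' (Zr r m s' y + φ' y))
        * sg δ (φ y - φ' y) + (L + K) * |Zr r m s y + φ y - u y|
        + (L' + K) * |Zr r m s' y + φ' y - u' y| + |g (u' y) - g' (u' y)|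
        + K * |Zr r m s y|) Ω := e3.add (iZ.const_mul _)
    rw [integral_add e4 (iZ'.const_mul _), integral_add e3 (iZ.const_mul _), integral_add e2 iD1,
      integral_add e1 (iE'.const_mul _), integral_add i2 (iE.const_mul _), integral_const_mul,
      integral_const_mul, integral_const_mul, integral_const_mul] at h6
    have h7 : (∫ y in Ω, |Zr r m s y|) ≤ c0 * r ^ 2 * ∫ x, |s x| ∂m := by
      refine (setIntegral_le_integral hZi.abs (Eventually.of_forall fun y => abs_nonneg _)).trans ?_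
      refine hZ1.trans (le_of_eq ?_)
      rw [hc0]; ring
    have h8 : (∫ y in Ω, |Zr r m s' y|) ≤ c0 * r ^ 2 * ∫ x, |s' x| ∂m := by
      refine (setIntegral_le_integral hZi'.abs (Eventually.of_forall fun y => abs_nonneg _)).trans ?_
      refine hZ1'.trans (le_of_eq ?_)
      rw [hc0]; ring
    have h9 : (L + K) * ∫ y in Ω, |Zr r m s y + φ y - u y| ≤ (L + K) * e :=
      mul_le_mul_of_nonneg_left hd (add_nonneg hg.Lpos.le hKp)
    have h10 : (L' + K) * ∫ y in Ω, |Zr r m s' y + φ' y - u' y| ≤ (L' + K) * e :=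
      mul_le_mul_of_nonneg_left hd' (add_nonneg hg'.Lpos.le hKp)
    have h11 : K * (∫ y in Ω, |Zr r m s y|) ≤ K * (c0 * r ^ 2 * ∫ x, |s x| ∂m) :=
      mul_le_mul_of_nonneg_left h7 hKp
    have h12 : K * (∫ y in Ω, |Zr r m s' y|) ≤ K * (c0 * r ^ 2 * ∫ x, |s' x| ∂m) :=
      mul_le_mul_of_nonneg_left h8 hKp
    have h13 : 1 / δ * e ^ 2 ≤ 1 / δ * e := by
      refine mul_le_mul_of_nonneg_left ?_ (by positivity)
      nlinarith
    rw [hS0]
    linarith
  have hrm : 0 < min r0 r0' := lt_min h.pos h'.pos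
  have key2 : ∀ δ, 0 < δ → δ ≤ 1 → X ≤ (D0 + D1) + δ * (L * (volume Ω).toReal) := by
    intro δ hδ _
    have k1 : ∀ r, 0 < r → r ≤ min r0 r0' → X - L * δ * (volume Ω).toReal
        ≤ D0 + D1 + (Cg + Cg') * (1 / δ) * (c0 * r ^ 2 * S0) := fun r hr hrr =>
      le_of_small one_pos (key δ hδ r hr hrr)
    have k2 : X - L * δ * (volume Ω).toReal ≤ D0 + D1 := by
      refine le_of_small (b := (min r0 r0') ^ 2) (K := (Cg + Cg') * (1 / δ) * (c0 * S0))
        (by positivity) fun e he hle => ?_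
      have h1 : √e ≤ min r0 r0' := by
        rw [Real.sqrt_le_left hrm.le]; exact hle
      have h2 := k1 (√e) (Real.sqrt_pos.2 he) h1
      rw [Real.sq_sqrt he.le] at h2
      linarith
    linarith
  exact le_of_small one_pos key2

end Pool.Agent.Helper60.GM67
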