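import Pool.Agent.Helper60.GM67.Contr

/-! The `L¹` estimate for differences of solutions. -/

namespace Pool.Agent.Helper60.GM67

open MeasureTheory Set Metric Filter Topology
open Pool.Agent.R216.VPD (E D bv)
open scoped ContDiff

variable {N : ℕ}

theorem sol_L1 (h3 : 3 ≤ N) {Ω : Set (E N)} (hΩ : IsOpen Ω) {R : ℝ} (hRp : 0 < R)
    (hR : Ω ⊆ closedBall 0 R) {m : Measure (E N)} [SFinite m] {s s' : E N → ℝ}
    (hsm : Measurable s) (hsm' : Measurable s')
    {r0 r0' : ℝ} (h : Dat Ω m s r0) (h' : Dat Ω m s' r0') {g g' : ℝ → ℝ} {Cg L Cg' L' : ℝ}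
    (hg : Adm g Cg L) (hg' : Adm g' Cg' L') {u u' : E N → ℝ} (hu : Measurable u)
    (hu' : Measurable u') (hsol : Sol Ω m s r0 g u) (hsol' : Sol Ω m s' r0' g' u') :
    2 * N * ∫ y in Ω, |u y - u' y|
      ≤ R ^ 2 * ((∫ x, |s x - s' x| ∂m) + ∫ y in Ω, |g (u y) - g' (u' y)|) := by
  have hb : Bornology.IsBounded Ω := isBounded_closedBall.subset hR
  have hN : 0 < N := by omega
  have hN' : (0 : ℝ) < N := by exact_mod_cast hN
  have hgu : BM (fun y => g (u y)) := BM_g hg hu
  have hg'u' : BM (fun y => g' (u' y)) := BM_g hg' hu'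
  have hui := hsol.1
  have hui' := hsol'.1
  set X := ∫ y in Ω, |u y - u' y| with hX
  set D0 := ∫ x, |s x - s' x| ∂m with hD0
  set D1 := ∫ y in Ω, |g (u y) - g' (u' y)| with hD1
  have iX : IntegrableOn (fun y => |u y - u' y|) Ω := (hui.sub hui').abs
  have iD1 : IntegrableOn (fun y => |g (u y) - g' (u' y)|) Ω :=
    ((hgu.sub hg'u').integrableOn hb).abs
  set S0 := (∫ x, |s x| ∂m) + ∫ x, |s' x| ∂m with hS0
  set c0 : ℝ := (bN N)⁻¹ * (2 * omN N) with hc0
  set V : ℝ := (volume Ω).toReal with hV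
  have hV0 : 0 ≤ V := ENNReal.toReal_nonneg
  -- for fixed `δ` and `r` there is a constant `K` such that ...
  have key : ∀ δ, 0 < δ → ∀ r, 0 < r → r ≤ min r0 r0' → ∃ K : ℝ, ∀ e, 0 < e → e ≤ 1 →
      2 * N * (X - δ * V) ≤ (R ^ 2 * (D0 + D1) + 2 * N * (c0 * r ^ 2 * S0)) + e * K := by
    intro δ hδ r hr hrr
    have hZm := Zr_meas (r := r) (m := m) hsm
    have hZm' := Zr_meas (r := r) (m := m) hsm'
    obtain ⟨hZi, hZ1⟩ := Zr_L1 h3 hr h.int
    obtain ⟨hZi', hZ1'⟩ := Zr_L1 h3 hr h'.int
    have hF := fr_BM hr h.int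
    have hF' := fr_BM hr h'.int
    obtain ⟨CF, hCF⟩ := hF.2
    obtain ⟨CF', hCF'⟩ := hF'.2
    set M : ℝ := CF + Cg + (CF' + Cg') with hM
    set W : ℝ := 2 * (4 * R ^ 2 / N) * (M ^ 2 * V) + 8 with hW
    set K1 : ℝ := √(2 * (1 / δ) ^ 2 * R ^ 4 * W + 8 * N * R ^ 2 * V) with hK1
    refine ⟨2 * K1 + R ^ 2 * (L + L') + 4 * N, fun e he he1 => ?_⟩
    obtain ⟨φ, hφ, hd⟩ := hsol.2 r hr (hrr.trans (min_le_left _ _)) e he
    obtain ⟨φ', hφ', hd'⟩ := hsol'.2 r hr (hrr.trans (min_le_right _ _)) e he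
    have hφm := hφ.1.1.continuous.measurable
    have hφm' := hφ'.1.1.continuous.measurable
    have hgB : BM (fun y => g (Zr r m s y + φ y)) := BM_g hg (hZm.add hφm)
    have hgB' : BM (fun y => g' (Zr r m s' y + φ' y)) := BM_g hg' (hZm'.add hφm')
    have h1 := hφ.sub hb hφ' (hF.sub hgB) (hF'.sub hgB')
    have hfB : BM (fun y => (fr r m s y - g (Zr r m s y + φ y))
      - (fr r m s' y - g' (Zr r m s' y + φ' y))) := (hF.sub hgB).sub (hF'.sub hgB')
    have h2 := h1.L1 hΩ hR (by positivity) hfB (r := fun t => rt δ t - δ) (p := sg δ)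
      ((rt_contDiff hδ).sub contDiff_const) (sg_contDiff hδ)
      (fun t => (hasDerivAt_rt hδ t).sub_const δ) (hasDerivAt_sg hδ)
      (by unfold rt; simp [abs_of_pos hδ, Real.sqrt_sq hδ.le]) (by unfold sg; simp) (sg_abs hδ)
      (sg_der_nonneg hδ) (sg_der_le hδ)
    have h4 := h1.en_le hN hΩ hRp hR hfB
    have hsq : ∫ y in Ω, ((fr r m s y - g (Zr r m s y + φ y))
      - (fr r m s' y - g' (Zr r m s' y + φ' y))) ^ 2 ≤ M ^ 2 * V := by
      have hcc : IntegrableOn (fun _ : E N => M ^ 2) Ω := iob hb continuous_const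
      have e1 : M ^ 2 * V = ∫ _ in Ω, M ^ 2 := by simp [Measure.real, mul_comm, hV]
      rw [e1]
      have e2 : IntegrableOn (fun y => ((fr r m s y - g (Zr r m s y + φ y))
        - (fr r m s' y - g' (Zr r m s' y + φ' y))) ^ 2) Ω := by
        refine (hfB.mul_int (hfB.integrableOn hb)).congr (Eventually.of_forall fun y => ?_)
        simp only; ring
      refine integral_mono e2 hcc fun y => ?_
      simp only
      have e3 : |(fr r m s y - g (Zr r m s y + φ y))
        - (fr r m s' y - g' (Zr r m s' y + φ' y))| ≤ M := by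
        refine (abs_sub _ _).trans ?_
        have a1 := (abs_sub (fr r m s y) (g (Zr r m s y + φ y))).trans
          (add_le_add (hCF y) (hg.bdd _))
        have a2 := (abs_sub (fr r m s' y) (g' (Zr r m s' y + φ' y))).trans
          (add_le_add (hCF' y) (hg'.bdd _))
        rw [hM]
        linarith
      rw [← sq_abs]
      gcongr
    have h5 : en Ω (fun y => φ y - φ' y) ≤ W := by
      refine h4.trans ?_
      rw [hW]
      have e1 : 2 * (e + e) ^ 2 ≤ 8 := by nlinarith
      have e2 := mul_le_mul_of_nonneg_left hsq (by positivity : (0 : ℝ) ≤ 2 * (4 * R ^ 2 / N))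
      linarith
    have h6 : √(2 * (1 / δ) ^ 2 * R ^ 4 * en Ω (fun y => φ y - φ' y)
        + 8 * N * R ^ 2 * (volume Ω).toReal) ≤ K1 := by
      rw [hK1]
      refine Real.sqrt_le_sqrt ?_
      rw [← hV]
      have : 0 ≤ 2 * (1 / δ) ^ 2 * R ^ 4 := by positivity
      nlinarith
    have h7 : (e + e) * √(2 * (1 / δ) ^ 2 * R ^ 4 * en Ω (fun y => φ y - φ' y)
        + 8 * N * R ^ 2 * (volume Ω).toReal) ≤ e * (2 * K1) := by
      have := mul_le_mul_of_nonneg_left h6 (by positivity : 0 ≤ e + e)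
      linarith
    have hZφ : IntegrableOn (fun y => Zr r m s y + φ y) Ω := hZi.integrableOn.add (hφ.1.int hb)
    have hZφ' : IntegrableOn (fun y => Zr r m s' y + φ' y) Ω :=
      hZi'.integrableOn.add (hφ'.1.int hb)
    have iE : IntegrableOn (fun y => |Zr r m s y + φ y - u y|) Ω := (hZφ.sub hui).abs
    have iE' : IntegrableOn (fun y => |Zr r m s' y + φ' y - u' y|) Ω := (hZφ'.sub hui').abs
    have iZ : IntegrableOn (fun y => |Zr r m s y|) Ω := hZi.integrableOn.abs
    have iZ' : IntegrableOn (fun y => |Zr r m s' y|) Ω := hZi'.integrableOn.abs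
    have i1 : IntegrableOn (fun y => |fr r m (fun x => s x - s' x) y|) Ω :=
      ((fr_L1 h3 hr (h.int.sub h'.int)).1.integrableOn).abs
    have h8 : ∫ y in Ω, |(fr r m s y - g (Zr r m s y + φ y))
        - (fr r m s' y - g' (Zr r m s' y + φ' y))| ≤ D0 + D1 + (L + L') * e := by
      have e1 : ∫ y in Ω, |(fr r m s y - g (Zr r m s y + φ y))
        - (fr r m s' y - g' (Zr r m s' y + φ' y))|
        ≤ ∫ y in Ω, (|fr r m (fun x => s x - s' x) y| + |g (u y) - g' (u' y)|
          + L * |Zr r m s y + φ y - u y| + L' * |Zr r m s' y + φ' y - u' y|) := by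
        refine integral_mono (hfB.integrableOn hb).abs
          (((i1.add iD1).add (iE.const_mul _)).add (iE'.const_mul _)) fun y => ?_
        simp only
        have a0 := fr_sub hr h.int h'.int y
        have a1 : (fr r m s y - g (Zr r m s y + φ y)) - (fr r m s' y - g' (Zr r m s' y + φ' y))
            = fr r m (fun x => s x - s' x) y + -(g (u y) - g' (u' y))
              + -(g (Zr r m s y + φ y) - g (u y)) + (g' (Zr r m s' y + φ' y) - g' (u' y)) := by
          rw [← a0]; ring
        rw [a1]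
        have e2 := abs_add_le (fr r m (fun x => s x - s' x) y + -(g (u y) - g' (u' y))
              + -(g (Zr r m s y + φ y) - g (u y))) (g' (Zr r m s' y + φ' y) - g' (u' y))
        have e3 := abs_add_le (fr r m (fun x => s x - s' x) y + -(g (u y) - g' (u' y)))
              (-(g (Zr r m s y + φ y) - g (u y)))
        have e4 := abs_add_le (fr r m (fun x => s x - s' x) y) (-(g (u y) - g' (u' y)))
        rw [abs_neg] at e3 e4
        have e5 := hg.lip (Zr r m s y + φ y) (u y)
        have e6 := hg'.lip (Zr r m s' y + φ' y) (u' y)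
        linarith
      have j1 : IntegrableOn (fun y => |fr r m (fun x => s x - s' x) y|
          + |g (u y) - g' (u' y)|) Ω := i1.add iD1
      have j2 : IntegrableOn (fun y => |fr r m (fun x => s x - s' x) y|
          + |g (u y) - g' (u' y)| + L * |Zr r m s y + φ y - u y|) Ω := j1.add (iE.const_mul _)
      rw [integral_add j2 (iE'.const_mul _), integral_add j1 (iE.const_mul _),
        integral_add i1 iD1, integral_const_mul, integral_const_mul] at e1
      have e7 : ∫ y in Ω, |fr r m (fun x => s x - s' x) y| ≤ D0 :=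
        (setIntegral_le_integral (fr_L1 h3 hr (h.int.sub h'.int)).1.abs
          (Eventually.of_forall fun y => abs_nonneg _)).trans (fr_L1 h3 hr (h.int.sub h'.int)).2
      have e8 := mul_le_mul_of_nonneg_left hd hg.Lpos.le
      have e9 := mul_le_mul_of_nonneg_left hd' hg'.Lpos.le
      linarith
    have h9 : X - δ * V ≤ (∫ y in Ω, (rt δ (φ y - φ' y) - δ)) + c0 * r ^ 2 * S0 + 2 * e := by
      have irt : IntegrableOn (fun y => rt δ (φ y - φ' y) - δ) Ω :=
        iob hb (((rt_contDiff hδ).continuous.comp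
          (hφ.1.1.continuous.sub hφ'.1.1.continuous)).sub continuous_const)
      have hcc : IntegrableOn (fun _ : E N => δ) Ω := iob hb continuous_const
      have e1 : X ≤ ∫ y in Ω, ((rt δ (φ y - φ' y) - δ) + δ + |Zr r m s y + φ y - u y|
          + |Zr r m s' y + φ' y - u' y| + |Zr r m s y| + |Zr r m s' y|) := by
        refine integral_mono iX (((((irt.add hcc).add iE).add iE').add iZ).add iZ') fun y => ?_
        simp only
        have a1 : u y - u' y = (φ y - φ' y) + -(Zr r m s y + φ y - u y)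
            + (Zr r m s' y + φ' y - u' y) + Zr r m s y + -(Zr r m s' y) := by ring
        rw [a1]
        have e2 := abs_add_le ((φ y - φ' y) + -(Zr r m s y + φ y - u y)
            + (Zr r m s' y + φ' y - u' y) + Zr r m s y) (-(Zr r m s' y))
        have e3 := abs_add_le ((φ y - φ' y) + -(Zr r m s y + φ y - u y)
            + (Zr r m s' y + φ' y - u' y)) (Zr r m s y)
        have e4 := abs_add_le ((φ y - φ' y) + -(Zr r m s y + φ y - u y))
            (Zr r m s' y + φ' y - u' y)
        have e5 := abs_add_le (φ y - φ' y) (-(Zr r m s y + φ y - u y))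
        rw [abs_neg] at e2 e5
        have e6 := abs_le_rt δ (φ y - φ' y)
        linarith
      have j1 : IntegrableOn (fun y => (rt δ (φ y - φ' y) - δ) + δ) Ω := irt.add hcc
      have j2 : IntegrableOn (fun y => (rt δ (φ y - φ' y) - δ) + δ
        + |Zr r m s y + φ y - u y|) Ω := j1.add iE
      have j3 : IntegrableOn (fun y => (rt δ (φ y - φ' y) - δ) + δ
        + |Zr r m s y + φ y - u y| + |Zr r m s' y + φ' y - u' y|) Ω := j2.add iE'
      have j4 : IntegrableOn (fun y => (rt δ (φ y - φ' y) - δ) + δ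
        + |Zr r m s y + φ y - u y| + |Zr r m s' y + φ' y - u' y| + |Zr r m s y|) Ω := j3.add iZ
      rw [integral_add j4 iZ', integral_add j3 iZ, integral_add j2 iE', integral_add j1 iE,
        integral_add irt hcc] at e1
      have e7 : ∫ _ in Ω, δ = δ * V := by simp [Measure.real, mul_comm, hV]
      rw [e7] at e1
      have h7 : (∫ y in Ω, |Zr r m s y|) ≤ c0 * r ^ 2 * ∫ x, |s x| ∂m := by
        refine (setIntegral_le_integral hZi.abs
          (Eventually.of_forall fun y => abs_nonneg _)).trans ?_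
        refine hZ1.trans (le_of_eq ?_)
        rw [hc0]; ring
      have h8 : (∫ y in Ω, |Zr r m s' y|) ≤ c0 * r ^ 2 * ∫ x, |s' x| ∂m := by
        refine (setIntegral_le_integral hZi'.abs
          (Eventually.of_forall fun y => abs_nonneg _)).trans ?_
        refine hZ1'.trans (le_of_eq ?_)
        rw [hc0]; ring
      rw [hS0]
      linarith
    have h10 : 2 * N * (X - δ * V)
        ≤ 2 * N * ((∫ y in Ω, (rt δ (φ y - φ' y) - δ)) + c0 * r ^ 2 * S0 + 2 * e) :=
      mul_le_mul_of_nonneg_left h9 (by positivity)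
    have h11 : R ^ 2 * (∫ y in Ω, |(fr r m s y - g (Zr r m s y + φ y))
        - (fr r m s' y - g' (Zr r m s' y + φ' y))|) ≤ R ^ 2 * (D0 + D1 + (L + L') * e) :=
      mul_le_mul_of_nonneg_left h8 (by positivity)
    nlinarith
  have hrm : 0 < min r0 r0' := lt_min h.pos h'.pos
  have key2 : ∀ δ, 0 < δ → δ ≤ 1 → 2 * N * X ≤ R ^ 2 * (D0 + D1) + δ * (2 * N * V) := by
    intro δ hδ _
    have k1 : ∀ r, 0 < r → r ≤ min r0 r0' → 2 * N * (X - δ * V)
        ≤ R ^ 2 * (D0 + D1) + 2 * N * (c0 * r ^ 2 * S0) := by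
      intro r hr hrr
      obtain ⟨K, hK⟩ := key δ hδ r hr hrr
      exact le_of_small one_pos hK
    have k2 : 2 * N * (X - δ * V) ≤ R ^ 2 * (D0 + D1) := by
      refine le_of_small (b := (min r0 r0') ^ 2) (K := 2 * N * (c0 * S0))
        (by positivity) fun e he hle => ?_
      have h1 : √e ≤ min r0 r0' := by
        rw [Real.sqrt_le_left hrm.le]; exact hle
      have h2 := k1 (√e) (Real.sqrt_pos.2 he) h1
      rw [Real.sq_sqrt he.le] at h2
      linarith
    linarith
  exact le_of_small one_pos key2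

end Pool.Agent.Helper60.GM67
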