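import Pool.Agent.Helper60.GM67.Lay
import Pool.Graph.R_seed8.R216.VPD.Defs

/-! Convolutions of smooth kernels with measures. -/

namespace Pool.Agent.Helper60.GM67

open MeasureTheory Set Metric Filter Topology
open Pool.Agent.R216.VPD (E D bv contDiff_D D_congr D_congr_nhds lap_eq)
open scoped ContDiff

variable {N : ℕ}

/-- convolution of a kernel with the measure `s m` -/
noncomputable def cv (κ : E N → ℝ) (m : Measure (E N)) (s : E N → ℝ) (y : E N) : ℝ :=
  ∫ x, s x * κ (y - x) ∂m

/-- the class of smooth compactly supported kernels -/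
def CC (κ : E N → ℝ) : Prop := ContDiff ℝ ∞ κ ∧ HasCompactSupport κ

theorem CC.bdd {κ : E N → ℝ} (h : CC κ) : ∃ C, ∀ y, |κ y| ≤ C :=
  h.1.continuous.bounded_above_of_compact_support h.2

theorem CC.D {κ : E N → ℝ} (h : CC κ) (i : Fin N) : CC (D i κ) := by
  refine ⟨?_, ?_⟩
  · have h1 : ContDiff ℝ ((⊤ : ℕ∞) + 1) κ := by simpa using h.1
    exact contDiff_D (n := ⊤) h1 i
  · exact h.2.fderiv_apply ℝ _

theorem cv_contDiff {κ : E N → ℝ} (h : CC κ) {m : Measure (E N)} {s : E N → ℝ}
    (hs : Integrable s m) : ContDiff ℝ ∞ (cv κ m s) :=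
  h.2.contDiff_convolution_right (ContinuousLinearMap.mul ℝ ℝ) (n := ⊤) hs.locallyIntegrable h.1

theorem integrable_cv {κ : E N → ℝ} (h : CC κ) {m : Measure (E N)} {s : E N → ℝ}
    (hs : Integrable s m) (y : E N) : Integrable (fun x => s x * κ (y - x)) m := by
  obtain ⟨C, hC⟩ := h.bdd
  refine hs.mul_bdd (c := C) ?_ ?_
  · exact (h.1.continuous.comp (by fun_prop)).aestronglyMeasurable
  · exact Eventually.of_forall fun x => hC _

theorem D_cv {κ : E N → ℝ} (h : CC κ) {m : Measure (E N)} {s : E N → ℝ}
    (hs : Integrable s m) (i : Fin N) : D i (cv κ m s) = cv (D i κ) m s := by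
  funext y
  have hfd : Continuous (fderiv ℝ κ) := h.1.continuous_fderiv (by norm_num)
  obtain ⟨C, hC⟩ := hfd.bounded_above_of_compact_support (h.2.fderiv ℝ)
  have h1 : HasFDerivAt (cv κ m s) (∫ x, s x • fderiv ℝ κ (y - x) ∂m) y := by
    refine hasFDerivAt_integral_of_dominated_of_fderiv_le (𝕜 := ℝ) (s := univ)
      (F := fun z x => s x * κ (z - x)) (F' := fun z x => s x • fderiv ℝ κ (z - x))
      (bound := fun x => |s x| * C) univ_mem ?_ ?_ ?_ ?_ ?_ ?_
    · exact Eventually.of_forall fun z => (integrable_cv h hs z).1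
    · exact integrable_cv h hs y
    · exact hs.1.smul (hfd.comp (by fun_prop)).aestronglyMeasurable
    · refine Eventually.of_forall fun x z _ => ?_
      rw [norm_smul, Real.norm_eq_abs]
      exact mul_le_mul_of_nonneg_left (hC _) (abs_nonneg _)
    · exact hs.abs.mul_const C
    · refine Eventually.of_forall fun x z _ => ?_
      have h2 : HasFDerivAt (fun z : E N => z - x) (ContinuousLinearMap.id ℝ (E N)) z :=
        (hasFDerivAt_id z).sub_const x
      have h3 : HasFDerivAt κ (fderiv ℝ κ (z - x)) (z - x) :=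
        (h.1.differentiable (by norm_num) _).hasFDerivAt
      have h4 := (h3.comp z h2).const_mul (s x)
      simpa using! h4
  unfold D
  rw [h1.fderiv, ContinuousLinearMap.integral_apply]
  · rfl
  · refine Integrable.mono' (hs.abs.mul_const C)
      (hs.1.smul (hfd.comp (by fun_prop)).aestronglyMeasurable) ?_
    refine Eventually.of_forall fun x => ?_
    rw [norm_smul, Real.norm_eq_abs]
    exact mul_le_mul_of_nonneg_left (hC _) (abs_nonneg _)

theorem DD_cv {κ : E N → ℝ} (h : CC κ) {m : Measure (E N)} {s : E N → ℝ}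
    (hs : Integrable s m) (y : E N) :
    ∑ i, D i (D i (cv κ m s)) y = cv (fun z => ∑ i, D i (D i κ) z) m s y := by
  have h1 : ∀ i, D i (D i (cv κ m s)) y = cv (D i (D i κ)) m s y := by
    intro i
    rw [D_cv h hs i, D_cv (h.D i) hs i]
  simp only [h1]
  unfold cv
  rw [← integral_finsetSum]
  · congr 1
    funext x
    rw [Finset.mul_sum]
  · intro i _
    exact integrable_cv ((h.D i).D i) hs y

theorem eta_CC {t : ℝ} (ht : 0 < t) : CC (eta (N := N) t) := by
  refine ⟨eta_contDiff t, ?_⟩
  refine HasCompactSupport.intro (isCompact_closedBall (0 : E N) t) fun z hz => ?_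
  rw [mem_closedBall, dist_zero_right, not_le] at hz
  exact eta_zero ht (Or.inr hz.le)

theorem zet_CC {r R : ℝ} (h3 : 3 ≤ N) (hr : 0 < r) (hrR : r ≤ R) : CC (zet (N := N) r R) := by
  refine ⟨(Psi_contDiff r).sub (Psi_contDiff R), ?_⟩
  refine HasCompactSupport.intro (isCompact_closedBall (0 : E N) R) fun z hz => ?_
  rw [mem_closedBall, dist_zero_right, not_le] at hz
  exact zet_zero h3 hr hrR hz.le

theorem D_sub {f g : E N → ℝ} (hf : Differentiable ℝ f) (hg : Differentiable ℝ g) (i : Fin N) :
    D i (fun y => f y - g y) = fun y => D i f y - D i g y := by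
  funext y
  unfold D
  rw [fderiv_fun_sub (hf y) (hg y)]
  simp

theorem lap_zet {r R : ℝ} (h3 : 3 ≤ N) (hr : 0 < r) (hR : 0 < R) (z : E N) :
    ∑ i, D i (D i (zet r R)) z = eta R z - eta r z := by
  have h1 : ∀ i, D i (D i (zet (N := N) r R)) z = D i (D i (Psi r)) z - D i (D i (Psi R)) z := by
    intro i
    have ha : Differentiable ℝ (Psi (N := N) r) := (Psi_contDiff r).differentiable (by norm_num)
    have hb : Differentiable ℝ (Psi (N := N) R) := (Psi_contDiff R).differentiable (by norm_num)
    have e1 : ∀ t : ℝ, ContDiff ℝ ((⊤ : ℕ∞) + 1) (Psi (N := N) t) := fun t => by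
      simpa using (Psi_contDiff (N := N) t)
    have ha2 : Differentiable ℝ (D i (Psi (N := N) r)) :=
      (contDiff_D (n := ⊤) (e1 r) i).differentiable (by simp)
    have hb2 : Differentiable ℝ (D i (Psi (N := N) R)) :=
      (contDiff_D (n := ⊤) (e1 R) i).differentiable (by simp)
    have h2 : zet (N := N) r R = fun y => Psi r y - Psi R y := rfl
    rw [h2, D_sub ha hb, D_sub ha2 hb2]
  simp only [h1]
  rw [Finset.sum_sub_distrib, lap_Psi h3 hr, lap_Psi h3 hR]
  ring

/-- `L¹` bound for the convolution -/
theorem cv_L1 {κ : E N → ℝ} (hκ : Integrable κ) {m : Measure (E N)} [SFinite m]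
    {s : E N → ℝ} (hs : Integrable s m) :
    Integrable (cv κ m s) ∧ ∫ y, |cv κ m s y| ≤ (∫ z, |κ z|) * ∫ x, |s x| ∂m := by
  have h1 : Integrable (fun p : E N × E N => s p.1 * κ (p.2 - p.1)) (m.prod volume) := by
    have h2 : Integrable (fun p : E N × E N => s p.1 * κ p.2) (m.prod volume) := hs.mul_prod hκ
    have h3 : MeasurePreserving (fun p : E N × E N => (p.1, p.2 - p.1)) (m.prod volume)
        (m.prod volume) := by
      refine MeasurePreserving.skew_product (MeasurePreserving.id m) (g := fun x y => y - x) ?_ ?_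
      · exact (measurable_snd.sub measurable_fst)
      · exact Eventually.of_forall fun x => (measurePreserving_sub_right volume x).map_eq
    exact h3.integrable_comp_of_integrable h2
  constructor
  · exact h1.integral_prod_right
  · calc ∫ y, |cv κ m s y| ≤ ∫ y, ∫ x, |s x * κ (y - x)| ∂m := by
          refine integral_mono h1.integral_prod_right.abs h1.abs.integral_prod_right fun y => ?_
          exact abs_integral_le_integral_abs
      _ = ∫ x, ∫ y, |s x * κ (y - x)| ∂volume ∂m := by
          rw [integral_integral_swap]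
          exact h1.abs.swap
      _ = ∫ x, |s x| * (∫ z, |κ z|) ∂m := by
          congr 1
          funext x
          simp only [abs_mul]
          rw [integral_const_mul, integral_sub_right_eq_self (fun z => |κ z|) x]
      _ = _ := by rw [integral_mul_const]; ring

end Pool.Agent.Helper60.GM67
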