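import Pool.Agent.Helper60.GM67.Contr2

/-! Existence for the exponential problem. -/

namespace Pool.Agent.Helper60.GM67

open MeasureTheory Set Metric Filter Topology
open Pool.Agent.R216.VPD (E D bv)
open scoped ContDiff

variable {N : ℕ}

/-- truncated nonlinearity -/
noncomputable def gk (k : ℕ) (t : ℝ) : ℝ := Real.exp (min t k) - 1

theorem gk_adm (k : ℕ) : Adm (gk k) (Real.exp k) (Real.exp k) := by
  have h1 : 1 ≤ Real.exp k := Real.one_le_exp (Nat.cast_nonneg k)
  refine ⟨?_, ?_, ?_, Real.exp_pos _⟩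
  · intro a b hab
    unfold gk
    have : Real.exp (min a k) ≤ Real.exp (min b k) :=
      Real.exp_le_exp.2 (min_le_min_right _ hab)
    linarith
  · intro t
    unfold gk
    have h2 : Real.exp (min t k) ≤ Real.exp k := Real.exp_le_exp.2 (min_le_right _ _)
    have h3 := Real.exp_pos (min t k)
    rw [abs_le]
    constructor <;> linarith
  · intro a b
    unfold gk
    have h2 := Convex.norm_image_sub_le_of_norm_hasDerivWithin_le (f := Real.exp)
      (f' := Real.exp) (s := Iic (k : ℝ)) (C := Real.exp k) (x := min b k) (y := min a k)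
      (fun t _ => (Real.hasDerivAt_exp t).hasDerivWithinAt) (fun t ht => by
        rw [Real.norm_eq_abs, abs_of_pos (Real.exp_pos t)]
        exact Real.exp_le_exp.2 ht) (convex_Iic _) (mem_Iic.2 (min_le_right _ _))
      (mem_Iic.2 (min_le_right _ _))
    rw [Real.norm_eq_abs, Real.norm_eq_abs] at h2
    have h3 : |min a (k : ℝ) - min b k| ≤ |a - b| := by
      have h5 := abs_min_sub_min_le_max a (k : ℝ) b k
      simpa using h5
    have h4 : Real.exp (min a k) - 1 - (Real.exp (min b k) - 1)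
        = Real.exp (min a k) - Real.exp (min b k) := by ring
    rw [h4]
    exact h2.trans (mul_le_mul_of_nonneg_left h3 (Real.exp_pos _).le)

theorem gk_ge (k : ℕ) (t : ℝ) : -1 ≤ gk k t := by
  unfold gk
  linarith [Real.exp_pos (min t k)]

theorem gk_diff {k l K : ℕ} (hk : K ≤ k) (hl : K ≤ l) {t v : ℝ} (htv : t ≤ v) :
    |gk k t - gk l t| ≤ if (K : ℝ) < v then Real.exp v else 0 := by
  have hk' : (K : ℝ) ≤ k := by exact_mod_cast hk
  have hl' : (K : ℝ) ≤ l := by exact_mod_cast hl
  unfold gk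
  split_ifs with h
  · have h1 : Real.exp (min t k) ≤ Real.exp v := Real.exp_le_exp.2 ((min_le_left _ _).trans htv)
    have h2 : Real.exp (min t l) ≤ Real.exp v := Real.exp_le_exp.2 ((min_le_left _ _).trans htv)
    have h3 := Real.exp_pos (min t k)
    have h4 := Real.exp_pos (min t l)
    rw [abs_le]
    constructor <;> linarith
  · push Not at h
    rw [min_eq_left (htv.trans (h.trans hk')), min_eq_left (htv.trans (h.trans hl'))]
    simp

theorem tail_small {Ω : Set (E N)} {v : E N → ℝ} (hv : AEMeasurable v (volume.restrict Ω))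
    (hi : IntegrableOn (fun y => Real.exp (v y)) Ω) {ε : ℝ} (hε : 0 < ε) :
    ∃ K : ℕ, ∫ y in Ω, (if (K : ℝ) < v y then Real.exp (v y) else 0) < ε := by
  have h : Tendsto (fun K : ℕ => ∫ y in Ω, (if (K : ℝ) < v y then Real.exp (v y) else 0)) atTop
      (𝓝 (∫ _ in Ω, (0 : ℝ))) := by
    refine tendsto_integral_of_dominated_convergence (fun y => Real.exp (v y)) ?_ hi ?_ ?_
    · intro K
      have hset : NullMeasurableSet {y | (K : ℝ) < v y} (volume.restrict Ω) :=
        nullMeasurableSet_lt aemeasurable_const hv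
      have h1 := hi.1.indicator₀ hset
      refine h1.congr (Eventually.of_forall fun y => ?_)
      by_cases hy : (K : ℝ) < v y
      · rw [indicator_of_mem (by exact hy)]; simp [hy]
      · rw [indicator_of_notMem (by exact hy)]; simp [hy]
    · intro K
      refine Eventually.of_forall fun y => ?_
      rw [Real.norm_eq_abs]
      split_ifs
      · rw [abs_of_pos (Real.exp_pos _)]
      · rw [abs_zero]; exact (Real.exp_pos _).le
    · refine Eventually.of_forall fun y => ?_
      refine tendsto_const_nhds.congr' ?_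
      obtain ⟨n, hn⟩ := exists_nat_gt (v y)
      filter_upwards [eventually_ge_atTop n] with K hK
      have : ¬ ((K : ℝ) < v y) := by
        push Not
        have : (n : ℝ) ≤ K := by exact_mod_cast hK
        linarith
      simp [this]
  rw [integral_zero] at h
  exact (h.eventually_lt_const hε).exists

/-- the main existence theorem -/
theorem exist_main (h3 : 3 ≤ N) {Ω : Set (E N)} (hΩ : IsOpen Ω) {R : ℝ} (hRp : 0 < R)
    (hR : Ω ⊆ closedBall 0 R) {m : Measure (E N)} [SFinite m] (hmΩ : m Ωᶜ = 0) {s : E N → ℝ}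
    (hs : Integrable s m) (sj : ℕ → E N → ℝ) (rj : ℕ → ℝ) (hsm : ∀ j, Measurable (sj j))
    (hD : ∀ j, Dat Ω m (sj j) (rj j))
    (hlim : Tendsto (fun j => ∫ x, |sj j x - s x| ∂m) atTop (𝓝 0))
    (hexp : ∀ j, IntegrableOn (fun y => Real.exp (Zr (rj j) m (sj j) y)) Ω) :
    ∃ u : E N → ℝ, IntegrableOn u Ω ∧ IntegrableOn (fun y => Real.exp (u y) - 1) Ω ∧
      ∀ ζ, T2 Ω ζ → -(∫ y in Ω, u y * lap ζ y) + ∫ y in Ω, (Real.exp (u y) - 1) * ζ y
        = ∫ x, s x * ζ x ∂m := by
  have hb : Bornology.IsBounded Ω := isBounded_closedBall.subset hR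
  have hN' : (0 : ℝ) < N := by exact_mod_cast (show 0 < N by omega)
  -- solutions of the truncated problems
  have hex : ∀ j k : ℕ, ∃ u, Measurable u ∧ Sol Ω m (sj j) (rj j) (gk k) u := fun j k =>
    sol_exists h3 hΩ hRp hR (hsm j) (hD j) (gk_adm k)
  choose u hum hsol using hex
  have hubj : ∀ j, ∃ C : ℝ, ∀ k, ∀ᵐ y ∂(volume.restrict Ω), u j k y ≤ Zr (rj j) m (sj j) y + C := by
    intro j
    obtain ⟨C, hC⟩ := sol_ub h3 hΩ hRp hR (hsm j) (hD j)
    exact ⟨C, fun k => hC (gk k) _ _ (gk_adm k) (gk_ge k) _ (hsol j k)⟩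
  choose C hC using hubj
  -- uniform smallness of the truncation error
  have htr : ∀ j, ∃ K : ℕ, ∀ k l : ℕ, K ≤ k → K ≤ l →
      ∫ y in Ω, |gk k (u j l y) - gk l (u j l y)| ≤ (1 / 2) ^ j := by
    intro j
    have hvm : Measurable (fun y => Zr (rj j) m (sj j) y + C j) :=
      (Zr_meas (hsm j)).add measurable_const
    have hvi : IntegrableOn (fun y => Real.exp (Zr (rj j) m (sj j) y + C j)) Ω := by
      simp only [Real.exp_add]
      exact (hexp j).mul_const _
    obtain ⟨K, hK⟩ := tail_small hvm.aemeasurable hvi (show (0 : ℝ) < (1 / 2) ^ j by positivity)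
    refine ⟨K, fun k l hk hl => le_trans ?_ hK.le⟩
    refine integral_mono_ae (((BM_g (gk_adm k) (hum j l)).sub
      (BM_g (gk_adm l) (hum j l))).integrableOn hb).abs ?_ ?_
    · have hset : MeasurableSet {y | (K : ℝ) < Zr (rj j) m (sj j) y + C j} :=
        measurableSet_lt measurable_const hvm
      refine (hvi.indicator hset).congr (Eventually.of_forall fun y => ?_)
      by_cases hy : (K : ℝ) < Zr (rj j) m (sj j) y + C j
      · rw [indicator_of_mem (by exact hy)]; simp [hy]
      · rw [indicator_of_notMem (by exact hy)]; simp [hy]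
    · filter_upwards [hC j l] with y hy
      exact gk_diff hk hl hy
  choose K hK using htr
  -- truncation levels
  set kj : ℕ → ℕ := fun j => j + ∑ i ∈ Finset.range (j + 1), K i with hkj
  have hkK : ∀ i j, i ≤ j → K i ≤ kj j := by
    intro i j hij
    have : K i ≤ ∑ i ∈ Finset.range (j + 1), K i :=
      Finset.single_le_sum (f := K) (fun _ _ => Nat.zero_le _) (Finset.mem_range.2 (by omega))
    simp only [hkj]
    omega
  have hkj' : ∀ j, j ≤ kj j := fun j => by simp only [hkj]; omega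
  set U : ℕ → E N → ℝ := fun j => u j (kj j) with hU
  set Gj : ℕ → E N → ℝ := fun j y => gk (kj j) (U j y) with hGj
  have hUi : ∀ j, IntegrableOn (U j) Ω := fun j => (hsol j (kj j)).1
  have hGB : ∀ j, BM (Gj j) := fun j => BM_g (gk_adm _) (hum _ _)
  have hGi : ∀ j, IntegrableOn (Gj j) Ω := fun j => (hGB j).integrableOn hb
  set a : ℕ → ℝ := fun j => ∫ x, |sj j x - s x| ∂m with ha
  have hss : ∀ i j, ∫ x, |sj j x - sj i x| ∂m ≤ a j + a i := by
    intro i j
    have b1 : Integrable (fun x => |sj j x - s x|) m := ((hD j).int.sub hs).abs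
    have b2 : Integrable (fun x => |sj i x - s x|) m := ((hD i).int.sub hs).abs
    have b3 : Integrable (fun x => |sj j x - sj i x|) m := ((hD j).int.sub (hD i).int).abs
    rw [ha]
    simp only
    rw [← integral_add b1 b2]
    refine integral_mono b3 (b1.add b2) fun x => ?_
    simp only
    have : sj j x - sj i x = (sj j x - s x) + -(sj i x - s x) := by ring
    rw [this]
    refine (abs_add_le _ _).trans ?_
    rw [abs_neg]
  have hGd : ∀ i j, i ≤ j → ∫ y in Ω, |Gj j y - Gj i y| ≤ a j + a i + 2 * (1 / 2) ^ i := by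
    intro i j hij
    have h1 := sol_contract h3 hb (hsm j) (hsm i) (hD j) (hD i) (gk_adm (kj j)) (gk_adm (kj i))
      (hum j (kj j)) (hum i (kj i)) (hsol j (kj j)) (hsol i (kj i))
    have h2 := hK i (kj j) (kj i) (hkK i j hij) (hkK i i le_rfl)
    have h4 := hss i j
    have i1 : IntegrableOn (fun y => |gk (kj j) (U j y) - gk (kj j) (U i y)|) Ω :=
      (((hGB j).sub (BM_g (gk_adm _) (hum _ _))).integrableOn hb).abs
    have i2 : IntegrableOn (fun y => |gk (kj j) (U i y) - gk (kj i) (U i y)|) Ω :=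
      (((BM_g (gk_adm (kj j)) (hum i (kj i))).sub (hGB i)).integrableOn hb).abs
    have h5 : ∫ y in Ω, |Gj j y - Gj i y|
        ≤ ∫ y in Ω, (|gk (kj j) (U j y) - gk (kj j) (U i y)|
          + |gk (kj j) (U i y) - gk (kj i) (U i y)|) := by
      have b3 : IntegrableOn (fun y => |Gj j y - Gj i y|) Ω := ((hGi j).sub (hGi i)).abs
      refine integral_mono b3 (i1.add i2) fun y => ?_
      simp only
      have : Gj j y - Gj i y = (gk (kj j) (U j y) - gk (kj j) (U i y))
        + (gk (kj j) (U i y) - gk (kj i) (U i y)) := by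
        simp only [hGj]; ring
      rw [this]
      exact abs_add_le _ _
    rw [integral_add i1 i2] at h5
    linarith
  have hUd : ∀ i j, i ≤ j → ∫ y in Ω, |U j y - U i y|
      ≤ R ^ 2 / (2 * N) * (2 * (a j + a i) + 2 * (1 / 2) ^ i) := by
    intro i j hij
    have h1 := sol_L1 h3 hΩ hRp hR (hsm j) (hsm i) (hD j) (hD i) (gk_adm (kj j)) (gk_adm (kj i))
      (hum j (kj j)) (hum i (kj i)) (hsol j (kj j)) (hsol i (kj i))
    have h2 := hGd i j hij
    have h4 := hss i j
    have h5 : (∫ x, |sj j x - sj i x| ∂m) + ∫ y in Ω, |Gj j y - Gj i y|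
        ≤ 2 * (a j + a i) + 2 * (1 / 2) ^ i := by linarith
    have h6 : 2 * N * ∫ y in Ω, |U j y - U i y| ≤ R ^ 2 * (2 * (a j + a i) + 2 * (1 / 2) ^ i) :=
      h1.trans (mul_le_mul_of_nonneg_left h5 (by positivity))
    rw [div_mul_eq_mul_div, le_div_iff₀ (by positivity)]
    linarith
  have hsym : ∀ (f : ℕ → E N → ℝ) (i j : ℕ), ∫ y in Ω, |f i y - f j y| = ∫ y in Ω, |f j y - f i y| := by
    intro f i j
    congr 1; funext y; exact abs_sub_comm _ _
  have ha0 : ∀ j, 0 ≤ a j := fun j => integral_nonneg fun x => abs_nonneg _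
  have hsmall : ∀ ε > 0, ∃ n0, ∀ i ≥ n0, a i < ε ∧ (1 / 2 : ℝ) ^ i < ε := by
    intro ε hε
    have h1 := hlim.eventually_lt_const hε
    have h2 := (tendsto_pow_atTop_nhds_zero_of_lt_one (r := (1 / 2 : ℝ)) (by norm_num)
      (by norm_num)).eventually_lt_const hε
    obtain ⟨n0, hn0⟩ := eventually_atTop.1 (h1.and h2)
    exact ⟨n0, hn0⟩
  have hcauchy : ∀ (f : ℕ → E N → ℝ) (c : ℝ), 0 < c →
      (∀ i j, i ≤ j → ∫ y in Ω, |f j y - f i y| ≤ c * (2 * (a j + a i) + 2 * (1 / 2) ^ i)) →
      ∀ ε > 0, ∃ n0, ∀ i ≥ n0, ∀ j ≥ n0, ∫ y in Ω, |f i y - f j y| ≤ ε := by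
    intro f c hc hf ε hε
    obtain ⟨n0, hn0⟩ := hsmall (ε / (6 * c)) (by positivity)
    have key : ∀ i j, n0 ≤ i → i ≤ j → ∫ y in Ω, |f j y - f i y| ≤ ε := by
      intro i j hi hij
      refine (hf i j hij).trans ?_
      obtain ⟨p1, p2⟩ := hn0 i hi
      obtain ⟨p3, _⟩ := hn0 j (hi.trans hij)
      have : 2 * (a j + a i) + 2 * (1 / 2) ^ i ≤ 6 * (ε / (6 * c)) := by linarith
      calc c * (2 * (a j + a i) + 2 * (1 / 2) ^ i) ≤ c * (6 * (ε / (6 * c))) := by gcongr
        _ = ε := by field_simp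
    refine ⟨n0, fun i hi j hj => ?_⟩
    rcases le_total i j with hij | hij
    · rw [hsym]; exact key i j hi hij
    · exact key j i hj hij
  obtain ⟨w, hw, hwl⟩ := L1_complete (μ := volume.restrict Ω) U hUi
    (hcauchy U (R ^ 2 / (2 * N)) (by positivity) hUd)
  obtain ⟨Γ, hΓ, hΓl⟩ := L1_complete (μ := volume.restrict Ω) Gj hGi
    (hcauchy Gj 1 one_pos (fun i j hij => (hGd i j hij).trans (by
      have := ha0 i; have := ha0 j
      linarith)))
  obtain ⟨ns, hns, hae⟩ := ae_subseq U hUi hw hwl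
  have hΓl2 : Tendsto (fun n => ∫ y in Ω, |Gj (ns n) y - Γ y|) atTop (𝓝 0) :=
    hΓl.comp hns.tendsto_atTop
  obtain ⟨ms, hms, hae2⟩ := ae_subseq (fun n => Gj (ns n)) (fun n => hGi (ns n)) hΓ hΓl2
  have hΓeq : Γ =ᵐ[volume.restrict Ω] fun y => Real.exp (w y) - 1 := by
    filter_upwards [hae, hae2] with y hy hy2
    have h1 : Tendsto (fun i => U (ns (ms i)) y) atTop (𝓝 (w y)) := hy.comp hms.tendsto_atTop
    have h2 : Tendsto (fun i => Real.exp (U (ns (ms i)) y) - 1) atTop (𝓝 (Real.exp (w y) - 1)) :=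
      ((Real.continuous_exp.tendsto _).comp h1).sub_const 1
    refine tendsto_nhds_unique hy2 (h2.congr' ?_)
    have h4 : Tendsto (fun i => ((kj (ns (ms i)) : ℕ) : ℝ)) atTop atTop := by
      refine tendsto_natCast_atTop_atTop.comp ?_
      refine tendsto_atTop_mono (fun i => hkj' (ns (ms i))) ?_
      exact hns.tendsto_atTop.comp hms.tendsto_atTop
    filter_upwards [h1.eventually_lt_const (show w y < w y + 1 by linarith),
      h4.eventually_ge_atTop (w y + 1)] with i hi1 hi2
    simp only [hGj, gk]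
    rw [min_eq_left (by linarith)]
  have hwexp : IntegrableOn (fun y => Real.exp (w y) - 1) Ω := hΓ.congr hΓeq
  refine ⟨w, hw, hwexp, fun ζ hζ => ?_⟩
  have hlc := lap_cont hζ.1
  obtain ⟨C1, hC1⟩ := (hb.isCompact_closure).exists_bound_of_continuousOn hlc.continuousOn
  obtain ⟨C2, hC2⟩ := (hb.isCompact_closure).exists_bound_of_continuousOn
    hζ.1.continuous.continuousOn
  -- passage to the limit
  have hpass : ∀ (μ : Measure (E N)) (f : ℕ → E N → ℝ) (w h : E N → ℝ) (C : ℝ), Continuous h →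
      (∀ y ∈ closure Ω, ‖h y‖ ≤ C) → (∀ᵐ y ∂μ, y ∈ Ω) → (∀ n, Integrable (f n) μ) →
      Integrable w μ → Tendsto (fun n => ∫ y, |f n y - w y| ∂μ) atTop (𝓝 0) →
      Tendsto (fun n => ∫ y, f n y * h y ∂μ) atTop (𝓝 (∫ y, w y * h y ∂μ)) := by
    intro μ f w h C hc hC hΩ' hf hw hl
    have hmul : ∀ F : E N → ℝ, Integrable F μ → Integrable (fun y => F y * h y) μ := by
      intro F hF
      refine Integrable.mono' (hF.abs.mul_const |C|) (hF.1.mul hc.aestronglyMeasurable) ?_
      filter_upwards [hΩ'] with y hy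
      rw [norm_mul, Real.norm_eq_abs]
      exact mul_le_mul_of_nonneg_left ((hC y (subset_closure hy)).trans (le_abs_self _))
        (abs_nonneg _)
    rw [tendsto_iff_dist_tendsto_zero]
    have h0 : Tendsto (fun n => (∫ y, |f n y - w y| ∂μ) * |C|) atTop (𝓝 0) := by
      simpa using hl.mul_const |C|
    refine squeeze_zero (fun n => dist_nonneg) (fun n => ?_) h0
    rw [Real.dist_eq, ← integral_sub (hmul _ (hf n)) (hmul _ hw), ← integral_mul_const]
    refine abs_integral_le_integral_abs.trans ?_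
    refine integral_mono_ae ((hmul _ (hf n)).sub (hmul _ hw)).abs
      (((hf n).sub hw).abs.mul_const _) ?_
    filter_upwards [hΩ'] with y hy
    rw [← sub_mul, abs_mul]
    exact mul_le_mul_of_nonneg_left ((hC y (subset_closure hy)).trans (le_abs_self _))
      (abs_nonneg _)
  have p1 := hpass (volume.restrict Ω) U w (lap ζ) C1 hlc hC1
    (ae_restrict_mem hΩ.measurableSet) hUi hw hwl
  have p2 := hpass (volume.restrict Ω) Gj Γ ζ C2 hζ.1.continuous hC2
    (ae_restrict_mem hΩ.measurableSet) hGi hΓ hΓl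
  have hmae : ∀ᵐ y ∂m, y ∈ Ω := by rw [ae_iff]; exact hmΩ
  have p3 := hpass m sj s ζ C2 hζ.1.continuous hC2 hmae (fun j => (hD j).int) hs hlim
  have p4 : ∫ y in Ω, Γ y * ζ y = ∫ y in Ω, (Real.exp (w y) - 1) * ζ y := by
    refine integral_congr_ae ?_
    filter_upwards [hΓeq] with y hy
    rw [hy]
  have p5 := p1.neg.add p2
  have heq : ∀ j, -(∫ y in Ω, U j y * lap ζ y) + ∫ y in Ω, Gj j y * ζ y = ∫ x, sj j x * ζ x ∂m :=
    fun j => sol_weak h3 hΩ hb (hsm j) (hD j) (gk_adm (kj j)) (hum j (kj j)) (hsol j (kj j)) hζ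
  rw [p4] at p5
  exact tendsto_nhds_unique (p5.congr heq) p3

end Pool.Agent.Helper60.GM67
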