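import Mathlib

/-! Exponential integrability from the measure of level sets. -/

namespace Pool.Agent.Helper60.GM67

open MeasureTheory Set Filter Topology
open scoped ENNReal

theorem exp_int {α : Type*} [MeasurableSpace α] (m : Measure α) [IsFiniteMeasure m]
    (f : α → ℝ) (hf : Measurable f) (hf0 : ∀ y, 0 ≤ f y) {δ s0 C1 : ℝ} (hδ : 0 < δ)
    (hδ1 : δ ≤ 1 / 2) (hC1 : 0 ≤ C1)
    (h : ∀ s ≥ s0, m {y | s < f y} ≤ ENNReal.ofReal (C1 * Real.exp (-(1 - δ / 2) * s))) :
    Integrable (fun y => Real.exp ((1 - δ) * f y)) m := by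
  have hmeas : Measurable (fun y => Real.exp ((1 - δ) * f y)) :=
    Real.measurable_exp.comp (hf.const_mul _)
  refine ⟨hmeas.aestronglyMeasurable, ?_⟩
  rw [hasFiniteIntegral_iff_ofReal (Eventually.of_forall fun y => (Real.exp_pos _).le)]
  obtain ⟨n0, hn0⟩ := exists_nat_gt (max s0 0 + 1)
  set V : ℝ := (m univ).toReal with hV
  have hV0 : 0 ≤ V := ENNReal.toReal_nonneg
  set q : ℝ := Real.exp (-(δ / 2)) with hq
  have hq0 : 0 < q := Real.exp_pos _
  have hq1 : q < 1 := by
    rw [hq, ← Real.exp_zero]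
    exact Real.exp_lt_exp.2 (by linarith)
  set C' : ℝ := Real.exp (n0 + 1) * V * (q ^ n0)⁻¹ + C1 * Real.exp 2 with hC'
  have hC'0 : 0 ≤ C' := by positivity
  set A : ℕ → Set α := fun n => {y | ⌊f y⌋₊ = n} with hA
  have hAm : ∀ n, MeasurableSet (A n) := fun n =>
    (Nat.measurable_floor.comp hf) (measurableSet_singleton n)
  have hAn : ∀ n : ℕ, ENNReal.ofReal (Real.exp ((1 - δ) * (n + 1))) * m (A n)
      ≤ ENNReal.ofReal (C' * q ^ n) := by
    intro n
    by_cases hn : n0 ≤ n
    · have hn0' : (n0 : ℝ) ≤ n := by exact_mod_cast hn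
      have h1 : A n ⊆ {y | (n : ℝ) - 1 < f y} := by
        intro y hy
        have h2 : (n : ℝ) ≤ f y := by
          have : ⌊f y⌋₊ = n := hy
          rw [← this]
          exact Nat.floor_le (hf0 y)
        show (n : ℝ) - 1 < f y
        linarith
      have h2 : s0 ≤ (n : ℝ) - 1 := by
        have := le_max_left s0 0
        linarith
      have h3 := (measure_mono h1).trans (h _ h2)
      calc ENNReal.ofReal (Real.exp ((1 - δ) * (n + 1))) * m (A n)
          ≤ ENNReal.ofReal (Real.exp ((1 - δ) * (n + 1)))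
            * ENNReal.ofReal (C1 * Real.exp (-(1 - δ / 2) * ((n : ℝ) - 1))) := by gcongr
        _ = ENNReal.ofReal (Real.exp ((1 - δ) * (n + 1))
            * (C1 * Real.exp (-(1 - δ / 2) * ((n : ℝ) - 1)))) :=
            (ENNReal.ofReal_mul (Real.exp_pos _).le).symm
        _ ≤ ENNReal.ofReal (C' * q ^ n) := by
            refine ENNReal.ofReal_le_ofReal ?_
            have e1 : Real.exp ((1 - δ) * (n + 1)) * (C1 * Real.exp (-(1 - δ / 2) * ((n : ℝ) - 1)))
                = C1 * (Real.exp (2 - 3 / 2 * δ) * q ^ n) := by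
              rw [hq, ← Real.exp_nat_mul, ← Real.exp_add, mul_left_comm, ← Real.exp_add]
              congr 2
              ring
            rw [e1]
            have e2 : Real.exp (2 - 3 / 2 * δ) ≤ Real.exp 2 := Real.exp_le_exp.2 (by linarith)
            have e3 : 0 ≤ Real.exp (n0 + 1) * V * (q ^ n0)⁻¹ := by positivity
            calc C1 * (Real.exp (2 - 3 / 2 * δ) * q ^ n) ≤ C1 * (Real.exp 2 * q ^ n) := by gcongr
              _ = C1 * Real.exp 2 * q ^ n := by ring
              _ ≤ C' * q ^ n := by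
                  refine mul_le_mul_of_nonneg_right ?_ (by positivity)
                  rw [hC']; linarith
    · push Not at hn
      have hn' : (n : ℝ) + 1 ≤ n0 := by exact_mod_cast hn
      have h1 : m (A n) ≤ ENNReal.ofReal V := by
        rw [hV, ENNReal.ofReal_toReal (measure_ne_top _ _)]
        exact measure_mono (subset_univ _)
      calc ENNReal.ofReal (Real.exp ((1 - δ) * (n + 1))) * m (A n)
          ≤ ENNReal.ofReal (Real.exp ((1 - δ) * (n + 1))) * ENNReal.ofReal V := by gcongr
        _ = ENNReal.ofReal (Real.exp ((1 - δ) * (n + 1)) * V) :=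
            (ENNReal.ofReal_mul (Real.exp_pos _).le).symm
        _ ≤ ENNReal.ofReal (C' * q ^ n) := by
            refine ENNReal.ofReal_le_ofReal ?_
            have e1 : Real.exp ((1 - δ) * (n + 1)) ≤ Real.exp (n0 + 1) := by
              refine Real.exp_le_exp.2 ?_
              have : (0 : ℝ) ≤ n := Nat.cast_nonneg n
              nlinarith
            have e2 : 1 ≤ (q ^ n0)⁻¹ * q ^ n := by
              rw [inv_mul_eq_div, one_le_div (by positivity)]
              exact pow_le_pow_of_le_one hq0.le hq1.le hn.le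
            have e3 : 0 ≤ C1 * Real.exp 2 * q ^ n := by positivity
            calc Real.exp ((1 - δ) * (n + 1)) * V ≤ Real.exp (n0 + 1) * V := by gcongr
              _ ≤ Real.exp (n0 + 1) * V * ((q ^ n0)⁻¹ * q ^ n) :=
                  le_mul_of_one_le_right (by positivity) e2
              _ ≤ C' * q ^ n := by rw [hC']; nlinarith
  have hsum : ∑' n : ℕ, ENNReal.ofReal (C' * q ^ n) < ∞ := by
    have hs : Summable (fun n : ℕ => C' * q ^ n) :=
      (summable_geometric_of_lt_one hq0.le hq1).mul_left _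
    rw [← ENNReal.ofReal_tsum_of_nonneg (fun n => by positivity) hs]
    exact ENNReal.ofReal_lt_top
  refine lt_of_le_of_lt ?_ hsum
  have hcov : ⋃ n, A n = univ := by
    ext y
    simp only [mem_iUnion, mem_univ, iff_true]
    exact ⟨⌊f y⌋₊, rfl⟩
  have hdis : Pairwise (Function.onFun Disjoint A) := by
    intro i j hij
    rw [Function.onFun, Set.disjoint_left]
    intro y hi hj
    exact hij ((show ⌊f y⌋₊ = i from hi).symm.trans hj)
  calc ∫⁻ y, ENNReal.ofReal (Real.exp ((1 - δ) * f y)) ∂m
      = ∫⁻ y in ⋃ n, A n, ENNReal.ofReal (Real.exp ((1 - δ) * f y)) ∂m := by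
        rw [hcov, Measure.restrict_univ]
    _ = ∑' n, ∫⁻ y in A n, ENNReal.ofReal (Real.exp ((1 - δ) * f y)) ∂m :=
        lintegral_iUnion hAm hdis _
    _ ≤ ∑' n : ℕ, ENNReal.ofReal (Real.exp ((1 - δ) * (n + 1))) * m (A n) := by
        refine ENNReal.tsum_le_tsum fun n => ?_
        calc ∫⁻ y in A n, ENNReal.ofReal (Real.exp ((1 - δ) * f y)) ∂m
            ≤ ∫⁻ _ in A n, ENNReal.ofReal (Real.exp ((1 - δ) * (n + 1))) ∂m := by
              refine setLIntegral_mono' (hAm n) fun y hy => ?_
              refine ENNReal.ofReal_le_ofReal (Real.exp_le_exp.2 ?_)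
              have h1 : ⌊f y⌋₊ = n := hy
              have h2 : f y < n + 1 := by
                rw [← h1]; exact Nat.lt_floor_add_one _
              refine mul_le_mul_of_nonneg_left h2.le (by linarith)
          _ = _ := by rw [setLIntegral_const]
    _ ≤ ∑' n : ℕ, ENNReal.ofReal (C' * q ^ n) := ENNReal.tsum_le_tsum hAn

end Pool.Agent.Helper60.GM67
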