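import Pool.Graph.R_seed8.R216.VPD.Rep

/-! The mollified Newtonian kernel. -/

namespace Pool.Agent.Helper60.GM67

open MeasureTheory Set Metric Filter Topology InnerProductSpace Laplacian
open Pool.Agent.R216.VPD (E D bv contDiff_D D_congr D_congr_nhds lap_eq DD_comp D_comp q D_q DD_q
  contDiff_q sum_inner_sq)
open scoped ContDiff

variable {N : ℕ}

/-- cutoff -/
noncomputable def chi (s : ℝ) : ℝ := Real.smoothTransition ((4 * s - 1) / 3)

theorem chi_contDiff {n : ℕ∞} : ContDiff ℝ n chi :=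
  Real.smoothTransition.contDiff.comp (by fun_prop)

theorem chi_mono : Monotone chi := by
  intro a b h
  exact Real.smoothTransition.monotone (by linarith)

theorem chi_zero {s : ℝ} (h : s ≤ 1 / 4) : chi s = 0 :=
  Real.smoothTransition.zero_of_nonpos (by linarith)

theorem chi_one {s : ℝ} (h : 1 ≤ s) : chi s = 1 :=
  Real.smoothTransition.one_of_one_le (by linarith)

theorem chi_nonneg (s : ℝ) : 0 ≤ chi s := Real.smoothTransition.nonneg _

theorem chi_le_one (s : ℝ) : chi s ≤ 1 := Real.smoothTransition.le_one _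

/-- minus the derivative of the profile -/
noncomputable def th (N : ℕ) (s : ℝ) : ℝ := chi s * s ^ (-(N : ℝ) / 2)

theorem th_zero {s : ℝ} (h : s ≤ 1 / 4) : th N s = 0 := by
  unfold th; rw [chi_zero h, zero_mul]

theorem th_one {s : ℝ} (h : 1 ≤ s) : th N s = s ^ (-(N : ℝ) / 2) := by
  unfold th; rw [chi_one h, one_mul]

theorem th_nonneg (s : ℝ) : 0 ≤ th N s := by
  rcases le_or_gt s (1 / 4) with h | h
  · rw [th_zero h]
  · exact mul_nonneg (chi_nonneg s) (Real.rpow_nonneg (by linarith) _)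

theorem th_le {s : ℝ} (hs : 0 < s) : th N s ≤ s ^ (-(N : ℝ) / 2) := by
  unfold th
  exact mul_le_of_le_one_left (Real.rpow_nonneg hs.le _) (chi_le_one s)

theorem th_contDiff : ContDiff ℝ ∞ (th N) := by
  rw [contDiff_iff_contDiffAt]
  intro s
  rcases lt_or_ge s (1 / 4) with h | h
  · have : th N =ᶠ[𝓝 s] fun _ => 0 := by
      filter_upwards [Iio_mem_nhds h] with t ht
      exact th_zero (le_of_lt ht)
    exact contDiffAt_const.congr_of_eventuallyEq this
  · unfold th
    exact (chi_contDiff (n := ⊤)).contDiffAt.mul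
      (Real.contDiffAt_rpow_const_of_ne (by linarith))

theorem th_cont : Continuous (th N) := th_contDiff.continuous

/-- the profile -/
noncomputable def P (N : ℕ) (s : ℝ) : ℝ := 2 / ((N : ℝ) - 2) + ∫ t in s..1, th N t

theorem hasDerivAt_P (s : ℝ) : HasDerivAt (P N) (-(th N s)) s := by
  unfold P
  have h := intervalIntegral.integral_hasDerivAt_left (a := s) (b := 1)
    ((th_cont (N := N)).intervalIntegrable _ _)
    ((th_cont (N := N)).stronglyMeasurableAtFilter _ _) (th_cont (N := N)).continuousAt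
  exact h.const_add _

theorem deriv_P : deriv (P N) = fun s => -(th N s) := by
  funext s; exact (hasDerivAt_P s).deriv

theorem P_contDiff : ContDiff ℝ ∞ (P N) := by
  have h : ContDiff ℝ (∞ + 1) (P N) := by
    rw [contDiff_succ_iff_deriv]
    refine ⟨fun s => (hasDerivAt_P s).differentiableAt, by simp, ?_⟩
    rw [deriv_P]
    exact th_contDiff.neg
  simpa using h

theorem P_anti : Antitone (P N) := by
  refine antitone_of_deriv_nonpos (P_contDiff.differentiable (by norm_num)) fun s => ?_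
  rw [deriv_P]
  simp only [Left.neg_nonpos_iff]
  exact th_nonneg s

theorem P_eq {s : ℝ} (h3 : 3 ≤ N) (hs : 1 ≤ s) :
    P N s = 2 / ((N : ℝ) - 2) * s ^ (-((N : ℝ) - 2) / 2) := by
  have hN : (3 : ℝ) ≤ N := by exact_mod_cast h3
  unfold P
  have h1 : ∫ t in s..1, th N t = ∫ t in s..1, t ^ (-(N : ℝ) / 2) := by
    refine intervalIntegral.integral_congr fun t ht => ?_
    rw [uIcc_of_ge hs] at ht
    exact th_one ht.1
  rw [h1, integral_rpow (by
    right
    refine ⟨by linarith, ?_⟩
    rw [uIcc_of_ge hs]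
    intro h
    linarith [h.1])]
  have h2 : -(N : ℝ) / 2 + 1 = -((N : ℝ) - 2) / 2 := by ring
  rw [h2, Real.one_rpow]
  have h3 : (N : ℝ) - 2 ≠ 0 := by linarith
  field_simp
  ring

theorem P_le {s : ℝ} (h3 : 3 ≤ N) (hs : 0 < s) :
    P N s ≤ 2 / ((N : ℝ) - 2) * s ^ (-((N : ℝ) - 2) / 2) := by
  rcases le_or_gt 1 s with h | h
  · exact (P_eq h3 h).le
  have hN : (3 : ℝ) ≤ N := by exact_mod_cast h3
  unfold P
  have hcont : ContinuousOn (fun t : ℝ => t ^ (-(N : ℝ) / 2)) (uIcc s 1) := by
    intro t ht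
    rw [uIcc_of_le h.le] at ht
    exact (Real.continuousAt_rpow_const t _ (Or.inl (by linarith [ht.1]))).continuousWithinAt
  have h1 : ∫ t in s..1, th N t ≤ ∫ t in s..1, t ^ (-(N : ℝ) / 2) := by
    refine intervalIntegral.integral_mono_on h.le ((th_cont (N := N)).intervalIntegrable _ _)
      hcont.intervalIntegrable fun t ht => ?_
    exact th_le (by linarith [ht.1])
  rw [integral_rpow (by
    right
    refine ⟨by linarith, ?_⟩
    rw [uIcc_of_le h.le]
    intro h
    linarith [h.1])] at h1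
  have h2 : -(N : ℝ) / 2 + 1 = -((N : ℝ) - 2) / 2 := by ring
  rw [h2, Real.one_rpow] at h1
  have h3 : (N : ℝ) - 2 ≠ 0 := by linarith
  refine (add_le_add_right h1 _).trans (le_of_eq ?_)
  field_simp
  ring

theorem P_const {s : ℝ} (hs : s ≤ 1 / 4) : P N s = P N 0 := by
  unfold P
  have h1 : ∫ t in s..0, th N t = 0 := by
    have : ∫ t in s..0, th N t = ∫ t in s..0, (0 : ℝ) := by
      refine intervalIntegral.integral_congr fun t ht => ?_
      apply th_zero
      rw [mem_uIcc] at ht
      rcases ht with h | h <;> linarith [h.1, h.2]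
    rw [this]; simp
  rw [← intervalIntegral.integral_add_adjacent_intervals
    ((th_cont (N := N)).intervalIntegrable s 0) ((th_cont (N := N)).intervalIntegrable 0 1), h1,
    zero_add]

theorem P_pos (h3 : 3 ≤ N) (s : ℝ) : 0 < P N s := by
  have hN : (3 : ℝ) ≤ N := by exact_mod_cast h3
  have h1 : 0 < (N : ℝ) - 2 := by linarith
  have h2 : P N (max s 1) ≤ P N s := P_anti (le_max_left _ _)
  refine lt_of_lt_of_le ?_ h2
  rw [P_eq h3 (le_max_right _ _)]
  have : 0 < max s 1 := lt_of_lt_of_le one_pos (le_max_right _ _)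
  positivity

theorem P_le_P0 (s : ℝ) : P N s ≤ P N 0 := by
  rcases le_or_gt s (1 / 4) with h | h
  · rw [P_const h]
  · exact P_anti (by linarith)

theorem P_ge {s : ℝ} (hs : s ≤ 1) : 2 / ((N : ℝ) - 2) ≤ P N s := by
  have h : P N 1 = 2 / ((N : ℝ) - 2) := by unfold P; simp
  rw [← h]; exact P_anti hs

end Pool.Agent.Helper60.GM67
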