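import Pool.Agent.Helper60.GM67.Ker

/-! The mollified Newtonian kernel in space. -/

namespace Pool.Agent.Helper60.GM67

open MeasureTheory Set Metric Filter Topology InnerProductSpace Laplacian Module
open Pool.Agent.R216.VPD (E D bv contDiff_D D_congr D_congr_nhds lap_eq DD_comp D_comp q D_q DD_q
  contDiff_q sum_inner_sq)
open scoped ContDiff

variable {N : ℕ}

/-- profile of minus the Laplacian -/
noncomputable def Ee (N : ℕ) (s : ℝ) : ℝ := 4 * s * deriv (th N) s + 2 * N * th N s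

theorem deriv_chi_zero {s : ℝ} (h : s ≤ 1 / 4 ∨ 1 ≤ s) : deriv chi s = 0 := by
  rcases h with h | h
  · have : IsLocalMin chi s := by
      refine Eventually.of_forall fun t => ?_
      rw [chi_zero h]; exact chi_nonneg t
    exact this.deriv_eq_zero
  · have : IsLocalMax chi s := by
      refine Eventually.of_forall fun t => ?_
      rw [chi_one h]; exact chi_le_one t
    exact this.deriv_eq_zero

theorem deriv_chi_nonneg (s : ℝ) : 0 ≤ deriv chi s := chi_mono.deriv_nonneg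

theorem hasDerivAt_chi (s : ℝ) : HasDerivAt chi (deriv chi s) s :=
  ((chi_contDiff (n := ⊤)).differentiable (by norm_num) s).hasDerivAt

theorem Ee_eq {s : ℝ} (hs : 0 < s) : Ee N s = 4 * deriv chi s * s ^ (1 - (N : ℝ) / 2) := by
  have h1 : HasDerivAt (th N) (deriv chi s * s ^ (-(N : ℝ) / 2)
      + chi s * (-(N : ℝ) / 2 * s ^ (-(N : ℝ) / 2 - 1))) s := by
    unfold th
    exact (hasDerivAt_chi s).mul (Real.hasDerivAt_rpow_const (Or.inl hs.ne'))
  unfold Ee
  rw [h1.deriv]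
  have h2 : s ^ (1 - (N : ℝ) / 2) = s * s ^ (-(N : ℝ) / 2) := by
    rw [show 1 - (N : ℝ) / 2 = 1 + (-(N : ℝ) / 2) by ring, Real.rpow_add hs, Real.rpow_one]
  have h3 : s ^ (-(N : ℝ) / 2) = s * s ^ (-(N : ℝ) / 2 - 1) := by
    rw [show -(N : ℝ) / 2 = 1 + (-(N : ℝ) / 2 - 1) by ring, Real.rpow_add hs, Real.rpow_one]
    ring_nf
  rw [h2]
  unfold th
  linear_combination (2 * N * chi s) * h3

theorem Ee_zero {s : ℝ} (h : s ≤ 1 / 4 ∨ 1 ≤ s) : Ee N s = 0 := by
  rcases h with h | h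
  · have : IsLocalMin (th N) s := by
      refine Eventually.of_forall fun t => ?_
      rw [th_zero h]; exact th_nonneg t
    unfold Ee
    rw [this.deriv_eq_zero, th_zero h]; ring
  · rw [Ee_eq (by linarith), deriv_chi_zero (Or.inr h)]; ring

theorem Ee_nonneg (s : ℝ) : 0 ≤ Ee N s := by
  rcases le_or_gt s (1 / 4) with h | h
  · rw [Ee_zero (Or.inl h)]
  · have hs : 0 < s := by linarith
    rw [Ee_eq hs]
    have := deriv_chi_nonneg s
    positivity

theorem deriv_th_contDiff : ContDiff ℝ ∞ (deriv (th N)) := by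
  have h : ContDiff ℝ (∞ + 1) (th N) := by simpa using (th_contDiff (N := N))
  exact (contDiff_succ_iff_deriv.1 h).2.2

theorem Ee_contDiff : ContDiff ℝ ∞ (Ee N) := by
  unfold Ee
  exact ((contDiff_const.mul contDiff_id).mul deriv_th_contDiff).add
    (contDiff_const.mul th_contDiff)

theorem Ee_cont : Continuous (Ee N) := Ee_contDiff.continuous

/-- a bound for `Ee` -/
theorem Ee_bdd (N : ℕ) : ∃ C : ℝ, 0 < C ∧ ∀ s, Ee N s ≤ C := by
  obtain ⟨C, hC⟩ := (isCompact_Icc (a := (0 : ℝ)) (b := 1)).exists_bound_of_continuousOn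
    (Ee_cont (N := N)).continuousOn
  refine ⟨max C 1, lt_of_lt_of_le one_pos (le_max_right _ _), fun s => ?_⟩
  by_cases h : s ∈ Icc (0 : ℝ) 1
  · exact ((le_abs_self _).trans (hC s h)).trans (le_max_left _ _)
  · rw [Ee_zero]
    · exact le_trans zero_le_one (le_max_right _ _)
    · by_contra hc
      push Not at hc
      exact h ⟨by linarith [hc.1], hc.2.le⟩

/-- the mollified kernel at scale `t` -/
noncomputable def Psi (t : ℝ) (z : E N) : ℝ := (t ^ (N - 2))⁻¹ * P N (‖z‖ ^ 2 / t ^ 2)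

/-- minus its Laplacian -/
noncomputable def eta (t : ℝ) (z : E N) : ℝ := (t ^ N)⁻¹ * Ee N (‖z‖ ^ 2 / t ^ 2)

/-- the singular kernel -/
noncomputable def G (z : E N) : ℝ := 2 / ((N : ℝ) - 2) * (‖z‖ ^ (N - 2))⁻¹

theorem Psi_neg (t : ℝ) (z : E N) : Psi t (-z) = Psi t z := by unfold Psi; rw [norm_neg]

theorem eta_neg (t : ℝ) (z : E N) : eta t (-z) = eta t z := by unfold eta; rw [norm_neg]

theorem G_neg (z : E N) : G (-z) = G z := by unfold G; rw [norm_neg]

theorem normsq_contDiff : ContDiff ℝ ∞ (fun z : E N => ‖z‖ ^ 2) := contDiff_norm_sq ℝ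

theorem Psi_contDiff (t : ℝ) : ContDiff ℝ ∞ (Psi (N := N) t) := by
  unfold Psi
  exact contDiff_const.mul (P_contDiff.comp (normsq_contDiff.div_const _))

theorem eta_contDiff (t : ℝ) : ContDiff ℝ ∞ (eta (N := N) t) := by
  unfold eta
  exact contDiff_const.mul (Ee_contDiff.comp (normsq_contDiff.div_const _))

theorem Psi_pos (h3 : 3 ≤ N) {t : ℝ} (ht : 0 < t) (z : E N) : 0 < Psi t z := by
  unfold Psi
  have := P_pos h3 (‖z‖ ^ 2 / t ^ 2)
  positivity

theorem eta_nonneg {t : ℝ} (ht : 0 < t) (z : E N) : 0 ≤ eta t z := by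
  unfold eta
  have := Ee_nonneg (N := N) (‖z‖ ^ 2 / t ^ 2)
  positivity

theorem eta_zero {t : ℝ} (ht : 0 < t) {z : E N} (h : ‖z‖ ≤ t / 2 ∨ t ≤ ‖z‖) : eta t z = 0 := by
  unfold eta
  rw [Ee_zero, mul_zero]
  rcases h with h | h
  · left
    rw [div_le_iff₀ (by positivity)]
    nlinarith [norm_nonneg z]
  · right
    rw [le_div_iff₀ (by positivity)]
    nlinarith [norm_nonneg z]

theorem G_nonneg (h3 : 3 ≤ N) (z : E N) : 0 ≤ G z := by
  have hN : (3 : ℝ) ≤ N := by exact_mod_cast h3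
  have h1 : 0 < (N : ℝ) - 2 := by linarith
  unfold G; positivity

theorem rpow_aux (h3 : 3 ≤ N) {t r : ℝ} (ht : 0 < t) (hr : 0 < r) :
    (t ^ (N - 2))⁻¹ * (r ^ 2 / t ^ 2) ^ (-((N : ℝ) - 2) / 2) = (r ^ (N - 2))⁻¹ := by
  have h1 : (r ^ 2 / t ^ 2) ^ (-((N : ℝ) - 2) / 2) = ((r / t) ^ (N - 2))⁻¹ := by
    rw [← div_pow, ← Real.rpow_natCast (r / t) 2, ← Real.rpow_mul (by positivity),
      ← Real.rpow_natCast (r / t) (N - 2), ← Real.rpow_neg (by positivity)]
    congr 1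
    rw [Nat.cast_sub (by omega)]
    push_cast
    ring
  rw [h1, div_pow]
  field_simp

theorem Psi_far (h3 : 3 ≤ N) {t : ℝ} (ht : 0 < t) {z : E N} (h : t ≤ ‖z‖) : Psi t z = G z := by
  unfold Psi G
  have hz : 0 < ‖z‖ := lt_of_lt_of_le ht h
  rw [P_eq h3 (by
    rw [le_div_iff₀ (by positivity)]
    nlinarith), ← rpow_aux h3 ht hz]
  ring

theorem Psi_le_G (h3 : 3 ≤ N) {t : ℝ} (ht : 0 < t) {z : E N} (h : z ≠ 0) : Psi t z ≤ G z := by
  unfold Psi G
  have hz : 0 < ‖z‖ := norm_pos_iff.2 h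
  have h1 := P_le h3 (s := ‖z‖ ^ 2 / t ^ 2) (by positivity)
  have h2 : 0 < (t ^ (N - 2))⁻¹ := by positivity
  refine (mul_le_mul_of_nonneg_left h1 h2.le).trans (le_of_eq ?_)
  rw [← rpow_aux h3 ht hz]
  ring

theorem Psi_le {t : ℝ} (ht : 0 < t) (z : E N) : Psi t z ≤ P N 0 * (t ^ (N - 2))⁻¹ := by
  unfold Psi
  rw [mul_comm]
  exact mul_le_mul_of_nonneg_right (P_le_P0 _) (by positivity)

theorem Psi_ge_near {t : ℝ} (ht : 0 < t) {z : E N} (h : ‖z‖ ≤ t) :
    2 / ((N : ℝ) - 2) * (t ^ (N - 2))⁻¹ ≤ Psi t z := by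
  unfold Psi
  rw [mul_comm]
  refine mul_le_mul_of_nonneg_left (P_ge ?_) (by positivity)
  rw [div_le_one (by positivity)]
  nlinarith [norm_nonneg z]

/-- composition with the squared norm -/
theorem lap_radial {b : ℝ → ℝ} (hb : ContDiff ℝ 2 b) (z : E N) :
    ∑ i, D i (D i (fun y : E N => b (‖y‖ ^ 2))) z
      = 4 * ‖z‖ ^ 2 * deriv (deriv b) (‖z‖ ^ 2) + 2 * N * deriv b (‖z‖ ^ 2) := by
  have hq : (fun y : E N => b (‖y‖ ^ 2)) = fun y => b (q 0 0 y) := by
    funext y; unfold q; simp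
  have hqz : q 0 0 z = ‖z‖ ^ 2 := by unfold q; simp
  rw [hq]
  have h1 : ∀ i, D i (D i (fun y : E N => b (q 0 0 y))) z
      = deriv b (‖z‖ ^ 2) * 2 + deriv (deriv b) (‖z‖ ^ 2) * (4 * (inner ℝ (0 - z) (bv i)) ^ 2) := by
    intro i
    rw [DD_comp ((contDiff_q 0 0).of_le (by norm_cast)) hb i z, DD_q, D_q, hqz]
    ring
  simp only [h1]
  rw [Finset.sum_add_distrib, ← Finset.mul_sum, ← Finset.mul_sum, ← Finset.mul_sum, sum_inner_sq]
  simp only [Finset.sum_const, Finset.card_univ, Fintype.card_fin, nsmul_eq_mul, zero_sub, norm_neg]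
  ring

theorem lap_Psi {t : ℝ} (h3 : 3 ≤ N) (ht : 0 < t) (z : E N) :
    ∑ i, D i (D i (Psi t)) z = - eta t z := by
  set b : ℝ → ℝ := fun s => (t ^ (N - 2))⁻¹ * P N (s / t ^ 2) with hb
  have hb' : ∀ s, HasDerivAt b (-((t ^ N)⁻¹ * th N (s / t ^ 2))) s := by
    intro s
    have h1 : HasDerivAt (fun s : ℝ => s / t ^ 2) (1 / t ^ 2) s := (hasDerivAt_id s).div_const _
    have h2 := ((hasDerivAt_P (N := N) (s / t ^ 2)).comp s h1).const_mul ((t ^ (N - 2))⁻¹)
    refine HasDerivAt.congr_deriv (f := b) h2 ?_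
    have h4 : t ^ N = t ^ (N - 2) * t ^ 2 := by rw [← pow_add]; congr 1; omega
    rw [h4]
    field_simp
  have hd1 : deriv b = fun s => -((t ^ N)⁻¹ * th N (s / t ^ 2)) := by
    funext s; exact (hb' s).deriv
  have hd2 : deriv (deriv b) (‖z‖ ^ 2)
      = -((t ^ N)⁻¹ * (deriv (th N) (‖z‖ ^ 2 / t ^ 2) * (1 / t ^ 2))) := by
    rw [hd1]
    have h1 : HasDerivAt (fun s : ℝ => s / t ^ 2) (1 / t ^ 2) (‖z‖ ^ 2) :=
      (hasDerivAt_id _).div_const _
    have h2 : HasDerivAt (th N) (deriv (th N) (‖z‖ ^ 2 / t ^ 2)) (‖z‖ ^ 2 / t ^ 2) :=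
      (th_contDiff.differentiable (by norm_num) _).hasDerivAt
    exact (((h2.comp (‖z‖ ^ 2) h1).const_mul ((t ^ N)⁻¹)).neg).deriv
  have hbc : ContDiff ℝ 2 b := by
    have : ContDiff ℝ ∞ b := by
      rw [hb]
      exact contDiff_const.mul (P_contDiff.comp (contDiff_id.div_const _))
    exact this.of_le (by norm_cast)
  have hPsi : Psi (N := N) t = fun y => b (‖y‖ ^ 2) := by
    funext y; rfl
  rw [hPsi, lap_radial hbc, hd2, hd1]
  unfold eta Ee
  have : t ≠ 0 := ht.ne'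
  field_simp
  ring

/-- total mass of `eta` -/
noncomputable def bN (N : ℕ) : ℝ := 2 * N * (volume (ball (0 : E N) 1)).toReal

theorem bN_pos (h3 : 3 ≤ N) : 0 < bN N := by
  unfold bN
  have h1 : 0 < (volume (ball (0 : E N) 1)).toReal :=
    ENNReal.toReal_pos (measure_ball_pos _ _ one_pos).ne' measure_ball_lt_top.ne
  have h2 : (0 : ℝ) < N := by exact_mod_cast (by omega : 0 < N)
  positivity

theorem integral_Ee (h3 : 3 ≤ N) : ∫ z : E N, Ee N (‖z‖ ^ 2) = bN N := by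
  have : Nonempty (Fin N) := ⟨⟨0, by omega⟩⟩
  have h1 := integral_fun_norm_addHaar (volume : Measure (E N)) (fun r : ℝ => Ee N (r ^ 2))
  rw [h1]
  have h2 : ∫ y in Ioi (0 : ℝ), y ^ (finrank ℝ (E N) - 1) • Ee N (y ^ 2) = 2 := by
    have h3' : ∀ y ∈ Ioi (0 : ℝ), y ^ (finrank ℝ (E N) - 1) • Ee N (y ^ 2)
        = 2 * (deriv chi (y ^ 2) * (2 * y)) := by
      intro y hy
      have hy0 : 0 < y := hy
      rw [Ee_eq (by positivity), finrank_euclideanSpace, Fintype.card_fin, smul_eq_mul]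
      have h4 : (y ^ 2) ^ (1 - (N : ℝ) / 2) * y ^ (N - 1) = y := by
        rw [← Real.rpow_natCast y 2, ← Real.rpow_mul hy0.le, ← Real.rpow_natCast y (N - 1),
          ← Real.rpow_add hy0, Nat.cast_sub (by omega)]
        have : ((2 : ℕ) : ℝ) * (1 - (N : ℝ) / 2) + ((N : ℝ) - ((1 : ℕ) : ℝ)) = 1 := by
          push_cast; ring
        rw [this, Real.rpow_one]
      calc y ^ (N - 1) * (4 * deriv chi (y ^ 2) * (y ^ 2) ^ (1 - (N : ℝ) / 2))
          = 4 * deriv chi (y ^ 2) * ((y ^ 2) ^ (1 - (N : ℝ) / 2) * y ^ (N - 1)) := by ring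
        _ = _ := by rw [h4]; ring
    rw [setIntegral_congr_fun measurableSet_Ioi h3']
    have h5 : ∀ y ∈ Ici (0 : ℝ), HasDerivAt (fun y : ℝ => 2 * chi (y ^ 2))
        (2 * (deriv chi (y ^ 2) * (2 * y))) y := by
      intro y _
      have h6 : HasDerivAt (fun y : ℝ => y ^ 2) (2 * y) y := by simpa using hasDerivAt_pow 2 y
      exact ((hasDerivAt_chi (y ^ 2)).comp y h6).const_mul 2
    rw [integral_Ioi_of_hasDerivAt_of_nonneg' (l := 2) h5]
    · rw [chi_zero (by norm_num)]; norm_num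
    · intro y hy
      have hy0 : 0 < y := hy
      have := deriv_chi_nonneg (y ^ 2)
      positivity
    · refine tendsto_const_nhds.congr' ?_
      filter_upwards [eventually_ge_atTop (1 : ℝ)] with y hy
      rw [chi_one (by nlinarith)]; norm_num
  rw [h2]
  unfold bN
  rw [finrank_euclideanSpace, Fintype.card_fin]
  simp [Measure.real]
  ring

theorem integral_eta (h3 : 3 ≤ N) {t : ℝ} (ht : 0 < t) : ∫ z : E N, eta t z = bN N := by
  have h1 := Measure.integral_comp_smul (volume : Measure (E N)) (fun z : E N => eta t z) t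
  rw [finrank_euclideanSpace, Fintype.card_fin, abs_of_pos (by positivity), smul_eq_mul] at h1
  have h2 : ∫ z : E N, eta t (t • z) = (t ^ N)⁻¹ * bN N := by
    rw [← integral_Ee h3, ← integral_const_mul]
    congr 1
    funext z
    unfold eta
    rw [norm_smul, Real.norm_of_nonneg ht.le]
    congr 2
    field_simp
  rw [h2] at h1
  have h3 : (t ^ N)⁻¹ ≠ 0 := by positivity
  exact (mul_left_cancel₀ h3 h1).symm

end Pool.Agent.Helper60.GM67
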