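import Mathlib

/-! Completeness of `L¹` for functions. -/

namespace Pool.Agent.Helper60.GM67

open MeasureTheory Filter Topology

theorem L1_complete {α : Type*} [MeasurableSpace α] {μ : Measure α} (f : ℕ → α → ℝ)
    (hf : ∀ n, Integrable (f n) μ)
    (hc : ∀ ε > 0, ∃ n0, ∀ m ≥ n0, ∀ n ≥ n0, ∫ x, |f m x - f n x| ∂μ ≤ ε) :
    ∃ w, Integrable w μ ∧ Tendsto (fun n => ∫ x, |f n x - w x| ∂μ) atTop (𝓝 0) := by
  set F : ℕ → (α →₁[μ] ℝ) := fun n => (hf n).toL1 (f n) with hF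
  have hd : ∀ (a b : α → ℝ) (ha : Integrable a μ) (hb : Integrable b μ),
      dist (ha.toL1 a) (hb.toL1 b) = ∫ x, |a x - b x| ∂μ := by
    intro a b ha hb
    rw [dist_eq_norm, ← Integrable.toL1_sub, L1.norm_of_fun_eq_integral_norm]
    rfl
  have hcs : CauchySeq F := by
    rw [Metric.cauchySeq_iff]
    intro ε hε
    obtain ⟨n0, hn0⟩ := hc (ε / 2) (by positivity)
    refine ⟨n0, fun m hm n hn => ?_⟩
    rw [hd]
    linarith [hn0 m hm n hn]
  obtain ⟨W, hW⟩ := cauchySeq_tendsto_of_complete hcs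
  refine ⟨W, L1.integrable_coeFn W, ?_⟩
  rw [tendsto_iff_dist_tendsto_zero] at hW
  refine hW.congr fun n => ?_
  rw [← hd _ _ (hf n) (L1.integrable_coeFn W), Integrable.toL1_coeFn]

theorem ae_subseq {α : Type*} [MeasurableSpace α] {μ : Measure α} (f : ℕ → α → ℝ) {w : α → ℝ}
    (hf : ∀ n, Integrable (f n) μ) (hw : Integrable w μ)
    (h : Tendsto (fun n => ∫ x, |f n x - w x| ∂μ) atTop (𝓝 0)) :
    ∃ ns : ℕ → ℕ, StrictMono ns ∧ ∀ᵐ x ∂μ, Tendsto (fun i => f (ns i) x) atTop (𝓝 (w x)) := by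
  have h1 : Tendsto (fun n => eLpNorm (f n - w) 1 μ) atTop (𝓝 0) := by
    have h2 : ∀ n, eLpNorm (f n - w) 1 μ = ENNReal.ofReal (∫ x, |f n x - w x| ∂μ) := by
      intro n
      rw [eLpNorm_one_eq_lintegral_enorm, ← ofReal_integral_norm_eq_lintegral_enorm ((hf n).sub hw)]
      rfl
    simp only [h2]
    have := (ENNReal.continuous_ofReal.tendsto 0).comp h
    rw [ENNReal.ofReal_zero] at this
    exact this
  exact (tendstoInMeasure_of_tendsto_eLpNorm one_ne_zero (fun n => (hf n).1) hw.1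
    h1).exists_seq_tendsto_ae

end Pool.Agent.Helper60.GM67
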