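import Pool.Agent.Helper60.GM67.Ker2

/-! Layer cake representation of the kernels. -/

namespace Pool.Agent.Helper60.GM67

open MeasureTheory Set Metric Filter Topology
open Pool.Agent.R216.VPD (E)
open scoped ENNReal

variable {N : ℕ}

/-- layer cake weight -/
noncomputable def kap (N : ℕ) (t s : ℝ) : ℝ := 2 * chi (s ^ 2 / t ^ 2) * (s ^ (N - 1))⁻¹

theorem kap_nonneg {t s : ℝ} (hs : 0 ≤ s) : 0 ≤ kap N t s := by
  unfold kap
  have := chi_nonneg (s ^ 2 / t ^ 2)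
  positivity

theorem kap_le {t s : ℝ} (hs : 0 ≤ s) : kap N t s ≤ 2 * (s ^ (N - 1))⁻¹ := by
  unfold kap
  have := chi_le_one (s ^ 2 / t ^ 2)
  have h : 0 ≤ (s ^ (N - 1))⁻¹ := by positivity
  nlinarith

theorem kap_one {t s : ℝ} (ht : 0 < t) (hs : t ≤ s) : kap N t s = 2 * (s ^ (N - 1))⁻¹ := by
  unfold kap
  rw [chi_one, mul_one]
  rw [le_div_iff₀ (by positivity)]
  nlinarith

theorem kap_zero {t s : ℝ} (ht : 0 < t) (hs0 : 0 ≤ s) (hs : s ≤ t / 2) : kap N t s = 0 := by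
  unfold kap
  rw [chi_zero, mul_zero, zero_mul]
  rw [div_le_iff₀ (by positivity)]
  nlinarith

theorem kap_anti {t T s : ℝ} (ht : 0 < t) (htT : t ≤ T) (hs : 0 ≤ s) : kap N T s ≤ kap N t s := by
  unfold kap
  have h1 : chi (s ^ 2 / T ^ 2) ≤ chi (s ^ 2 / t ^ 2) := by
    apply chi_mono
    gcongr
  have h : 0 ≤ (s ^ (N - 1))⁻¹ := by positivity
  gcongr

theorem measurable_kap (t : ℝ) : Measurable (kap N t) := by
  unfold kap
  have h1 : Measurable chi := (chi_contDiff (n := 0)).continuous.measurable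
  exact ((h1.comp (by fun_prop)).const_mul 2).mul ((measurable_id.pow_const _).inv)

theorem hasDerivAt_prof {t τ : ℝ} (h3 : 3 ≤ N) (ht : 0 < t) (hτ : 0 ≤ τ) :
    HasDerivAt (fun τ : ℝ => (t ^ (N - 2))⁻¹ * P N (τ ^ 2 / t ^ 2)) (-(kap N t τ)) τ := by
  have h1 : HasDerivAt (fun τ : ℝ => τ ^ 2 / t ^ 2) (2 * τ / t ^ 2) τ := by
    have : HasDerivAt (fun y : ℝ => y ^ 2) (2 * τ) τ := by simpa using hasDerivAt_pow 2 τ
    exact this.div_const _
  have h2 := ((hasDerivAt_P (N := N) (τ ^ 2 / t ^ 2)).comp τ h1).const_mul ((t ^ (N - 2))⁻¹)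
  refine HasDerivAt.congr_deriv h2 ?_
  unfold kap th
  rcases eq_or_lt_of_le hτ with h | h
  · rw [← h, chi_zero (by simp)]; simp
  · have h3' : (τ ^ 2 / t ^ 2) ^ (-(N : ℝ) / 2) = t ^ N * (τ ^ N)⁻¹ := by
      rw [← div_pow, ← Real.rpow_natCast (τ / t) 2, ← Real.rpow_mul (by positivity)]
      have : ((2 : ℕ) : ℝ) * (-(N : ℝ) / 2) = -(N : ℝ) := by push_cast; ring
      rw [this, Real.rpow_neg (by positivity), Real.rpow_natCast, div_pow, inv_div]
      rfl
    rw [h3']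
    have h4 : t ^ N = t ^ (N - 2) * t ^ 2 := by rw [← pow_add]; congr 1; omega
    have h5 : τ ^ N = τ ^ (N - 1) * τ := by rw [← pow_succ]; congr 1; omega
    rw [h4, h5]
    field_simp

theorem tendsto_prof {t : ℝ} (h3 : 3 ≤ N) (ht : 0 < t) :
    Tendsto (fun τ : ℝ => (t ^ (N - 2))⁻¹ * P N (τ ^ 2 / t ^ 2)) atTop (𝓝 0) := by
  have h1 : Tendsto (fun τ : ℝ => 2 / ((N : ℝ) - 2) * (τ ^ (N - 2))⁻¹) atTop
      (𝓝 (2 / ((N : ℝ) - 2) * 0)) :=
    (tendsto_inv_atTop_zero.comp (tendsto_pow_atTop (by omega))).const_mul _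
  rw [mul_zero] at h1
  refine h1.congr' ?_
  filter_upwards [eventually_ge_atTop t] with τ hτ
  have hτ0 : 0 < τ := lt_of_lt_of_le ht hτ
  rw [P_eq h3 (by
    rw [le_div_iff₀ (by positivity)]
    nlinarith), ← rpow_aux h3 ht hτ0]
  ring

theorem lay_int {t a : ℝ} (h3 : 3 ≤ N) (ht : 0 < t) (ha : 0 ≤ a) :
    IntegrableOn (kap N t) (Ioi a) ∧
    ∫ s in Ioi a, kap N t s = (t ^ (N - 2))⁻¹ * P N (a ^ 2 / t ^ 2) := by
  have hd : ∀ x ∈ Ici a, HasDerivAt (fun τ : ℝ => (t ^ (N - 2))⁻¹ * P N (τ ^ 2 / t ^ 2))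
      (-(kap N t x)) x := fun x hx => hasDerivAt_prof h3 ht (ha.trans hx)
  have hn : ∀ x ∈ Ioi a, -(kap N t x) ≤ 0 := fun x hx =>
    neg_nonpos.2 (kap_nonneg (ha.trans (le_of_lt hx)))
  have h1 := integral_Ioi_of_hasDerivAt_of_nonpos' hd hn (tendsto_prof h3 ht)
  have h2 := integrableOn_Ioi_deriv_of_nonpos' hd hn (tendsto_prof h3 ht)
  constructor
  · simpa using h2.neg
  · rw [integral_neg] at h1
    linarith

theorem Psi_lay {t : ℝ} (h3 : 3 ≤ N) (ht : 0 < t) (z : E N) :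
    Psi t z = ∫ s in Ioi ‖z‖, kap N t s := by
  rw [(lay_int h3 ht (norm_nonneg z)).2]; rfl

theorem Psi_anti {t T : ℝ} (h3 : 3 ≤ N) (ht : 0 < t) (htT : t ≤ T) (z : E N) :
    Psi T z ≤ Psi t z := by
  rw [Psi_lay h3 ht, Psi_lay h3 (ht.trans_le htT)]
  refine setIntegral_mono_on (lay_int h3 (ht.trans_le htT) (norm_nonneg z)).1
    (lay_int h3 ht (norm_nonneg z)).1 measurableSet_Ioi fun s hs => ?_
  exact kap_anti ht htT ((norm_nonneg z).trans (le_of_lt hs))

theorem Psi_lay_lint {t : ℝ} (h3 : 3 ≤ N) (ht : 0 < t) (z : E N) :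
    ENNReal.ofReal (Psi t z) = ∫⁻ s in Ici ‖z‖, ENNReal.ofReal (kap N t s) := by
  rw [Psi_lay h3 ht, setLIntegral_congr Ioi_ae_eq_Ici.symm]
  rw [ofReal_integral_eq_lintegral_ofReal (lay_int h3 ht (norm_nonneg z)).1]
  filter_upwards [ae_restrict_mem measurableSet_Ioi] with s hs
  exact kap_nonneg ((norm_nonneg z).trans (le_of_lt hs))

/-- differences of kernels -/
noncomputable def zet (r R : ℝ) (z : E N) : ℝ := Psi r z - Psi R z

theorem zet_lay_lint {r R : ℝ} (h3 : 3 ≤ N) (hr : 0 < r) (hrR : r ≤ R) (z : E N) :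
    ENNReal.ofReal (zet r R z) = ∫⁻ s in Ici ‖z‖, ENNReal.ofReal (kap N r s - kap N R s) := by
  have hR := hr.trans_le hrR
  unfold zet
  rw [Psi_lay h3 hr, Psi_lay h3 hR, setLIntegral_congr Ioi_ae_eq_Ici.symm,
    ← integral_sub (lay_int h3 hr (norm_nonneg z)).1 (lay_int h3 hR (norm_nonneg z)).1]
  have hi : Integrable (fun s => kap N r s - kap N R s) (volume.restrict (Ioi ‖z‖)) :=
    (lay_int h3 hr (norm_nonneg z)).1.sub (lay_int h3 hR (norm_nonneg z)).1
  rw [ofReal_integral_eq_lintegral_ofReal hi]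
  filter_upwards [ae_restrict_mem measurableSet_Ioi] with s hs
  exact sub_nonneg.2 (kap_anti hr hrR ((norm_nonneg z).trans (le_of_lt hs)))

theorem zet_nonneg {r R : ℝ} (h3 : 3 ≤ N) (hr : 0 < r) (hrR : r ≤ R) (z : E N) :
    0 ≤ zet r R z := sub_nonneg.2 (Psi_anti h3 hr hrR z)

theorem zet_zero {r R : ℝ} (h3 : 3 ≤ N) (hr : 0 < r) (hrR : r ≤ R) {z : E N} (hz : R ≤ ‖z‖) :
    zet r R z = 0 := by
  unfold zet
  rw [Psi_far h3 hr (hrR.trans hz), Psi_far h3 (hr.trans_le hrR) hz, sub_self]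

/-- Tonelli -/
theorem cake (k : ℝ → ℝ≥0∞) (hk : Measurable k) (ν : Measure (E N)) [SFinite ν] (x : E N) :
    ∫⁻ y, (∫⁻ s in Ici ‖x - y‖, k s) ∂ν = ∫⁻ s in Ici 0, k s * ν (closedBall x s) := by
  have hm : MeasurableSet {p : E N × ℝ | ‖x - p.1‖ ≤ p.2} :=
    measurableSet_le (by fun_prop) (by fun_prop)
  have h1 : ∀ y : E N, ∫⁻ s in Ici ‖x - y‖, k s
      = ∫⁻ s, {p : E N × ℝ | ‖x - p.1‖ ≤ p.2}.indicator (fun p => k p.2) (y, s) := by
    intro y
    rw [← lintegral_indicator measurableSet_Ici]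
    rfl
  simp only [h1]
  rw [lintegral_lintegral_swap, ← lintegral_indicator measurableSet_Ici]
  · refine lintegral_congr fun s => ?_
    by_cases hs : s ∈ Ici (0 : ℝ)
    · rw [indicator_of_mem hs]
      have h2 : ∀ y, {p : E N × ℝ | ‖x - p.1‖ ≤ p.2}.indicator (fun p => k p.2) (y, s)
          = (closedBall x s).indicator (fun _ => k s) y := by
        intro y
        by_cases hy : ‖x - y‖ ≤ s
        · rw [indicator_of_mem (by exact hy), indicator_of_mem]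
          rw [mem_closedBall, dist_comm, dist_eq_norm]; exact hy
        · rw [indicator_of_notMem (by exact hy), indicator_of_notMem]
          rw [mem_closedBall, dist_comm, dist_eq_norm]; exact hy
      simp only [h2]
      rw [lintegral_indicator measurableSet_closedBall, setLIntegral_const]
    · rw [indicator_of_notMem hs]
      have h2 : ∀ y, {p : E N × ℝ | ‖x - p.1‖ ≤ p.2}.indicator (fun p => k p.2) (y, s) = 0 := by
        intro y
        rw [indicator_of_notMem]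
        intro h
        exact hs ((norm_nonneg _).trans h)
      simp only [h2]
      simp
  · exact ((hk.comp measurable_snd).indicator hm).aemeasurable

end Pool.Agent.Helper60.GM67
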