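import Pool.Agent.Helper60.GM67.TCalc

/-! The singular truncated kernel and the linear problem with measure data. -/

namespace Pool.Agent.Helper60.GM67

open MeasureTheory Set Metric Filter Topology
open Pool.Agent.R216.VPD (E D bv D_congr_nhds D_congr)
open scoped ENNReal

variable {N : ℕ}

/-- singular truncated kernel -/
noncomputable def zs (r : ℝ) (z : E N) : ℝ := G z - Psi r z

theorem measurable_G : Measurable (G (N := N)) := by
  unfold G
  exact ((measurable_norm.pow_const _).inv).const_mul _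

theorem measurable_zs (r : ℝ) : Measurable (zs (N := N) r) :=
  measurable_G.sub (Psi_contDiff r).continuous.measurable

theorem zs_nonneg (h3 : 3 ≤ N) {r : ℝ} (hr : 0 < r) {z : E N} (hz : z ≠ 0) : 0 ≤ zs r z :=
  sub_nonneg.2 (Psi_le_G h3 hr hz)

theorem zs_zero (h3 : 3 ≤ N) {r : ℝ} (hr : 0 < r) {z : E N} (hz : r ≤ ‖z‖) : zs r z = 0 := by
  unfold zs
  rw [Psi_far h3 hr hz, sub_self]

theorem zs_le_G (h3 : 3 ≤ N) {r : ℝ} (hr : 0 < r) (z : E N) : zs r z ≤ G z := by
  unfold zs
  linarith [Psi_pos h3 hr z]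

theorem zs_sub (ρ r : ℝ) (z : E N) : zs r z = zs ρ z + zet ρ r z := by
  unfold zs zet; ring

theorem G_lay (h3 : 3 ≤ N) {z : E N} (hz : z ≠ 0) :
    IntegrableOn (fun s : ℝ => 2 * (s ^ (N - 1))⁻¹) (Ioi ‖z‖) ∧
    G z = ∫ s in Ioi ‖z‖, 2 * (s ^ (N - 1))⁻¹ := by
  have hz' : 0 < ‖z‖ := norm_pos_iff.2 hz
  have h1 : ∀ s ∈ Ioi ‖z‖, kap N ‖z‖ s = 2 * (s ^ (N - 1))⁻¹ := fun s hs =>
    kap_one hz' (le_of_lt hs)
  constructor
  · exact (integrableOn_congr_fun h1 measurableSet_Ioi).1 (lay_int h3 hz' (norm_nonneg z)).1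
  · rw [← Psi_far h3 hz' le_rfl, Psi_lay h3 hz']
    exact setIntegral_congr_fun measurableSet_Ioi h1

theorem zs_lay_lint (h3 : 3 ≤ N) {r : ℝ} (hr : 0 < r) {z : E N} (hz : z ≠ 0) :
    ENNReal.ofReal (zs r z)
      = ∫⁻ s in Ici ‖z‖, ENNReal.ofReal (2 * (s ^ (N - 1))⁻¹ - kap N r s) := by
  obtain ⟨h1, h2⟩ := G_lay h3 hz
  have h4 := (lay_int (a := ‖z‖) h3 hr (norm_nonneg z)).1
  unfold zs
  rw [h2, Psi_lay h3 hr, ← integral_sub h1 h4, setLIntegral_congr Ioi_ae_eq_Ici.symm]
  have hi : Integrable (fun s => 2 * (s ^ (N - 1))⁻¹ - kap N r s) (volume.restrict (Ioi ‖z‖)) :=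
    h1.sub h4
  rw [ofReal_integral_eq_lintegral_ofReal hi]
  filter_upwards [ae_restrict_mem measurableSet_Ioi] with s hs
  exact sub_nonneg.2 (kap_le ((norm_nonneg z).trans (le_of_lt hs)))

/-- volume of the unit ball -/
noncomputable def omN (N : ℕ) : ℝ := (volume (ball (0 : E N) 1)).toReal

theorem vol_cball (x : E N) {s : ℝ} (hs : 0 ≤ s) :
    volume (closedBall x s) = ENNReal.ofReal (s ^ N * omN N) := by
  rw [Measure.addHaar_closedBall _ _ hs]
  simp only [finrank_euclideanSpace, Fintype.card_fin]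
  rw [ENNReal.ofReal_mul (by positivity)]
  congr 1
  rw [omN, ENNReal.ofReal_toReal measure_ball_lt_top.ne]

theorem omN_pos : 0 < omN N :=
  ENNReal.toReal_pos (measure_ball_pos _ _ one_pos).ne' measure_ball_lt_top.ne

theorem ae_ne_zero (h3 : 3 ≤ N) : ∀ᵐ z : E N, z ≠ 0 := by
  have : Nonempty (Fin N) := ⟨⟨0, by omega⟩⟩
  exact Measure.ae_ne volume 0

theorem zs_lint (h3 : 3 ≤ N) {r : ℝ} (hr : 0 < r) :
    ∫⁻ z : E N, ENNReal.ofReal (zs r z) ≤ ENNReal.ofReal (2 * omN N * r ^ 2) := by
  have h1 : ∫⁻ z : E N, ENNReal.ofReal (zs r z) = ∫⁻ z : E N, ∫⁻ s in Ici ‖(0 : E N) - z‖,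
      ENNReal.ofReal (2 * (s ^ (N - 1))⁻¹ - kap N r s) := by
    refine lintegral_congr_ae ?_
    filter_upwards [ae_ne_zero h3] with z hz
    rw [zs_lay_lint h3 hr hz, zero_sub, norm_neg]
  have hm : Measurable (fun s : ℝ => ENNReal.ofReal (2 * (s ^ (N - 1))⁻¹ - kap N r s)) := by
    refine ENNReal.measurable_ofReal.comp (Measurable.sub ?_ (measurable_kap r))
    exact ((measurable_id.pow_const _).inv).const_mul _
  rw [h1, cake _ hm]
  have h2 : ∀ s ∈ Ici (0 : ℝ), ENNReal.ofReal (2 * (s ^ (N - 1))⁻¹ - kap N r s)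
      * volume (closedBall (0 : E N) s)
      ≤ (Icc (0 : ℝ) r).indicator (fun _ => ENNReal.ofReal (2 * omN N * r)) s := by
    intro s hs
    have hs0 : 0 ≤ s := hs
    by_cases hsr : s ≤ r
    · rw [indicator_of_mem (show s ∈ Icc (0 : ℝ) r from ⟨hs0, hsr⟩), vol_cball _ hs0, ← ENNReal.ofReal_mul' (by
        have := omN_pos (N := N); positivity)]
      refine ENNReal.ofReal_le_ofReal ?_
      have hk := kap_nonneg (N := N) (t := r) hs0
      have hom := omN_pos (N := N)
      calc (2 * (s ^ (N - 1))⁻¹ - kap N r s) * (s ^ N * omN N)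
          ≤ (2 * (s ^ (N - 1))⁻¹) * (s ^ N * omN N) := by
            refine mul_le_mul_of_nonneg_right (by linarith) (by positivity)
        _ = 2 * omN N * (s ^ N * (s ^ (N - 1))⁻¹) := by ring
        _ ≤ 2 * omN N * r := by
            refine mul_le_mul_of_nonneg_left ?_ (by positivity)
            rcases eq_or_lt_of_le hs0 with h | h
            · rw [← h, zero_pow (by omega), zero_mul]; exact hr.le
            · have : s ^ N = s ^ (N - 1) * s := by rw [← pow_succ]; congr 1; omega
              rw [this]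
              field_simp
              exact hsr
    · rw [indicator_of_notMem (fun h => hsr h.2), kap_one hr (le_of_not_ge hsr)]
      simp
  refine (setLIntegral_mono_ae' measurableSet_Ici (Eventually.of_forall h2)).trans ?_
  refine (setLIntegral_le_lintegral _ _).trans ?_
  rw [lintegral_indicator measurableSet_Icc, setLIntegral_const, Real.volume_Icc, sub_zero,
    ← ENNReal.ofReal_mul (by have := omN_pos (N := N); positivity)]
  refine ENNReal.ofReal_le_ofReal ?_
  ring_nf
  exact le_rfl

theorem zs_ae_nonneg (h3 : 3 ≤ N) {r : ℝ} (hr : 0 < r) : 0 ≤ᵐ[volume] (zs (N := N) r) := by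
  filter_upwards [ae_ne_zero h3] with z hz
  exact zs_nonneg h3 hr hz

theorem zs_integrable (h3 : 3 ≤ N) {r : ℝ} (hr : 0 < r) : Integrable (zs (N := N) r) := by
  refine (lintegral_ofReal_ne_top_iff_integrable (measurable_zs r).aestronglyMeasurable
    (zs_ae_nonneg h3 hr)).1 ?_
  exact ((zs_lint h3 hr).trans_lt ENNReal.ofReal_lt_top).ne

theorem zs_L1 (h3 : 3 ≤ N) {r : ℝ} (hr : 0 < r) : ∫ z : E N, |zs r z| ≤ 2 * omN N * r ^ 2 := by
  have h1 : ∫ z : E N, |zs r z| = ∫ z : E N, zs r z := by
    refine integral_congr_ae ?_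
    filter_upwards [zs_ae_nonneg h3 hr] with z hz
    exact abs_of_nonneg hz
  rw [h1, integral_eq_lintegral_of_nonneg_ae (zs_ae_nonneg h3 hr)
    (measurable_zs r).aestronglyMeasurable]
  have hom := omN_pos (N := N)
  exact ENNReal.toReal_le_of_le_ofReal (by positivity) (zs_lint h3 hr)

/-- Fubini for convolutions -/
theorem cv_fub {κ : E N → ℝ} (hκ : Integrable κ) {m : Measure (E N)} [SFinite m]
    {s : E N → ℝ} (hs : Integrable s m) {h : E N → ℝ} (hm : Measurable h) {C : ℝ}
    (hC : ∀ y, |h y| ≤ C) :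
    ∫ y, cv κ m s y * h y = ∫ x, s x * (∫ y, κ (y - x) * h y) ∂m := by
  have h1 : Integrable (fun p : E N × E N => s p.1 * κ (p.2 - p.1)) (m.prod volume) := by
    have h2 : Integrable (fun p : E N × E N => s p.1 * κ p.2) (m.prod volume) := hs.mul_prod hκ
    have h3 : MeasurePreserving (fun p : E N × E N => (p.1, p.2 - p.1)) (m.prod volume)
        (m.prod volume) := by
      refine MeasurePreserving.skew_product (MeasurePreserving.id m) (g := fun x y => y - x) ?_ ?_
      · exact (measurable_snd.sub measurable_fst)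
      · exact Eventually.of_forall fun x => (measurePreserving_sub_right volume x).map_eq
    exact h3.integrable_comp_of_integrable h2
  have h2 : Integrable (fun p : E N × E N => s p.1 * κ (p.2 - p.1) * h p.2) (m.prod volume) :=
    h1.mul_bdd (c := C) (hm.comp measurable_snd).aestronglyMeasurable
      (Eventually.of_forall fun p => hC _)
  calc ∫ y, cv κ m s y * h y = ∫ y, ∫ x, s x * κ (y - x) * h y ∂m := by
        congr 1
        funext y
        unfold cv
        rw [integral_mul_const]
    _ = ∫ x, ∫ y, s x * κ (y - x) * h y ∂volume ∂m := by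
        rw [integral_integral_swap]
        exact h2.swap
    _ = ∫ x, s x * (∫ y, κ (y - x) * h y) ∂m := by
        congr 1
        funext x
        rw [← integral_const_mul]
        congr 1
        funext y
        ring

theorem cv_fub_int {κ : E N → ℝ} (hκ : Integrable κ) {m : Measure (E N)} [SFinite m]
    {s : E N → ℝ} (hs : Integrable s m) {h : E N → ℝ} (hm : Measurable h) {C : ℝ}
    (hC : ∀ y, |h y| ≤ C) : Integrable (fun x => s x * (∫ y, κ (y - x) * h y)) m := by
  have h1 : Integrable (fun p : E N × E N => s p.1 * κ (p.2 - p.1)) (m.prod volume) := by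
    have h2 : Integrable (fun p : E N × E N => s p.1 * κ p.2) (m.prod volume) := hs.mul_prod hκ
    have h3 : MeasurePreserving (fun p : E N × E N => (p.1, p.2 - p.1)) (m.prod volume)
        (m.prod volume) := by
      refine MeasurePreserving.skew_product (MeasurePreserving.id m) (g := fun x y => y - x) ?_ ?_
      · exact (measurable_snd.sub measurable_fst)
      · exact Eventually.of_forall fun x => (measurePreserving_sub_right volume x).map_eq
    exact h3.integrable_comp_of_integrable h2
  have h2 : Integrable (fun p : E N × E N => s p.1 * κ (p.2 - p.1) * h p.2) (m.prod volume) :=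
    h1.mul_bdd (c := C) (hm.comp measurable_snd).aestronglyMeasurable
      (Eventually.of_forall fun p => hC _)
  refine h2.integral_prod_left.congr (Eventually.of_forall fun x => ?_)
  simp only
  rw [← integral_const_mul]
  congr 1
  funext y
  ring

theorem D_trans {f : E N → ℝ} (x : E N) (i : Fin N) :
    D i (fun y => f (y - x)) = fun y => D i f (y - x) := by
  funext y
  unfold D
  rw [fderiv_comp_sub]

theorem lap_trans {f : E N → ℝ} (x y : E N) : lap (fun y => f (y - x)) y = lap f (y - x) := by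
  unfold lap
  refine Finset.sum_congr rfl fun i _ => ?_
  rw [D_trans, D_trans]

theorem eta_integrable {t : ℝ} (ht : 0 < t) : Integrable (eta (N := N) t) :=
  (eta_contDiff t).continuous.integrable_of_hasCompactSupport (eta_CC ht).2

/-- approximate identity -/
theorem eta_lim (h3 : 3 ≤ N) {ζ : E N → ℝ} (hζ : Continuous ζ) (x : E N) {ρ : ℕ → ℝ}
    (hρ : ∀ n, 0 < ρ n) (hρ0 : Tendsto ρ atTop (𝓝 0)) :
    Tendsto (fun n => ∫ y, eta (ρ n) (y - x) * ζ y) atTop (𝓝 (bN N * ζ x)) := by
  rw [Metric.tendsto_atTop]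
  intro ε hε
  have hb := bN_pos h3
  obtain ⟨δ, hδ, hδ2⟩ := Metric.continuousAt_iff.1 (hζ.continuousAt (x := x)) (ε / (2 * bN N))
    (by positivity)
  obtain ⟨n0, hn0⟩ := Metric.tendsto_atTop.1 hρ0 δ hδ
  refine ⟨n0, fun n hn => ?_⟩
  have hρn : ρ n < δ := by
    have := hn0 n hn
    rw [Real.dist_eq, sub_zero, abs_of_pos (hρ n)] at this
    exact this
  have hi : Integrable (fun y => eta (ρ n) (y - x) * ζ y) := by
    refine Continuous.integrable_of_hasCompactSupport ?_ ?_
    · exact ((eta_contDiff _).continuous.comp (by fun_prop)).mul hζ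
    · refine HasCompactSupport.intro (isCompact_closedBall x (ρ n)) fun y hy => ?_
      rw [mem_closedBall, dist_eq_norm, not_le] at hy
      rw [eta_zero (hρ n) (Or.inr hy.le), zero_mul]
  have hie : Integrable (fun y => eta (ρ n) (y - x)) := (eta_integrable (hρ n)).comp_sub_right x
  have h1 : ∫ y, eta (ρ n) (y - x) = bN N := by
    rw [integral_sub_right_eq_self (fun y => eta (ρ n) y) x, integral_eta h3 (hρ n)]
  have h2 : (∫ y, eta (ρ n) (y - x) * ζ y) - bN N * ζ x
      = ∫ y, eta (ρ n) (y - x) * (ζ y - ζ x) := by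
    rw [← h1, ← integral_mul_const, ← integral_sub hi (hie.mul_const _)]
    congr 1; funext y; ring
  rw [Real.dist_eq, h2]
  calc |∫ y, eta (ρ n) (y - x) * (ζ y - ζ x)|
      ≤ ∫ y, |eta (ρ n) (y - x) * (ζ y - ζ x)| := abs_integral_le_integral_abs
    _ ≤ ∫ y, eta (ρ n) (y - x) * (ε / (2 * bN N)) := by
        refine integral_mono_of_nonneg (Eventually.of_forall fun y => abs_nonneg _)
          (hie.mul_const _) (Eventually.of_forall fun y => ?_)
        simp only
        rw [abs_mul, abs_of_nonneg (eta_nonneg (hρ n) _)]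
        by_cases hy : ‖y - x‖ < ρ n
        · refine mul_le_mul_of_nonneg_left ?_ (eta_nonneg (hρ n) _)
          have := hδ2 (x := y) (by rw [dist_eq_norm]; linarith)
          rw [Real.dist_eq] at this
          exact this.le
        · rw [eta_zero (hρ n) (Or.inr (not_lt.1 hy))]; simp
    _ = ε / 2 := by
        rw [integral_mul_const, h1]; field_simp
    _ < ε := by linarith

/-- kernel identity -/
theorem zs_ident (h3 : 3 ≤ N) {r : ℝ} (hr : 0 < r) {ζ : E N → ℝ} (hζ : ContDiff ℝ 2 ζ) (x : E N) :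
    -∫ y, zs r (y - x) * lap ζ y = bN N * ζ x - ∫ y, eta r (y - x) * ζ y := by
  set ρ : ℕ → ℝ := fun n => r / ((n : ℝ) + 1) with hρdef
  have hρ : ∀ n, 0 < ρ n := fun n => by rw [hρdef]; positivity
  have hρr : ∀ n, ρ n ≤ r := fun n => by
    rw [hρdef]
    simp only
    rw [div_le_iff₀ (by positivity)]
    have : (0 : ℝ) ≤ n := Nat.cast_nonneg n
    nlinarith
  have hρ0 : Tendsto ρ atTop (𝓝 0) := by
    have h2 : Tendsto (fun n : ℕ => ((n : ℝ) + 1)) atTop atTop :=
      tendsto_atTop_add_const_right _ _ tendsto_natCast_atTop_atTop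
    exact h2.const_div_atTop r
  have hlc := lap_cont hζ
  have hie : ∀ t : ℝ, 0 < t → Integrable (fun y => eta t (y - x) * ζ y) := by
    intro t ht
    refine Continuous.integrable_of_hasCompactSupport ?_ ?_
    · exact ((eta_contDiff _).continuous.comp (by fun_prop)).mul hζ.continuous
    · refine HasCompactSupport.intro (isCompact_closedBall x t) fun y hy => ?_
      rw [mem_closedBall, dist_eq_norm, not_le] at hy
      rw [eta_zero ht (Or.inr hy.le), zero_mul]
  have hstep : ∀ n, -∫ y, zet (ρ n) r (y - x) * lap ζ y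
      = (∫ y, eta (ρ n) (y - x) * ζ y) - ∫ y, eta r (y - x) * ζ y := by
    intro n
    have hC := zet_CC (N := N) h3 (hρ n) (hρr n)
    have hc2 : ContDiff ℝ 2 (fun y => zet (ρ n) r (y - x)) :=
      (hC.1.of_le (by norm_cast)).comp (contDiff_id.sub contDiff_const)
    have hcs : HasCompactSupport (fun y => zet (ρ n) r (y - x)) := by
      refine HasCompactSupport.intro (isCompact_closedBall x r) fun y hy => ?_
      rw [mem_closedBall, dist_eq_norm, not_le] at hy
      exact zet_zero h3 (hρ n) (hρr n) hy.le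
    have h1 := Pool.Agent.R216.VPD.ibp hζ hc2 hcs
    have h2 : ∀ y, ∑ i, D i (D i (fun y => zet (ρ n) r (y - x))) y
        = eta r (y - x) - eta (ρ n) (y - x) := by
      intro y
      have := lap_trans (f := zet (N := N) (ρ n) r) x y
      unfold lap at this
      rw [this, lap_zet h3 (hρ n) hr]
    simp only [h2] at h1
    have h3' : (fun y => zet (ρ n) r (y - x) * lap ζ y)
        = fun y => zet (ρ n) r (y - x) * ∑ i, D i (D i ζ) y := rfl
    rw [h3', ← h1, ← integral_sub (hie _ (hρ n)) (hie _ hr), ← integral_neg]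
    congr 1; funext y; ring
  have hL : Tendsto (fun n => -∫ y, zet (ρ n) r (y - x) * lap ζ y) atTop
      (𝓝 (-∫ y, zs r (y - x) * lap ζ y)) := by
    refine Tendsto.neg ?_
    obtain ⟨C, hC⟩ := (isCompact_closedBall x r).exists_bound_of_continuousOn hlc.continuousOn
    refine tendsto_integral_of_dominated_convergence (fun y => zs r (y - x) * C) ?_ ?_ ?_ ?_
    · intro n
      refine Continuous.aestronglyMeasurable (Continuous.mul ?_ hlc)
      exact (zet_CC (N := N) h3 (hρ n) (hρr n)).1.continuous.comp (by fun_prop)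
    · exact ((zs_integrable h3 hr).comp_sub_right x).mul_const C
    · intro n
      have hne : ∀ᵐ y : E N, y - x ≠ 0 := by
        have : Nonempty (Fin N) := ⟨⟨0, by omega⟩⟩
        filter_upwards [Measure.ae_ne volume x] with y hy
        exact sub_ne_zero.2 hy
      filter_upwards [hne] with y hy
      rw [Real.norm_eq_abs, abs_mul, abs_of_nonneg (zet_nonneg h3 (hρ n) (hρr n) _)]
      have h1 : zet (ρ n) r (y - x) ≤ zs r (y - x) := by
        unfold zet zs
        linarith [Psi_le_G h3 (hρ n) hy]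
      by_cases hyr : ‖y - x‖ ≤ r
      · have h2 := hC y (by rw [mem_closedBall, dist_eq_norm]; exact hyr)
        rw [Real.norm_eq_abs] at h2
        exact mul_le_mul h1 h2 (abs_nonneg _) (zs_nonneg h3 hr hy)
      · rw [zet_zero h3 (hρ n) (hρr n) (le_of_not_ge hyr), zs_zero h3 hr (le_of_not_ge hyr)]
        simp
    · have hne : ∀ᵐ y : E N, y - x ≠ 0 := by
        have : Nonempty (Fin N) := ⟨⟨0, by omega⟩⟩
        filter_upwards [Measure.ae_ne volume x] with y hy
        exact sub_ne_zero.2 hy
      filter_upwards [hne] with y hy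
      refine Tendsto.mul_const _ (tendsto_const_nhds.congr' ?_)
      have hpos : 0 < ‖y - x‖ := norm_pos_iff.2 hy
      filter_upwards [hρ0.eventually_lt_const hpos] with n hn
      unfold zs zet
      rw [Psi_far h3 (hρ n) hn.le]
  have hR := (eta_lim h3 hζ.continuous x hρ hρ0).sub
    (tendsto_const_nhds (x := ∫ y, eta r (y - x) * ζ y))
  have heq : (fun n => -∫ y, zet (ρ n) r (y - x) * lap ζ y)
      = fun n => (∫ y, eta (ρ n) (y - x) * ζ y) - ∫ y, eta r (y - x) * ζ y := funext hstep
  rw [heq] at hL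
  exact tendsto_nhds_unique hL hR

end Pool.Agent.Helper60.GM67
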