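import Pool.Agent.Helper60.GM67.AMP2
import Pool.Agent.Helper60.GM67.Moll

/-! Level sets of the potential. -/

namespace Pool.Agent.Helper60.GM67

open MeasureTheory Set Metric Filter Topology
open Pool.Agent.R216.VPD (E)
open scoped ENNReal

variable {N : ℕ}

/-- covering lemma -/
theorem cover_lemma (μ : Measure (E N)) {A : Set (E N)} {Λ E0 R1 : ℝ}
    (hΛ : 0 < Λ) (hE : 0 < E0) (r : E N → ℝ) (hr : ∀ y ∈ A, 0 < r y) (hr1 : ∀ y ∈ A, r y ≤ R1)
    (h : ∀ y ∈ A, ENNReal.ofReal (r y ^ N * E0) ≤ μ (closedBall y (Λ * r y))) :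
    volume A ≤ ENNReal.ofReal ((5 * Λ) ^ N * omN N / E0) * μ univ := by
  obtain ⟨u, huA, hud, hcov⟩ := Vitali.exists_disjoint_subfamily_covering_enlargement_closedBall
    A (fun y => y) (fun y => Λ * r y) (Λ * R1) (fun y hy => by
      have := hr1 y hy
      exact mul_le_mul_of_nonneg_left this hΛ.le) 5 (by norm_num)
  have hcount : u.Countable := by
    refine hud.countable_of_nonempty_interior fun y hy => ?_
    have h1 : 0 < Λ * r y := mul_pos hΛ (hr y (huA hy))
    refine ⟨y, ?_⟩
    exact interior_mono ball_subset_closedBall (by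
      rw [isOpen_ball.interior_eq]; exact mem_ball_self h1)
  have hsub : A ⊆ ⋃ b ∈ u, closedBall b (5 * (Λ * r b)) := by
    intro y hy
    obtain ⟨b, hb, hyb⟩ := hcov y hy
    have h1 : 0 < Λ * r y := mul_pos hΛ (hr y hy)
    exact mem_iUnion₂.2 ⟨b, hb, hyb (mem_closedBall_self h1.le)⟩
  have hom := omN_pos (N := N)
  calc volume A ≤ volume (⋃ b ∈ u, closedBall b (5 * (Λ * r b))) := measure_mono hsub
    _ ≤ ∑' b : u, volume (closedBall (b : E N) (5 * (Λ * r b))) := measure_biUnion_le _ hcount _
    _ ≤ ∑' b : u, ENNReal.ofReal ((5 * Λ) ^ N * omN N / E0)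
          * μ (closedBall (b : E N) (Λ * r b)) := by
        refine ENNReal.tsum_le_tsum fun b => ?_
        have hrb := hr b (huA b.2)
        rw [vol_cball _ (by positivity)]
        refine le_trans (le_of_eq ?_) (mul_le_mul_right (h b (huA b.2)) _)
        rw [← ENNReal.ofReal_mul (by positivity)]
        congr 1
        rw [mul_pow, mul_pow, mul_pow]
        field_simp
    _ = ENNReal.ofReal ((5 * Λ) ^ N * omN N / E0)
          * ∑' b : u, μ (closedBall (b : E N) (Λ * r b)) := ENNReal.tsum_mul_left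
    _ ≤ ENNReal.ofReal ((5 * Λ) ^ N * omN N / E0) * μ univ := by
        refine mul_le_mul_right ?_ _
        rw [← measure_biUnion hcount hud fun b _ => measurableSet_closedBall]
        exact measure_mono (subset_univ _)

/-- the Newtonian potential -/
noncomputable def WW (ν : Measure (E N)) (y : E N) : ℝ≥0∞ :=
  ∫⁻ x, ENNReal.ofReal (G (y - x)) ∂ν

theorem WW_meas (ν : Measure (E N)) [SFinite ν] : Measurable (WW ν) := by
  unfold WW
  have : Measurable (fun p : E N × E N => ENNReal.ofReal (G (p.1 - p.2))) :=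
    ENNReal.measurable_ofReal.comp (measurable_G.comp (measurable_fst.sub measurable_snd))
  exact this.lintegral_prod_right'

theorem WW_le (h3 : 3 ≤ N) {t : ℝ} (ht : 0 < t) (ν : Measure (E N)) [IsFiniteMeasure ν] (y : E N) :
    WW ν y ≤ (∫⁻ x, ENNReal.ofReal (zs t (y - x)) ∂ν) + ENNReal.ofReal (VV t ν y) := by
  have h1 : ENNReal.ofReal (VV t ν y) = ∫⁻ x, ENNReal.ofReal (Psi t (y - x)) ∂ν := by
    unfold VV
    rw [ofReal_integral_eq_lintegral_ofReal (Psi_int h3 ht ν y)
      (Eventually.of_forall fun x => (Psi_pos h3 ht _).le)]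
  rw [h1]
  have hm : Measurable (fun x : E N => ENNReal.ofReal (zs t (y - x))) :=
    ENNReal.measurable_ofReal.comp ((measurable_zs t).comp (by fun_prop))
  rw [← lintegral_add_left hm]
  unfold WW
  refine lintegral_mono fun x => ?_
  have h2 : G (y - x) = zs t (y - x) + Psi t (y - x) := by unfold zs; ring
  rw [h2]
  exact ENNReal.ofReal_add_le

theorem lint_zs (h3 : 3 ≤ N) {t : ℝ} (ht : 0 < t) (ν : Measure (E N)) [IsFiniteMeasure ν] :
    ∫⁻ y, ∫⁻ x, ENNReal.ofReal (zs t (y - x)) ∂ν
      ≤ ν univ * ENNReal.ofReal (2 * omN N * t ^ 2) := by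
  have hm : Measurable (fun p : E N × E N => ENNReal.ofReal (zs t (p.1 - p.2))) :=
    ENNReal.measurable_ofReal.comp ((measurable_zs t).comp (measurable_fst.sub measurable_snd))
  rw [lintegral_lintegral_swap hm.aemeasurable]
  have h1 : ∀ x : E N, ∫⁻ y, ENNReal.ofReal (zs t (y - x)) ≤ ENNReal.ofReal (2 * omN N * t ^ 2) := by
    intro x
    rw [lintegral_sub_right_eq_self (fun z => ENNReal.ofReal (zs t z)) x]
    exact zs_lint h3 ht
  calc ∫⁻ x, ∫⁻ y, ENNReal.ofReal (zs t (y - x)) ∂volume ∂ν
      ≤ ∫⁻ _, ENNReal.ofReal (2 * omN N * t ^ 2) ∂ν := lintegral_mono h1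
    _ = _ := by rw [lintegral_const, mul_comm]

/-- level sets estimate -/
theorem level (h3 : 3 ≤ N) (μ : Measure (E N)) [IsFiniteMeasure μ] {K : Set (E N)}
    (hK : MeasurableSet K) {δ C0 r1 : ℝ} (hδ : 0 < δ) (hδ2 : δ ≤ 1 / 2) (hr1 : 0 < r1)
    (H : ∀ x ∈ K, ∀ t, 0 < t → t ≤ r1 → 0 < (μ (closedBall x t)).toReal ∧
      VV t μ x ≤ bN N * (Real.log ((μ (closedBall x t)).toReal / t ^ N)
        + δ / 8 * Real.log (1 / t)) + C0) :
    ∃ s0 C1 : ℝ, 0 ≤ C1 ∧ ∀ s ≥ s0, volume {y | ENNReal.ofReal (bN N * s) < WW (μ.restrict K) y}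
      ≤ ENNReal.ofReal (C1 * Real.exp (-(1 - δ / 2) * s)) := by
  obtain ⟨M, J, κ, hM2, hamp⟩ := amp h3 (show 0 < δ / 16 by positivity)
  have hM0 : 0 < M := by linarith
  have hb := bN_pos h3
  have hom := omN_pos (N := N)
  have hP0 := P0_pos h3
  set ν := μ.restrict K with hν
  set S : ℝ := (μ univ).toReal with hS
  have hS0 : 0 ≤ S := ENNReal.toReal_nonneg
  have hνS : (ν univ).toReal ≤ S :=
    ENNReal.toReal_mono (measure_ne_top _ _) (Measure.restrict_apply_le _ _)
  set b := bN N with hbdef
  set n : ℕ := N - 2 with hn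
  set ρ1 : ℝ := r1 / (2 * M ^ J) with hρ1
  have hρ1p : 0 < ρ1 := by positivity
  -- thresholds
  set K1 : ℝ := 32 / (δ * b) with hK1
  set K2 : ℝ := P N 0 * S with hK2
  set K3 : ℝ := P N 0 * ((ρ1 / M) ^ n)⁻¹ * S with hK3
  set K4 : ℝ := b * (N * (κ * Real.log M) + δ / 8 * (κ * Real.log M)) + C0 with hK4
  set s0 : ℝ := 1 + K1 + |2 * K2 / b| + |2 * K3 / b| + |4 * K4 / (δ * b)| with hs0
  have hM1log : 0 ≤ Real.log M := Real.log_nonneg (by linarith)
  set C1 : ℝ := 2 * omN N * S + (5 * (2 * M ^ J)) ^ N * omN N * S with hC1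
  refine ⟨s0, C1, by positivity, fun s hs => ?_⟩
  have hK1p : 0 < K1 := by positivity
  have hs1 : 1 ≤ s := by
    have := abs_nonneg (2 * K2 / b); have := abs_nonneg (2 * K3 / b)
    have := abs_nonneg (4 * K4 / (δ * b))
    linarith
  have hs_pos : 0 < s := by linarith
  have ht1 : 1 ≤ δ / 32 * b * s := by
    have : K1 ≤ s := by
      have := abs_nonneg (2 * K2 / b); have := abs_nonneg (2 * K3 / b)
      have := abs_nonneg (4 * K4 / (δ * b))
      linarith
    rw [hK1, div_le_iff₀ (by positivity)] at this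
    linarith
  have ht2 : 2 * K2 < b * s := by
    have h1 : 2 * K2 / b < s := by
      have := abs_nonneg (2 * K3 / b)
      have := abs_nonneg (4 * K4 / (δ * b)); have := le_abs_self (2 * K2 / b)
      linarith
    rw [div_lt_iff₀ hb] at h1; linarith
  have ht3 : 2 * K3 < b * s := by
    have h1 : 2 * K3 / b < s := by
      have := abs_nonneg (2 * K2 / b)
      have := abs_nonneg (4 * K4 / (δ * b)); have := le_abs_self (2 * K3 / b)
      linarith
    rw [div_lt_iff₀ hb] at h1; linarith
  have ht4 : 4 * K4 < δ * b * s := by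
    have h1 : 4 * K4 / (δ * b) < s := by
      have := abs_nonneg (2 * K2 / b); have := abs_nonneg (2 * K3 / b)
      have := le_abs_self (4 * K4 / (δ * b))
      linarith
    rw [div_lt_iff₀ (by positivity)] at h1; linarith
  set B' : ℝ := (1 - δ / 32) * (b * s) with hB'
  have hbs : 0 < b * s := by positivity
  have hB'2 : b * s / 2 ≤ B' := by
    rw [hB']
    have := mul_le_mul_of_nonneg_right (show δ / 32 ≤ 1 / 2 by linarith) hbs.le
    linarith
  set τ : ℝ := Real.exp (-s / 2) with hτ
  have hτp : 0 < τ := Real.exp_pos _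
  set A1 : Set (E N) := {y | ENNReal.ofReal (δ / 32 * b * s)
    ≤ ∫⁻ x, ENNReal.ofReal (zs τ (y - x)) ∂ν} with hA1
  set A2 : Set (E N) := {y | B' ≤ VV τ ν y} with hA2
  have hcover : {y | ENNReal.ofReal (b * s) < WW ν y} ⊆ A1 ∪ A2 := by
    intro y hy
    by_contra hcon
    rw [mem_union, not_or] at hcon
    obtain ⟨h1, h2⟩ := hcon
    rw [hA1, mem_ofPred_eq, not_le] at h1
    rw [hA2, mem_ofPred_eq, not_le] at h2
    rw [mem_ofPred_eq] at hy
    have h4 := WW_le h3 hτp ν y
    have h5 : ENNReal.ofReal (VV τ ν y) ≤ ENNReal.ofReal B' := ENNReal.ofReal_le_ofReal h2.le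
    have h6 : ENNReal.ofReal (b * s) = ENNReal.ofReal (δ / 32 * b * s) + ENNReal.ofReal B' := by
      rw [← ENNReal.ofReal_add (by positivity) (by linarith)]
      congr 1
      rw [hB']; ring
    have h7 : WW ν y < ENNReal.ofReal (b * s) := by
      rw [h6]
      refine h4.trans_lt ?_
      exact ENNReal.add_lt_add_of_lt_of_le (by
        exact ne_top_of_le_ne_top ENNReal.ofReal_ne_top h5) h1 h5
    exact absurd hy (not_lt.2 h7.le)
  -- first part
  have hvol1 : volume A1 ≤ ENNReal.ofReal (2 * omN N * S * Real.exp (-(1 - δ / 2) * s)) := by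
    have hmeas : Measurable (fun y : E N => ∫⁻ x, ENNReal.ofReal (zs τ (y - x)) ∂ν) := by
      have : Measurable (fun p : E N × E N => ENNReal.ofReal (zs τ (p.1 - p.2))) :=
        ENNReal.measurable_ofReal.comp ((measurable_zs τ).comp
          (measurable_fst.sub measurable_snd))
      exact this.lintegral_prod_right'
    have h1 := mul_meas_ge_le_lintegral (μ := (volume : Measure (E N))) hmeas
      (ENNReal.ofReal (δ / 32 * b * s))
    have h2 : volume A1 ≤ ENNReal.ofReal (δ / 32 * b * s) * volume A1 := by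
      have : (1 : ℝ≥0∞) ≤ ENNReal.ofReal (δ / 32 * b * s) := ENNReal.one_le_ofReal.2 ht1
      calc volume A1 = 1 * volume A1 := (one_mul _).symm
        _ ≤ _ := mul_le_mul_left this _
    refine h2.trans (h1.trans ((lint_zs h3 hτp ν).trans ?_))
    have h4 : ν univ ≤ ENNReal.ofReal S := by
      rw [hS, ENNReal.ofReal_toReal (measure_ne_top _ _)]
      exact Measure.restrict_apply_le _ _
    refine (mul_le_mul_left h4 _).trans ?_
    rw [← ENNReal.ofReal_mul hS0]
    refine ENNReal.ofReal_le_ofReal ?_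
    have h5 : τ ^ 2 = Real.exp (-s) := by
      rw [hτ, ← Real.exp_nat_mul]; congr 1; push_cast; ring
    rw [h5]
    have h6 : Real.exp (-s) ≤ Real.exp (-(1 - δ / 2) * s) :=
      Real.exp_le_exp.2 (by
        have : 0 ≤ δ / 2 * s := by positivity
        linarith)
    calc S * (2 * omN N * Real.exp (-s)) = 2 * omN N * S * Real.exp (-s) := by ring
      _ ≤ _ := by gcongr
  -- second part
  have hPi : ∀ (t : ℝ), 0 < t → ∀ w : E N, Integrable (fun x => Psi t (w - x)) ν :=
    fun t ht w => Psi_int h3 ht ν w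
  have hVVle : ∀ t : ℝ, 0 < t → ∀ y : E N, VV t ν y ≤ P N 0 * (t ^ n)⁻¹ * S := by
    intro t ht y
    have h1 : VV t ν y ≤ ∫ _, P N 0 * (t ^ n)⁻¹ ∂ν :=
      integral_mono (hPi t ht y) (integrable_const _) fun x => Psi_le ht _
    refine h1.trans ?_
    rw [integral_const, smul_eq_mul, mul_comm]
    have : 0 < P N 0 * (t ^ n)⁻¹ := by positivity
    exact mul_le_mul_of_nonneg_left hνS this.le
  have hkey : ∀ y ∈ A2, ∃ ρ : ℝ, 0 < ρ ∧ ρ ≤ 1 ∧
      ENNReal.ofReal (ρ ^ N * Real.exp ((1 - δ / 2) * s)) ≤ μ (closedBall y (2 * M ^ J * ρ)) := by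
    intro y hy
    rw [hA2, mem_ofPred_eq] at hy
    have hexk : ∃ k : ℕ, B' ≤ VV (1 / M ^ k) ν y := by
      have h1 : Tendsto (fun k : ℕ => 1 / M ^ k) atTop (𝓝 0) := by
        have := tendsto_pow_atTop_nhds_zero_of_lt_one (r := 1 / M) (by positivity)
          (by rw [div_lt_one hM0]; linarith)
        simpa [div_pow] using this
      obtain ⟨k, hk⟩ := (h1.eventually_lt_const hτp).exists
      exact ⟨k, hy.trans (VV_mono h3 (by positivity) hk.le ν y)⟩
    classical
    set k := Nat.find hexk with hkdef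
    have hk1 : B' ≤ VV (1 / M ^ k) ν y := Nat.find_spec hexk
    have hk0 : k ≠ 0 := by
      intro h0
      rw [h0, pow_zero, div_one] at hk1
      have h1 := hVVle 1 one_pos y
      rw [one_pow, inv_one, mul_one] at h1
      have : K2 < B' := by linarith
      rw [hK2] at this
      linarith
    obtain ⟨k', hk'⟩ := Nat.exists_eq_succ_of_ne_zero hk0
    have hk2 : VV (1 / M ^ k') ν y < B' := by
      have := Nat.find_min hexk (m := k') (by rw [← hkdef, hk']; exact Nat.lt_succ_self _)
      exact not_le.1 this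
    set ρ : ℝ := 1 / M ^ k' with hρ
    have hρp : 0 < ρ := by positivity
    have hρM : ρ / M = 1 / M ^ k := by rw [hρ, hk', pow_succ]; field_simp
    rw [← hρM] at hk1
    have hρ1' : ρ ≤ 1 := by
      rw [hρ, div_le_one (by positivity)]
      exact one_le_pow₀ (by linarith)
    have hρτ : τ < ρ := by
      by_contra hcon
      push Not at hcon
      have := VV_mono h3 hρp hcon ν y
      linarith
    have hρMp : 0 < ρ / M := by positivity
    have hρMρ : ρ / M ≤ ρ := div_le_self hρp.le (by linarith)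
    have hρsmall : ρ ≤ ρ1 := by
      by_contra hcon
      push Not at hcon
      have h1 := hVVle (ρ / M) hρMp y
      have h2 : ((ρ / M) ^ n)⁻¹ ≤ ((ρ1 / M) ^ n)⁻¹ := by
        refine inv_anti₀ (by positivity) ?_
        have : ρ1 / M ≤ ρ / M := div_le_div_of_nonneg_right hcon.le hM0.le
        gcongr
      have h4 : P N 0 * ((ρ / M) ^ n)⁻¹ * S ≤ K3 := by
        rw [hK3]; gcongr
      linarith
    have hxK : ∃ x ∈ K, ‖x - y‖ ≤ ρ := by
      by_contra hcon
      push Not at hcon
      have h1 : VV (ρ / M) ν y = VV ρ ν y := by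
        unfold VV
        refine integral_congr_ae ?_
        filter_upwards [ae_restrict_mem hK] with x hx
        have h2 := hcon x hx
        rw [norm_sub_rev] at h2
        rw [Psi_far h3 hρp h2.le, Psi_far h3 hρMp (hρMρ.trans h2.le)]
      rw [h1] at hk1
      linarith
    refine ⟨ρ, hρp, hρ1', ?_⟩
    by_contra hcon
    push Not at hcon
    have hMJ : 1 ≤ M ^ J := one_le_pow₀ (by linarith)
    have hMκ : 1 ≤ M ^ κ := one_le_pow₀ (by linarith)
    have hνK : ν Kᶜ = 0 := by
      rw [hν, Measure.restrict_apply hK.compl, compl_inter_self, measure_empty]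
    set t : ℝ := ρ / M ^ κ with ht
    have htp : 0 < t := by positivity
    have htρ : t ≤ ρ := div_le_self hρp.le hMκ
    have hρr1 : ρ ≤ r1 := by
      refine hρsmall.trans ?_
      rw [hρ1]
      exact div_le_self hr1.le (by linarith)
    set a : ℝ := (1 - δ / 8) * (b * s) with ha
    have hxa : ∀ x ∈ K, ‖x - y‖ ≤ M ^ J * ρ → VV (ρ / M ^ κ) ν x ≤ a := by
      intro x hx hxy
      obtain ⟨hpos, hV⟩ := H x hx t htp (htρ.trans hρr1)
      have h1 : VV t ν x ≤ VV t μ x :=
        setIntegral_le_integral (Psi_int h3 htp μ x)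
          (Eventually.of_forall fun z => (Psi_pos h3 htp _).le)
      have hsub : closedBall x t ⊆ closedBall y (2 * M ^ J * ρ) := by
        refine closedBall_subset_closedBall' ?_
        rw [dist_eq_norm]
        have := mul_le_mul_of_nonneg_right hMJ hρp.le
        linarith
      have h2 : (μ (closedBall x t)).toReal ≤ ρ ^ N * Real.exp ((1 - δ / 2) * s) := by
        refine ENNReal.toReal_le_of_le_ofReal (by positivity) ?_
        exact (measure_mono hsub).trans hcon.le
      have h4 : Real.log ((μ (closedBall x t)).toReal / t ^ N)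
          ≤ (1 - δ / 2) * s + N * (κ * Real.log M) := by
        have h5 : (μ (closedBall x t)).toReal / t ^ N
            ≤ Real.exp ((1 - δ / 2) * s) * (M ^ κ) ^ N := by
          have e9 : (M ^ κ) ^ N * t ^ N = ρ ^ N := by
            rw [← mul_pow]
            congr 1
            rw [mul_comm, ht]
            exact div_mul_cancel₀ _ (by positivity)
          rw [div_le_iff₀ (by positivity)]
          refine h2.trans (le_of_eq ?_)
          rw [← e9]
          ring
        refine (Real.log_le_log (by positivity) h5).trans (le_of_eq ?_)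
        rw [Real.log_mul (Real.exp_pos _).ne' (by positivity), Real.log_exp, Real.log_pow,
          Real.log_pow]
      have h6 : Real.log (1 / t) ≤ s / 2 + κ * Real.log M := by
        have h7 : 1 / t = 1 / ρ * M ^ κ := by rw [ht]; field_simp
        rw [h7, Real.log_mul (by positivity) (by positivity), Real.log_pow]
        have h8 : Real.log (1 / ρ) ≤ s / 2 := by
          rw [one_div, Real.log_inv]
          have h9 : Real.log τ ≤ Real.log ρ := Real.log_le_log hτp hρτ.le
          rw [hτ, Real.log_exp] at h9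
          linarith
        linarith
      have h10 : b * (Real.log ((μ (closedBall x t)).toReal / t ^ N)
          + δ / 8 * Real.log (1 / t)) + C0
          ≤ b * (((1 - δ / 2) * s + N * (κ * Real.log M))
            + δ / 8 * (s / 2 + κ * Real.log M)) + C0 := by
        have := mul_le_mul_of_nonneg_left h6 (by positivity : 0 ≤ δ / 8)
        have := mul_le_mul_of_nonneg_left (add_le_add h4 this) hb.le
        linarith
      have h11 : b * (((1 - δ / 2) * s + N * (κ * Real.log M))
            + δ / 8 * (s / 2 + κ * Real.log M)) + C0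
          = (1 - δ / 2 + δ / 16) * (b * s) + K4 := by rw [hK4]; ring
      have h12 : (1 - δ / 2 + δ / 16) * (b * s) + K4 ≤ a := by
        rw [ha]
        have : 0 < δ * b * s := by positivity
        linarith
      linarith
    have hfin := hamp ν K hK hνK y ρ (b * s) a hρp hbs (by
      rw [ha]
      have : 0 < δ * (b * s) := by positivity
      linarith) (by
      refine hk2.le.trans ?_
      rw [hB']
      have : 0 < δ * (b * s) := by positivity
      linarith) hxK hxa
    have : a + δ / 16 * (b * s) < B' := by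
      rw [ha, hB']
      have : 0 < δ * (b * s) := by positivity
      linarith
    linarith
  have hvol2 : volume A2 ≤ ENNReal.ofReal ((5 * (2 * M ^ J)) ^ N * omN N * S
      * Real.exp (-(1 - δ / 2) * s)) := by
    classical
    choose! ρ hρ0 hρ1 hρ2 using hkey
    have h1 := cover_lemma μ (A := A2) (Λ := 2 * M ^ J) (E0 := Real.exp ((1 - δ / 2) * s))
      (R1 := 1) (by positivity) (Real.exp_pos _) ρ hρ0 hρ1 hρ2
    refine h1.trans ?_
    have h2 : μ univ = ENNReal.ofReal S := by
      rw [hS, ENNReal.ofReal_toReal (measure_ne_top _ _)]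
    rw [h2, ← ENNReal.ofReal_mul (by positivity)]
    refine ENNReal.ofReal_le_ofReal (le_of_eq ?_)
    rw [show -(1 - δ / 2) * s = -((1 - δ / 2) * s) by ring, Real.exp_neg]
    field_simp
  calc volume {y | ENNReal.ofReal (b * s) < WW ν y} ≤ volume (A1 ∪ A2) := measure_mono hcover
    _ ≤ volume A1 + volume A2 := measure_union_le _ _
    _ ≤ ENNReal.ofReal (2 * omN N * S * Real.exp (-(1 - δ / 2) * s))
        + ENNReal.ofReal ((5 * (2 * M ^ J)) ^ N * omN N * S * Real.exp (-(1 - δ / 2) * s)) :=
        add_le_add hvol1 hvol2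
    _ = ENNReal.ofReal (C1 * Real.exp (-(1 - δ / 2) * s)) := by
        rw [← ENNReal.ofReal_add (by positivity) (by positivity)]
        congr 1
        rw [hC1]; ring

end Pool.Agent.Helper60.GM67
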