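import Pool.Agent.Helper60.GM67.TEn

/-! Maximum principle for the mollified potentials. -/

namespace Pool.Agent.Helper60.GM67

open MeasureTheory Set Metric Filter Topology
open Pool.Agent.R216.VPD (E D bv contDiff_D D_add)
open scoped ContDiff

variable {N : ℕ}

/-- mollified potential -/
noncomputable def VV (t : ℝ) (ν : Measure (E N)) (w : E N) : ℝ := ∫ x, Psi t (w - x) ∂ν

theorem Psi_int (h3 : 3 ≤ N) {t : ℝ} (ht : 0 < t) (ν : Measure (E N)) [IsFiniteMeasure ν]
    (w : E N) : Integrable (fun x => Psi t (w - x)) ν := by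
  refine Integrable.of_bound (C := P N 0 * (t ^ (N - 2))⁻¹) ?_ ?_
  · exact ((Psi_contDiff t).continuous.comp (by fun_prop)).aestronglyMeasurable
  · refine Eventually.of_forall fun x => ?_
    rw [Real.norm_eq_abs, abs_of_pos (Psi_pos h3 ht _)]
    exact Psi_le ht _

theorem second_der_nonpos {F : E N → ℝ} (hF : ContDiff ℝ 2 F) {w : E N}
    (hmax : IsLocalMax F w) (i : Fin N) : D i (D i F) w ≤ 0 := by
  set f : ℝ → ℝ := fun s => F (w + s • bv i) with hf
  have hline : ∀ s : ℝ, HasDerivAt (fun s : ℝ => w + s • (bv i : E N)) (bv i) s := by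
    intro s
    have h1 : HasDerivAt (fun s : ℝ => s • (bv i : E N)) ((1 : ℝ) • bv i) s :=
      (hasDerivAt_id s).smul_const _
    simpa using h1.const_add w
  have hcomp : ∀ (Φ : E N → ℝ), Differentiable ℝ Φ → ∀ s,
      HasDerivAt (fun s : ℝ => Φ (w + s • bv i)) (D i Φ (w + s • bv i)) s := by
    intro Φ hΦ s
    exact ((hΦ _).hasFDerivAt).comp_hasDerivAt s (hline s)
  have h1 : deriv f = fun s => D i F (w + s • bv i) := by
    funext s; exact (hcomp F (c2_diff hF) s).deriv
  have h2 : deriv (deriv f) 0 = D i (D i F) w := by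
    rw [h1]
    have := (hcomp (D i F) ((c2_D hF i).differentiable (by norm_num)) 0).deriv
    simpa using this
  have hc : Continuous (fun s : ℝ => w + s • (bv i : E N)) := by fun_prop
  have hmax2 : IsLocalMax f 0 := by
    have h3 : Tendsto (fun s : ℝ => w + s • (bv i : E N)) (𝓝 0) (𝓝 w) := by
      have := hc.tendsto 0
      simpa using this
    have h4 := h3.eventually hmax
    filter_upwards [h4] with s hs
    simp only [hf, zero_smul, add_zero]
    exact hs
  have hd0 : deriv f 0 = 0 := hmax2.deriv_eq_zero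
  by_contra hcon
  push Not at hcon
  rw [← h2] at hcon
  have hmin : IsLocalMin f 0 :=
    isLocalMin_of_deriv_deriv_pos hcon hd0 (hF.continuous.comp hc).continuousAt
  have heq : f =ᶠ[𝓝 0] fun _ => f 0 := by
    filter_upwards [hmax2, hmin] with s h1 h2
    exact le_antisymm h1 h2
  have h5 : deriv f =ᶠ[𝓝 0] fun _ => 0 := by
    have := heq.eventuallyEq_nhds
    filter_upwards [this] with s hs
    rw [hs.deriv_eq]; simp
  have h6 : deriv (deriv f) 0 = 0 := by
    rw [h5.deriv_eq]; simp
  linarith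

theorem Psi_const {T : ℝ} (hT : 0 < T) {z : E N} (hz : ‖z‖ ≤ T / 2) :
    Psi T z = P N 0 * (T ^ (N - 2))⁻¹ := by
  unfold Psi
  rw [P_const, mul_comm]
  rw [div_le_iff₀ (by positivity)]
  nlinarith [norm_nonneg z]

/-- maximum principle -/
theorem max_principle (h3 : 3 ≤ N) {σ : Measure (E N)} [IsFiniteMeasure σ] {R0 t m : ℝ}
    (hR0 : 0 < R0) (hσ : σ (closedBall 0 R0)ᶜ = 0) (ht : 0 < t) (hm : 0 ≤ m)
    (h : ∀ w, σ (closedBall w t) ≠ 0 → VV t σ w ≤ m) (z : E N) : VV t σ z ≤ m := by
  by_contra hcon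
  push Not at hcon
  have hN' : (3 : ℝ) ≤ N := by exact_mod_cast h3
  set c := VV t σ z with hc
  have hcp : 0 < c := hm.trans_lt hcon
  have hae : ∀ᵐ x ∂σ, ‖x‖ ≤ R0 := by
    have : ∀ᵐ x ∂σ, x ∈ closedBall (0 : E N) R0 := by rw [ae_iff]; exact hσ
    filter_upwards [this] with x hx
    simpa using hx
  -- decay at infinity
  obtain ⟨L, hL0, hLt, hL⟩ : ∃ L : ℝ, 0 < L ∧ t ≤ L ∧ ∀ w : E N, L ≤ ‖w - z‖ → VV t σ w ≤ c / 2 := by
    set S : ℝ := (σ univ).toReal with hS
    have hS0 : 0 ≤ S := ENNReal.toReal_nonneg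
    set A : ℝ := 2 / ((N : ℝ) - 2) * S with hA
    have hA0 : 0 ≤ A := by
      have : 0 < (N : ℝ) - 2 := by linarith
      positivity
    set q : ℝ := 1 + t + 2 * A / c with hq
    have hq1 : 1 ≤ q := by
      have : 0 ≤ 2 * A / c := by positivity
      linarith
    refine ⟨q + R0 + ‖z‖, by positivity, ?_, fun w hw => ?_⟩
    · have : 0 ≤ 2 * A / c := by positivity
      have := norm_nonneg z
      linarith
    · have h1 : ∀ᵐ x ∂σ, Psi t (w - x) ≤ 2 / ((N : ℝ) - 2) * q⁻¹ := by
        filter_upwards [hae] with x hx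
        have h2 : q ≤ ‖w - x‖ := by
          have e1 : ‖w - z‖ ≤ ‖w - x‖ + ‖x‖ + ‖z‖ := by
            calc ‖w - z‖ = ‖(w - x) + x - z‖ := by congr 1; abel
              _ ≤ ‖(w - x) + x‖ + ‖z‖ := norm_sub_le _ _
              _ ≤ ‖w - x‖ + ‖x‖ + ‖z‖ := by linarith [norm_add_le (w - x) x]
          linarith
        have h4 : t ≤ ‖w - x‖ := by
          have : 0 ≤ 2 * A / c := by positivity
          linarith
        rw [Psi_far h3 ht h4]
        unfold G
        have h5 : 0 < 2 / ((N : ℝ) - 2) := by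
          have : 0 < (N : ℝ) - 2 := by linarith
          positivity
        refine mul_le_mul_of_nonneg_left ?_ h5.le
        have hq0 : 0 < q := by linarith
        refine inv_anti₀ hq0 ?_
        calc q ≤ q ^ (N - 2) := le_self_pow₀ hq1 (by omega)
          _ ≤ ‖w - x‖ ^ (N - 2) := by gcongr
      have h2 : VV t σ w ≤ ∫ _, 2 / ((N : ℝ) - 2) * q⁻¹ ∂σ :=
        integral_mono_ae (Psi_int h3 ht σ w) (integrable_const _) h1
      have h4 : ∫ _, 2 / ((N : ℝ) - 2) * q⁻¹ ∂σ = A * q⁻¹ := by
        simp [Measure.real, hA, hS]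
        ring
      rw [h4] at h2
      refine h2.trans ?_
      have hq0 : 0 < q := by linarith
      rw [← div_eq_mul_inv, div_le_iff₀ hq0]
      have h5 : 2 * A / c ≤ q := by linarith
      rw [div_le_iff₀ hcp] at h5
      linarith
  -- the comparison function
  set T : ℝ := 2 * (L + ‖z‖ + R0) + t with hT
  have hTp : 0 < T := by positivity
  have htT : t ≤ T := by
    have := norm_nonneg z
    linarith
  set CT : ℝ := P N 0 * (T ^ (N - 2))⁻¹ * (σ univ).toReal with hCT
  have hint1 : Integrable (fun _ : E N => (1 : ℝ)) σ := integrable_const _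
  set hh : E N → ℝ := cv (zet t T) σ (fun _ => 1) with hhh
  have hhC : ContDiff ℝ ∞ hh := cv_contDiff (zet_CC h3 ht htT) hint1
  have hhV : ∀ w, ‖w - z‖ ≤ L → hh w = VV t σ w - CT := by
    intro w hw
    have h1 : ∀ᵐ x ∂σ, Psi T (w - x) = P N 0 * (T ^ (N - 2))⁻¹ := by
      filter_upwards [hae] with x hx
      refine Psi_const hTp ?_
      have e1 : ‖w - x‖ ≤ ‖w - z‖ + ‖z‖ + ‖x‖ := by
        calc ‖w - x‖ = ‖(w - z) + z - x‖ := by congr 1; abel
          _ ≤ ‖(w - z) + z‖ + ‖x‖ := norm_sub_le _ _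
          _ ≤ ‖w - z‖ + ‖z‖ + ‖x‖ := by linarith [norm_add_le (w - z) z]
      linarith
    have h2 : ∫ x, Psi T (w - x) ∂σ = CT := by
      rw [integral_congr_ae h1]
      simp [Measure.real, hCT]
      ring
    rw [hhh, ← h2]
    unfold cv VV
    rw [← integral_sub (Psi_int h3 ht σ w) (Psi_int h3 hTp σ w)]
    congr 1; funext x
    unfold zet; ring
  set τ : ℝ := min (c - m) (c / 2) / (2 * L ^ 2) with hτ
  have hgap : 0 < min (c - m) (c / 2) := lt_min (by linarith) (by linarith)
  have hτp : 0 < τ := by positivity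
  have hτL : τ * L ^ 2 < min (c - m) (c / 2) := by
    rw [hτ]
    have : min (c - m) (c / 2) / (2 * L ^ 2) * L ^ 2 = min (c - m) (c / 2) / 2 := by
      field_simp
    rw [this]; linarith
  set F : E N → ℝ := fun w => hh w + τ * nsq (w - z) with hF
  have hq2 : ContDiff ℝ 2 (fun w : E N => nsq (w - z)) :=
    nsq_c2.comp (contDiff_id.sub contDiff_const)
  have hh2 : ContDiff ℝ 2 hh := hhC.of_le (by norm_cast)
  have hF2 : ContDiff ℝ 2 F := hh2.add (contDiff_const.mul hq2)
  obtain ⟨w, hw, hwmax⟩ := (isCompact_closedBall z L).exists_isMaxOn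
    ⟨z, mem_closedBall_self hL0.le⟩ hF2.continuous.continuousOn
  rw [mem_closedBall, dist_eq_norm] at hw
  have hFz : F z ≤ F w := hwmax (mem_closedBall_self hL0.le)
  have hFz' : F z = c - CT := by
    simp only [hF]
    rw [hhV z (by simp [hL0.le])]
    simp [nsq]
    rfl
  have hFw : F w ≤ VV t σ w - CT + τ * L ^ 2 := by
    simp only [hF]
    rw [hhV w hw]
    have : nsq (w - z) ≤ L ^ 2 := by unfold nsq; gcongr
    have := mul_le_mul_of_nonneg_left this hτp.le
    linarith
  have hg1 : min (c - m) (c / 2) ≤ c - m := min_le_left _ _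
  have hg2 : min (c - m) (c / 2) ≤ c / 2 := min_le_right _ _
  -- `w` is an interior point
  have hwL : ‖w - z‖ < L := by
    rcases lt_or_eq_of_le hw with h1 | h1
    · exact h1
    · have := hL w (by rw [h1])
      linarith
  have hw0 : σ (closedBall w t) = 0 := by
    by_contra hne
    have := h w hne
    linarith
  have hloc : IsLocalMax F w := by
    have : closedBall z L ∈ 𝓝 w := by
      refine Filter.mem_of_superset (isOpen_ball.mem_nhds ?_) ball_subset_closedBall
      rw [mem_ball, dist_eq_norm]; exact hwL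
    exact hwmax.isLocalMax this
  have hlap : lap F w ≤ 0 := by
    unfold lap
    exact Finset.sum_nonpos fun i _ => second_der_nonpos hF2 hloc i
  have hlapF : lap F w = lap hh w + τ * (2 * N) := by
    have e1 : ∀ i, D i (D i F) w = D i (D i hh) w + τ * D i (D i (fun w => nsq (w - z))) w := by
      intro i
      rw [hF, D_add (c2_diff hh2) ((c2_diff hq2).const_mul τ), D_cmul (c2_diff hq2),
        D_add ((c2_D hh2 i).differentiable (by norm_num))
          (((c2_D hq2 i).differentiable (by norm_num)).const_mul τ),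
        D_cmul ((c2_D hq2 i).differentiable (by norm_num))]
    unfold lap
    simp only [e1]
    rw [Finset.sum_add_distrib, ← Finset.mul_sum]
    congr 1
    have e2 : ∑ i, D i (D i (fun w : E N => nsq (w - z))) w = lap nsq (w - z) := by
      unfold lap
      refine Finset.sum_congr rfl fun i _ => ?_
      have : ∀ (f : E N → ℝ) (i : Fin N), D i (fun y => f (y - z)) = fun y => D i f (y - z) := by
        intro f i
        funext y
        unfold D
        rw [fderiv_comp_sub]
      rw [this, this]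
    rw [e2, lap_nsq]
  have hlaph : lap hh w = 0 := by
    unfold lap
    rw [hhh, DD_cv (zet_CC h3 ht htT) hint1]
    simp only [lap_zet h3 ht hTp]
    unfold cv
    refine integral_eq_zero_of_ae ?_
    have h1 : ∀ᵐ x ∂σ, x ∉ closedBall w t := measure_eq_zero_iff_ae_notMem.1 hw0
    filter_upwards [h1, hae] with x hx hx2
    rw [mem_closedBall, dist_comm, dist_eq_norm, not_le] at hx
    have e1 : ‖w - x‖ ≤ ‖w - z‖ + ‖z‖ + ‖x‖ := by
      calc ‖w - x‖ = ‖(w - z) + z - x‖ := by congr 1; abel
        _ ≤ ‖(w - z) + z‖ + ‖x‖ := norm_sub_le _ _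
        _ ≤ ‖w - z‖ + ‖z‖ + ‖x‖ := by linarith [norm_add_le (w - z) z]
    rw [eta_zero hTp (Or.inl (by linarith)), eta_zero ht (Or.inr hx.le)]
    simp
  rw [hlapF, hlaph] at hlap
  have : 0 < τ * (2 * N) := by positivity
  linarith

end Pool.Agent.Helper60.GM67
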