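import Pool.Agent.Helper60.GM67.Near

/-! Almost minimisers of the energy are approximate solutions. -/

namespace Pool.Agent.Helper60.GM67

open MeasureTheory Set Metric Filter Topology
open Pool.Agent.R216.VPD (E D bv)
open scoped ContDiff

variable {N : ℕ}

/-- admissible nonlinearities -/
structure Adm (g : ℝ → ℝ) (Cg L : ℝ) : Prop where
  mono : Monotone g
  bdd : ∀ t, |g t| ≤ Cg
  lip : ∀ a b, |g a - g b| ≤ L * |a - b|
  Lpos : 0 < L

theorem Adm.cont {g : ℝ → ℝ} {Cg L : ℝ} (h : Adm g Cg L) : Continuous g := by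
  have : LipschitzWith (Real.toNNReal L) g := by
    refine LipschitzWith.of_dist_le_mul fun a b => ?_
    rw [Real.dist_eq, Real.dist_eq, Real.coe_toNNReal _ h.Lpos.le]
    exact h.lip a b
  exact this.continuous

theorem Adm.Cg_nonneg {g : ℝ → ℝ} {Cg L : ℝ} (h : Adm g Cg L) : 0 ≤ Cg :=
  (abs_nonneg _).trans (h.bdd 0)

/-- primitive -/
noncomputable def pr (g : ℝ → ℝ) (t : ℝ) : ℝ := ∫ s in (0 : ℝ)..t, g s

theorem pr_sub {g : ℝ → ℝ} (hg : Continuous g) (a b : ℝ) : pr g b - pr g a = ∫ s in a..b, g s := by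
  unfold pr
  rw [intervalIntegral.integral_interval_sub_left (hg.intervalIntegrable _ _)
    (hg.intervalIntegrable _ _)]

theorem pr_lip {g : ℝ → ℝ} {Cg L : ℝ} (h : Adm g Cg L) (a b : ℝ) :
    |pr g b - pr g a| ≤ Cg * |b - a| := by
  rw [pr_sub h.cont, ← Real.norm_eq_abs]
  exact intervalIntegral.norm_integral_le_of_norm_le_const (f := g) (C := Cg) fun x _ => by
    rw [Real.norm_eq_abs]; exact h.bdd x

theorem pr_quad {g : ℝ → ℝ} {Cg L : ℝ} (h : Adm g Cg L) (a t : ℝ) :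
    pr g (a + t) - pr g a ≤ g a * t + L * t ^ 2 := by
  rw [pr_sub h.cont]
  have h1 : ∫ s in a..(a + t), (g s - g a) = (∫ s in a..(a + t), g s) - g a * t := by
    rw [intervalIntegral.integral_sub (h.cont.intervalIntegrable _ _)
      (continuous_const.intervalIntegrable _ _), intervalIntegral.integral_const]
    simp [mul_comm]
  have h2 : ‖∫ s in a..(a + t), (g s - g a)‖ ≤ (L * |t|) * |a + t - a| := by
    refine intervalIntegral.norm_integral_le_of_norm_le_const fun x hx => ?_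
    rw [Real.norm_eq_abs]
    refine (h.lip x a).trans (mul_le_mul_of_nonneg_left ?_ h.Lpos.le)
    rw [mem_uIoc] at hx
    rcases hx with hx | hx
    · rw [abs_of_nonneg (by linarith [hx.1]), abs_of_nonneg (by linarith [hx.1, hx.2])]
      linarith [hx.2]
    · rw [abs_of_nonpos (by linarith [hx.2]), abs_of_nonpos (by linarith [hx.1, hx.2])]
      linarith [hx.1]
  rw [Real.norm_eq_abs, add_sub_cancel_left, mul_assoc, ← sq, sq_abs] at h2
  have h3 := le_abs_self (∫ s in a..(a + t), (g s - g a))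
  linarith

theorem pr_cont {g : ℝ → ℝ} {Cg L : ℝ} (h : Adm g Cg L) : Continuous (pr g) := by
  have : LipschitzWith (Real.toNNReal Cg) (pr g) := by
    refine LipschitzWith.of_dist_le_mul fun a b => ?_
    rw [Real.dist_eq, Real.dist_eq, Real.coe_toNNReal _ h.Cg_nonneg]
    exact pr_lip h b a
  exact this.continuous

/-- energy functional -/
noncomputable def JJ (Ω : Set (E N)) (g : ℝ → ℝ) (Z F0 φ : E N → ℝ) : ℝ :=
  en Ω φ / 2 + ∫ y in Ω, (pr g (Z y + φ y) - pr g (Z y) - F0 y * φ y)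

theorem int_pr {Ω : Set (E N)} (hb : Bornology.IsBounded Ω) {g : ℝ → ℝ} {Cg L : ℝ}
    (h : Adm g Cg L) {Z F0 φ : E N → ℝ} (hZ : Measurable Z) (hF : BM F0) (hφ : Continuous φ) :
    IntegrableOn (fun y => pr g (Z y + φ y) - pr g (Z y) - F0 y * φ y) Ω := by
  refine Integrable.sub ?_ (hF.mul_int (iob hb hφ))
  refine Integrable.mono' ((iob hb hφ).abs.const_mul Cg) ?_ ?_
  · exact (((pr_cont h).measurable.comp (hZ.add hφ.measurable)).sub
      ((pr_cont h).measurable.comp hZ)).aestronglyMeasurable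
  · refine Eventually.of_forall fun y => ?_
    rw [Real.norm_eq_abs]
    have := pr_lip h (Z y) (Z y + φ y)
    rwa [add_sub_cancel_left] at this

theorem BM_g {g : ℝ → ℝ} {Cg L : ℝ} (h : Adm g Cg L) {U : E N → ℝ} (hU : Measurable U) :
    BM (fun y => g (U y)) :=
  ⟨h.cont.measurable.comp hU, Cg, fun _ => h.bdd _⟩

theorem JJ_step {Ω : Set (E N)} (hb : Bornology.IsBounded Ω) {g : ℝ → ℝ} {Cg L : ℝ}
    (h : Adm g Cg L) {Z F0 φ ζ : E N → ℝ} (hZ : Measurable Z) (hF : BM F0)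
    (hφ : ContDiff ℝ 2 φ) (hζ : ContDiff ℝ 2 ζ) (t : ℝ) :
    JJ Ω g Z F0 (fun y => φ y + t * ζ y) ≤ JJ Ω g Z F0 φ
      + t * (aa Ω φ ζ - ∫ y in Ω, (F0 y - g (Z y + φ y)) * ζ y)
      + t ^ 2 * (en Ω ζ / 2 + L * ∫ y in Ω, ζ y ^ 2) := by
  have htζ : ContDiff ℝ 2 (fun y => φ y + t * ζ y) := hφ.add (contDiff_const.mul hζ)
  have hgB : BM (fun y => g (Z y + φ y)) := BM_g h (hZ.add hφ.continuous.measurable)
  have hFg : BM (fun y => F0 y - g (Z y + φ y)) := hF.sub hgB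
  have i1 := int_pr hb h hZ hF htζ.continuous
  have i2 := int_pr hb h hZ hF hφ.continuous
  have i3 : IntegrableOn (fun y => (F0 y - g (Z y + φ y)) * ζ y) Ω :=
    hFg.mul_int (iob hb hζ.continuous)
  have i4 : IntegrableOn (fun y => ζ y ^ 2) Ω := iob hb (hζ.continuous.pow 2)
  have h1 : ∫ y in Ω, (pr g (Z y + (φ y + t * ζ y)) - pr g (Z y) - F0 y * (φ y + t * ζ y))
      ≤ ∫ y in Ω, ((pr g (Z y + φ y) - pr g (Z y) - F0 y * φ y)
        - t * ((F0 y - g (Z y + φ y)) * ζ y) + t ^ 2 * L * ζ y ^ 2) := by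
    refine integral_mono i1 ((i2.sub (i3.const_mul t)).add (i4.const_mul (t ^ 2 * L))) fun y => ?_
    simp only
    have h2 := pr_quad h (Z y + φ y) (t * ζ y)
    rw [← add_assoc]
    nlinarith
  have h5 : ∫ y in Ω, ((pr g (Z y + φ y) - pr g (Z y) - F0 y * φ y)
        - t * ((F0 y - g (Z y + φ y)) * ζ y) + t ^ 2 * L * ζ y ^ 2)
      = (∫ y in Ω, (pr g (Z y + φ y) - pr g (Z y) - F0 y * φ y))
        - t * (∫ y in Ω, (F0 y - g (Z y + φ y)) * ζ y) + t ^ 2 * L * ∫ y in Ω, ζ y ^ 2 := by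
    have e1 : IntegrableOn (fun y => (pr g (Z y + φ y) - pr g (Z y) - F0 y * φ y)
        - t * ((F0 y - g (Z y + φ y)) * ζ y)) Ω := i2.sub (i3.const_mul t)
    rw [integral_add e1 (i4.const_mul (t ^ 2 * L)), integral_sub i2 (i3.const_mul t),
      integral_const_mul, integral_const_mul]
  unfold JJ
  rw [en_add_smul hb hφ hζ]
  rw [h5] at h1
  nlinarith

theorem quad_bound {A B e : ℝ} (hB : 0 ≤ B) (h : ∀ t : ℝ, 0 ≤ e ^ 2 + t * A + t ^ 2 * B) :
    |A| ≤ 2 * |e| * √B := by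
  have h1 := discrim_le_zero (a := B) (b := A) (c := e ^ 2) (fun x => by
    have := h x; nlinarith)
  unfold discrim at h1
  have h2 : (2 * |e| * √B) ^ 2 = 4 * B * e ^ 2 := by
    rw [mul_pow, mul_pow, Real.sq_sqrt hB, sq_abs]; ring
  have h3 : A ^ 2 ≤ (2 * |e| * √B) ^ 2 := by rw [h2]; linarith
  exact abs_le_of_sq_le_sq h3 (by positivity)

/-- existence of approximate solutions -/
theorem exists_near {Ω : Set (E N)} (hN : 0 < N) (hΩ : IsOpen Ω) {R : ℝ} (hRp : 0 < R)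
    (hR : Ω ⊆ closedBall 0 R) {g : ℝ → ℝ} {Cg L : ℝ} (h : Adm g Cg L) {Z F0 : E N → ℝ}
    (hZ : Measurable Z) (hF : BM F0) {e : ℝ} (he : 0 < e) :
    ∃ φ, Near Ω φ (fun y => F0 y - g (Z y + φ y)) e := by
  have hb : Bornology.IsBounded Ω := isBounded_closedBall.subset hR
  have hN' : (0 : ℝ) < N := by exact_mod_cast hN
  obtain ⟨C0, hC0⟩ := hF.2
  set C : ℝ := 4 * R ^ 2 / N with hC
  have hCp : 0 < C := by positivity
  set S : Set ℝ := {r | ∃ φ, T2 Ω φ ∧ r = JJ Ω g Z F0 φ} with hS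
  have hne : S.Nonempty := ⟨_, fun _ => 0, ⟨contDiff_const, fun _ _ => rfl⟩, rfl⟩
  have hbelow : BddBelow S := by
    refine ⟨-(C * (Cg + C0) ^ 2 * (volume Ω).toReal), ?_⟩
    rintro r ⟨φ, hφ, rfl⟩
    have hi := int_pr hb h hZ hF hφ.1.continuous
    have hcc : IntegrableOn (fun _ : E N => C * (Cg + C0) ^ 2) Ω := iob hb continuous_const
    have hφφ : IntegrableOn (fun y => φ y ^ 2) Ω := iob hb (hφ.1.continuous.pow 2)
    have h1 : ∫ y in Ω, -(C * (Cg + C0) ^ 2 + 1 / (4 * C) * φ y ^ 2)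
        ≤ ∫ y in Ω, (pr g (Z y + φ y) - pr g (Z y) - F0 y * φ y) := by
      refine integral_mono (hcc.add (hφφ.const_mul _)).neg hi fun y => ?_
      simp only
      have h2 := pr_lip h (Z y) (Z y + φ y)
      rw [add_sub_cancel_left, abs_le] at h2
      have h3 : F0 y * φ y ≤ C0 * |φ y| := by
        refine (le_abs_self _).trans ?_
        rw [abs_mul]
        exact mul_le_mul_of_nonneg_right (hC0 y) (abs_nonneg _)
      have h4 : (Cg + C0) * |φ y| ≤ C * (Cg + C0) ^ 2 + 1 / (4 * C) * φ y ^ 2 := by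
        have h5 : 0 ≤ (C * (Cg + C0) - |φ y| / 2) ^ 2 / C := by positivity
        have h6 : (C * (Cg + C0) - |φ y| / 2) ^ 2 / C
            = C * (Cg + C0) ^ 2 + 1 / (4 * C) * |φ y| ^ 2 - (Cg + C0) * |φ y| := by
          field_simp; ring
        rw [sq_abs] at h6
        linarith
      linarith [h2.1]
    have h9 : ∫ _ in Ω, C * (Cg + C0) ^ 2 = C * (Cg + C0) ^ 2 * (volume Ω).toReal := by
      simp [Measure.real, mul_comm]
    rw [integral_neg, integral_add hcc (hφφ.const_mul _), h9, integral_const_mul] at h1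
    have h7 := poinc hN hΩ hR hφ
    have h8 : 1 / (4 * C) * ∫ y in Ω, φ y ^ 2 ≤ en Ω φ / 4 := by
      have h6 : 1 / (4 * C) * ∫ y in Ω, φ y ^ 2 ≤ 1 / (4 * C) * (C * en Ω φ) :=
        mul_le_mul_of_nonneg_left h7 (by positivity)
      have h7 : 1 / (4 * C) * (C * en Ω φ) = en Ω φ / 4 := by field_simp
      linarith
    have h10 := en_nonneg Ω φ
    unfold JJ
    linarith
  set K : ℝ := 2 * √(1 / 2 + L * C) with hK
  have hL := h.Lpos
  have hKp : 0 < K := by positivity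
  set e1 : ℝ := e / K with he1
  have he1p : 0 < e1 := by positivity
  obtain ⟨r, ⟨φ, hφ, rfl⟩, hlt⟩ := exists_lt_of_csInf_lt hne
    (show sInf S < sInf S + e1 ^ 2 by have : 0 < e1 ^ 2 := by positivity
                                      linarith)
  refine ⟨φ, hφ, fun ζ hζ => ?_⟩
  have hkey : ∀ t : ℝ, 0 ≤ e1 ^ 2 + t * (aa Ω φ ζ - ∫ y in Ω, (F0 y - g (Z y + φ y)) * ζ y)
      + t ^ 2 * (en Ω ζ / 2 + L * ∫ y in Ω, ζ y ^ 2) := by
    intro t
    have h1 := JJ_step hb h hZ hF hφ.1 hζ.1 t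
    have h2 : sInf S ≤ JJ Ω g Z F0 (fun y => φ y + t * ζ y) :=
      csInf_le hbelow ⟨_, hφ.add (hζ.cmul t), rfl⟩
    linarith
  have hζ2 : 0 ≤ ∫ y in Ω, ζ y ^ 2 := integral_nonneg fun y => sq_nonneg _
  have hB : 0 ≤ en Ω ζ / 2 + L * ∫ y in Ω, ζ y ^ 2 := by
    have := en_nonneg Ω ζ
    positivity
  have h3 := quad_bound hB hkey
  refine h3.trans ?_
  have h4 : √(en Ω ζ / 2 + L * ∫ y in Ω, ζ y ^ 2) ≤ √(1 / 2 + L * C) * √(en Ω ζ) := by
    rw [← Real.sqrt_mul (by positivity)]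
    refine Real.sqrt_le_sqrt ?_
    have h5 := poinc hN hΩ hR hζ
    have h6 := mul_le_mul_of_nonneg_left h5 hL.le
    rw [← hC] at h6
    nlinarith
  rw [abs_of_pos he1p]
  calc 2 * e1 * √(en Ω ζ / 2 + L * ∫ y in Ω, ζ y ^ 2)
      ≤ 2 * e1 * (√(1 / 2 + L * C) * √(en Ω ζ)) := by gcongr
    _ = e1 * K * √(en Ω ζ) := by rw [hK]; ring
    _ = e * √(en Ω ζ) := by rw [he1]; field_simp

end Pool.Agent.Helper60.GM67
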