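import Pool.Agent.Helper60.GM67.TEn

/-! Approximate solutions and their estimates. -/

namespace Pool.Agent.Helper60.GM67

open MeasureTheory Set Metric Filter Topology
open Pool.Agent.R216.VPD (E D bv contDiff_D D_congr D_congr_nhds lap_eq D_mul D_comp D_add bb
  bb_zero bb_le bb_nonneg bb_ge tendsto_bb contDiff_bb deriv_bb hasDerivAt_bb)
open scoped ContDiff

variable {N : ℕ}

/-- bounded measurable functions -/
def BM (f : E N → ℝ) : Prop := Measurable f ∧ ∃ C, ∀ y, |f y| ≤ C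

theorem BM.sub {f g : E N → ℝ} (hf : BM f) (hg : BM g) : BM (fun y => f y - g y) := by
  obtain ⟨a, C, ha⟩ := hf
  obtain ⟨b, K, hb⟩ := hg
  exact ⟨a.sub b, C + K, fun y => (abs_sub _ _).trans (add_le_add (ha y) (hb y))⟩

theorem BM.add {f g : E N → ℝ} (hf : BM f) (hg : BM g) : BM (fun y => f y + g y) := by
  obtain ⟨a, C, ha⟩ := hf
  obtain ⟨b, K, hb⟩ := hg
  exact ⟨a.add b, C + K, fun y => (abs_add_le _ _).trans (add_le_add (ha y) (hb y))⟩

theorem BM.integrableOn {Ω : Set (E N)} (hb : Bornology.IsBounded Ω) {f : E N → ℝ} (hf : BM f) :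
    IntegrableOn f Ω := by
  obtain ⟨a, C, ha⟩ := hf
  refine Measure.integrableOn_of_bounded (M := C) hb.measure_lt_top.ne a.aestronglyMeasurable ?_
  exact Eventually.of_forall fun y => ha y

theorem BM.mul_int {Ω : Set (E N)} {f g : E N → ℝ} (hf : BM f) (hg : IntegrableOn g Ω) :
    IntegrableOn (fun y => f y * g y) Ω := by
  obtain ⟨a, C, ha⟩ := hf
  exact hg.bdd_mul (c := C) a.aestronglyMeasurable (Eventually.of_forall fun y => ha y)

/-- approximate solution of `-Δφ = f` -/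
def Near (Ω : Set (E N)) (φ f : E N → ℝ) (e : ℝ) : Prop :=
  T2 Ω φ ∧ ∀ ζ, T2 Ω ζ → |aa Ω φ ζ - ∫ y in Ω, f y * ζ y| ≤ e * √(en Ω ζ)

theorem T2.int {Ω : Set (E N)} (hb : Bornology.IsBounded Ω) {ζ : E N → ℝ} (hζ : T2 Ω ζ) :
    IntegrableOn ζ Ω := iob hb hζ.1.continuous

theorem Near.sub {Ω : Set (E N)} (hb : Bornology.IsBounded Ω) {φ f φ' f' : E N → ℝ} {e e' : ℝ}
    (h : Near Ω φ f e) (h' : Near Ω φ' f' e') (hf : BM f) (hf' : BM f') :
    Near Ω (fun y => φ y - φ' y) (fun y => f y - f' y) (e + e') := by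
  refine ⟨h.1.sub h'.1, fun ζ hζ => ?_⟩
  have h1 := h.2 ζ hζ
  have h2 := h'.2 ζ hζ
  rw [aa_sub_left hb h.1.1 h'.1.1 hζ.1]
  have h3 : ∫ y in Ω, (f y - f' y) * ζ y = (∫ y in Ω, f y * ζ y) - ∫ y in Ω, f' y * ζ y := by
    rw [← integral_sub (hf.mul_int (hζ.int hb)) (hf'.mul_int (hζ.int hb))]
    congr 1; funext y; ring
  rw [h3, add_mul]
  rw [abs_le] at *
  constructor <;> linarith [h1.1, h1.2, h2.1, h2.2]

/-- adding an exact smooth solution -/
theorem Near.shift {Ω : Set (E N)} (hΩ : IsOpen Ω) (hb : Bornology.IsBounded Ω)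
    {φ f Y : E N → ℝ} {e : ℝ} (h : Near Ω φ f e) (hf : BM f) (hY : T2 Ω Y) (hl : BM (lap Y)) :
    Near Ω (fun y => φ y + Y y) (fun y => f y - lap Y y) e := by
  refine ⟨h.1.add hY, fun ζ hζ => ?_⟩
  have h1 := h.2 ζ hζ
  rw [aa_add_left hb h.1.1 hY.1 hζ.1]
  have h2 : aa Ω Y ζ = - ∫ y in Ω, lap Y y * ζ y := by
    rw [aa_comm]
    unfold aa
    rw [ibpT hΩ hb hζ hY.1]
    congr 2; funext y; ring
  have h3 : ∫ y in Ω, (f y - lap Y y) * ζ y = (∫ y in Ω, f y * ζ y) - ∫ y in Ω, lap Y y * ζ y := by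
    rw [← integral_sub (hf.mul_int (hζ.int hb)) (hl.mul_int (hζ.int hb))]
    congr 1; funext y; ring
  rw [h2, h3]
  convert h1 using 2
  ring

/-- testing with a nondecreasing function of the solution -/
theorem Near.test {Ω : Set (E N)} (hb : Bornology.IsBounded Ω) {φ f : E N → ℝ} {e L : ℝ}
    (h : Near Ω φ f e) {p p' : ℝ → ℝ} (hp : ContDiff ℝ 2 p) (hp' : ∀ t, HasDerivAt p (p' t) t)
    (h0 : p 0 = 0) (hL : 0 < L) (hn : ∀ t, 0 ≤ p' t) (hle : ∀ t, p' t ≤ L) :
    -(L * e ^ 2 / 4) ≤ ∫ y in Ω, f y * p (φ y) := by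
  have hζ : T2 Ω (fun y => p (φ y)) := h.1.comp hp h0
  have h1 := h.2 _ hζ
  have h2 : en Ω (fun y => p (φ y)) ≤ L * aa Ω φ (fun y => p (φ y)) := by
    unfold en aa
    rw [← integral_const_mul]
    refine integral_mono (iob hb (dot_cont hζ.1 hζ.1))
      ((iob hb (dot_cont h.1.1 hζ.1)).const_mul _) fun y => ?_
    simp only
    rw [dot_comp_left h.1.1 hp', dot_comm φ (fun y => p (φ y)) y, dot_comp_left h.1.1 hp']
    have h3 := dot_self_nonneg φ y
    have h4 := hn (φ y)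
    have h5 := hle (φ y)
    have h6 : 0 ≤ p' (φ y) * dot φ φ y := mul_nonneg h4 h3
    exact mul_le_mul_of_nonneg_right h5 h6
  set x := √(en Ω (fun y => p (φ y))) with hx
  have hx2 : x ^ 2 = en Ω (fun y => p (φ y)) := Real.sq_sqrt (en_nonneg _ _)
  rw [← hx2] at h2
  rw [abs_le] at h1
  have h7 : 0 ≤ (x - L * e / 2) ^ 2 := sq_nonneg _
  have h8 : L * (aa Ω φ (fun y => p (φ y)) - e * x) ≤ L * ∫ y in Ω, f y * p (φ y) :=
    mul_le_mul_of_nonneg_left (by linarith [h1.2]) hL.le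
  have h9 : L * (-(L * e ^ 2 / 4)) ≤ L * ∫ y in Ω, f y * p (φ y) := by nlinarith
  exact le_of_mul_le_mul_left h9 hL

/-- testing with the function itself -/
theorem Near.self {Ω : Set (E N)} {d f : E N → ℝ} {e : ℝ} (he : 0 ≤ e)
    (h : Near Ω d f e) (hs : ∫ y in Ω, f y * d y ≤ 0) : en Ω d ≤ e ^ 2 := by
  have h1 := h.2 d h.1
  rw [← en_eq, abs_le] at h1
  set x := √(en Ω d) with hx
  have hx2 : x ^ 2 = en Ω d := Real.sq_sqrt (en_nonneg _ _)
  have hx0 : 0 ≤ x := Real.sqrt_nonneg _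
  rw [← hx2] at h1 ⊢
  have h2 : x ^ 2 ≤ e * x := by linarith [h1.2]
  have h3 : x ≤ e := by
    by_contra hc
    push Not at hc
    nlinarith
  nlinarith

/-- energy bound -/
theorem Near.en_le {Ω : Set (E N)} (hN : 0 < N) (hΩ : IsOpen Ω) {R : ℝ} (hRp : 0 < R)
    (hR : Ω ⊆ closedBall 0 R)
    {φ f : E N → ℝ} {e : ℝ} (h : Near Ω φ f e) (hf : BM f) :
    en Ω φ ≤ 2 * (4 * R ^ 2 / N) * (∫ y in Ω, f y ^ 2) + 2 * e ^ 2 := by
  have hb : Bornology.IsBounded Ω := isBounded_closedBall.subset hR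
  have h1 := h.2 φ h.1
  rw [← en_eq, abs_le] at h1
  set x := √(en Ω φ) with hx
  have hx2 : x ^ 2 = en Ω φ := Real.sq_sqrt (en_nonneg _ _)
  have hN' : (0 : ℝ) < N := by exact_mod_cast hN
  set C : ℝ := 4 * R ^ 2 / N with hC
  have hCp : 0 < C := by positivity
  have h2 := poinc hN hΩ hR h.1
  have hff : IntegrableOn (fun y => f y ^ 2) Ω := by
    have := hf.mul_int (hf.integrableOn hb)
    refine this.congr (Eventually.of_forall fun y => ?_)
    simp only; ring
  have hφφ : IntegrableOn (fun y => φ y ^ 2) Ω := iob hb (h.1.1.continuous.pow 2)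
  have h3 : ∫ y in Ω, f y * φ y ≤ ∫ y in Ω, (C * f y ^ 2 + 1 / (4 * C) * φ y ^ 2) := by
    refine integral_mono (hf.mul_int (h.1.int hb)) ((hff.const_mul _).add (hφφ.const_mul _))
      fun y => ?_
    simp only
    have : 0 ≤ (C * f y - φ y / 2) ^ 2 / C := by positivity
    have h4 : (C * f y - φ y / 2) ^ 2 / C = C * f y ^ 2 + 1 / (4 * C) * φ y ^ 2 - f y * φ y := by
      field_simp; ring
    linarith
  rw [integral_add (hff.const_mul _) (hφφ.const_mul _), integral_const_mul,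
    integral_const_mul] at h3
  have h5 : 1 / (4 * C) * ∫ y in Ω, φ y ^ 2 ≤ en Ω φ / 4 := by
    have h6 : 1 / (4 * C) * ∫ y in Ω, φ y ^ 2 ≤ 1 / (4 * C) * (C * en Ω φ) :=
      mul_le_mul_of_nonneg_left h2 (by positivity)
    have h7 : 1 / (4 * C) * (C * en Ω φ) = en Ω φ / 4 := by field_simp
    linarith
  rw [← hx2] at h1 h2 h5 ⊢
  nlinarith [sq_nonneg (x / 2 - e), h1.2]

/-- the barrier -/
noncomputable def bar (R : ℝ) (y : E N) : ℝ := R ^ 2 - nsq y

theorem bar_c2 (R : ℝ) : ContDiff ℝ 2 (bar (N := N) R) := contDiff_const.sub nsq_c2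

theorem D_bar (R : ℝ) (i : Fin N) (y : E N) : D i (bar R) y = -(D i nsq y) := by
  have h : D i (fun z : E N => (fun _ => R ^ 2) z - nsq z) y
      = D i (fun _ : E N => R ^ 2) y - D i nsq y := by
    rw [D_sub (differentiable_const _) (c2_diff nsq_c2)]
  have h2 : D i (fun _ : E N => R ^ 2) y = 0 := by unfold D; simp
  unfold bar
  rw [h2, zero_sub] at h
  exact h

theorem lap_bar (R : ℝ) (y : E N) : lap (bar R) y = -(2 * N) := by
  unfold lap
  have h1 : ∀ i, D i (D i (bar (N := N) R)) y = -(D i (D i nsq) y) := by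
    intro i
    have : D i (bar (N := N) R) = fun y => (-1) * D i nsq y := by
      funext z; rw [D_bar]; ring
    rw [this, D_cmul ((c2_D nsq_c2 i).differentiable (by norm_num))]
    ring
  simp only [h1, Finset.sum_neg_distrib]
  have h2 : ∑ i, D i (D i (nsq (N := N))) y = lap nsq y := rfl
  rw [h2, lap_nsq]

theorem bar_nonneg {Ω : Set (E N)} {R : ℝ} (hR : Ω ⊆ closedBall 0 R) {y : E N}
    (hy : y ∈ closure Ω) : 0 ≤ bar R y := by
  have h1 : y ∈ closedBall (0 : E N) R := closure_minimal hR isClosed_closedBall hy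
  rw [mem_closedBall, dist_zero_right] at h1
  unfold bar nsq
  nlinarith [norm_nonneg y]

theorem bar_le (R : ℝ) (y : E N) : bar R y ≤ R ^ 2 := by
  unfold bar nsq
  nlinarith [sq_nonneg ‖y‖]

/-- `L¹` estimate -/
theorem Near.L1 {Ω : Set (E N)} (hΩ : IsOpen Ω) {R : ℝ}
    (hR : Ω ⊆ closedBall 0 R) {φ f : E N → ℝ} {e L : ℝ} (he : 0 ≤ e)
    (h : Near Ω φ f e) (hf : BM f) {r p p' : ℝ → ℝ} (hr : ContDiff ℝ 2 r) (hp : ContDiff ℝ 2 p)
    (hr' : ∀ t, HasDerivAt r (p t) t) (hp' : ∀ t, HasDerivAt p (p' t) t) (hr0 : r 0 = 0)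
    (h0 : p 0 = 0) (hp1 : ∀ t, |p t| ≤ 1) (hn : ∀ t, 0 ≤ p' t) (hle : ∀ t, p' t ≤ L) :
    2 * N * ∫ y in Ω, r (φ y) ≤ R ^ 2 * (∫ y in Ω, |f y|)
      + e * √(2 * L ^ 2 * R ^ 4 * en Ω φ + 8 * N * R ^ 2 * (volume Ω).toReal) := by
  have hb : Bornology.IsBounded Ω := isBounded_closedBall.subset hR
  have hpφ : T2 Ω (fun y => p (φ y)) := h.1.comp hp h0
  have hζ : T2 Ω (fun y => p (φ y) * bar R y) := hpφ.mulR (bar_c2 R)
  have hrφ : T2 Ω (fun y => r (φ y)) := h.1.comp hr hr0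
  have h1 := h.2 _ hζ
  have h2 := ibpT hΩ hb hrφ (bar_c2 R)
  simp only [lap_bar] at h2
  rw [integral_mul_const] at h2
  have h3 : ∫ y in Ω, dot (fun y => r (φ y)) (bar R) y ≤ aa Ω φ (fun y => p (φ y) * bar R y) := by
    unfold aa
    refine setIntegral_mono_on (iob hb (dot_cont hrφ.1 (bar_c2 R)))
      (iob hb (dot_cont h.1.1 hζ.1)) hΩ.measurableSet fun y hy => ?_
    rw [dot_comp_left h.1.1 hr', dot_comm φ (fun y => p (φ y) * bar R y) y,
      dot_mul_left hpφ.1 (bar_c2 R), dot_comp_left h.1.1 hp', dot_comm φ (bar R) y]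
    have h4 := bar_nonneg hR (subset_closure hy)
    have h5 := mul_nonneg h4 (mul_nonneg (hn (φ y)) (dot_self_nonneg φ y))
    linarith
  have h6 : ∫ y in Ω, f y * (p (φ y) * bar R y) ≤ R ^ 2 * ∫ y in Ω, |f y| := by
    rw [← integral_const_mul]
    refine setIntegral_mono_on (hf.mul_int (hζ.int hb)) ((hf.integrableOn hb).abs.const_mul _)
      hΩ.measurableSet fun y hy => ?_
    have h4 := bar_nonneg hR (subset_closure hy)
    have h5 := bar_le R y
    have h7 := hp1 (φ y)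
    calc f y * (p (φ y) * bar R y) ≤ |f y * (p (φ y) * bar R y)| := le_abs_self _
      _ = |f y| * (|p (φ y)| * bar R y) := by rw [abs_mul, abs_mul, abs_of_nonneg h4]
      _ ≤ |f y| * (1 * R ^ 2) := by gcongr
      _ = _ := by ring
  have h8 : en Ω (fun y => p (φ y) * bar R y)
      ≤ 2 * L ^ 2 * R ^ 4 * en Ω φ + 8 * N * R ^ 2 * (volume Ω).toReal := by
    have hc : IntegrableOn (fun _ : E N => 8 * (N : ℝ) * R ^ 2) Ω := iob hb continuous_const
    have h9 : 2 * L ^ 2 * R ^ 4 * en Ω φ + 8 * N * R ^ 2 * (volume Ω).toReal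
        = ∫ y in Ω, (2 * L ^ 2 * R ^ 4 * dot φ φ y + 8 * N * R ^ 2) := by
      rw [integral_add ((iob hb (dot_cont h.1.1 h.1.1)).const_mul _) hc, integral_const_mul]
      simp [en, Measure.real, mul_comm]
    rw [h9]
    unfold en
    refine setIntegral_mono_on (iob hb (dot_cont hζ.1 hζ.1))
      (((iob hb (dot_cont h.1.1 h.1.1)).const_mul _).add hc) hΩ.measurableSet fun y hy => ?_
    have hyR : ‖y‖ ≤ R := by
      have := hR hy
      rwa [mem_closedBall, dist_zero_right] at this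
    have hR2 : ‖y‖ ^ 2 ≤ R ^ 2 := by gcongr
    have hB := bar_nonneg hR (subset_closure hy)
    have hB2 := bar_le R y
    have hterm : ∀ i ∈ Finset.univ, D i (fun y => p (φ y) * bar R y) y
        * D i (fun y => p (φ y) * bar R y) y
        ≤ 2 * L ^ 2 * R ^ 4 * (D i φ y * D i φ y) + 8 * R ^ 2 := by
      intro i _
      have e1 : D i (fun y => p (φ y) * bar R y) y
          = p' (φ y) * D i φ y * bar R y - p (φ y) * (2 * inner ℝ y (bv i : E N)) := by
        rw [D_mul (c2_diff hpφ.1) (c2_diff (bar_c2 R)),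
          D_comp (c2_diff h.1.1) (fun t => (hp' t).differentiableAt)]
        simp only
        rw [(hp' (φ y)).deriv, D_bar, D_nsq]; ring
      rw [e1]
      have e2 := inner_bv_le y i
      have e3 : (p (φ y)) ^ 2 ≤ 1 := by
        have := hp1 (φ y)
        rw [← sq_abs]
        have h0 := abs_nonneg (p (φ y))
        nlinarith
      have e4 : (p' (φ y)) ^ 2 ≤ L ^ 2 := by
        have := hn (φ y); have := hle (φ y); gcongr
      have e5 : (bar R y) ^ 2 ≤ R ^ 4 := by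
        have : (bar R y) ^ 2 ≤ (R ^ 2) ^ 2 := by gcongr
        calc _ ≤ _ := this
          _ = _ := by ring
      have e6 : (p' (φ y) * D i φ y * bar R y) ^ 2 ≤ L ^ 2 * R ^ 4 * (D i φ y * D i φ y) := by
        calc (p' (φ y) * D i φ y * bar R y) ^ 2
            = (p' (φ y)) ^ 2 * (bar R y) ^ 2 * (D i φ y * D i φ y) := by ring
          _ ≤ L ^ 2 * R ^ 4 * (D i φ y * D i φ y) := by
              have : 0 ≤ D i φ y * D i φ y := mul_self_nonneg _
              gcongr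
      have e7 : (p (φ y) * (2 * inner ℝ y (bv i : E N))) ^ 2 ≤ 4 * R ^ 2 := by
        calc (p (φ y) * (2 * inner ℝ y (bv i : E N))) ^ 2
            = 4 * ((p (φ y)) ^ 2 * (inner ℝ y (bv i : E N)) ^ 2) := by ring
          _ ≤ 4 * (1 * R ^ 2) := by
              have : (inner ℝ y (bv i : E N)) ^ 2 ≤ R ^ 2 := e2.trans hR2
              gcongr
          _ = _ := by ring
      nlinarith [sq_nonneg (p' (φ y) * D i φ y * bar R y
        + p (φ y) * (2 * inner ℝ y (bv i : E N)))]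
    have hsum := Finset.sum_le_sum hterm
    rw [Finset.sum_add_distrib, ← Finset.mul_sum] at hsum
    simp only [Finset.sum_const, Finset.card_univ, Fintype.card_fin, nsmul_eq_mul] at hsum
    have h10 : dot φ φ y = ∑ i, D i φ y * D i φ y := rfl
    have h11 : dot (fun y => p (φ y) * bar R y) (fun y => p (φ y) * bar R y) y
      = ∑ i, D i (fun y => p (φ y) * bar R y) y * D i (fun y => p (φ y) * bar R y) y := rfl
    rw [h10, h11]
    linarith
  have h12 : √(en Ω (fun y => p (φ y) * bar R y))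
      ≤ √(2 * L ^ 2 * R ^ 4 * en Ω φ + 8 * N * R ^ 2 * (volume Ω).toReal) := Real.sqrt_le_sqrt h8
  have h13 := mul_le_mul_of_nonneg_left h12 he
  rw [abs_le] at h1
  linarith [h1.2]

/-- upper bound by the barrier -/
theorem Near.ub {Ω : Set (E N)} (hN : 0 < N) (hΩ : IsOpen Ω) {R : ℝ}
    (hR : Ω ⊆ closedBall 0 R) {φ f : E N → ℝ} {e c : ℝ} (he : 0 ≤ e) (hc : 0 ≤ c)
    (h : Near Ω φ f e) (hf : BM f) (hfc : ∀ y ∈ Ω, f y ≤ c) :
    ∫ y in Ω, (bb 1 (φ y - c / (2 * N) * bar R y)) ^ 2 ≤ 4 * R ^ 2 / N * e ^ 2 := by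
  have hb : Bornology.IsBounded Ω := isBounded_closedBall.subset hR
  have hN' : (0 : ℝ) < N := by exact_mod_cast hN
  set B : E N → ℝ := fun y => c / (2 * N) * bar R y with hB
  have hBc : ContDiff ℝ 2 B := contDiff_const.mul (bar_c2 R)
  have hlB : ∀ y, lap B y = -c := by
    intro y
    unfold lap
    have h1 : ∀ i, D i (D i B) y = c / (2 * N) * D i (D i (bar R)) y := by
      intro i
      rw [hB, D_cmul (c2_diff (bar_c2 R)),
        D_cmul ((c2_D (bar_c2 R) i).differentiable (by norm_num))]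
    simp only [h1, ← Finset.mul_sum]
    have h2 : ∑ i, D i (D i (bar (N := N) R)) y = lap (bar R) y := rfl
    rw [h2, lap_bar]
    field_simp
  have hdiff : ContDiff ℝ 2 (fun y => φ y - B y) := h.1.1.sub hBc
  have hζ : T2 Ω (fun y => bb 1 (φ y - B y)) := by
    refine ⟨(contDiff_bb 1).comp hdiff, fun x hx => ?_⟩
    apply bb_zero one_pos
    rw [h.1.2 x hx]
    have h1 := bar_nonneg hR (frontier_subset_closure hx)
    have h2 : 0 ≤ B x := by rw [hB]; positivity
    linarith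
  have hbb : ∀ t, HasDerivAt (bb 1) (Real.smoothTransition (t / 1 - 1)) t := hasDerivAt_bb 1
  have h1 := h.2 _ hζ
  have h2 : aa Ω B (fun y => bb 1 (φ y - B y)) = c * ∫ y in Ω, bb 1 (φ y - B y) := by
    rw [aa_comm]
    unfold aa
    rw [ibpT hΩ hb hζ hBc]
    simp only [hlB]
    rw [integral_mul_const]; ring
  have h3 : en Ω (fun y => bb 1 (φ y - B y))
      ≤ aa Ω φ (fun y => bb 1 (φ y - B y)) - aa Ω B (fun y => bb 1 (φ y - B y)) := by
    rw [← aa_sub_left hb h.1.1 hBc hζ.1]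
    unfold en aa
    refine integral_mono (iob hb (dot_cont hζ.1 hζ.1)) (iob hb (dot_cont hdiff hζ.1)) fun y => ?_
    simp only
    rw [dot_comm (fun y => φ y - B y) (fun y => bb 1 (φ y - B y)) y,
      dot_comp_left hdiff hbb, dot_comp_left hdiff hbb,
      dot_comm (fun y => φ y - B y) (fun y => bb 1 (φ y - B y)) y, dot_comp_left hdiff hbb]
    have h4 := dot_self_nonneg (fun y => φ y - B y) y
    have h5 := Real.smoothTransition.nonneg ((φ y - B y) / 1 - 1)
    have h6 := Real.smoothTransition.le_one ((φ y - B y) / 1 - 1)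
    have h7 := mul_nonneg h5 h4
    exact mul_le_of_le_one_left h7 h6
  have h4 : ∫ y in Ω, f y * bb 1 (φ y - B y) ≤ c * ∫ y in Ω, bb 1 (φ y - B y) := by
    rw [← integral_const_mul]
    refine setIntegral_mono_on (hf.mul_int (hζ.int hb)) ((hζ.int hb).const_mul _)
      hΩ.measurableSet fun y hy => ?_
    exact mul_le_mul_of_nonneg_right (hfc y hy) (bb_nonneg one_pos)
  have h5 : en Ω (fun y => bb 1 (φ y - B y)) ≤ e ^ 2 := by
    set x := √(en Ω (fun y => bb 1 (φ y - B y))) with hx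
    have hx2 : x ^ 2 = en Ω (fun y => bb 1 (φ y - B y)) := Real.sq_sqrt (en_nonneg _ _)
    have hx0 : 0 ≤ x := Real.sqrt_nonneg _
    rw [← hx2] at h3 ⊢
    rw [abs_le] at h1
    have h6 : x ^ 2 ≤ e * x := by linarith [h1.2]
    have h7 : x ≤ e := by
      by_contra hcon
      push Not at hcon
      nlinarith
    nlinarith
  refine (poinc hN hΩ hR hζ).trans ?_
  exact mul_le_mul_of_nonneg_left h5 (by positivity)

end Pool.Agent.Helper60.GM67
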