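import Pool.Agent.Helper60.GM67.Phi

/-! Necessity of the criterion. -/

namespace Pool.Agent.Helper60.GM67

open MeasureTheory Set Metric Filter Topology
open Pool.Agent.R216.VPD (E)
open scoped ENNReal ContDiff

variable {N : ℕ}

/-- the criterion -/
def Crit (μ : Measure (E N)) : Prop :=
  ∀ᵐ x ∂μ, ∀ ε > 0, ∀ᶠ r in 𝓝[>] (0 : ℝ),
    Phi μ x r ≤ Real.log ((μ (closedBall x r)).toReal / r ^ N) + ε * Real.log (1 / r)

/-- weak solutions, smooth test functions -/
def WS (Ω : Set (E N)) (μp μn : Measure (E N)) (u : E N → ℝ) : Prop :=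
  IntegrableOn u Ω ∧ IntegrableOn (fun y => Real.exp (u y) - 1) Ω ∧
    ∀ ζ : E N → ℝ, ContDiff ℝ ∞ ζ → (∀ x ∈ frontier Ω, ζ x = 0) →
      -(∫ y in Ω, u y * lap ζ y) + ∫ y in Ω, (Real.exp (u y) - 1) * ζ y
        = (∫ x, ζ x ∂μp) - ∫ x, ζ x ∂μn

/-- the perturbation measure -/
noncomputable def kp (Ω : Set (E N)) (μn : Measure (E N)) (u : E N → ℝ) : Measure (E N) :=
  μn + (volume.restrict Ω).withDensity (fun y => ENNReal.ofReal |Real.exp (u y) - 1|)

theorem wd_fin {Ω : Set (E N)} {u : E N → ℝ}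
    (hg : IntegrableOn (fun y => Real.exp (u y) - 1) Ω) :
    IsFiniteMeasure ((volume.restrict Ω).withDensity
      (fun y => ENNReal.ofReal |Real.exp (u y) - 1|)) :=
  isFiniteMeasure_withDensity_ofReal hg.abs.2

theorem sub_norm {x y : E N} : ‖x - y‖ = ‖y - x‖ := norm_sub_rev x y

theorem zet_symm (r R : ℝ) (x y : E N) : zet r R (x - y) = zet r R (y - x) := by
  unfold zet
  rw [← Psi_neg, ← Psi_neg R, neg_sub]

/-- the lower bound -/
theorem nec1 (h3 : 3 ≤ N) {Ω : Set (E N)} (hΩ : IsOpen Ω) (hb : Bornology.IsBounded Ω)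
    {μp μn : Measure (E N)} [IsFiniteMeasure μp] [IsFiniteMeasure μn] {u : E N → ℝ}
    (hu : WS Ω μp μn u) {x : E N} {R : ℝ} (hR : 0 < R) (hx : closedBall x R ⊆ Ω) :
    ∃ C : ℝ, ∀ r, 0 < r → r ≤ R → (∫ y, zet r R (x - y) ∂μp)
      - (∫ y, zet r R (x - y) ∂(kp Ω μn u)) - C ≤ ∫ y in Ω, u y * eta r (y - x) := by
  have := wd_fin hu.2.1
  refine ⟨-∫ y in Ω, u y * eta R (y - x), fun r hr hrR => ?_⟩
  set ζ : E N → ℝ := fun y => zet r R (y - x) with hζ
  have hζs : ContDiff ℝ ∞ ζ := (zet_CC h3 hr hrR).1.comp (contDiff_id.sub contDiff_const)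
  have hζ0 : ∀ y ∈ frontier Ω, ζ y = 0 := by
    intro y hy
    have hyΩ : y ∉ Ω := by
      rw [frontier, hΩ.interior_eq] at hy; exact hy.2
    have : R < ‖y - x‖ := by
      by_contra hcon
      push Not at hcon
      exact hyΩ (hx (by rw [mem_closedBall, dist_eq_norm]; exact hcon))
    exact zet_zero h3 hr hrR this.le
  have hlap : ∀ y, lap ζ y = eta R (y - x) - eta r (y - x) := by
    intro y
    rw [hζ, lap_trans]
    exact lap_zet h3 hr hR _
  have hmain := hu.2.2 ζ hζs hζ0
  simp only [hlap] at hmain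
  obtain ⟨C1, hC1⟩ := (eta_CC (N := N) hR).bdd
  obtain ⟨C2, hC2⟩ := (eta_CC (N := N) hr).bdd
  have i1 : IntegrableOn (fun y => u y * eta R (y - x)) Ω := by
    refine hu.1.mul_bdd (c := C1) ?_ (Eventually.of_forall fun y => hC1 _)
    exact ((eta_contDiff R).continuous.comp (by fun_prop)).aestronglyMeasurable
  have i2 : IntegrableOn (fun y => u y * eta r (y - x)) Ω := by
    refine hu.1.mul_bdd (c := C2) ?_ (Eventually.of_forall fun y => hC2 _)
    exact ((eta_contDiff r).continuous.comp (by fun_prop)).aestronglyMeasurable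
  have e1 : ∫ y in Ω, u y * (eta R (y - x) - eta r (y - x))
      = (∫ y in Ω, u y * eta R (y - x)) - ∫ y in Ω, u y * eta r (y - x) := by
    rw [← integral_sub i1 i2]
    congr 1; funext y; ring
  rw [e1] at hmain
  have hzc : Continuous ζ := hζs.continuous
  have hznn : ∀ y, 0 ≤ ζ y := fun y => zet_nonneg h3 hr hrR _
  obtain ⟨C3, hC3⟩ := (zet_CC (N := N) h3 hr hrR).bdd
  have hzb : ∀ y, ‖ζ y‖ ≤ C3 := fun y => hC3 _
  have e2 : ∫ y, zet r R (x - y) ∂μp = ∫ y, ζ y ∂μp := by
    congr 1; funext y; exact zet_symm _ _ _ _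
  have hzi : ∀ (m : Measure (E N)) [IsFiniteMeasure m], Integrable ζ m := fun m _ =>
    Integrable.of_bound hzc.aestronglyMeasurable C3 (Eventually.of_forall hzb)
  have e3 : ∫ y, zet r R (x - y) ∂(kp Ω μn u)
      = (∫ y, ζ y ∂μn) + ∫ y in Ω, |Real.exp (u y) - 1| * ζ y := by
    have e4 : ∫ y, zet r R (x - y) ∂(kp Ω μn u) = ∫ y, ζ y ∂(kp Ω μn u) := by
      congr 1; funext y; exact zet_symm _ _ _ _
    rw [e4]
    unfold kp
    rw [integral_add_measure (hzi _) (hzi _)]
    congr 1
    rw [integral_withDensity_eq_integral_toReal_smul₀]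
    · refine integral_congr_ae (Eventually.of_forall fun y => ?_)
      simp only [smul_eq_mul]
      rw [ENNReal.toReal_ofReal (abs_nonneg _)]
    · exact (hu.2.1.1.aemeasurable.abs).ennreal_ofReal
    · exact Eventually.of_forall fun y => ENNReal.ofReal_lt_top
  have e5 : ∫ y in Ω, (Real.exp (u y) - 1) * ζ y ≤ ∫ y in Ω, |Real.exp (u y) - 1| * ζ y := by
    refine integral_mono ?_ ?_ fun y => ?_
    · exact hu.2.1.mul_bdd (c := C3) hzc.aestronglyMeasurable (Eventually.of_forall hzb)
    · exact hu.2.1.abs.mul_bdd (c := C3) hzc.aestronglyMeasurable (Eventually.of_forall hzb)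
    · exact mul_le_mul_of_nonneg_right (le_abs_self _) (hznn y)
  rw [e2, e3]
  linarith

/-- the upper bound, a Jensen type inequality -/
theorem nec2 (h3 : 3 ≤ N) {Ω : Set (E N)} (hΩ : IsOpen Ω) (hb : Bornology.IsBounded Ω)
    {u : E N → ℝ} (hu : IntegrableOn u Ω) (hg : IntegrableOn (fun y => Real.exp (u y) - 1) Ω)
    {x : E N} {r : ℝ} (hr : 0 < r) (hx : closedBall x r ⊆ Ω) {Dd : ℝ} (hD : 0 < Dd)
    (h : ∫ y in Ω, Real.exp (u y) * eta r (y - x) ≤ bN N * Dd) :
    ∫ y in Ω, u y * eta r (y - x) ≤ bN N * Real.log Dd := by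
  obtain ⟨C2, hC2⟩ := (eta_CC (N := N) hr).bdd
  have hec : Continuous (fun y : E N => eta r (y - x)) :=
    (eta_contDiff r).continuous.comp (by fun_prop)
  have hei : IntegrableOn (fun _ : E N => (1 : ℝ)) Ω := iob hb continuous_const
  have hexp : IntegrableOn (fun y => Real.exp (u y)) Ω := by
    have := hg.add hei
    refine this.congr (Eventually.of_forall fun y => ?_)
    simp
  have i1 : IntegrableOn (fun y => u y * eta r (y - x)) Ω :=
    hu.mul_bdd (c := C2) hec.aestronglyMeasurable (Eventually.of_forall fun y => hC2 _)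
  have i2 : IntegrableOn (fun y => Real.exp (u y) * eta r (y - x)) Ω :=
    hexp.mul_bdd (c := C2) hec.aestronglyMeasurable (Eventually.of_forall fun y => hC2 _)
  have i3 : IntegrableOn (fun y => eta r (y - x)) Ω := iob hb hec
  have h1 : ∫ y in Ω, u y * eta r (y - x)
      ≤ ∫ y in Ω, ((Real.log Dd - 1) * eta r (y - x)
        + Dd⁻¹ * (Real.exp (u y) * eta r (y - x))) := by
    refine integral_mono i1 ((i3.const_mul _).add (i2.const_mul _)) fun y => ?_
    have h2 := Real.add_one_le_exp (u y - Real.log Dd)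
    rw [Real.exp_sub, Real.exp_log hD] at h2
    have h4 : u y ≤ (Real.log Dd - 1) + Dd⁻¹ * Real.exp (u y) := by
      rw [inv_mul_eq_div]; linarith
    have h5 := mul_le_mul_of_nonneg_right h4 (eta_nonneg hr (y - x))
    simp only
    linarith
  rw [integral_add (i3.const_mul _) (i2.const_mul _), integral_const_mul, integral_const_mul] at h1
  have h6 : ∫ y in Ω, eta r (y - x) = bN N := by
    rw [setIntegral_eq_integral_of_forall_compl_eq_zero]
    · rw [integral_sub_right_eq_self (fun z => eta r z) x, integral_eta h3 hr]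
    · intro y hy
      refine eta_zero hr (Or.inr ?_)
      by_contra hcon
      push Not at hcon
      exact hy (hx (by rw [mem_closedBall, dist_eq_norm]; exact hcon.le))
  rw [h6] at h1
  have h7 : Dd⁻¹ * ∫ y in Ω, Real.exp (u y) * eta r (y - x) ≤ Dd⁻¹ * (bN N * Dd) :=
    mul_le_mul_of_nonneg_left h (by positivity)
  have h8 : Dd⁻¹ * (bN N * Dd) = bN N := by field_simp
  rw [h8] at h7
  linarith

/-- bound of the exponential average -/
theorem nec3 {Ω : Set (E N)} (hb : Bornology.IsBounded Ω)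
    (μn : Measure (E N)) [IsFiniteMeasure μn]
    {u : E N → ℝ} (hg : IntegrableOn (fun y => Real.exp (u y) - 1) Ω) {Cη : ℝ}
    (hCη : ∀ s, Ee N s ≤ Cη) (hC0 : 0 < Cη) {x : E N} {r : ℝ} (hr : 0 < r) :
    ∫ y in Ω, Real.exp (u y) * eta r (y - x)
      ≤ Cη * (r ^ N)⁻¹ * ((volume (closedBall x r)).toReal
        + (kp Ω μn u (closedBall x r)).toReal) := by
  have := wd_fin hg
  obtain ⟨C2, hC2⟩ := (eta_CC (N := N) hr).bdd
  have hec : Continuous (fun y : E N => eta r (y - x)) :=
    (eta_contDiff r).continuous.comp (by fun_prop)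
  have hei : IntegrableOn (fun _ : E N => (1 : ℝ)) Ω := iob hb continuous_const
  have hexp : IntegrableOn (fun y => Real.exp (u y)) Ω := by
    have := hg.add hei
    refine this.congr (Eventually.of_forall fun y => ?_)
    simp
  set Q : Set (E N) := closedBall x r with hQ
  have hQm : MeasurableSet Q := measurableSet_closedBall
  have hc0 : 0 ≤ Cη * (r ^ N)⁻¹ := by positivity
  have h1 : ∫ y in Ω, Real.exp (u y) * eta r (y - x)
      ≤ ∫ y in Ω, (Cη * (r ^ N)⁻¹) * (Q.indicator (fun y => 1 + |Real.exp (u y) - 1|) y) := by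
    refine integral_mono ?_ ?_ fun y => ?_
    · exact hexp.mul_bdd (c := C2) hec.aestronglyMeasurable (Eventually.of_forall fun y => hC2 _)
    · exact ((hei.add hg.abs).indicator hQm).const_mul _
    · simp only
      by_cases hy : y ∈ Q
      · rw [indicator_of_mem hy]
        have e1 : eta r (y - x) ≤ Cη * (r ^ N)⁻¹ := by
          unfold eta
          rw [mul_comm]
          exact mul_le_mul_of_nonneg_right (hCη _) (by positivity)
        have e2 : Real.exp (u y) ≤ 1 + |Real.exp (u y) - 1| := by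
          have := le_abs_self (Real.exp (u y) - 1)
          linarith
        calc Real.exp (u y) * eta r (y - x) ≤ (1 + |Real.exp (u y) - 1|) * (Cη * (r ^ N)⁻¹) :=
              mul_le_mul e2 e1 (eta_nonneg hr _) (by positivity)
          _ = _ := by ring
      · rw [indicator_of_notMem hy, mul_zero, eta_zero hr, mul_zero]
        right
        rw [hQ, mem_closedBall, dist_eq_norm, not_le] at hy
        exact hy.le
  refine h1.trans ?_
  rw [integral_const_mul]
  refine mul_le_mul_of_nonneg_left ?_ hc0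
  rw [integral_indicator hQm, Measure.restrict_restrict hQm]
  have i1 : IntegrableOn (fun _ : E N => (1 : ℝ)) (Q ∩ Ω) := hei.mono_set inter_subset_right
  have hga : IntegrableOn (fun y => |Real.exp (u y) - 1|) Ω := hg.abs
  have i2 : IntegrableOn (fun y => |Real.exp (u y) - 1|) (Q ∩ Ω) :=
    hga.mono_set inter_subset_right
  rw [integral_add i1 i2]
  refine add_le_add ?_ ?_
  · rw [setIntegral_const, smul_eq_mul, mul_one]
    refine ENNReal.toReal_mono measure_closedBall_lt_top.ne ?_
    exact measure_mono inter_subset_left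
  · have e1 : ENNReal.ofReal (∫ y in Q ∩ Ω, |Real.exp (u y) - 1|)
        ≤ kp Ω μn u Q := by
      rw [ofReal_integral_eq_lintegral_ofReal i2 (Eventually.of_forall fun y => abs_nonneg _)]
      unfold kp
      rw [Measure.add_apply, withDensity_apply _ hQm, Measure.restrict_restrict hQm]
      exact le_add_self
    have hfin : kp Ω μn u Q ≠ ⊤ := by
      unfold kp
      exact measure_ne_top _ _
    have e2 : 0 ≤ ∫ y in Q ∩ Ω, |Real.exp (u y) - 1| := integral_nonneg fun y => abs_nonneg _
    have := ENNReal.toReal_mono hfin e1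
    rwa [ENNReal.toReal_ofReal e2] at this

end Pool.Agent.Helper60.GM67
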