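import Pool.Agent.Helper60.GM67.Nec

/-! Necessity of the criterion, conclusion. -/

namespace Pool.Agent.Helper60.GM67

open MeasureTheory Set Metric Filter Topology
open Pool.Agent.R216.VPD (E)
open scoped ENNReal

variable {N : ℕ}

/-- crude bound for `Phi` -/
theorem Phi_bdd (h3 : 3 ≤ N) (μ : Measure (E N)) (x : E N) {M : ℝ} (hM : 0 ≤ M)
    (h : ∀ s, 0 < s → s ≤ 1 → (μ (closedBall x s)).toReal ≤ M * s ^ (N - 1)) {r : ℝ}
    (hr : 0 < r) (hr1 : r ≤ 1) : Phi μ x r ≤ 1 / (N * omN N) * M := by
  have hom := omN_pos (N := N)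
  have h0 : (0 : ℝ) ≤ 1 / (N * omN N) := by positivity
  unfold Phi
  refine mul_le_mul_of_nonneg_left ?_ h0
  have h1 : ‖∫ s in r..1, (μ (closedBall x s)).toReal * (s ^ (N - 1))⁻¹‖ ≤ M * |1 - r| := by
    refine intervalIntegral.norm_integral_le_of_norm_le_const fun s hs => ?_
    rw [uIoc_of_le hr1] at hs
    have hs0 : 0 < s := hr.trans hs.1
    have h2 := h s hs0 hs.2
    have h3' : 0 ≤ (μ (closedBall x s)).toReal := ENNReal.toReal_nonneg
    rw [Real.norm_of_nonneg (by positivity), ← div_eq_mul_inv, div_le_iff₀ (by positivity)]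
    exact h2
  refine (le_abs_self _).trans (h1.trans ?_)
  have : |1 - r| ≤ 1 := by rw [abs_le]; constructor <;> linarith
  nlinarith

theorem vol_ball_r (x : E N) {s : ℝ} (hs : 0 ≤ s) :
    (volume (closedBall x s)).toReal = s ^ N * omN N := by
  have h1 := vol_cball (N := N) x hs
  have := omN_pos (N := N)
  rw [h1, ENNReal.toReal_ofReal (by positivity)]

/-- almost everywhere statement on the two densities -/
theorem dens_ae {Ω : Set (E N)} (hΩ : IsOpen Ω) {μp μn : Measure (E N)} [IsFiniteMeasure μp]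
    [IsFiniteMeasure μn] (hs : μp ⟂ₘ μn) {u : E N → ℝ}
    (hg : IntegrableOn (fun y => Real.exp (u y) - 1) Ω) :
    ∀ᵐ x ∂μp, (volume : Measure (E N)).rnDeriv μp x = 0 → (kp Ω μn u).rnDeriv μp x = 0 := by
  have hfin := wd_fin hg
  obtain ⟨f, hfm, hf⟩ : ∃ f : E N → ℝ≥0∞, Measurable f ∧
      (fun y => ENNReal.ofReal |Real.exp (u y) - 1|) =ᵐ[volume.restrict Ω] f := by
    have : AEMeasurable (fun y => ENNReal.ofReal |Real.exp (u y) - 1|) (volume.restrict Ω) :=
      (hg.1.aemeasurable.abs).ennreal_ofReal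
    exact ⟨this.mk _, this.measurable_mk, this.ae_eq_mk⟩
  set f2 : E N → ℝ≥0∞ := Ω.indicator f with hf2
  have hk : (volume.restrict Ω).withDensity (fun y => ENNReal.ofReal |Real.exp (u y) - 1|)
      = (volume : Measure (E N)).withDensity f2 := by
    rw [withDensity_congr_ae hf, hf2, withDensity_indicator hΩ.measurableSet]
  have hfin2 : IsFiniteMeasure ((volume : Measure (E N)).withDensity f2) := by
    rw [← hk]; exact hfin
  have hf2m : Measurable f2 := hfm.indicator hΩ.measurableSet
  have hfne : ∀ᵐ x ∂(volume : Measure (E N)), f2 x ≠ ∞ := by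
    have h1 : ∀ᵐ x ∂(volume.restrict Ω), f x ≠ ∞ := by
      filter_upwards [hf] with x hx
      rw [← hx]; exact ENNReal.ofReal_ne_top
    rw [ae_restrict_iff' hΩ.measurableSet] at h1
    filter_upwards [h1] with x hx
    rw [hf2]
    by_cases hxΩ : x ∈ Ω
    · rw [indicator_of_mem hxΩ]; exact hx hxΩ
    · rw [indicator_of_notMem hxΩ]; exact ENNReal.zero_ne_top
  have h1 := Measure.rnDeriv_withDensity_left (μ := (volume : Measure (E N))) (ν := μp)
    hf2m.aemeasurable hfne
  have h2 : μn.rnDeriv μp =ᵐ[μp] 0 := hs.symm.rnDeriv_ae_eq_zero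
  have h4 := Measure.rnDeriv_add' μn ((volume : Measure (E N)).withDensity f2) μp
  unfold kp
  rw [hk]
  filter_upwards [h1, h2, h4] with x hx1 hx2 hx4 hx0
  rw [hx4, Pi.add_apply, hx2, hx1, hx0]
  simp

theorem tendsto_upper {a b : ℝ → ℝ≥0∞} {l c : ℝ≥0∞}
    (h : Tendsto (fun r => a r / b r) (𝓝[>] 0) (𝓝 l)) (hlc : l < c)
    (hb : ∀ᶠ r in 𝓝[>] (0 : ℝ), b r ≠ 0) (hbt : ∀ r, b r ≠ ∞) :
    ∃ R > 0, ∀ r, 0 < r → r ≤ R → a r ≤ c * b r := by
  have h1 : ∀ᶠ r in 𝓝[>] (0 : ℝ), a r ≤ c * b r := by
    filter_upwards [h.eventually (gt_mem_nhds hlc), hb] with r hr hbr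
    exact ((ENNReal.div_le_iff hbr (hbt r)).1 hr.le)
  rw [eventually_nhdsWithin_iff, Metric.eventually_nhds_iff] at h1
  obtain ⟨ε, hε, h2⟩ := h1
  refine ⟨ε / 2, by positivity, fun r hr hrR => h2 ?_ hr⟩
  rw [Real.dist_eq, sub_zero, abs_of_pos hr]
  linarith

theorem log_inv_tendsto : Tendsto (fun r : ℝ => Real.log (1 / r)) (𝓝[>] 0) atTop := by
  have : (fun r : ℝ => Real.log (1 / r)) = fun r => - Real.log r := by
    funext r; rw [one_div, Real.log_inv]
  rw [this]
  exact tendsto_neg_atBot_atTop.comp Real.tendsto_log_nhdsGT_zero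

theorem necessity (h3 : 3 ≤ N) {Ω : Set (E N)} (hΩ : IsOpen Ω) (hb : Bornology.IsBounded Ω)
    {μp μn : Measure (E N)} [IsFiniteMeasure μp] [IsFiniteMeasure μn] (hs : μp ⟂ₘ μn)
    (hsup : μp Ωᶜ = 0) {u : E N → ℝ} (hu : WS Ω μp μn u) : Crit μp := by
  have hN : (3 : ℝ) ≤ N := by exact_mod_cast h3
  have hom := omN_pos (N := N)
  have hbN := bN_pos h3
  have hfin := wd_fin hu.2.1
  have hkfin : IsFiniteMeasure (kp Ω μn u) := by unfold kp; infer_instance
  have hlf : IsLocallyFiniteMeasure (kp Ω μn u) := inferInstance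
  unfold Crit
  filter_upwards [Besicovitch.ae_tendsto_rnDeriv (volume : Measure (E N)) μp,
    Besicovitch.ae_tendsto_rnDeriv (kp Ω μn u) μp, dens_ae hΩ hs hu.2.1,
    Measure.rnDeriv_lt_top (volume : Measure (E N)) μp, measure_eq_zero_iff_ae_notMem.1 hsup,
    Measure.support_mem_ae (μ := μp)] with x h1 h2 h4 h5 h6 h7 ε hε
  have hxΩ : x ∈ Ω := by simpa using h6
  have hpos : ∀ r, 0 < r → μp (closedBall x r) ≠ 0 := by
    intro r hr
    have := (Measure.mem_support_iff_forall _).1 h7 (closedBall x r) (closedBall_mem_nhds x hr)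
    exact this.ne'
  have hpos' : ∀ᶠ r in 𝓝[>] (0 : ℝ), μp (closedBall x r) ≠ 0 := by
    filter_upwards [self_mem_nhdsWithin] with r hr using hpos r hr
  have hne : ∀ r, μp (closedBall x r) ≠ ∞ := fun r => measure_ne_top _ _
  obtain ⟨R0, hR0, hR0Ω⟩ : ∃ R0 > 0, closedBall x R0 ⊆ Ω :=
    Metric.nhds_basis_closedBall.mem_iff.1 (hΩ.mem_nhds hxΩ)
  have hlim := log_inv_tendsto
  by_cases hl : (volume : Measure (E N)).rnDeriv μp x = 0
  · -- the singular case
    rw [hl] at h1
    rw [h4 hl] at h2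
    set ε1 : ℝ := min (1 / 2) (ε / (4 * N)) with hε1
    have hε1p : 0 < ε1 := lt_min (by norm_num) (by positivity)
    have hε12 : ε1 ≤ 1 / 2 := min_le_left _ _
    have hε1N : ε1 * (4 * N) ≤ ε := by
      have := min_le_right (1 / 2) (ε / (4 * (N : ℝ)))
      rw [← hε1, le_div_iff₀ (by positivity)] at this
      exact this
    obtain ⟨R1, hR1, hvol⟩ := tendsto_upper h1 (c := 1) one_pos hpos' hne
    obtain ⟨R2, hR2, hkap⟩ := tendsto_upper h2 (c := ENNReal.ofReal ε1)
      (by simpa using hε1p) hpos' hne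
    set R : ℝ := min (min R0 1) (min R1 R2) with hR
    have hRp : 0 < R := lt_min (lt_min hR0 one_pos) (lt_min hR1 hR2)
    have hRR0 : R ≤ R0 := (min_le_left _ _).trans (min_le_left _ _)
    have hRR1 : R ≤ 1 := (min_le_left _ _).trans (min_le_right _ _)
    have hRR2 : R ≤ R1 := (min_le_right _ _).trans (min_le_left _ _)
    have hRR3 : R ≤ R2 := (min_le_right _ _).trans (min_le_right _ _)
    have hRΩ : closedBall x R ⊆ Ω := (closedBall_subset_closedBall hRR0).trans hR0Ω
    obtain ⟨C1, hC1⟩ := nec1 h3 hΩ hb hu hRp hRΩ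
    obtain ⟨C2, hC2⟩ := Phi_le_zet h3 μp x hRp hRR1
    obtain ⟨Cη, hCη0, hCη⟩ := Ee_bdd N
    set M : ℝ := (μp univ).toReal with hM
    have hM0 : 0 ≤ M := ENNReal.toReal_nonneg
    set c0 : ℝ := Real.log (2 * Cη / bN N) with hc0
    -- constants
    set C3 : ℝ := (|C1| + |C2|) / bN N + |c0| with hC3
    set C4 : ℝ := C3 + |Real.log (M + 1)| + C3 with hC4
    have hev : ∀ᶠ r in 𝓝[>] (0 : ℝ), C4 ≤ ε / 2 * Real.log (1 / r) := by
      have := hlim.const_mul_atTop (show 0 < ε / 2 by positivity)
      exact this.eventually_ge_atTop _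
    have hsmall : ∀ᶠ r in 𝓝[>] (0 : ℝ), r ≤ R / 2 := by
      filter_upwards [Ioo_mem_nhdsGT (show (0 : ℝ) < R / 2 by positivity)] with r hr using hr.2.le
    filter_upwards [hev, hsmall, self_mem_nhdsWithin] with r hr1 hr2 hr0
    rw [mem_Ioi] at hr0
    have hrR : r ≤ R := by linarith
    have hrN : 0 < r ^ N := by positivity
    set X : ℝ := (μp (closedBall x r)).toReal / r ^ N with hX
    have hBp : 0 < (μp (closedBall x r)).toReal := ENNReal.toReal_pos (hpos r hr0) (hne r)
    have hXp : 0 < X := by positivity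
    set Z : ℝ := ∫ y, zet r R (x - y) ∂μp with hZ
    have a1 := hC1 r hr0 hrR
    have a2 : ∫ y, zet r R (x - y) ∂(kp Ω μn u) ≤ ε1 * Z :=
      zet_comp h3 μp (kp Ω μn u) x hε1p.le hRp (fun s hs1 hs2 => hkap s hs1 (hs2.trans hRR3))
        hr0 hrR
    have a3 : bN N * Phi μp x r ≤ Z + C2 := hC2 r hr0 hr2
    have a4 := nec3 hb μn hu.2.1 hCη hCη0 (x := x) hr0
    have a5 : (volume (closedBall x r)).toReal ≤ (μp (closedBall x r)).toReal := by
      have := hvol r hr0 (hrR.trans hRR2)
      rw [one_mul] at this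
      exact ENNReal.toReal_mono (hne r) this
    have a6 : (kp Ω μn u (closedBall x r)).toReal ≤ (μp (closedBall x r)).toReal := by
      have h8 := hkap r hr0 (hrR.trans hRR3)
      have h9 : ENNReal.ofReal ε1 * μp (closedBall x r) ≤ μp (closedBall x r) := by
        calc ENNReal.ofReal ε1 * μp (closedBall x r) ≤ 1 * μp (closedBall x r) := by
              refine mul_le_mul_left ?_ _
              rw [ENNReal.ofReal_le_one]; linarith
          _ = _ := one_mul _
      exact ENNReal.toReal_mono (hne r) (h8.trans h9)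
    have a7 : ∫ y in Ω, Real.exp (u y) * eta r (y - x) ≤ bN N * (2 * Cη / bN N * X) := by
      refine a4.trans ?_
      have : Cη * (r ^ N)⁻¹ * ((volume (closedBall x r)).toReal
        + (kp Ω μn u (closedBall x r)).toReal)
          ≤ Cη * (r ^ N)⁻¹ * ((μp (closedBall x r)).toReal + (μp (closedBall x r)).toReal) :=
        mul_le_mul_of_nonneg_left (add_le_add a5 a6) (by positivity)
      refine this.trans (le_of_eq ?_)
      rw [hX]
      field_simp
      ring
    have hDp : 0 < 2 * Cη / bN N * X := by positivity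
    have a8 := nec2 h3 hΩ hb hu.1 hu.2.1 hr0
      ((closedBall_subset_closedBall hrR).trans hRΩ) hDp a7
    rw [Real.log_mul (by positivity) hXp.ne'] at a8
    -- combination
    have hZ0 : 0 ≤ Z := integral_nonneg fun y => zet_nonneg h3 hr0 hrR _
    have b1 : (1 - ε1) * Z - C1 ≤ bN N * (c0 + Real.log X) := by
      have : (1 - ε1) * Z - C1 ≤ Z - (∫ y, zet r R (x - y) ∂(kp Ω μn u)) - C1 := by
        linarith
      linarith [a1, a8]
    have b2 : Z ≤ bN N * (c0 + Real.log X) + C1 + ε1 * Z := by linarith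
    have b3 : Z / bN N ≤ c0 + Real.log X + C1 / bN N + ε1 * (Z / bN N) := by
      rw [div_le_iff₀ hbN]
      have e1 : (c0 + Real.log X + C1 / bN N + ε1 * (Z / bN N)) * bN N
        = bN N * (c0 + Real.log X) + C1 + ε1 * Z := by
        field_simp
      rw [e1]; exact b2
    have b4 : Phi μp x r ≤ Z / bN N + C2 / bN N := by
      rw [← add_div, le_div_iff₀ hbN]; linarith
    set Q : ℝ := Z / bN N with hQ
    have hQ0 : 0 ≤ Q := by positivity
    have c1 : C1 / bN N ≤ |C1| / bN N := div_le_div_of_nonneg_right (le_abs_self _) hbN.le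
    have c2 : C2 / bN N ≤ |C2| / bN N := div_le_div_of_nonneg_right (le_abs_self _) hbN.le
    have c3 : C3 = |C1| / bN N + |C2| / bN N + |c0| := by rw [hC3, add_div]
    have c4 : c0 ≤ |c0| := le_abs_self _
    have c5 : 0 ≤ |C1| / bN N := by positivity
    have c6 : 0 ≤ |C2| / bN N := by positivity
    have c7 : 0 ≤ |c0| := abs_nonneg _
    -- log X is at most log (M+1) + N log (1/r)
    have d1 : Real.log X ≤ Real.log (M + 1) + N * Real.log (1 / r) := by
      have e1 : X ≤ (M + 1) * (1 / r) ^ N := by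
        rw [hX, one_div, inv_pow, ← div_eq_mul_inv]
        refine div_le_div_of_nonneg_right ?_ hrN.le
        have : (μp (closedBall x r)).toReal ≤ M :=
          ENNReal.toReal_mono (measure_ne_top _ _) (measure_mono (subset_univ _))
        linarith
      calc Real.log X ≤ Real.log ((M + 1) * (1 / r) ^ N) := Real.log_le_log hXp e1
        _ = _ := by rw [Real.log_mul (by positivity) (by positivity), Real.log_pow]
    have d2 : Real.log (M + 1) ≤ |Real.log (M + 1)| := le_abs_self _
    have d3 : 0 ≤ Real.log (1 / r) := by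
      refine Real.log_nonneg ?_
      rw [le_div_iff₀ hr0]; linarith
    -- bound of ε1 * Q
    have f1 : Q ≤ 2 * (C3 + |Real.log (M + 1)| + N * Real.log (1 / r)) := by
      have : ε1 * Q ≤ 1 / 2 * Q := mul_le_mul_of_nonneg_right hε12 hQ0
      linarith
    have f2 : ε1 * Q ≤ C3 + |Real.log (M + 1)| + ε / 2 * Real.log (1 / r) := by
      have g1 : ε1 * Q ≤ ε1 * (2 * (C3 + |Real.log (M + 1)| + N * Real.log (1 / r))) :=
        mul_le_mul_of_nonneg_left f1 hε1p.le
      have g2 : ε1 * (2 * (C3 + |Real.log (M + 1)|)) ≤ C3 + |Real.log (M + 1)| := by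
        have : 0 ≤ C3 + |Real.log (M + 1)| := by
          have := abs_nonneg (Real.log (M + 1)); linarith
        have := mul_le_mul_of_nonneg_right hε12 this
        linarith
      have g3 : ε1 * (4 * N) * Real.log (1 / r) ≤ ε * Real.log (1 / r) :=
        mul_le_mul_of_nonneg_right hε1N d3
      linarith
    linarith
  · -- the absolutely continuous case
    set l := (volume : Measure (E N)).rnDeriv μp x with hldef
    have hltop : l ≠ ∞ := h5.ne
    have hlp : 0 < l := pos_iff_ne_zero.2 hl
    -- lower bound for the measure of balls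
    obtain ⟨R1, hR1, hvol⟩ := tendsto_upper h1 (c := l + 1)
      (ENNReal.lt_add_right hltop one_ne_zero) hpos' hne
    -- upper bound for the measure of balls
    have hl2 : l / 2 < l := ENNReal.half_lt_self hl hltop
    have h8 : ∀ᶠ r in 𝓝[>] (0 : ℝ), l / 2 * μp (closedBall x r) ≤ volume (closedBall x r) := by
      filter_upwards [h1.eventually (lt_mem_nhds hl2)] with r hr
      exact ENNReal.mul_le_of_le_div hr.le
    have h9 : ∃ R2 > 0, ∀ r, 0 < r → r ≤ R2 →
        l / 2 * μp (closedBall x r) ≤ volume (closedBall x r) := by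
      rw [eventually_nhdsWithin_iff, Metric.eventually_nhds_iff] at h8
      obtain ⟨δ, hδ, h10⟩ := h8
      refine ⟨δ / 2, by positivity, fun r hr hrR => h10 ?_ hr⟩
      rw [Real.dist_eq, sub_zero, abs_of_pos hr]
      linarith
    obtain ⟨R2, hR2, hup⟩ := h9
    set l1 : ℝ := (l / 2).toReal with hl1
    have hl1p : 0 < l1 := by
      refine ENNReal.toReal_pos ?_ ?_
      · simpa using hl
      · exact (ENNReal.div_lt_top hltop (by norm_num)).ne
    set l3 : ℝ := (l + 1).toReal with hl3
    have hl3p : 0 < l3 := by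
      refine ENNReal.toReal_pos (by simp) ?_
      simpa using hltop
    set R : ℝ := min R2 1 with hR
    have hRp : 0 < R := lt_min hR2 one_pos
    set M : ℝ := max (omN N / l1) ((μp univ).toReal * (R ^ (N - 1))⁻¹) with hM
    have hM0 : 0 ≤ M := le_trans (by positivity) (le_max_left _ _)
    have hball : ∀ s, 0 < s → s ≤ 1 → (μp (closedBall x s)).toReal ≤ M * s ^ (N - 1) := by
      intro s hs hs1
      rcases le_or_gt s R with hsR | hsR
      · have h10 := hup s hs (hsR.trans (min_le_left _ _))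
        have h11 := ENNReal.toReal_mono measure_closedBall_lt_top.ne h10
        rw [ENNReal.toReal_mul, vol_ball_r x hs.le] at h11
        have h12 : s ^ N = s * s ^ (N - 1) := by
          rw [← pow_succ']; congr 1; omega
        have h13 : (μp (closedBall x s)).toReal ≤ omN N / l1 * s ^ (N - 1) := by
          rw [div_mul_eq_mul_div, le_div_iff₀ hl1p]
          have h14 : s ^ N ≤ s ^ (N - 1) := by
            rw [h12]
            have : 0 < s ^ (N - 1) := by positivity
            exact mul_le_of_le_one_left this.le hs1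
          have h15 := mul_le_mul_of_nonneg_right h14 hom.le
          linarith
        exact h13.trans (mul_le_mul_of_nonneg_right (le_max_left _ _) (by positivity))
      · have h10 : (μp (closedBall x s)).toReal ≤ (μp univ).toReal :=
          ENNReal.toReal_mono (measure_ne_top _ _) (measure_mono (subset_univ _))
        have h11 : (μp univ).toReal ≤ (μp univ).toReal * (R ^ (N - 1))⁻¹ * s ^ (N - 1) := by
          rw [mul_assoc]
          refine le_mul_of_one_le_right ENNReal.toReal_nonneg ?_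
          rw [inv_mul_eq_div, one_le_div (by positivity)]
          gcongr
        exact h10.trans (h11.trans
          (mul_le_mul_of_nonneg_right (le_max_right _ _) (by positivity)))
    have hev : ∀ᶠ r in 𝓝[>] (0 : ℝ), 1 / (N * omN N) * M - Real.log (omN N / l3)
        ≤ ε * Real.log (1 / r) := by
      have := hlim.const_mul_atTop hε
      exact this.eventually_ge_atTop _
    have hsmall : ∀ᶠ r in 𝓝[>] (0 : ℝ), r ≤ min 1 R1 := by
      filter_upwards [Ioo_mem_nhdsGT (lt_min one_pos hR1)] with r hr using hr.2.le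
    filter_upwards [hev, hsmall, self_mem_nhdsWithin] with r hr1 hr2 hr0
    rw [mem_Ioi] at hr0
    have hr21 : r ≤ 1 := hr2.trans (min_le_left _ _)
    have a1 := Phi_bdd h3 μp x hM0 hball hr0 hr21
    have a2 : Real.log (omN N / l3) ≤ Real.log ((μp (closedBall x r)).toReal / r ^ N) := by
      refine Real.log_le_log (by positivity) ?_
      have h10 := hvol r hr0 (hr2.trans (min_le_right _ _))
      have h11 := ENNReal.toReal_mono (ENNReal.mul_ne_top (by simpa using hltop) (hne r)) h10
      rw [ENNReal.toReal_mul, vol_ball_r x hr0.le] at h11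
      rw [div_le_div_iff₀ hl3p (by positivity)]
      linarith
    linarith

end Pool.Agent.Helper60.GM67
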