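import Pool.Agent.Helper60.GM67.Moll
import Pool.Agent.Helper60.GM67.AMP

/-! The truncated potential in layer cake form. -/

namespace Pool.Agent.Helper60.GM67

open MeasureTheory Set Metric Filter Topology
open Pool.Agent.R216.VPD (E)
open scoped ENNReal

variable {N : ℕ}

/-- truncated potential, in layer cake form -/
noncomputable def Phi (μ : Measure (E N)) (x : E N) (r : ℝ) : ℝ :=
  1 / (N * omN N) * ∫ s in r..1, (μ (closedBall x s)).toReal * (s ^ (N - 1))⁻¹

/-- the same as a lower integral, up to a constant -/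
noncomputable def LL (μ : Measure (E N)) (x : E N) (r : ℝ) : ℝ≥0∞ :=
  ∫⁻ s in Ioc r 1, ENNReal.ofReal (2 * (s ^ (N - 1))⁻¹) * μ (closedBall x s)

theorem bN_eq : bN N = 2 * N * omN N := rfl

theorem meas_ball_r (μ : Measure (E N)) (x : E N) : Measurable (fun s : ℝ => μ (closedBall x s)) := by
  have : Monotone (fun s : ℝ => μ (closedBall x s)) := fun s t h =>
    measure_mono (closedBall_subset_closedBall h)
  exact this.measurable

theorem LL_lt_top (μ : Measure (E N)) [IsFiniteMeasure μ] (x : E N) {r : ℝ} (hr : 0 < r) :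
    LL μ x r < ∞ := by
  unfold LL
  calc ∫⁻ s in Ioc r 1, ENNReal.ofReal (2 * (s ^ (N - 1))⁻¹) * μ (closedBall x s)
      ≤ ∫⁻ _ in Ioc r 1, ENNReal.ofReal (2 * (r ^ (N - 1))⁻¹) * μ univ := by
        refine setLIntegral_mono measurable_const fun s hs => ?_
        refine mul_le_mul' (ENNReal.ofReal_le_ofReal ?_) (measure_mono (subset_univ _))
        have : (s ^ (N - 1))⁻¹ ≤ (r ^ (N - 1))⁻¹ :=
          inv_anti₀ (by positivity) (by have := hs.1; gcongr)
        linarith
    _ < ∞ := by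
        rw [setLIntegral_const, Real.volume_Ioc]
        exact ENNReal.mul_lt_top (ENNReal.mul_lt_top ENNReal.ofReal_lt_top (measure_lt_top _ _))
          ENNReal.ofReal_lt_top

theorem Phi_eq (h3 : 3 ≤ N) (μ : Measure (E N)) [IsFiniteMeasure μ] (x : E N) {r : ℝ}
    (hr : 0 < r) (hr1 : r ≤ 1) : bN N * Phi μ x r = (LL μ x r).toReal := by
  have hN : (3 : ℝ) ≤ N := by exact_mod_cast h3
  have hom := omN_pos (N := N)
  unfold Phi
  rw [bN_eq, ← mul_assoc]
  have e1 : 2 * (N : ℝ) * omN N * (1 / (N * omN N)) = 2 := by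
    have : (N : ℝ) ≠ 0 := by positivity
    field_simp
  rw [e1, ← intervalIntegral.integral_const_mul, intervalIntegral.integral_of_le hr1]
  unfold LL
  rw [integral_eq_lintegral_of_nonneg_ae]
  · congr 1
    refine setLIntegral_congr_fun measurableSet_Ioc fun s hs => ?_
    have hs0 : 0 < s := hr.trans hs.1
    rw [show 2 * ((μ (closedBall x s)).toReal * (s ^ (N - 1))⁻¹)
      = 2 * (s ^ (N - 1))⁻¹ * (μ (closedBall x s)).toReal by ring,
      ENNReal.ofReal_mul (by positivity), ENNReal.ofReal_toReal (measure_ne_top _ _)]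
  · filter_upwards [ae_restrict_mem measurableSet_Ioc] with s hs
    have hs0 : 0 < s := hr.trans hs.1
    have : 0 ≤ (μ (closedBall x s)).toReal := ENNReal.toReal_nonneg
    simp only [Pi.zero_apply]
    positivity
  · refine Measurable.aestronglyMeasurable ?_
    exact ((meas_ball_r μ x).ennreal_toReal.mul ((measurable_id.pow_const _).inv)).const_mul 2

theorem lint_Psi (h3 : 3 ≤ N) {t : ℝ} (ht : 0 < t) (μ : Measure (E N)) [SFinite μ] (x : E N) :
    ∫⁻ y, ENNReal.ofReal (Psi t (x - y)) ∂μ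
      = ∫⁻ s in Ici 0, ENNReal.ofReal (kap N t s) * μ (closedBall x s) := by
  simp only [Psi_lay_lint h3 ht]
  exact cake _ (ENNReal.measurable_ofReal.comp (measurable_kap t)) μ x

theorem lint_zet (h3 : 3 ≤ N) {r R : ℝ} (hr : 0 < r) (hrR : r ≤ R) (μ : Measure (E N)) [SFinite μ]
    (x : E N) : ∫⁻ y, ENNReal.ofReal (zet r R (x - y)) ∂μ
      = ∫⁻ s in Ici 0, ENNReal.ofReal (kap N r s - kap N R s) * μ (closedBall x s) := by
  simp only [zet_lay_lint h3 hr hrR]
  exact cake _ (ENNReal.measurable_ofReal.comp ((measurable_kap r).sub (measurable_kap R))) μ x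

/-- upper bound for the mollified potential -/
theorem VV_le_Phi (h3 : 3 ≤ N) (μ : Measure (E N)) [IsFiniteMeasure μ] (x : E N) {t : ℝ}
    (ht : 0 < t) (ht1 : t ≤ 1) :
    VV t μ x ≤ bN N * Phi μ x (t / 2) + 2 / ((N : ℝ) - 2) * (μ univ).toReal := by
  have hN : (3 : ℝ) ≤ N := by exact_mod_cast h3
  have hn : 0 < (N : ℝ) - 2 := by linarith
  rw [Phi_eq h3 μ x (by positivity) (by linarith)]
  have h1 : ENNReal.ofReal (VV t μ x) = ∫⁻ y, ENNReal.ofReal (Psi t (x - y)) ∂μ := by
    unfold VV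
    rw [ofReal_integral_eq_lintegral_ofReal (Psi_int h3 ht μ x)
      (Eventually.of_forall fun x => (Psi_pos h3 ht _).le)]
  have h2 : ∫⁻ y, ENNReal.ofReal (Psi t (x - y)) ∂μ
      ≤ LL μ x (t / 2) + ENNReal.ofReal (2 / ((N : ℝ) - 2)) * μ univ := by
    rw [lint_Psi h3 ht]
    have hsub : (Ici 0 : Set ℝ) ⊆ Icc 0 (t / 2) ∪ (Ioc (t / 2) 1 ∪ Ioi 1) := by
      intro s hs
      rcases le_or_gt s (t / 2) with h | h
      · exact Or.inl ⟨hs, h⟩
      · rcases le_or_gt s 1 with h' | h'
        · exact Or.inr (Or.inl ⟨h, h'⟩)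
        · exact Or.inr (Or.inr h')
    refine (lintegral_mono_set hsub).trans ((lintegral_union_le _ _ _).trans ?_)
    have e0 : ∫⁻ s in Icc 0 (t / 2), ENNReal.ofReal (kap N t s) * μ (closedBall x s) = 0 := by
      rw [setLIntegral_congr_fun (g := fun _ => 0) measurableSet_Icc fun s hs => ?_]
      · simp
      · simp only
        rw [kap_zero ht hs.1 hs.2]; simp
    rw [e0, zero_add]
    refine (lintegral_union_le _ _ _).trans (add_le_add ?_ ?_)
    · unfold LL
      refine setLIntegral_mono' measurableSet_Ioc fun s hs => ?_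
      have hs0 : 0 ≤ s := by linarith [hs.1]
      exact mul_le_mul_left (ENNReal.ofReal_le_ofReal (kap_le hs0)) _
    · calc ∫⁻ s in Ioi 1, ENNReal.ofReal (kap N t s) * μ (closedBall x s)
          ≤ ∫⁻ s in Ioi 1, ENNReal.ofReal (kap N t s) * μ univ :=
            lintegral_mono fun s => mul_le_mul_right (measure_mono (subset_univ _)) _
        _ = ENNReal.ofReal (2 / ((N : ℝ) - 2)) * μ univ := by
            have hkm : Measurable (fun s => ENNReal.ofReal (kap N t s)) :=
              ENNReal.measurable_ofReal.comp (measurable_kap t)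
            rw [lintegral_mul_const _ hkm]
            congr 1
            have h4 := lay_int (N := N) (a := 1) h3 ht zero_le_one
            rw [← ofReal_integral_eq_lintegral_ofReal h4.1, h4.2]
            · congr 1
              have h5 := P_eq (N := N) (s := 1 ^ 2 / t ^ 2) h3 (by
                rw [le_div_iff₀ (by positivity)]; nlinarith)
              have h6 := rpow_aux (N := N) h3 ht (r := 1) one_pos
              rw [h5]
              calc (t ^ (N - 2))⁻¹ * (2 / ((N : ℝ) - 2) * (1 ^ 2 / t ^ 2) ^ (-((N : ℝ) - 2) / 2))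
                  = 2 / ((N : ℝ) - 2) * ((t ^ (N - 2))⁻¹
                    * (1 ^ 2 / t ^ 2) ^ (-((N : ℝ) - 2) / 2)) := by ring
                _ = _ := by rw [h6]; simp
            · filter_upwards [ae_restrict_mem measurableSet_Ioi] with s hs
              have hs1 : (1 : ℝ) < s := hs
              exact kap_nonneg (by linarith)
  have hfin := LL_lt_top μ x (r := t / 2) (by positivity)
  have h4 : ENNReal.ofReal (VV t μ x)
      ≤ ENNReal.ofReal ((LL μ x (t / 2)).toReal + 2 / ((N : ℝ) - 2) * (μ univ).toReal) := by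
    rw [h1]
    refine h2.trans (le_of_eq ?_)
    rw [ENNReal.ofReal_add ENNReal.toReal_nonneg (by positivity),
      ENNReal.ofReal_toReal hfin.ne, ENNReal.ofReal_mul (by positivity),
      ENNReal.ofReal_toReal (measure_ne_top _ _)]
  exact (ENNReal.ofReal_le_ofReal_iff (by positivity)).1 h4

/-- lower bound for differences of mollified potentials -/
theorem Phi_le_zet (h3 : 3 ≤ N) (μ : Measure (E N)) [IsFiniteMeasure μ] (x : E N) {R : ℝ}
    (hR : 0 < R) (hR1 : R ≤ 1) : ∃ C : ℝ, ∀ r, 0 < r → r ≤ R / 2 →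
      bN N * Phi μ x r ≤ (∫ y, zet r R (x - y) ∂μ) + C := by
  refine ⟨(LL μ x (R / 2)).toReal, fun r hr hrR => ?_⟩
  rw [Phi_eq h3 μ x hr (by linarith)]
  have hrR' : r ≤ R := by linarith
  have hzi : Integrable (fun y => zet r R (x - y)) μ :=
    (Psi_int h3 hr μ x).sub (Psi_int h3 hR μ x)
  have h1 : ENNReal.ofReal (∫ y, zet r R (x - y) ∂μ) = ∫⁻ y, ENNReal.ofReal (zet r R (x - y)) ∂μ :=
    ofReal_integral_eq_lintegral_ofReal hzi
      (Eventually.of_forall fun y => zet_nonneg h3 hr hrR' _)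
  have hz0 : 0 ≤ ∫ y, zet r R (x - y) ∂μ := integral_nonneg fun y => zet_nonneg h3 hr hrR' _
  have h2 : LL μ x r ≤ (∫⁻ y, ENNReal.ofReal (zet r R (x - y)) ∂μ) + LL μ x (R / 2) := by
    rw [lint_zet h3 hr hrR']
    unfold LL
    have hsub : Ioc r 1 ⊆ Ioc r (R / 2) ∪ Ioc (R / 2) 1 := by
      intro s hs
      rcases le_or_gt s (R / 2) with h | h
      · exact Or.inl ⟨hs.1, h⟩
      · exact Or.inr ⟨h, hs.2⟩
    refine (lintegral_mono_set hsub).trans ((lintegral_union_le _ _ _).trans ?_)
    refine add_le_add ?_ le_rfl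
    calc ∫⁻ s in Ioc r (R / 2), ENNReal.ofReal (2 * (s ^ (N - 1))⁻¹) * μ (closedBall x s)
        = ∫⁻ s in Ioc r (R / 2), ENNReal.ofReal (kap N r s - kap N R s)
          * μ (closedBall x s) := by
          refine setLIntegral_congr_fun measurableSet_Ioc fun s hs => ?_
          have hs0 : 0 ≤ s := hr.le.trans hs.1.le
          rw [kap_one hr hs.1.le, kap_zero hR hs0 hs.2, sub_zero]
      _ ≤ _ := by
          refine lintegral_mono_set fun s hs => ?_
          exact hr.le.trans hs.1.le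
  have hf1 := (LL_lt_top μ x (r := R / 2) (by positivity)).ne
  rw [← h1] at h2
  have h4 := ENNReal.toReal_mono (ENNReal.add_ne_top.2 ⟨ENNReal.ofReal_ne_top, hf1⟩) h2
  rw [ENNReal.toReal_add ENNReal.ofReal_ne_top hf1, ENNReal.toReal_ofReal hz0] at h4
  exact h4

/-- comparison of two measures -/
theorem zet_comp (h3 : 3 ≤ N) (μ κ : Measure (E N)) [IsFiniteMeasure μ] [IsFiniteMeasure κ]
    (x : E N) {ε R : ℝ} (hε : 0 ≤ ε) (hR : 0 < R)
    (h : ∀ s, 0 < s → s ≤ R → κ (closedBall x s) ≤ ENNReal.ofReal ε * μ (closedBall x s))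
    {r : ℝ} (hr : 0 < r) (hrR : r ≤ R) :
    ∫ y, zet r R (x - y) ∂κ ≤ ε * ∫ y, zet r R (x - y) ∂μ := by
  have hzi : ∀ (m : Measure (E N)) [IsFiniteMeasure m], Integrable (fun y => zet r R (x - y)) m :=
    fun m _ => (Psi_int h3 hr m x).sub (Psi_int h3 hR m x)
  have h1 : ∀ (m : Measure (E N)) [IsFiniteMeasure m], ENNReal.ofReal (∫ y, zet r R (x - y) ∂m)
      = ∫⁻ y, ENNReal.ofReal (zet r R (x - y)) ∂m := fun m _ =>
    ofReal_integral_eq_lintegral_ofReal (hzi m)
      (Eventually.of_forall fun y => zet_nonneg h3 hr hrR _)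
  have hz0 : 0 ≤ ∫ y, zet r R (x - y) ∂μ := integral_nonneg fun y => zet_nonneg h3 hr hrR _
  rw [← ENNReal.ofReal_le_ofReal_iff (by positivity), ENNReal.ofReal_mul hε, h1 κ, h1 μ,
    lint_zet h3 hr hrR, lint_zet h3 hr hrR, ← lintegral_const_mul']
  · refine setLIntegral_mono' measurableSet_Ici fun s hs => ?_
    have hs0 : 0 ≤ s := hs
    by_cases hsR : s ≤ R
    · rcases eq_or_lt_of_le hs0 with h0 | h0
      · rw [← h0, kap_zero hr le_rfl (by positivity), kap_zero hR le_rfl (by positivity)]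
        simp
      · calc ENNReal.ofReal (kap N r s - kap N R s) * κ (closedBall x s)
            ≤ ENNReal.ofReal (kap N r s - kap N R s)
              * (ENNReal.ofReal ε * μ (closedBall x s)) := mul_le_mul_right (h s h0 hsR) _
          _ = _ := by ring
    · push Not at hsR
      rw [kap_one hr (hrR.trans hsR.le), kap_one hR hsR.le]
      simp
  · exact ENNReal.ofReal_ne_top

end Pool.Agent.Helper60.GM67
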