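import Pool.Agent.Helper60.GM67.Min
import Pool.Agent.Helper60.GM67.Moll
import Pool.Agent.Helper60.GM67.L1C

/-! Solutions with measure data and truncated nonlinearity. -/

namespace Pool.Agent.Helper60.GM67

open MeasureTheory Set Metric Filter Topology
open Pool.Agent.R216.VPD (E D bv bb bb_nonneg bb_zero bb_ge contDiff_bb)
open scoped ContDiff

variable {N : ℕ}

/-- admissible data: density `s` with respect to `m`, supported well inside `Ω` -/
structure Dat (Ω : Set (E N)) (m : Measure (E N)) (s : E N → ℝ) (r0 : ℝ) : Prop where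
  pos : 0 < r0
  int : Integrable s m
  supp : ∀ x, s x ≠ 0 → closedBall x r0 ⊆ Ω

theorem Dat.mono {Ω : Set (E N)} {m : Measure (E N)} {s : E N → ℝ} {r0 r1 : ℝ}
    (h : Dat Ω m s r0) (h1 : 0 < r1) (h2 : r1 ≤ r0) : Dat Ω m s r1 :=
  ⟨h1, h.int, fun x hx => (closedBall_subset_closedBall h2).trans (h.supp x hx)⟩

/-- mollified datum -/
noncomputable def fr (r : ℝ) (m : Measure (E N)) (s : E N → ℝ) (y : E N) : ℝ :=
  (bN N)⁻¹ * cv (eta r) m s y

/-- truncated potential -/
noncomputable def Zr (r : ℝ) (m : Measure (E N)) (s : E N → ℝ) (y : E N) : ℝ :=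
  (bN N)⁻¹ * cv (zs r) m s y

theorem fr_smooth {r : ℝ} (hr : 0 < r) {m : Measure (E N)} {s : E N → ℝ} (hs : Integrable s m) :
    ContDiff ℝ ∞ (fr r m s) := contDiff_const.mul (cv_contDiff (eta_CC hr) hs)

theorem cv_bdd {κ : E N → ℝ} (h : CC κ) {m : Measure (E N)} {s : E N → ℝ}
    (hs : Integrable s m) : ∃ C, ∀ y, |cv κ m s y| ≤ C := by
  obtain ⟨C, hC⟩ := h.bdd
  refine ⟨∫ x, |s x| * C ∂m, fun y => ?_⟩
  refine abs_integral_le_integral_abs.trans ?_
  refine integral_mono (integrable_cv h hs y).abs (hs.abs.mul_const C) fun x => ?_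
  simp only
  rw [abs_mul]
  exact mul_le_mul_of_nonneg_left (hC _) (abs_nonneg _)

theorem fr_BM {r : ℝ} (hr : 0 < r) {m : Measure (E N)} {s : E N → ℝ} (hs : Integrable s m) :
    BM (fr r m s) := by
  refine ⟨(fr_smooth hr hs).continuous.measurable, ?_⟩
  obtain ⟨C, hC⟩ := cv_bdd (eta_CC hr) hs
  refine ⟨|(bN N)⁻¹| * C, fun y => ?_⟩
  unfold fr
  rw [abs_mul]
  exact mul_le_mul_of_nonneg_left (hC y) (abs_nonneg _)

theorem fr_L1 (h3 : 3 ≤ N) {r : ℝ} (hr : 0 < r) {m : Measure (E N)} [SFinite m] {s : E N → ℝ}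
    (hs : Integrable s m) : Integrable (fr r m s) ∧ ∫ y, |fr r m s y| ≤ ∫ x, |s x| ∂m := by
  obtain ⟨h1, h2⟩ := cv_L1 (eta_integrable hr) hs
  have hb := bN_pos h3
  have he : ∫ z : E N, |eta r z| = bN N := by
    rw [← integral_eta h3 hr]
    congr 1; funext z; exact abs_of_nonneg (eta_nonneg hr z)
  rw [he] at h2
  refine ⟨h1.const_mul _, ?_⟩
  unfold fr
  simp only [abs_mul, abs_of_pos (inv_pos.2 hb)]
  rw [integral_const_mul]
  calc (bN N)⁻¹ * ∫ y, |cv (eta r) m s y| ≤ (bN N)⁻¹ * (bN N * ∫ x, |s x| ∂m) := by gcongr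
    _ = _ := by field_simp

theorem Zr_L1 (h3 : 3 ≤ N) {r : ℝ} (hr : 0 < r) {m : Measure (E N)} [SFinite m] {s : E N → ℝ}
    (hs : Integrable s m) : Integrable (Zr r m s) ∧
      ∫ y, |Zr r m s y| ≤ (bN N)⁻¹ * (2 * omN N * r ^ 2) * ∫ x, |s x| ∂m := by
  obtain ⟨h1, h2⟩ := cv_L1 (zs_integrable h3 hr) hs
  have hb := bN_pos h3
  refine ⟨h1.const_mul _, ?_⟩
  unfold Zr
  simp only [abs_mul, abs_of_pos (inv_pos.2 hb)]
  rw [integral_const_mul, mul_assoc]
  refine mul_le_mul_of_nonneg_left (h2.trans ?_) (inv_pos.2 hb).le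
  exact mul_le_mul_of_nonneg_right (zs_L1 h3 hr) (integral_nonneg fun x => abs_nonneg _)

theorem Zr_meas {r : ℝ} {m : Measure (E N)} [SFinite m] {s : E N → ℝ} (hs : Measurable s) :
    Measurable (Zr r m s) := by
  unfold Zr cv
  refine Measurable.const_mul ?_ _
  have h : StronglyMeasurable (fun p : E N × E N => s p.2 * zs r (p.1 - p.2)) := by
    refine Measurable.stronglyMeasurable ?_
    exact (hs.comp measurable_snd).mul ((measurable_zs r).comp (measurable_fst.sub measurable_snd))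
  exact (h.integral_prod_right').measurable

theorem Dat.zs_out {Ω : Set (E N)} {m : Measure (E N)} {s : E N → ℝ} {r0 : ℝ}
    (h : Dat Ω m s r0) {r : ℝ} (hr0 : r ≤ r0) {x y : E N} (hx : s x ≠ 0)
    (hy : y ∉ Ω) : r ≤ ‖y - x‖ := by
  by_contra hc
  push Not at hc
  exact hy (h.supp x hx (by rw [mem_closedBall, dist_eq_norm]; linarith))

/-- the linear equation for the truncated potential -/
theorem Zr_weak (h3 : 3 ≤ N) {Ω : Set (E N)} (hΩ : IsOpen Ω) (hb : Bornology.IsBounded Ω)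
    {m : Measure (E N)} [SFinite m] {s : E N → ℝ} {r0 : ℝ} (h : Dat Ω m s r0) {r : ℝ}
    (hr : 0 < r) (hr0 : r ≤ r0) {ζ : E N → ℝ} (hζ : ContDiff ℝ 2 ζ) :
    -∫ y in Ω, Zr r m s y * lap ζ y = (∫ x, s x * ζ x ∂m) - ∫ y in Ω, fr r m s y * ζ y := by
  have hbp := bN_pos h3
  have hlc := lap_cont hζ
  obtain ⟨C1, hC1⟩ := (hb.isCompact_closure).exists_bound_of_continuousOn hlc.continuousOn
  obtain ⟨C2, hC2⟩ := (hb.isCompact_closure).exists_bound_of_continuousOn hζ.continuous.continuousOn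
  have key : ∀ (κ h' : E N → ℝ) (C : ℝ), Integrable κ → Measurable h' →
      (∀ y ∈ closure Ω, ‖h' y‖ ≤ C) → (∀ z, r ≤ ‖z‖ → κ z = 0) →
      ∫ y in Ω, (bN N)⁻¹ * cv κ m s y * h' y
        = (bN N)⁻¹ * ∫ x, s x * (∫ y, κ (y - x) * h' y) ∂m ∧
      Integrable (fun x => s x * (∫ y, κ (y - x) * h' y)) m := by
    intro κ h' C hκ hm hC hz
    have h1 : ∫ y in Ω, (bN N)⁻¹ * cv κ m s y * h' y
        = (bN N)⁻¹ * ∫ y, cv κ m s y * Ω.indicator h' y := by
      rw [← integral_const_mul, ← integral_indicator hΩ.measurableSet]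
      congr 1; funext y
      by_cases hy : y ∈ Ω
      · rw [indicator_of_mem hy, indicator_of_mem hy]; ring
      · rw [indicator_of_notMem hy, indicator_of_notMem hy]; ring
    have hbd : ∀ y, |Ω.indicator h' y| ≤ max C 0 := by
      intro y
      by_cases hy : y ∈ Ω
      · rw [indicator_of_mem hy]
        exact (hC y (subset_closure hy)).trans (le_max_left _ _)
      · rw [indicator_of_notMem hy, abs_zero]; exact le_max_right _ _
    have heq : ∀ x, s x * (∫ y, κ (y - x) * Ω.indicator h' y)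
        = s x * (∫ y, κ (y - x) * h' y) := by
      intro x
      by_cases hx : s x = 0
      · rw [hx]; ring
      · congr 2
        funext y
        by_cases hy : y ∈ Ω
        · rw [indicator_of_mem hy]
        · rw [indicator_of_notMem hy, hz _ (h.zs_out hr0 hx hy)]; ring
    constructor
    · rw [h1, cv_fub hκ h.int (hm.indicator hΩ.measurableSet) hbd]
      congr 1
      refine integral_congr_ae (Eventually.of_forall heq)
    · exact (cv_fub_int hκ h.int (hm.indicator hΩ.measurableSet) hbd).congr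
        (Eventually.of_forall heq)
  obtain ⟨e1, _⟩ := key (zs r) (lap ζ) C1 (zs_integrable h3 hr) hlc.measurable hC1
    (fun z hz => zs_zero h3 hr hz)
  obtain ⟨e2, i2⟩ := key (eta r) ζ C2 (eta_integrable hr) hζ.continuous.measurable hC2
    (fun z hz => eta_zero hr (Or.inr hz))
  have e3 : ∫ y in Ω, Zr r m s y * lap ζ y = ∫ y in Ω, (bN N)⁻¹ * cv (zs r) m s y * lap ζ y := rfl
  have e4 : ∫ y in Ω, fr r m s y * ζ y = ∫ y in Ω, (bN N)⁻¹ * cv (eta r) m s y * ζ y := rfl
  rw [e3, e4, e1, e2]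
  have i1 : Integrable (fun x => s x * ζ x) m := by
    refine Integrable.mono' (h.int.abs.mul_const (max C2 0)) ?_ ?_
    · exact h.int.1.mul hζ.continuous.aestronglyMeasurable
    · refine Eventually.of_forall fun x => ?_
      rw [norm_mul, Real.norm_eq_abs]
      by_cases hx : s x = 0
      · rw [hx]; simp
      · have hxΩ : x ∈ Ω := h.supp x hx (mem_closedBall_self h.pos.le)
        exact mul_le_mul_of_nonneg_left ((hC2 x (subset_closure hxΩ)).trans (le_max_left _ _))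
          (abs_nonneg _)
  have e5 : ∀ x, s x * (∫ y, zs r (y - x) * lap ζ y)
      = s x * (∫ y, eta r (y - x) * ζ y) - bN N * (s x * ζ x) := by
    intro x
    have := zs_ident h3 hr hζ x
    have h1 : ∫ y, zs r (y - x) * lap ζ y = (∫ y, eta r (y - x) * ζ y) - bN N * ζ x := by
      linarith
    rw [h1]; ring
  simp only [e5]
  rw [integral_sub i2 (i1.const_mul _), integral_const_mul]
  field_simp
  ring

/-- the smooth corrector -/
noncomputable def Yr (ρ r : ℝ) (m : Measure (E N)) (s : E N → ℝ) (y : E N) : ℝ :=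
  (bN N)⁻¹ * cv (zet ρ r) m s y

theorem Yr_T2 (h3 : 3 ≤ N) {Ω : Set (E N)} (hΩ : IsOpen Ω) {m : Measure (E N)} {s : E N → ℝ}
    {r0 : ℝ} (h : Dat Ω m s r0) {ρ r : ℝ} (hρ : 0 < ρ) (hρr : ρ ≤ r) (hr0 : r ≤ r0) :
    T2 Ω (Yr ρ r m s) := by
  refine ⟨?_, ?_⟩
  · have h1 : ContDiff ℝ ∞ (Yr (N := N) ρ r m s) :=
      contDiff_const.mul (cv_contDiff (zet_CC h3 hρ hρr) h.int)
    exact h1.of_le (by norm_cast)
  · intro y hy
    have hyΩ : y ∉ Ω := by
      rw [frontier, hΩ.interior_eq] at hy; exact hy.2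
    unfold Yr cv
    have : ∀ x, s x * zet ρ r (y - x) = 0 := by
      intro x
      by_cases hx : s x = 0
      · rw [hx]; ring
      · rw [zet_zero h3 hρ hρr (h.zs_out hr0 hx hyΩ)]; ring
    simp [this]

theorem Yr_lap (h3 : 3 ≤ N) {m : Measure (E N)} {s : E N → ℝ} (hs : Integrable s m)
    {ρ r : ℝ} (hρ : 0 < ρ) (hρr : ρ ≤ r) (y : E N) :
    lap (Yr ρ r m s) y = fr r m s y - fr ρ m s y := by
  have hr : 0 < r := hρ.trans_le hρr
  have hC := zet_CC (N := N) h3 hρ hρr
  have hc := cv_contDiff hC hs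
  have hc2 : ContDiff ℝ 2 (cv (zet ρ r) m s) := hc.of_le (by norm_cast)
  have h1 : lap (Yr ρ r m s) y = (bN N)⁻¹ * lap (cv (zet ρ r) m s) y := by
    unfold lap
    rw [Finset.mul_sum]
    refine Finset.sum_congr rfl fun i _ => ?_
    have : Yr ρ r m s = fun y => (bN N)⁻¹ * cv (zet ρ r) m s y := rfl
    rw [this, D_cmul (c2_diff hc2), D_cmul ((c2_D hc2 i).differentiable (by norm_num))]
  rw [h1]
  unfold lap
  rw [DD_cv hC hs]
  simp only [lap_zet h3 hρ hr]
  unfold fr
  rw [← mul_sub]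
  congr 1
  unfold cv
  rw [← integral_sub (integrable_cv (eta_CC hr) hs y) (integrable_cv (eta_CC hρ) hs y)]
  congr 1; funext x; ring

theorem Zr_eq (h3 : 3 ≤ N) {m : Measure (E N)} [SFinite m] {s : E N → ℝ} (hs : Integrable s m)
    {ρ r : ℝ} (hρ : 0 < ρ) (hρr : ρ ≤ r) :
    ∀ᵐ y, Zr r m s y = Zr ρ m s y + Yr ρ r m s y := by
  have h1 : Integrable (fun p : E N × E N => s p.1 * zs ρ (p.2 - p.1)) (m.prod volume) := by
    have h2 : Integrable (fun p : E N × E N => s p.1 * zs ρ p.2) (m.prod volume) :=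
      hs.mul_prod (zs_integrable h3 hρ)
    have h3 : MeasurePreserving (fun p : E N × E N => (p.1, p.2 - p.1)) (m.prod volume)
        (m.prod volume) := by
      refine MeasurePreserving.skew_product (MeasurePreserving.id m) (g := fun x y => y - x) ?_ ?_
      · exact (measurable_snd.sub measurable_fst)
      · exact Eventually.of_forall fun x => (measurePreserving_sub_right volume x).map_eq
    exact h3.integrable_comp_of_integrable h2
  filter_upwards [h1.swap.prod_right_ae] with y hy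
  unfold Zr Yr
  rw [← mul_add]
  congr 1
  unfold cv
  have hy' : Integrable (fun x => s x * zs ρ (y - x)) m := hy
  rw [← integral_add hy' (integrable_cv (zet_CC h3 hρ hρr) hs y)]
  congr 1; funext x
  rw [zs_sub ρ r]
  ring

theorem Near.congr {Ω : Set (E N)} {φ f f' : E N → ℝ} {e : ℝ}
    (h : Near Ω φ f e) (hff : ∀ᵐ y ∂(volume.restrict Ω), f y = f' y) : Near Ω φ f' e := by
  refine ⟨h.1, fun ζ hζ => ?_⟩
  have h1 := h.2 ζ hζ
  have h2 : ∫ y in Ω, f y * ζ y = ∫ y in Ω, f' y * ζ y := by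
    refine integral_congr_ae ?_
    filter_upwards [hff] with y hy
    rw [hy]
  rwa [h2] at h1

theorem Near.le {Ω : Set (E N)} {φ f : E N → ℝ} {e e' : ℝ}
    (h : Near Ω φ f e) (he : e ≤ e') : Near Ω φ f e' :=
  ⟨h.1, fun ζ hζ => (h.2 ζ hζ).trans (mul_le_mul_of_nonneg_right he (Real.sqrt_nonneg _))⟩

/-- solutions of the truncated problem, obtained as limits of smooth approximate solutions -/
def Sol (Ω : Set (E N)) (m : Measure (E N)) (s : E N → ℝ) (r0 : ℝ) (g : ℝ → ℝ)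
    (u : E N → ℝ) : Prop :=
  IntegrableOn u Ω ∧ ∀ r, 0 < r → r ≤ r0 → ∀ e > 0, ∃ φ,
    Near Ω φ (fun y => fr r m s y - g (Zr r m s y + φ y)) e ∧
    ∫ y in Ω, |Zr r m s y + φ y - u y| ≤ e

end Pool.Agent.Helper60.GM67
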