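import Pool.Agent.Helper60.GM67.Sol

/-! Existence and properties of the solutions of the truncated problem. -/

namespace Pool.Agent.Helper60.GM67

open MeasureTheory Set Metric Filter Topology
open Pool.Agent.R216.VPD (E D bv bb bb_nonneg bb_zero bb_ge contDiff_bb)
open scoped ContDiff

variable {N : ℕ}

theorem sq_to_L1 {Ω : Set (E N)} {f : E N → ℝ}
    (hf1 : IntegrableOn f Ω) (hf2 : IntegrableOn (fun y => f y ^ 2) Ω) (hΩf : volume Ω ≠ ⊤)
    {a : ℝ} (ha : 0 < a) (h : ∫ y in Ω, f y ^ 2 ≤ a ^ 2) :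
    ∫ y in Ω, |f y| ≤ a * ((volume Ω).toReal + 1) := by
  have hc : IntegrableOn (fun _ : E N => a) Ω := by
    exact integrableOn_const hΩf
  have h1 : ∫ y in Ω, |f y| ≤ ∫ y in Ω, (a + a⁻¹ * f y ^ 2) := by
    refine integral_mono hf1.abs (hc.add (hf2.const_mul _)) fun y => ?_
    simp only
    have h2 : 0 ≤ (|f y| - a) ^ 2 / a + |f y| := by positivity
    have h3 : (|f y| - a) ^ 2 / a = a⁻¹ * |f y| ^ 2 - 2 * |f y| + a := by
      field_simp; ring
    rw [h3, sq_abs] at h2
    linarith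
  rw [integral_add hc (hf2.const_mul _), integral_const_mul] at h1
  have h4 : ∫ _ in Ω, a = a * (volume Ω).toReal := by simp [Measure.real, mul_comm]
  rw [h4] at h1
  have h5 : a⁻¹ * ∫ y in Ω, f y ^ 2 ≤ a := by
    calc a⁻¹ * ∫ y in Ω, f y ^ 2 ≤ a⁻¹ * a ^ 2 := by gcongr
      _ = a := by field_simp
  linarith

theorem sol_exists (h3 : 3 ≤ N) {Ω : Set (E N)} (hΩ : IsOpen Ω) {R : ℝ} (hRp : 0 < R)
    (hR : Ω ⊆ closedBall 0 R) {m : Measure (E N)} [SFinite m] {s : E N → ℝ} (hsm : Measurable s)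
    {r0 : ℝ} (h : Dat Ω m s r0) {g : ℝ → ℝ} {Cg L : ℝ} (hg : Adm g Cg L) :
    ∃ u, Measurable u ∧ Sol Ω m s r0 g u := by
  have hN : 0 < N := by omega
  have hN' : (0 : ℝ) < N := by exact_mod_cast hN
  have hb : Bornology.IsBounded Ω := isBounded_closedBall.subset hR
  have hZ := Zr_meas (r := r0) (m := m) hsm
  have hF := fr_BM h.pos h.int
  have hex : ∀ n : ℕ, ∃ φ, Near Ω φ (fun y => fr r0 m s y - g (Zr r0 m s y + φ y))
      (1 / ((n : ℝ) + 1)) := fun n => exists_near hN hΩ hRp hR hg hZ hF (by positivity)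
  choose φ hφ using hex
  have hBM : ∀ n, BM (fun y => fr r0 m s y - g (Zr r0 m s y + φ n y)) := fun n =>
    hF.sub (BM_g hg (hZ.add (hφ n).1.1.continuous.measurable))
  set V : ℝ := (volume Ω).toReal + 1 with hV
  have hVp : 0 < V := by positivity
  set C : ℝ := √(4 * R ^ 2 / N) with hC
  have hCp : 0 < C := by positivity
  have hdiff : ∀ a b : ℕ, ∫ y in Ω, |φ a y - φ b y|
      ≤ C * (1 / ((a : ℝ) + 1) + 1 / ((b : ℝ) + 1)) * V := by
    intro a b
    have h1 := (hφ a).sub hb (hφ b) (hBM a) (hBM b)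
    have h2 : ∫ y in Ω, ((fr r0 m s y - g (Zr r0 m s y + φ a y))
        - (fr r0 m s y - g (Zr r0 m s y + φ b y))) * (φ a y - φ b y) ≤ 0 := by
      refine integral_nonpos fun y => ?_
      simp only
      rcases le_total (φ a y) (φ b y) with hab | hab
      · have := hg.mono (show Zr r0 m s y + φ a y ≤ Zr r0 m s y + φ b y by linarith)
        exact mul_nonpos_of_nonneg_of_nonpos (by linarith) (by linarith)
      · have := hg.mono (show Zr r0 m s y + φ b y ≤ Zr r0 m s y + φ a y by linarith)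
        exact mul_nonpos_of_nonpos_of_nonneg (by linarith) (by linarith)
    have h4 := h1.self (by positivity) h2
    have h5 := poinc hN hΩ hR h1.1
    have h6 : ∫ y in Ω, (φ a y - φ b y) ^ 2
        ≤ (C * (1 / ((a : ℝ) + 1) + 1 / ((b : ℝ) + 1))) ^ 2 := by
      rw [mul_pow, hC, Real.sq_sqrt (by positivity)]
      exact h5.trans (mul_le_mul_of_nonneg_left h4 (by positivity))
    exact sq_to_L1 (h1.1.int hb) (iob hb (h1.1.1.continuous.pow 2)) hb.measure_lt_top.ne
      (by positivity) h6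
  obtain ⟨w, hw, hlim⟩ := L1_complete (μ := volume.restrict Ω) φ (fun n => (hφ n).1.int hb) (by
    intro ε hε
    obtain ⟨n0, hn0⟩ := exists_nat_gt (2 * C * V / ε)
    refine ⟨n0, fun a ha b hb' => (hdiff a b).trans ?_⟩
    have hn0' : (0 : ℝ) < n0 := lt_of_le_of_lt (by positivity) hn0
    have h1 : 1 / ((a : ℝ) + 1) ≤ 1 / n0 := by
      refine one_div_le_one_div_of_le hn0' ?_
      have : (n0 : ℝ) ≤ a := by exact_mod_cast ha
      linarith
    have h2 : 1 / ((b : ℝ) + 1) ≤ 1 / n0 := by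
      refine one_div_le_one_div_of_le hn0' ?_
      have : (n0 : ℝ) ≤ b := by exact_mod_cast hb'
      linarith
    have h3 : 2 * C * V / n0 ≤ ε := by
      rw [div_lt_iff₀ hε] at hn0
      rw [div_le_iff₀ hn0']
      linarith
    calc C * (1 / ((a : ℝ) + 1) + 1 / ((b : ℝ) + 1)) * V ≤ C * (1 / n0 + 1 / n0) * V := by gcongr
      _ = 2 * C * V / n0 := by ring
      _ ≤ ε := h3)
  set w' : E N → ℝ := hw.1.aemeasurable.mk w with hw'
  have hw'm : Measurable w' := hw.1.aemeasurable.measurable_mk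
  have hww : w =ᵐ[volume.restrict Ω] w' := hw.1.aemeasurable.ae_eq_mk
  refine ⟨fun y => Zr r0 m s y + w' y, hZ.add hw'm, ?_, ?_⟩
  · exact ((Zr_L1 h3 h.pos h.int).1.integrableOn).add (hw.congr hww)
  · intro r hr hr0 e he
    have h1 : ∀ᶠ n : ℕ in atTop, 1 / ((n : ℝ) + 1) < e :=
      tendsto_one_div_add_atTop_nhds_zero_nat.eventually_lt_const he
    have h2 : ∀ᶠ n in atTop, ∫ y in Ω, |φ n y - w y| < e := hlim.eventually_lt_const he
    obtain ⟨n, hn1, hn2⟩ := (h1.and h2).exists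
    have hY := Yr_T2 h3 hΩ h hr hr0 le_rfl
    have hlY : lap (Yr r r0 m s) = fun y => fr r0 m s y - fr r m s y :=
      funext fun y => Yr_lap h3 h.int hr hr0 y
    have hlBM : BM (lap (Yr r r0 m s)) := by
      rw [hlY]; exact hF.sub (fr_BM hr h.int)
    have hzz := Zr_eq h3 h.int hr hr0 (s := s) (m := m)
    refine ⟨fun y => φ n y + Yr r r0 m s y, ?_, ?_⟩
    · refine (((hφ n).shift hΩ hb (hBM n) hY hlBM).le hn1.le).congr ?_
      filter_upwards [ae_restrict_of_ae hzz] with y hy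
      rw [hlY, hy]
      have : Zr r m s y + Yr r r0 m s y + φ n y = Zr r m s y + (φ n y + Yr r r0 m s y) := by ring
      rw [this]
      ring
    · refine le_trans (le_of_eq ?_) hn2.le
      refine integral_congr_ae ?_
      filter_upwards [ae_restrict_of_ae hzz, hww] with y hy hy2
      rw [hy, ← hy2]
      congr 1
      ring

/-- the weak equation -/
theorem sol_weak (h3 : 3 ≤ N) {Ω : Set (E N)} (hΩ : IsOpen Ω) (hb : Bornology.IsBounded Ω)
    {m : Measure (E N)} [SFinite m] {s : E N → ℝ} (hsm : Measurable s)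
    {r0 : ℝ} (h : Dat Ω m s r0) {g : ℝ → ℝ} {Cg L : ℝ} (hg : Adm g Cg L) {u : E N → ℝ}
    (hu : Measurable u) (hsol : Sol Ω m s r0 g u) {ζ : E N → ℝ} (hζ : T2 Ω ζ) :
    -(∫ y in Ω, u y * lap ζ y) + ∫ y in Ω, g (u y) * ζ y = ∫ x, s x * ζ x ∂m := by
  have hlc := lap_cont hζ.1
  obtain ⟨C1, hC1⟩ := (hb.isCompact_closure).exists_bound_of_continuousOn hlc.continuousOn
  obtain ⟨C2, hC2⟩ := (hb.isCompact_closure).exists_bound_of_continuousOn
    hζ.1.continuous.continuousOn
  have hZi := (Zr_L1 h3 h.pos h.int).1.integrableOn (s := Ω)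
  have hZm := Zr_meas (r := r0) (m := m) hsm
  have hF := fr_BM h.pos h.int
  have key : ∀ e > 0, |(-(∫ y in Ω, u y * lap ζ y) + ∫ y in Ω, g (u y) * ζ y)
      - ∫ x, s x * ζ x ∂m| ≤ e * (√(en Ω ζ) + |C1| + L * |C2|) := by
    intro e he
    obtain ⟨φ, hφ, hd⟩ := hsol.2 r0 h.pos le_rfl e he
    have h1 := hφ.2 ζ hζ
    have h2 := Zr_weak h3 hΩ hb h h.pos le_rfl hζ.1
    have h4 : aa Ω φ ζ = -∫ y in Ω, φ y * lap ζ y := ibpT hΩ hb hφ.1 hζ.1
    have hgB : BM (fun y => g (Zr r0 m s y + φ y)) :=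
      BM_g hg (hZm.add hφ.1.1.continuous.measurable)
    have h5 : ∫ y in Ω, (fr r0 m s y - g (Zr r0 m s y + φ y)) * ζ y
        = (∫ y in Ω, fr r0 m s y * ζ y) - ∫ y in Ω, g (Zr r0 m s y + φ y) * ζ y := by
      rw [← integral_sub (hF.mul_int (hζ.int hb)) (hgB.mul_int (hζ.int hb))]
      congr 1; funext y; ring
    rw [h4, h5] at h1
    have hlBM : ∀ f : E N → ℝ, IntegrableOn f Ω → IntegrableOn (fun y => f y * lap ζ y) Ω := by
      intro f hf
      refine Integrable.mono' (hf.abs.mul_const |C1|) (hf.1.mul hlc.aestronglyMeasurable) ?_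
      filter_upwards [ae_restrict_mem hΩ.measurableSet] with y hy
      rw [norm_mul, Real.norm_eq_abs]
      exact mul_le_mul_of_nonneg_left ((hC1 y (subset_closure hy)).trans (le_abs_self _))
        (abs_nonneg _)
    have hφi := hφ.1.int hb
    have hZφ : IntegrableOn (fun y => Zr r0 m s y + φ y) Ω := hZi.add hφi
    have hZφu : IntegrableOn (fun y => |Zr r0 m s y + φ y - u y|) Ω := (hZφ.sub hsol.1).abs
    have h6 : |(∫ y in Ω, (Zr r0 m s y + φ y) * lap ζ y) - ∫ y in Ω, u y * lap ζ y|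
        ≤ e * |C1| := by
      rw [← integral_sub (hlBM _ hZφ) (hlBM _ hsol.1)]
      calc |∫ y in Ω, ((Zr r0 m s y + φ y) * lap ζ y - u y * lap ζ y)|
          ≤ ∫ y in Ω, |(Zr r0 m s y + φ y) * lap ζ y - u y * lap ζ y| :=
            abs_integral_le_integral_abs
        _ ≤ ∫ y in Ω, |Zr r0 m s y + φ y - u y| * |C1| := by
            refine setIntegral_mono_on ((hlBM _ hZφ).sub (hlBM _ hsol.1)).abs
              (hZφu.mul_const _) hΩ.measurableSet fun y hy => ?_
            rw [← sub_mul, abs_mul]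
            exact mul_le_mul_of_nonneg_left ((hC1 y (subset_closure hy)).trans (le_abs_self _))
              (abs_nonneg _)
        _ ≤ e * |C1| := by
            rw [integral_mul_const]
            exact mul_le_mul_of_nonneg_right hd (abs_nonneg _)
    have h7 : (∫ y in Ω, (Zr r0 m s y + φ y) * lap ζ y)
        = (∫ y in Ω, Zr r0 m s y * lap ζ y) + ∫ y in Ω, φ y * lap ζ y := by
      rw [← integral_add (hlBM _ hZi) (hlBM _ hφi)]
      congr 1; funext y; ring
    have h8 : |(∫ y in Ω, g (Zr r0 m s y + φ y) * ζ y) - ∫ y in Ω, g (u y) * ζ y|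
        ≤ e * (L * |C2|) := by
      have hguB : BM (fun y => g (u y)) := BM_g hg hu
      rw [← integral_sub (hgB.mul_int (hζ.int hb)) (hguB.mul_int (hζ.int hb))]
      calc |∫ y in Ω, (g (Zr r0 m s y + φ y) * ζ y - g (u y) * ζ y)|
          ≤ ∫ y in Ω, |g (Zr r0 m s y + φ y) * ζ y - g (u y) * ζ y| :=
            abs_integral_le_integral_abs
        _ ≤ ∫ y in Ω, |Zr r0 m s y + φ y - u y| * (L * |C2|) := by
            refine setIntegral_mono_on ((hgB.mul_int (hζ.int hb)).sub
              (hguB.mul_int (hζ.int hb))).abs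
              (hZφu.mul_const _) hΩ.measurableSet fun y hy => ?_
            rw [← sub_mul, abs_mul]
            have a1 := hg.lip (Zr r0 m s y + φ y) (u y)
            have a2 : |ζ y| ≤ |C2| := (hC2 y (subset_closure hy)).trans (le_abs_self _)
            calc |g (Zr r0 m s y + φ y) - g (u y)| * |ζ y|
                ≤ (L * |Zr r0 m s y + φ y - u y|) * |C2| :=
                  mul_le_mul a1 a2 (abs_nonneg _)
                    (mul_nonneg hg.Lpos.le (abs_nonneg _))
              _ = _ := by ring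
        _ ≤ e * (L * |C2|) := by
            rw [integral_mul_const]
            exact mul_le_mul_of_nonneg_right hd (mul_nonneg hg.Lpos.le (abs_nonneg _))
    rw [h7] at h6
    rw [abs_le] at h1 h6 h8 ⊢
    constructor <;> nlinarith [h1.1, h1.2, h6.1, h6.2, h8.1, h8.2]
  have hK : 0 < √(en Ω ζ) + |C1| + L * |C2| + 1 := by
    have := hg.Lpos
    positivity
  have hzero : |(-(∫ y in Ω, u y * lap ζ y) + ∫ y in Ω, g (u y) * ζ y)
      - ∫ x, s x * ζ x ∂m| ≤ 0 := by
    refine le_of_forall_pos_le_add fun ε hε => ?_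
    rw [zero_add]
    refine (key (ε / (√(en Ω ζ) + |C1| + L * |C2| + 1)) (by positivity)).trans ?_
    rw [div_mul_eq_mul_div, div_le_iff₀ hK]
    nlinarith
  have := abs_nonpos_iff.1 hzero
  linarith

/-- upper bound -/
theorem sol_ub (h3 : 3 ≤ N) {Ω : Set (E N)} (hΩ : IsOpen Ω) {R : ℝ} (hRp : 0 < R)
    (hR : Ω ⊆ closedBall 0 R) {m : Measure (E N)} [SFinite m] {s : E N → ℝ} (hsm : Measurable s)
    {r0 : ℝ} (h : Dat Ω m s r0) : ∃ C : ℝ, ∀ (g : ℝ → ℝ) (Cg L : ℝ), Adm g Cg L →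
      (∀ t, -1 ≤ g t) → ∀ u, Sol Ω m s r0 g u →
      ∀ᵐ y ∂(volume.restrict Ω), u y ≤ Zr r0 m s y + C := by
  have hN : 0 < N := by omega
  have hN' : (0 : ℝ) < N := by exact_mod_cast hN
  have hb : Bornology.IsBounded Ω := isBounded_closedBall.subset hR
  have hF := fr_BM h.pos h.int
  obtain ⟨C0, hC0⟩ := hF.2
  have hZm := Zr_meas (r := r0) (m := m) hsm
  have hZi := (Zr_L1 h3 h.pos h.int).1.integrableOn (s := Ω)
  set c : ℝ := |C0| + 1 with hc
  have hcp : 0 ≤ c := by positivity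
  refine ⟨c / (2 * N) * R ^ 2 + 2, fun g Cg L hg hg1 u hsol => ?_⟩
  set B : E N → ℝ := fun y => c / (2 * N) * bar R y with hB
  have hBc : Continuous B := continuous_const.mul (bar_c2 R).continuous
  have hbbc : Continuous (bb 1) := (contDiff_bb 1).continuous
  have hbbl : ∀ a b : ℝ, |bb 1 a - bb 1 b| ≤ |a - b| := by
    intro a b
    have hd : ∀ t, HasDerivAt (bb 1) (Real.smoothTransition (t / 1 - 1)) t :=
      Pool.Agent.R216.VPD.hasDerivAt_bb 1
    have h1 := Convex.norm_image_sub_le_of_norm_hasDerivWithin_le (f := bb 1)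
      (f' := fun t => Real.smoothTransition (t / 1 - 1)) (s := univ) (C := 1) (x := b) (y := a)
      (fun t _ => (hd t).hasDerivWithinAt) (fun t _ => by
        rw [Real.norm_eq_abs, abs_of_nonneg (Real.smoothTransition.nonneg _)]
        exact Real.smoothTransition.le_one _) convex_univ (mem_univ _) (mem_univ _)
    simpa [Real.norm_eq_abs] using h1
  set K : ℝ := √(4 * R ^ 2 / N) * ((volume Ω).toReal + 1) + 1 with hK
  have hiu : IntegrableOn (fun y => u y - Zr r0 m s y - B y) Ω :=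
    (hsol.1.sub hZi).sub (iob hb hBc)
  have hib : IntegrableOn (fun y => bb 1 (u y - Zr r0 m s y - B y)) Ω := by
    refine Integrable.mono' (hiu.abs) (hbbc.comp_aestronglyMeasurable hiu.1) ?_
    refine Eventually.of_forall fun y => ?_
    have := hbbl (u y - Zr r0 m s y - B y) 0
    rw [bb_zero one_pos (by norm_num : (0 : ℝ) ≤ 1), sub_zero, sub_zero] at this
    exact this
  have hkey : ∀ e > 0, ∫ y in Ω, bb 1 (u y - Zr r0 m s y - B y) ≤ e * K := by
    intro e he
    obtain ⟨φ, hφ, hd⟩ := hsol.2 r0 h.pos le_rfl e he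
    have hgB : BM (fun y => g (Zr r0 m s y + φ y)) :=
      BM_g hg (hZm.add hφ.1.1.continuous.measurable)
    have h1 := hφ.ub hN hΩ hR he.le hcp (hF.sub hgB) (by
      intro y _
      have h2 := hg1 (Zr r0 m s y + φ y)
      have h4 := (le_abs_self _).trans (hC0 y)
      have h5 := le_abs_self C0
      linarith)
    have hcb : Continuous (fun y => bb 1 (φ y - B y)) :=
      hbbc.comp (hφ.1.1.continuous.sub hBc)
    have h2 : ∫ y in Ω, |bb 1 (φ y - B y)| ≤ (√(4 * R ^ 2 / N) * e) * ((volume Ω).toReal + 1) := by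
      refine sq_to_L1 (iob hb hcb) (iob hb (hcb.pow 2)) hb.measure_lt_top.ne (by positivity) ?_
      rw [mul_pow, Real.sq_sqrt (by positivity)]
      exact h1
    have hZφ : IntegrableOn (fun y => Zr r0 m s y + φ y) Ω := hZi.add (hφ.1.int hb)
    have hZφu : IntegrableOn (fun y => |Zr r0 m s y + φ y - u y|) Ω := (hZφ.sub hsol.1).abs
    have h4 : ∫ y in Ω, bb 1 (u y - Zr r0 m s y - B y)
        ≤ ∫ y in Ω, (|bb 1 (φ y - B y)| + |Zr r0 m s y + φ y - u y|) := by
      refine integral_mono hib ((iob hb hcb).abs.add hZφu) fun y => ?_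
      simp only
      have a1 := hbbl (u y - Zr r0 m s y - B y) (φ y - B y)
      have a2 : u y - Zr r0 m s y - B y - (φ y - B y) = -(Zr r0 m s y + φ y - u y) := by ring
      rw [a2, abs_neg] at a1
      have a3 := le_abs_self (bb 1 (u y - Zr r0 m s y - B y) - bb 1 (φ y - B y))
      have a4 := le_abs_self (bb 1 (φ y - B y))
      linarith
    rw [integral_add (iob hb hcb).abs hZφu] at h4
    rw [hK]
    nlinarith
  have hKp : 0 < K := by positivity
  have h0 : ∫ y in Ω, bb 1 (u y - Zr r0 m s y - B y) ≤ 0 := by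
    refine le_of_forall_pos_le_add fun ε hε => ?_
    rw [zero_add]
    refine (hkey (ε / K) (by positivity)).trans (le_of_eq ?_)
    field_simp
  have h1 : ∫ y in Ω, bb 1 (u y - Zr r0 m s y - B y) = 0 :=
    le_antisymm h0 (integral_nonneg fun y => bb_nonneg one_pos)
  rw [integral_eq_zero_iff_of_nonneg (fun y => bb_nonneg one_pos) hib] at h1
  filter_upwards [h1, ae_restrict_mem hΩ.measurableSet] with y hy hyΩ
  have h2 : bb 1 (u y - Zr r0 m s y - B y) = 0 := hy
  have h4 := bb_ge (s := u y - Zr r0 m s y - B y) one_pos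
  rw [h2] at h4
  have h5 : B y ≤ c / (2 * N) * R ^ 2 :=
    mul_le_mul_of_nonneg_left (bar_le R y) (by positivity)
  linarith

end Pool.Agent.Helper60.GM67
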