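import Pool.Agent.Helper60.GM67.Nec2
import Pool.Agent.Helper60.GM67.Lev
import Pool.Agent.Helper60.GM67.ExpInt
import Pool.Agent.Helper60.GM67.Exist

/-! Good sets extracted from the criterion. -/

namespace Pool.Agent.Helper60.GM67

open MeasureTheory Set Metric Filter Topology
open Pool.Agent.R216.VPD (E)
open scoped ENNReal

variable {N : ℕ}

theorem Phi_meas (μ : Measure (E N)) [IsFiniteMeasure μ] {r : ℝ} (hr1 : r ≤ 1) :
    Measurable (fun x => Phi μ x r) := by
  have hS : MeasurableSet {p : (E N × ℝ) × E N | dist p.2 p.1.1 ≤ p.1.2} :=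
    measurableSet_le (by fun_prop) (by fun_prop)
  have h1 : Measurable (fun p : E N × ℝ => μ (closedBall p.1 p.2)) :=
    measurable_measure_prodMk_left hS
  have h2 : StronglyMeasurable
      (fun p : E N × ℝ => (μ (closedBall p.1 p.2)).toReal * (p.2 ^ (N - 1))⁻¹) :=
    (h1.ennreal_toReal.mul ((measurable_snd.pow_const _).inv)).stronglyMeasurable
  have h3 := (h2.integral_prod_right' (ν := volume.restrict (Ioc r 1))).measurable.const_mul
    (1 / (N * omN N))
  have h4 : (fun x => Phi μ x r) = fun x => 1 / (N * omN N)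
      * ∫ s in Ioc r 1, (μ (closedBall x s)).toReal * (s ^ (N - 1))⁻¹ := by
    funext x
    unfold Phi
    rw [intervalIntegral.integral_of_le hr1]
  rw [h4]
  exact h3

/-- points where the criterion holds at all small dyadic scales -/
def Eg (μ : Measure (E N)) (δ : ℝ) (n : ℕ) : Set (E N) :=
  {x | ∀ k : ℕ, n ≤ k → Phi μ x ((1 / 2) ^ k)
    ≤ Real.log ((μ (closedBall x ((1 / 2) ^ k))).toReal / ((1 / 2) ^ k) ^ N)
      + δ * Real.log (1 / (1 / 2) ^ k)}

theorem Eg_meas (μ : Measure (E N)) [IsFiniteMeasure μ] (δ : ℝ) (n : ℕ) :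
    MeasurableSet (Eg μ δ n) := by
  have h : Eg μ δ n = ⋂ k : ℕ, ⋂ _ : n ≤ k, {x | Phi μ x ((1 / 2) ^ k)
    ≤ Real.log ((μ (closedBall x ((1 / 2) ^ k))).toReal / ((1 / 2) ^ k) ^ N)
      + δ * Real.log (1 / (1 / 2) ^ k)} := by
    ext x
    simp only [Eg, mem_ofPred_eq, mem_iInter]
  rw [h]
  refine MeasurableSet.iInter fun k => MeasurableSet.iInter fun _ => measurableSet_le ?_ ?_
  · exact Phi_meas μ (pow_le_one₀ (by norm_num) (by norm_num))
  · exact (Real.measurable_log.comp ((meas_ball μ _).ennreal_toReal.div_const _)).add_const _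

theorem Phi_anti (h3 : 3 ≤ N) (μ : Measure (E N)) [IsFiniteMeasure μ] (x : E N) {r s : ℝ}
    (hr : 0 < r) (hrs : r ≤ s) (hs : s ≤ 1) : Phi μ x s ≤ Phi μ x r := by
  have hb := bN_pos h3
  have h1 := Phi_eq h3 μ x hr (hrs.trans hs)
  have h2 := Phi_eq h3 μ x (hr.trans_le hrs) hs
  have h4 : (LL μ x s).toReal ≤ (LL μ x r).toReal := by
    refine ENNReal.toReal_mono (LL_lt_top μ x hr).ne ?_
    unfold LL
    exact lintegral_mono_set (Ioc_subset_Ioc_left hrs)
  rw [← h1, ← h2] at h4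
  exact le_of_mul_le_mul_left h4 hb

theorem Eg_all (h3 : 3 ≤ N) (μ : Measure (E N)) [IsFiniteMeasure μ] {δ : ℝ} (hδ : 0 < δ) (n : ℕ)
    {x : E N} (hx : x ∈ Eg μ δ n) (hs : x ∈ μ.support) {t : ℝ} (ht : 0 < t)
    (htn : t ≤ (1 / 2) ^ n) :
    0 < (μ (closedBall x t)).toReal ∧
      VV t μ x ≤ bN N * (Real.log ((μ (closedBall x t)).toReal / t ^ N)
        + δ * Real.log (1 / t))
        + (bN N * (N * Real.log 4 + δ * Real.log 4) + 2 / ((N : ℝ) - 2) * (μ univ).toReal) := by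
  have hb := bN_pos h3
  have hne : ∀ r, μ (closedBall x r) ≠ ∞ := fun r => measure_ne_top _ _
  have hpos : ∀ r, 0 < r → 0 < (μ (closedBall x r)).toReal := by
    intro r hr
    exact ENNReal.toReal_pos
      (((Measure.mem_support_iff_forall _).1 hs) _ (closedBall_mem_nhds x hr)).ne' (hne r)
  refine ⟨hpos t ht, ?_⟩
  have ht1 : t ≤ 1 := htn.trans (pow_le_one₀ (by norm_num) (by norm_num))
  obtain ⟨m, hm1, hm2⟩ := exists_nat_pow_near_of_lt_one (x := t / 2) (y := (1 / 2 : ℝ))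
    (by positivity) (by linarith) (by norm_num) (by norm_num)
  set k := m + 1 with hk
  set ρ : ℝ := (1 / 2) ^ k with hρ
  have hρp : 0 < ρ := by positivity
  have hρ2 : (1 / 2 : ℝ) ^ m = 2 * ρ := by rw [hρ, hk, pow_succ]; ring
  have hnk : n ≤ k := by
    by_contra hcon
    push Not at hcon
    have : (1 / 2 : ℝ) ^ n ≤ (1 / 2) ^ k :=
      pow_le_pow_of_le_one (by norm_num) (by norm_num) hcon.le
    linarith
  have h1 := hx k hnk
  have h2 := VV_le_Phi h3 μ x ht ht1
  have h4 : Phi μ x (t / 2) ≤ Phi μ x ρ := Phi_anti h3 μ x hρp hm1.le (by linarith)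
  have h5 : 1 / ρ ≤ 4 * (1 / t) := by
    rw [div_le_iff₀ hρp]
    have : 4 * (1 / t) * ρ = 4 * ρ / t := by ring
    rw [this, le_div_iff₀ ht]
    linarith
  have h6 : Real.log (1 / ρ) ≤ Real.log 4 + Real.log (1 / t) := by
    rw [← Real.log_mul (by norm_num) (by positivity)]
    exact Real.log_le_log (by positivity) h5
  have h7 : Real.log ((μ (closedBall x ρ)).toReal / ρ ^ N)
      ≤ N * Real.log 4 + Real.log ((μ (closedBall x t)).toReal / t ^ N) := by
    have e1 : (μ (closedBall x ρ)).toReal / ρ ^ N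
        ≤ 4 ^ N * ((μ (closedBall x t)).toReal / t ^ N) := by
      have e2 : (μ (closedBall x ρ)).toReal ≤ (μ (closedBall x t)).toReal :=
        ENNReal.toReal_mono (hne t) (measure_mono (closedBall_subset_closedBall (by linarith)))
      have e3 : (1 / ρ) ^ N ≤ (4 * (1 / t)) ^ N := by gcongr
      have e4 : 0 ≤ (μ (closedBall x ρ)).toReal := ENNReal.toReal_nonneg
      calc (μ (closedBall x ρ)).toReal / ρ ^ N = (μ (closedBall x ρ)).toReal * (1 / ρ) ^ N := by
            rw [one_div, inv_pow]; rfl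
        _ ≤ (μ (closedBall x t)).toReal * (4 * (1 / t)) ^ N := by gcongr
        _ = _ := by rw [mul_pow, one_div, inv_pow]; ring
    refine (Real.log_le_log (div_pos (hpos ρ hρp) (by positivity)) e1).trans (le_of_eq ?_)
    rw [Real.log_mul (by positivity) (div_pos (hpos t ht) (by positivity)).ne', Real.log_pow]
  have h8 : Phi μ x (t / 2) ≤ N * Real.log 4 + Real.log ((μ (closedBall x t)).toReal / t ^ N)
      + δ * (Real.log 4 + Real.log (1 / t)) := by
    have := mul_le_mul_of_nonneg_left h6 hδ.le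
    linarith
  have h9 := mul_le_mul_of_nonneg_left h8 hb.le
  linarith

/-- sets on which the criterion is uniform -/
theorem crit_set (h3 : 3 ≤ N) {Ω : Set (E N)} (hΩ : IsOpen Ω) (μ : Measure (E N))
    [IsFiniteMeasure μ] (hsup : μ Ωᶜ = 0) (hC : Crit μ) {δ : ℝ} (hδ : 0 < δ) {η : ℝ≥0∞}
    (hη : 0 < η) : ∃ K : Set (E N), MeasurableSet K ∧ μ Kᶜ ≤ η ∧
      (∃ ρ > 0, ∀ x ∈ K, closedBall x ρ ⊆ Ω) ∧ ∃ C0 r1 : ℝ, 0 < r1 ∧
      ∀ x ∈ K, ∀ t, 0 < t → t ≤ r1 → 0 < (μ (closedBall x t)).toReal ∧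
        VV t μ x ≤ bN N * (Real.log ((μ (closedBall x t)).toReal / t ^ N)
          + δ * Real.log (1 / t)) + C0 := by
  set K : ℕ → Set (E N) := fun n => Eg μ δ n ∩ μ.support
    ∩ {x | ENNReal.ofReal (1 / ((n : ℝ) + 1)) < infEDist x Ωᶜ} with hK
  have hKm : ∀ n, MeasurableSet (K n) := fun n =>
    ((Eg_meas μ δ n).inter Measure.isClosed_support.measurableSet).inter
      (measurableSet_lt measurable_const continuous_infEDist.measurable)
  have hKmono : Monotone K := by
    intro a b hab x hx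
    refine ⟨⟨fun k hk => hx.1.1 k (hab.trans hk), hx.1.2⟩, ?_⟩
    have h1 := hx.2
    rw [mem_ofPred_eq] at h1 ⊢
    refine lt_of_le_of_lt (ENNReal.ofReal_le_ofReal ?_) h1
    have : (a : ℝ) ≤ b := by exact_mod_cast hab
    gcongr
  have hnull : μ (⋂ n, (K n)ᶜ) = 0 := by
    rw [← compl_iUnion, ← mem_ae_iff]
    unfold Crit at hC
    filter_upwards [hC, measure_eq_zero_iff_ae_notMem.1 hsup,
      Measure.support_mem_ae (μ := μ)] with x h1 h2 h4
    have h5 : Tendsto (fun k : ℕ => (1 / 2 : ℝ) ^ k) atTop (𝓝[>] 0) := by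
      refine tendsto_nhdsWithin_iff.2 ⟨tendsto_pow_atTop_nhds_zero_of_lt_one (by norm_num)
        (by norm_num), Eventually.of_forall fun k => ?_⟩
      rw [mem_Ioi]; positivity
    obtain ⟨n1, hn1⟩ := eventually_atTop.1 (h5.eventually (h1 δ hδ))
    have hxΩ : x ∈ Ω := by simpa using h2
    have h6 : infEDist x Ωᶜ ≠ 0 := by
      intro h0
      have := mem_closure_iff_infEDist_zero.2 h0
      rw [hΩ.isClosed_compl.closure_eq] at this
      exact this hxΩ
    have h7 : ∃ n2 : ℕ, ENNReal.ofReal (1 / ((n2 : ℝ) + 1)) < infEDist x Ωᶜ := by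
      have h8 : Tendsto (fun n : ℕ => ENNReal.ofReal (1 / ((n : ℝ) + 1))) atTop (𝓝 0) := by
        have := ENNReal.tendsto_ofReal tendsto_one_div_add_atTop_nhds_zero_nat
        simpa using this
      exact (h8.eventually (gt_mem_nhds (pos_iff_ne_zero.2 h6))).exists
    obtain ⟨n2, hn2⟩ := h7
    refine mem_iUnion.2 ⟨max n1 n2, ⟨⟨fun k hk => hn1 k ((le_max_left _ _).trans hk), h4⟩, ?_⟩⟩
    rw [mem_ofPred_eq]
    refine lt_of_le_of_lt (ENNReal.ofReal_le_ofReal ?_) hn2
    have : (n2 : ℝ) ≤ (max n1 n2 : ℕ) := by exact_mod_cast le_max_right _ _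
    gcongr
  have hlim := tendsto_measure_iInter_atTop (μ := μ) (s := fun n => (K n)ᶜ)
    (fun n => (hKm n).compl.nullMeasurableSet) (fun a b hab => compl_subset_compl.2 (hKmono hab))
    ⟨0, measure_ne_top _ _⟩
  rw [hnull] at hlim
  obtain ⟨n, hn⟩ := (hlim.eventually (gt_mem_nhds hη)).exists
  refine ⟨K n, hKm n, hn.le, ⟨1 / ((n : ℝ) + 1), by positivity, ?_⟩, _, (1 / 2) ^ n,
    by positivity, fun x hx t ht htn => Eg_all h3 μ hδ n hx.1.1 hx.1.2 ht htn⟩
  intro x hx y hy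
  by_contra hcon
  have h1 := hx.2
  rw [mem_ofPred_eq] at h1
  have h2 : infEDist x Ωᶜ ≤ edist x y := infEDist_le_edist_of_mem hcon
  rw [mem_closedBall, dist_comm] at hy
  rw [edist_dist] at h2
  exact absurd (h2.trans (ENNReal.ofReal_le_ofReal hy)) (not_le.2 h1)

end Pool.Agent.Helper60.GM67
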