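import Pool.Agent.Helper60.GM67.Suf

/-! Sufficiency of the criterion. -/

namespace Pool.Agent.Helper60.GM67

open MeasureTheory Set Metric Filter Topology
open Pool.Agent.R216.VPD (E)
open scoped ENNReal

variable {N : ℕ}

/-- exponential integrability of the truncated potential -/
theorem exp_zr (h3 : 3 ≤ N) {Ω : Set (E N)} (hb : Bornology.IsBounded Ω)
    {μp μn : Measure (E N)} [IsFiniteMeasure μp] [IsFiniteMeasure μn] {A : Set (E N)}
    (hA : MeasurableSet A) (hAn : μn A = 0) {K : Set (E N)} (hK : MeasurableSet K) {δ C0 r1 : ℝ}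
    (hδ : 0 < δ) (hδ2 : δ ≤ 1 / 2) (hr1 : 0 < r1)
    (H : ∀ x ∈ K, ∀ t, 0 < t → t ≤ r1 → 0 < (μp (closedBall x t)).toReal ∧
      VV t μp x ≤ bN N * (Real.log ((μp (closedBall x t)).toReal / t ^ N)
        + δ / 8 * Real.log (1 / t)) + C0)
    {s : E N → ℝ} (hs : Measurable s) (hs1 : ∀ x, |s x| ≤ 1)
    (hs2 : ∀ x, s x ≤ (1 - δ) * (K ∩ A).indicator (fun _ => (1 : ℝ)) x) {r : ℝ} (hr : 0 < r) :
    IntegrableOn (fun y => Real.exp (Zr r (μp + μn) s y)) Ω := by
  obtain ⟨s0, C1, hC1, hlev⟩ := level h3 μp hK hδ hδ2 hr1 H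
  have hbp := bN_pos h3
  set ν := μp.restrict K with hν
  set m := μp + μn with hm
  set f : E N → ℝ := fun y => (WW ν y).toReal / bN N with hf
  have hfm : Measurable f := (WW_meas ν).ennreal_toReal.div_const _
  have hf0 : ∀ y, 0 ≤ f y := fun y => div_nonneg ENNReal.toReal_nonneg hbp.le
  have hfin : IsFiniteMeasure (volume.restrict Ω) :=
    ⟨by rw [Measure.restrict_apply_univ]; exact hb.measure_lt_top⟩
  have hint : Integrable (fun y => Real.exp ((1 - δ) * f y)) (volume.restrict Ω) := by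
    refine exp_int (volume.restrict Ω) f hfm hf0 (s0 := max s0 0) hδ hδ2 hC1 fun t ht => ?_
    refine (Measure.restrict_apply_le _ _).trans ((measure_mono ?_).trans
      (hlev t ((le_max_left _ _).trans ht)))
    intro y hy
    rw [mem_ofPred_eq] at hy ⊢
    have ht0 : 0 ≤ t := (le_max_right _ _).trans ht
    rw [hf, lt_div_iff₀ hbp] at hy
    have hne : WW ν y ≠ ∞ := by
      intro h0
      rw [h0, ENNReal.toReal_top] at hy
      have : 0 ≤ t * bN N := by positivity
      linarith
    rw [ENNReal.ofReal_lt_iff_lt_toReal (by positivity) hne]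
    linarith
  have hWfin : ∀ᵐ y ∂(volume : Measure (E N)), WW ν y ≠ ∞ := by
    rw [ae_iff]
    have h1 : ∀ᶠ t in (atTop : Filter ℝ), volume {y | ¬ WW ν y ≠ ∞}
        ≤ ENNReal.ofReal (C1 * Real.exp (-(1 - δ / 2) * t)) := by
      filter_upwards [eventually_ge_atTop s0] with t ht
      refine (measure_mono ?_).trans (hlev t ht)
      intro y hy
      rw [mem_ofPred_eq] at hy ⊢
      push Not at hy
      rw [hy]
      exact ENNReal.ofReal_lt_top
    have h2 : Tendsto (fun t : ℝ => ENNReal.ofReal (C1 * Real.exp (-(1 - δ / 2) * t))) atTop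
        (𝓝 0) := by
      have h4 : Tendsto (fun t : ℝ => C1 * Real.exp (-(1 - δ / 2) * t)) atTop (𝓝 (C1 * 0)) := by
        refine Tendsto.const_mul _ (Real.tendsto_exp_atBot.comp ?_)
        have h5 : Tendsto (fun t : ℝ => (1 - δ / 2) * t) atTop atTop :=
          tendsto_id.const_mul_atTop (by linarith)
        have h6 := tendsto_neg_atTop_atBot.comp h5
        refine h6.congr fun t => ?_
        simp only [Function.comp_apply]
        ring
      have := ENNReal.tendsto_ofReal h4
      simpa using this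
    exact le_antisymm (ge_of_tendsto h2 h1) zero_le
  have hP : 0 ≤ Psi r (0 : E N) := (Psi_pos h3 hr _).le
  set c : ℝ := Psi r (0 : E N) * (m univ).toReal with hc
  have hmr : m.restrict (K ∩ A) = μp.restrict (K ∩ A) := by
    rw [hm, Measure.restrict_add, Measure.restrict_eq_zero.2
      (measure_mono_null inter_subset_right hAn), add_zero]
  have hKA : MeasurableSet (K ∩ A) := hK.inter hA
  have hGm : ∀ y : E N, Measurable (fun x : E N => G (y - x)) := fun y =>
    measurable_G.comp (by fun_prop)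
  -- pointwise bound
  have key : ∀ y, WW ν y ≠ ∞ → Zr r m s y ≤ (1 - δ) * f y + (bN N)⁻¹ * c := by
    intro y hy
    have hle : ∫⁻ x in K ∩ A, ENNReal.ofReal (G (y - x)) ∂m ≤ WW ν y := by
      rw [hmr]
      unfold WW
      rw [hν]
      exact lintegral_mono_set inter_subset_left
    have i1 : IntegrableOn (fun x => G (y - x)) (K ∩ A) m := by
      refine ⟨(hGm y).aestronglyMeasurable, ?_⟩
      rw [hasFiniteIntegral_iff_ofReal (Eventually.of_forall fun x => G_nonneg h3 _)]
      exact hle.trans_lt (lt_top_iff_ne_top.2 hy)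
    have e1 : ∫ x in K ∩ A, G (y - x) ∂m ≤ (WW ν y).toReal := by
      rw [integral_eq_lintegral_of_nonneg_ae (Eventually.of_forall fun x => G_nonneg h3 _)
        (hGm y).aestronglyMeasurable]
      exact ENNReal.toReal_mono hy hle
    set g : E N → ℝ := fun x => (1 - δ) * (K ∩ A).indicator (fun x => G (y - x)) x
      + Psi r (0 : E N) with hg
    have i2 : Integrable ((K ∩ A).indicator (fun x => G (y - x))) m :=
      (integrable_indicator_iff hKA).2 i1
    have i3 : Integrable g m := (i2.const_mul _).add (integrable_const _)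
    have e2 : ∫ x, g x ∂m ≤ (1 - δ) * (WW ν y).toReal + c := by
      have : ∫ x, g x ∂m = (1 - δ) * (∫ x in K ∩ A, G (y - x) ∂m)
          + Psi r (0 : E N) * (m univ).toReal := by
        rw [hg, integral_add (i2.const_mul _) (integrable_const _), integral_const_mul,
          integral_indicator hKA, integral_const, smul_eq_mul, mul_comm (m.real univ)]
        rfl
      rw [this]
      have : (1 - δ) * (∫ x in K ∩ A, G (y - x) ∂m) ≤ (1 - δ) * (WW ν y).toReal :=
        mul_le_mul_of_nonneg_left e1 (by linarith)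
      linarith
    have hg0 : ∀ x, 0 ≤ g x := by
      intro x
      have : 0 ≤ (K ∩ A).indicator (fun x => G (y - x)) x :=
        indicator_nonneg (fun z _ => G_nonneg h3 _) x
      have h2 : 0 ≤ 1 - δ := by linarith
      rw [hg]
      positivity
    have hpt : ∀ x, s x * zs r (y - x) ≤ g x := by
      intro x
      by_cases hxy : y - x = 0
      · have h1 : zs r (y - x) = - Psi r (0 : E N) := by
          rw [hxy]
          unfold zs G
          have : N - 2 ≠ 0 := by omega
          rw [norm_zero, zero_pow this, inv_zero]; ring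
        rw [h1]
        have h2 : s x * -Psi r (0 : E N) ≤ Psi r (0 : E N) := by
          have := (abs_le.1 (hs1 x)).1
          nlinarith
        have h4 : 0 ≤ (1 - δ) * (K ∩ A).indicator (fun x => G (y - x)) x :=
          mul_nonneg (by linarith) (indicator_nonneg (fun z _ => G_nonneg h3 _) x)
        rw [hg]
        linarith
      · have h1 := zs_nonneg h3 hr hxy
        have h2 := zs_le_G h3 hr (y - x)
        have h4 : s x * zs r (y - x)
            ≤ (1 - δ) * (K ∩ A).indicator (fun _ => (1 : ℝ)) x * zs r (y - x) :=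
          mul_le_mul_of_nonneg_right (hs2 x) h1
        have h5 : (1 - δ) * (K ∩ A).indicator (fun _ => (1 : ℝ)) x * zs r (y - x)
            ≤ (1 - δ) * (K ∩ A).indicator (fun x => G (y - x)) x := by
          rw [mul_assoc]
          refine mul_le_mul_of_nonneg_left ?_ (by linarith)
          by_cases hx : x ∈ K ∩ A
          · rw [indicator_of_mem hx, indicator_of_mem hx, one_mul]; exact h2
          · rw [indicator_of_notMem hx, indicator_of_notMem hx, zero_mul]
        rw [hg]
        linarith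
    have e3 : ∫ x, s x * zs r (y - x) ∂m ≤ ∫ x, g x ∂m := by
      by_cases hi : Integrable (fun x => s x * zs r (y - x)) m
      · exact integral_mono hi i3 hpt
      · rw [integral_undef hi]; exact integral_nonneg hg0
    unfold Zr cv
    have e4 := mul_le_mul_of_nonneg_left (e3.trans e2) (inv_pos.2 hbp).le
    refine e4.trans (le_of_eq ?_)
    rw [hf]
    field_simp
  refine Integrable.mono' (hint.const_mul (Real.exp ((bN N)⁻¹ * c))) ?_ ?_
  · exact (Real.measurable_exp.comp (Zr_meas hs)).aestronglyMeasurable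
  · filter_upwards [ae_restrict_of_ae hWfin] with y hy
    rw [Real.norm_of_nonneg (Real.exp_pos _).le, ← Real.exp_add]
    refine Real.exp_le_exp.2 ((key y hy).trans (le_of_eq ?_))
    ring

theorem deep_set {Ω : Set (E N)} (hΩ : IsOpen Ω) (μ : Measure (E N))
    [IsFiniteMeasure μ] (hsup : μ Ωᶜ = 0) {η : ℝ≥0∞} (hη : 0 < η) :
    ∃ K : Set (E N), MeasurableSet K ∧ μ Kᶜ ≤ η ∧ ∃ ρ > 0, ∀ x ∈ K, closedBall x ρ ⊆ Ω := by
  set K : ℕ → Set (E N) := fun n => {x | ENNReal.ofReal (1 / ((n : ℝ) + 1)) < infEDist x Ωᶜ}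
    with hK
  have hKm : ∀ n, MeasurableSet (K n) := fun n =>
    measurableSet_lt measurable_const continuous_infEDist.measurable
  have hKmono : Monotone K := by
    intro a b hab x hx
    rw [hK] at hx ⊢
    rw [mem_ofPred_eq] at hx ⊢
    refine lt_of_le_of_lt (ENNReal.ofReal_le_ofReal ?_) hx
    have : (a : ℝ) ≤ b := by exact_mod_cast hab
    gcongr
  have hnull : μ (⋂ n, (K n)ᶜ) = 0 := by
    rw [← compl_iUnion, ← mem_ae_iff]
    filter_upwards [measure_eq_zero_iff_ae_notMem.1 hsup] with x h2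
    have hxΩ : x ∈ Ω := by simpa using h2
    have h6 : infEDist x Ωᶜ ≠ 0 := by
      intro h0
      have := mem_closure_iff_infEDist_zero.2 h0
      rw [hΩ.isClosed_compl.closure_eq] at this
      exact this hxΩ
    have h8 : Tendsto (fun n : ℕ => ENNReal.ofReal (1 / ((n : ℝ) + 1))) atTop (𝓝 0) := by
      have := ENNReal.tendsto_ofReal tendsto_one_div_add_atTop_nhds_zero_nat
      simpa using this
    obtain ⟨n2, hn2⟩ := (h8.eventually (gt_mem_nhds (pos_iff_ne_zero.2 h6))).exists
    exact mem_iUnion.2 ⟨n2, hn2⟩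
  have hlim := tendsto_measure_iInter_atTop (μ := μ) (s := fun n => (K n)ᶜ)
    (fun n => (hKm n).compl.nullMeasurableSet) (fun a b hab => compl_subset_compl.2 (hKmono hab))
    ⟨0, measure_ne_top _ _⟩
  rw [hnull] at hlim
  obtain ⟨n, hn⟩ := (hlim.eventually (gt_mem_nhds hη)).exists
  refine ⟨K n, hKm n, hn.le, 1 / ((n : ℝ) + 1), by positivity, ?_⟩
  intro x hx y hy
  by_contra hcon
  have h1 := hx
  rw [hK, mem_ofPred_eq] at h1
  have h2 : infEDist x Ωᶜ ≤ edist x y := infEDist_le_edist_of_mem hcon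
  rw [mem_closedBall, dist_comm] at hy
  rw [edist_dist] at h2
  exact absurd (h2.trans (ENNReal.ofReal_le_ofReal hy)) (not_le.2 h1)

/-- approximation of the data -/
theorem approx (h3 : 3 ≤ N) {Ω : Set (E N)} (hΩ : IsOpen Ω) (hb : Bornology.IsBounded Ω)
    {μp μn : Measure (E N)} [IsFiniteMeasure μp] [IsFiniteMeasure μn] {A : Set (E N)}
    (hA : MeasurableSet A) (hAn : μn A = 0) (hAp : μp Aᶜ = 0) (hp : μp Ωᶜ = 0) (hn : μn Ωᶜ = 0)
    (hC : Crit μp) (j : ℕ) : ∃ (sj : E N → ℝ) (rj : ℝ), Measurable sj ∧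
      Dat Ω (μp + μn) sj rj ∧
      ∫ x, |sj x - (A.indicator (fun _ => (1 : ℝ)) x - Aᶜ.indicator (fun _ => (1 : ℝ)) x)|
        ∂(μp + μn) ≤ (1 / ((j : ℝ) + 1)) * (((μp + μn) univ).toReal + 2) ∧
      IntegrableOn (fun y => Real.exp (Zr rj (μp + μn) sj y)) Ω := by
  set m := μp + μn with hm
  set δ : ℝ := 1 / ((j : ℝ) + 2) with hδ
  have hj : (0 : ℝ) ≤ j := Nat.cast_nonneg j
  have hδ0 : 0 < δ := by positivity
  have hδ2 : δ ≤ 1 / 2 := by
    rw [hδ]
    exact one_div_le_one_div_of_le (by norm_num) (by linarith)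
  have hδj : δ ≤ 1 / ((j : ℝ) + 1) := by
    rw [hδ]
    exact one_div_le_one_div_of_le (by positivity) (by linarith)
  set η : ℝ := 1 / ((j : ℝ) + 1) with hη
  have hη0 : 0 < η := by positivity
  obtain ⟨K, hKm, hKη, ⟨ρ1, hρ1, hρ1Ω⟩, C0, r1, hr1, H⟩ := crit_set h3 hΩ μp hp hC
    (δ := δ / 8) (by positivity) (η := ENNReal.ofReal η) (ENNReal.ofReal_pos.2 hη0)
  obtain ⟨L, hLm, hLη, ρ2, hρ2, hρ2Ω⟩ := deep_set hΩ μn hn (η := ENNReal.ofReal η)
    (ENNReal.ofReal_pos.2 hη0)
  set sj : E N → ℝ := fun x => (1 - δ) * (K ∩ A).indicator (fun _ => (1 : ℝ)) x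
    - (L ∩ Aᶜ).indicator (fun _ => (1 : ℝ)) x with hsj
  have hmeas : Measurable sj :=
    ((measurable_const.indicator (hKm.inter hA)).const_mul _).sub
      (measurable_const.indicator (hLm.inter hA.compl))
  have hval : ∀ x, (x ∈ K ∩ A → sj x = 1 - δ) ∧ (x ∈ L ∩ Aᶜ → sj x = -1) ∧
      (x ∉ K ∩ A → x ∉ L ∩ Aᶜ → sj x = 0) := by
    intro x
    refine ⟨fun h => ?_, fun h => ?_, fun h1 h2 => ?_⟩
    · have h2 : x ∉ L ∩ Aᶜ := fun h' => h'.2 h.2
      simp only [hsj]
      rw [indicator_of_mem h, indicator_of_notMem h2]; ring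
    · have h2 : x ∉ K ∩ A := fun h' => h.2 h'.2
      simp only [hsj]
      rw [indicator_of_mem h, indicator_of_notMem h2]; ring
    · simp only [hsj]
      rw [indicator_of_notMem h1, indicator_of_notMem h2]; ring
  have habs : ∀ x, |sj x| ≤ 1 := by
    intro x
    by_cases h1 : x ∈ K ∩ A
    · rw [(hval x).1 h1, abs_le]; constructor <;> linarith
    · by_cases h2 : x ∈ L ∩ Aᶜ
      · rw [(hval x).2.1 h2]; simp
      · rw [(hval x).2.2 h1 h2]; simp
  have hupp : ∀ x, sj x ≤ (1 - δ) * (K ∩ A).indicator (fun _ => (1 : ℝ)) x := by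
    intro x
    have : 0 ≤ (L ∩ Aᶜ).indicator (fun _ => (1 : ℝ)) x :=
      indicator_nonneg (fun _ _ => zero_le_one) x
    simp only [hsj]
    linarith
  set rj : ℝ := min ρ1 ρ2 with hrj
  have hrj0 : 0 < rj := lt_min hρ1 hρ2
  refine ⟨sj, rj, hmeas, ⟨hrj0, ?_, ?_⟩, ?_, ?_⟩
  · exact Integrable.of_bound hmeas.aestronglyMeasurable 1 (Eventually.of_forall habs)
  · intro x hx
    by_cases h1 : x ∈ K ∩ A
    · exact (closedBall_subset_closedBall (min_le_left _ _)).trans (hρ1Ω x h1.1)
    · by_cases h2 : x ∈ L ∩ Aᶜ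
      · exact (closedBall_subset_closedBall (min_le_right _ _)).trans (hρ2Ω x h2.1)
      · exact absurd ((hval x).2.2 h1 h2) hx
  · have hpt : ∀ x, |sj x - (A.indicator (fun _ => (1 : ℝ)) x
        - Aᶜ.indicator (fun _ => (1 : ℝ)) x)|
        ≤ δ + (Kᶜ ∩ A).indicator (fun _ => (1 : ℝ)) x
          + (Lᶜ ∩ Aᶜ).indicator (fun _ => (1 : ℝ)) x := by
      intro x
      by_cases hxA : x ∈ A
      · have h1 : x ∉ Aᶜ := fun h => h hxA
        have h2 : x ∉ L ∩ Aᶜ := fun h => h1 h.2
        have h4 : x ∉ Lᶜ ∩ Aᶜ := fun h => h1 h.2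
        rw [indicator_of_mem hxA, indicator_of_notMem h1, indicator_of_notMem h4]
        by_cases hxK : x ∈ K
        · have h5 : x ∉ Kᶜ ∩ A := fun h => h.1 hxK
          rw [(hval x).1 ⟨hxK, hxA⟩, indicator_of_notMem h5]
          rw [abs_le]; constructor <;> linarith
        · have h5 : x ∈ Kᶜ ∩ A := ⟨hxK, hxA⟩
          have h6 : x ∉ K ∩ A := fun h => hxK h.1
          rw [(hval x).2.2 h6 h2, indicator_of_mem h5]
          rw [abs_le]; constructor <;> linarith
      · have h1 : x ∈ Aᶜ := hxA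
        have h2 : x ∉ K ∩ A := fun h => hxA h.2
        have h4 : x ∉ Kᶜ ∩ A := fun h => hxA h.2
        rw [indicator_of_notMem hxA, indicator_of_mem h1, indicator_of_notMem h4]
        by_cases hxL : x ∈ L
        · have h5 : x ∉ Lᶜ ∩ Aᶜ := fun h => h.1 hxL
          rw [(hval x).2.1 ⟨hxL, h1⟩, indicator_of_notMem h5]
          rw [abs_le]; constructor <;> linarith
        · have h5 : x ∈ Lᶜ ∩ Aᶜ := ⟨hxL, h1⟩
          have h6 : x ∉ L ∩ Aᶜ := fun h => hxL h.1
          rw [(hval x).2.2 h2 h6, indicator_of_mem h5]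
          rw [abs_le]; constructor <;> linarith
    have hm1 : MeasurableSet (Kᶜ ∩ A) := hKm.compl.inter hA
    have hm2 : MeasurableSet (Lᶜ ∩ Aᶜ) := hLm.compl.inter hA.compl
    have i1 : Integrable ((Kᶜ ∩ A).indicator (fun _ => (1 : ℝ))) m :=
      (integrable_const _).indicator hm1
    have i2 : Integrable ((Lᶜ ∩ Aᶜ).indicator (fun _ => (1 : ℝ))) m :=
      (integrable_const _).indicator hm2
    have i0 : Integrable (fun _ : E N => δ) m := integrable_const _
    have i3 : Integrable (fun x => δ + (Kᶜ ∩ A).indicator (fun _ => (1 : ℝ)) x) m := i0.add i1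
    have h1 : ∫ x, |sj x - (A.indicator (fun _ => (1 : ℝ)) x
        - Aᶜ.indicator (fun _ => (1 : ℝ)) x)| ∂m
        ≤ ∫ x, (δ + (Kᶜ ∩ A).indicator (fun _ => (1 : ℝ)) x
          + (Lᶜ ∩ Aᶜ).indicator (fun _ => (1 : ℝ)) x) ∂m := by
      refine integral_mono_of_nonneg (Eventually.of_forall fun x => abs_nonneg _) (i3.add i2)
        (Eventually.of_forall hpt)
    refine h1.trans ?_
    rw [integral_add i3 i2, integral_add i0 i1, integral_indicator hm1, integral_indicator hm2,
      integral_const, setIntegral_const, setIntegral_const, smul_eq_mul, smul_eq_mul, smul_eq_mul,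
      mul_one, mul_one]
    have e1 : m.real (Kᶜ ∩ A) ≤ η := by
      refine ENNReal.toReal_le_of_le_ofReal hη0.le ?_
      rw [hm, Measure.add_apply, measure_mono_null (inter_subset_right : Kᶜ ∩ A ⊆ A) hAn, add_zero]
      exact (measure_mono inter_subset_left).trans hKη
    have e2 : m.real (Lᶜ ∩ Aᶜ) ≤ η := by
      refine ENNReal.toReal_le_of_le_ofReal hη0.le ?_
      rw [hm, Measure.add_apply, measure_mono_null (inter_subset_right : Lᶜ ∩ Aᶜ ⊆ Aᶜ) hAp,
        zero_add]
      exact (measure_mono inter_subset_left).trans hLη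
    have e3 : m.real univ * δ ≤ m.real univ * η :=
      mul_le_mul_of_nonneg_left hδj measureReal_nonneg
    have e4 : (m univ).toReal = m.real univ := rfl
    rw [e4]
    linarith
  · exact exp_zr h3 hb hA hAn hKm hδ0 hδ2 hr1 H hmeas habs hupp hrj0

/-- sufficiency -/
theorem sufficiency (h3 : 3 ≤ N) {Ω : Set (E N)} (hΩ : IsOpen Ω) (hb : Bornology.IsBounded Ω)
    {μp μn : Measure (E N)} [IsFiniteMeasure μp] [IsFiniteMeasure μn] (hs : μp ⟂ₘ μn)
    (hp : μp Ωᶜ = 0) (hn : μn Ωᶜ = 0) (hC : Crit μp) :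
    ∃ u : E N → ℝ, IntegrableOn u Ω ∧ IntegrableOn (fun y => Real.exp (u y) - 1) Ω ∧
      ∀ ζ, T2 Ω ζ → -(∫ y in Ω, u y * lap ζ y) + ∫ y in Ω, (Real.exp (u y) - 1) * ζ y
        = (∫ x, ζ x ∂μp) - ∫ x, ζ x ∂μn := by
  obtain ⟨S, hS, hS1, hS2⟩ := hs
  set A : Set (E N) := Sᶜ with hA'
  have hA : MeasurableSet A := hS.compl
  have hAp : μp Aᶜ = 0 := by rw [hA', compl_compl]; exact hS1
  have hAn : μn A = 0 := hS2
  set m := μp + μn with hm
  set s : E N → ℝ := fun x => A.indicator (fun _ => (1 : ℝ)) x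
    - Aᶜ.indicator (fun _ => (1 : ℝ)) x with hsdef
  have hsm : Measurable s :=
    (measurable_const.indicator hA).sub (measurable_const.indicator hA.compl)
  have hs1 : ∀ x ∈ A, s x = 1 := by
    intro x hx
    have h1 : x ∉ Aᶜ := fun h => h hx
    simp only [hsdef]
    rw [indicator_of_mem hx, indicator_of_notMem h1]; ring
  have hs2 : ∀ x ∈ Aᶜ, s x = -1 := by
    intro x hx
    simp only [hsdef]
    rw [indicator_of_mem hx, indicator_of_notMem hx]; ring
  have habs : ∀ x, |s x| ≤ 1 := by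
    intro x
    by_cases hx : x ∈ A
    · rw [hs1 x hx]; simp
    · rw [hs2 x hx]; simp
  have hsi : Integrable s m :=
    Integrable.of_bound hsm.aestronglyMeasurable 1 (Eventually.of_forall habs)
  choose sj rj h1 h2 h4 h5 using fun j => approx h3 hΩ hb hA hAn hAp hp hn hC j
  have hmΩ : m Ωᶜ = 0 := by rw [hm, Measure.add_apply, hp, hn, add_zero]
  obtain ⟨R, hR⟩ := hb.subset_closedBall (0 : E N)
  have hRR : Ω ⊆ closedBall 0 (max R 1) :=
    hR.trans (closedBall_subset_closedBall (le_max_left _ _))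
  have hlim : Tendsto (fun j => ∫ x, |sj j x - s x| ∂m) atTop (𝓝 0) := by
    refine squeeze_zero (fun j => integral_nonneg fun x => abs_nonneg _) h4 ?_
    have := (tendsto_one_div_add_atTop_nhds_zero_nat (𝕜 := ℝ)).mul_const ((m univ).toReal + 2)
    rw [zero_mul] at this
    exact this
  obtain ⟨u, hu1, hu2, hu3⟩ := exist_main h3 hΩ (lt_of_lt_of_le one_pos (le_max_right R 1)) hRR
    hmΩ hsi sj rj h1 h2 hlim h5
  refine ⟨u, hu1, hu2, fun ζ hζ => ?_⟩
  rw [hu3 ζ hζ]
  obtain ⟨C, hC'⟩ := (hb.isCompact_closure).exists_bound_of_continuousOn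
    hζ.1.continuous.continuousOn
  have hint : ∀ (κ : Measure (E N)) [IsFiniteMeasure κ], κ Ωᶜ = 0 →
      Integrable (fun x => s x * ζ x) κ := by
    intro κ _ hκ
    refine Integrable.of_bound (hsm.mul hζ.1.continuous.measurable).aestronglyMeasurable C ?_
    filter_upwards [measure_eq_zero_iff_ae_notMem.1 hκ] with x hx
    have hxΩ : x ∈ Ω := by simpa using hx
    rw [norm_mul]
    calc ‖s x‖ * ‖ζ x‖ ≤ 1 * ‖ζ x‖ :=
          mul_le_mul_of_nonneg_right (habs x) (norm_nonneg _)
      _ ≤ C := by rw [one_mul]; exact hC' x (subset_closure hxΩ)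
  rw [hm, integral_add_measure (hint μp hp) (hint μn hn)]
  have e1 : ∫ x, s x * ζ x ∂μp = ∫ x, ζ x ∂μp := by
    refine integral_congr_ae ?_
    filter_upwards [measure_eq_zero_iff_ae_notMem.1 hAp] with x hx
    have hxA : x ∈ A := by simpa using hx
    rw [hs1 x hxA, one_mul]
  have e2 : ∫ x, s x * ζ x ∂μn = -∫ x, ζ x ∂μn := by
    rw [← integral_neg]
    refine integral_congr_ae ?_
    filter_upwards [measure_eq_zero_iff_ae_notMem.1 hAn] with x hx
    rw [hs2 x hx]; ring
  rw [e1, e2]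
  ring

end Pool.Agent.Helper60.GM67
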