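import Pool.Agent.Helper60.GM67.Cv
import Pool.Graph.R_seed8.R216.VPD.Key

/-! Calculus of test functions. -/

namespace Pool.Agent.Helper60.GM67

open MeasureTheory Set Metric Filter Topology
open Pool.Agent.R216.VPD (E D bv contDiff_D D_congr D_congr_nhds lap_eq D_mul D_comp D_add bb
  bb_zero bb_le bb_nonneg bb_ge tendsto_bb contDiff_bb deriv_bb hasDerivAt_bb)
open scoped ContDiff

variable {N : ℕ}

/-- `C²` functions vanishing on the boundary -/
def T2 (Ω : Set (E N)) (ζ : E N → ℝ) : Prop := ContDiff ℝ 2 ζ ∧ ∀ x ∈ frontier Ω, ζ x = 0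

/-- scalar product of gradients -/
noncomputable def dot (φ ζ : E N → ℝ) (y : E N) : ℝ := ∑ i, D i φ y * D i ζ y

/-- sum of pure second derivatives -/
noncomputable def lap (f : E N → ℝ) (y : E N) : ℝ := ∑ i, D i (D i f) y

theorem c2_diff {f : E N → ℝ} (hf : ContDiff ℝ 2 f) : Differentiable ℝ f :=
  hf.differentiable (by norm_num)

theorem c2_D {f : E N → ℝ} (hf : ContDiff ℝ 2 f) (i : Fin N) : ContDiff ℝ 1 (D i f) :=
  contDiff_D (n := 1) (by norm_num; exact hf) i

theorem c1_D {f : E N → ℝ} (hf : ContDiff ℝ 1 f) (i : Fin N) : Continuous (D i f) :=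
  (contDiff_D (n := 0) (by norm_num; exact hf) i).continuous

theorem c2_Dc {f : E N → ℝ} (hf : ContDiff ℝ 2 f) (i : Fin N) : Continuous (D i f) :=
  (c2_D hf i).continuous

theorem lap_cont {f : E N → ℝ} (hf : ContDiff ℝ 2 f) : Continuous (lap f) := by
  unfold lap
  exact continuous_finsetSum _ fun i _ => c1_D (c2_D hf i) i

theorem dot_cont {f g : E N → ℝ} (hf : ContDiff ℝ 2 f) (hg : ContDiff ℝ 2 g) :
    Continuous (dot f g) := by
  unfold dot
  exact continuous_finsetSum _ fun i _ => (c2_Dc hf i).mul (c2_Dc hg i)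

theorem iob {Ω : Set (E N)} (hb : Bornology.IsBounded Ω) {f : E N → ℝ} (hf : Continuous f) :
    IntegrableOn f Ω :=
  (hf.continuousOn.integrableOn_compact hb.isCompact_closure).mono_set subset_closure

/-- integration by parts -/
theorem ibp1 {ψ f : E N → ℝ} (hψ : ContDiff ℝ 2 ψ) (hc : HasCompactSupport ψ)
    (hf : ContDiff ℝ 2 f) : ∫ y, dot ψ f y = -∫ y, ψ y * lap f y := by
  have c1 : ∀ i, HasCompactSupport (D i ψ) := fun i => by
    unfold D
    exact hc.fderiv_apply ℝ _
  have i1 : ∀ i, Integrable (fun y => D i ψ y * D i f y) := fun i =>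
    ((c2_Dc hψ i).mul (c2_Dc hf i)).integrable_of_hasCompactSupport ((c1 i).mul_right)
  have i2 : ∀ i, Integrable (fun y => ψ y * D i (D i f) y) := fun i =>
    (hψ.continuous.mul (c1_D (c2_D hf i) i)).integrable_of_hasCompactSupport (hc.mul_right)
  have key : ∀ i, ∫ y, D i ψ y * D i f y = -∫ y, ψ y * D i (D i f) y := by
    intro i
    have s1 : ∫ y, D i f y * fderiv ℝ ψ y (bv i) = - ∫ y, fderiv ℝ (D i f) y (bv i) * ψ y := by
      apply integral_mul_fderiv_eq_neg_fderiv_mul_of_integrable
      · exact ((c1_D (c2_D hf i) i).mul hψ.continuous).integrable_of_hasCompactSupport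
          (hc.mul_left)
      · exact ((c2_Dc hf i).mul (c2_Dc hψ i)).integrable_of_hasCompactSupport
          ((c1 i).mul_left)
      · exact ((c2_Dc hf i).mul hψ.continuous).integrable_of_hasCompactSupport (hc.mul_left)
      · exact fun x _ => (c2_D hf i).differentiable (by norm_num) x
      · exact fun x _ => c2_diff hψ x
    calc ∫ y, D i ψ y * D i f y = ∫ y, D i f y * fderiv ℝ ψ y (bv i) := by
          congr 1; funext y; exact mul_comm _ _
      _ = - ∫ y, fderiv ℝ (D i f) y (bv i) * ψ y := s1
      _ = _ := by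
          congr 2; funext y; exact mul_comm _ _
  unfold dot lap
  simp only [Finset.mul_sum]
  rw [integral_finsetSum _ fun i _ => i1 i, integral_finsetSum _ fun i _ => i2 i,
    ← Finset.sum_neg_distrib]
  exact Finset.sum_congr rfl fun i _ => key i

/-- the gradient vanishes almost everywhere on the zero set -/
theorem grad_zero_ae {ζ : E N → ℝ} (hζ : ContDiff ℝ 2 ζ) (i : Fin N) :
    ∀ᵐ y, ζ y = 0 → D i ζ y = 0 := by
  have hZ : MeasurableSet {y | ζ y = 0} :=
    measurableSet_eq_fun hζ.continuous.measurable measurable_const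
  have hloc : LocallyIntegrable ({y | ζ y = 0}.indicator (D i ζ)) volume := by
    exact (c2_Dc hζ i).locallyIntegrable.indicator hZ
  have key : ∀ g : E N → ℝ, ContDiff ℝ ∞ g → HasCompactSupport g →
      ∫ x, g x • ({y | ζ y = 0}.indicator (D i ζ)) x = 0 := by
    intro g hg hgc
    set h : ℕ → ℝ → ℝ := fun n t => Real.arctan (n * t) / n with hh
    have hder : ∀ n : ℕ, 0 < n → ∀ t, HasDerivAt (h n) (1 / (1 + (n * t) ^ 2)) t := by
      intro n hn t
      have h1 : HasDerivAt (fun t : ℝ => (n : ℝ) * t) (n : ℝ) t := by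
        simpa using (hasDerivAt_id t).const_mul (n : ℝ)
      have h2 := ((Real.hasDerivAt_arctan ((n : ℝ) * t)).comp t h1).div_const (n : ℝ)
      refine HasDerivAt.congr_deriv h2 ?_
      have : (n : ℝ) ≠ 0 := by exact_mod_cast hn.ne'
      field_simp
    have hDh : ∀ n : ℕ, 0 < n → ∀ y, D i (fun y => h n (ζ y)) y
        = 1 / (1 + (n * ζ y) ^ 2) * D i ζ y := by
      intro n hn y
      have := D_comp (f := ζ) (b := h n) (c2_diff hζ) (fun t => (hder n hn t).differentiableAt) i
      rw [this]
      simp only
      rw [(hder n hn (ζ y)).deriv]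
    have hcd : ∀ n : ℕ, ContDiff ℝ 2 (fun y => h n (ζ y)) := by
      intro n
      rw [hh]
      exact ((Real.contDiff_arctan.comp (contDiff_const.mul hζ))).div_const _
    have hDgc : HasCompactSupport (D i g) := by
      unfold D
      exact hgc.fderiv_apply ℝ _
    have hg2 : ContDiff ℝ 2 g := hg.of_le (by norm_cast)
    have hA : ∀ n : ℕ, 0 < n → ∫ y, g y * (1 / (1 + (n * ζ y) ^ 2) * D i ζ y)
        = - ∫ y, D i g y * h n (ζ y) := by
      intro n hn
      have s1 : ∫ y, g y * fderiv ℝ (fun y => h n (ζ y)) y (bv i)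
          = - ∫ y, fderiv ℝ g y (bv i) * h n (ζ y) := by
        apply integral_mul_fderiv_eq_neg_fderiv_mul_of_integrable
        · exact ((c2_Dc hg2 i).mul (hcd n).continuous).integrable_of_hasCompactSupport
            (hDgc.mul_right)
        · exact (hg.continuous.mul (c2_Dc (hcd n) i)).integrable_of_hasCompactSupport
            (hgc.mul_right)
        · exact (hg.continuous.mul (hcd n).continuous).integrable_of_hasCompactSupport
            (hgc.mul_right)
        · exact fun x _ => c2_diff hg2 x
        · exact fun x _ => c2_diff (hcd n) x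
      rw [← show (∫ y, g y * D i (fun y => h n (ζ y)) y)
        = ∫ y, g y * (1 / (1 + (n * ζ y) ^ 2) * D i ζ y) from by
          congr 1; funext y; rw [hDh n hn y]]
      exact s1
    have hlim1 : Tendsto (fun n : ℕ => ∫ y, g y * (1 / (1 + (((n + 1 : ℕ) : ℝ) * ζ y) ^ 2)
        * D i ζ y)) atTop (𝓝 (∫ x, g x • ({y | ζ y = 0}.indicator (D i ζ)) x)) := by
      refine tendsto_integral_of_dominated_convergence (fun y => |g y * D i ζ y|) ?_ ?_ ?_ ?_
      · intro n
        refine Continuous.aestronglyMeasurable ?_
        refine hg.continuous.mul (Continuous.mul ?_ (c2_Dc hζ i))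
        refine continuous_const.div ?_ ?_
        · exact continuous_const.add ((continuous_const.mul hζ.continuous).pow 2)
        · intro y; positivity
      · exact ((hg.continuous.mul (c2_Dc hζ i)).integrable_of_hasCompactSupport
            (hgc.mul_right)).abs
      · intro n
        refine Eventually.of_forall fun y => ?_
        rw [Real.norm_eq_abs, abs_mul, abs_mul, abs_mul]
        refine mul_le_mul_of_nonneg_left ?_ (abs_nonneg _)
        refine mul_le_of_le_one_left (abs_nonneg _) ?_
        rw [abs_of_nonneg (by positivity)]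
        rw [div_le_one (by positivity)]
        have : 0 ≤ (((n + 1 : ℕ) : ℝ) * ζ y) ^ 2 := by positivity
        linarith
      · refine Eventually.of_forall fun y => ?_
        refine Tendsto.const_mul (g y) ?_
        by_cases hy : ζ y = 0
        · rw [indicator_of_mem (by exact hy)]
          simp [hy]
        · rw [indicator_of_notMem (by exact hy)]
          have h1 : Tendsto (fun n : ℕ => 1 / (1 + (((n + 1 : ℕ) : ℝ) * ζ y) ^ 2)) atTop (𝓝 0) := by
            have h2 : Tendsto (fun n : ℕ => ((n : ℝ) + 1)) atTop atTop :=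
              tendsto_atTop_add_const_right _ _ tendsto_natCast_atTop_atTop
            have h3 : Tendsto (fun n : ℕ => (((n + 1 : ℕ) : ℝ) * ζ y) ^ 2) atTop atTop := by
              have h4 : (fun n : ℕ => (((n + 1 : ℕ) : ℝ) * ζ y) ^ 2)
                  = fun n : ℕ => ((n : ℝ) + 1) ^ 2 * (ζ y) ^ 2 := by
                funext n; push_cast; ring
              rw [h4]
              refine Tendsto.atTop_mul_const (by positivity) ?_
              exact (tendsto_pow_atTop (by norm_num)).comp h2
            have h5 := tendsto_atTop_add_const_left atTop (1 : ℝ) h3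
            refine (h5.inv_tendsto_atTop).congr fun n => ?_
            simp
          simpa using h1.mul_const (D i ζ y)
    have hlim2 : Tendsto (fun n : ℕ => - ∫ y, D i g y * h (n + 1) (ζ y)) atTop (𝓝 (-0)) := by
      refine Tendsto.neg ?_
      have hi : Integrable (fun y => |D i g y|) :=
        ((c2_Dc hg2 i).integrable_of_hasCompactSupport hDgc).abs
      have hb : ∀ n : ℕ, |∫ y, D i g y * h (n + 1) (ζ y)|
          ≤ (∫ y, |D i g y|) * (2 / ((n : ℝ) + 1)) := by
        intro n
        refine abs_integral_le_integral_abs.trans ?_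
        rw [← integral_mul_const]
        refine integral_mono_of_nonneg (Eventually.of_forall fun y => abs_nonneg _)
          (hi.mul_const _) (Eventually.of_forall fun y => ?_)
        simp only [abs_mul]
        refine mul_le_mul_of_nonneg_left ?_ (abs_nonneg _)
        rw [hh]
        simp only
        rw [abs_div, abs_of_nonneg (by positivity : (0 : ℝ) ≤ ((n + 1 : ℕ) : ℝ))]
        push_cast
        refine div_le_div_of_nonneg_right ?_ (by positivity)
        have h1 := Real.arctan_lt_pi_div_two (((n : ℝ) + 1) * ζ y)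
        have h2 := Real.neg_pi_div_two_lt_arctan (((n : ℝ) + 1) * ζ y)
        have h3 := Real.pi_le_four
        rw [abs_le]
        constructor <;> linarith
      have h0 : Tendsto (fun n : ℕ => (∫ y, |D i g y|) * (2 / ((n : ℝ) + 1))) atTop
          (𝓝 ((∫ y, |D i g y|) * 0)) := by
        refine Tendsto.const_mul _ ?_
        have h2 : Tendsto (fun n : ℕ => ((n : ℝ) + 1)) atTop atTop :=
          tendsto_atTop_add_const_right _ _ tendsto_natCast_atTop_atTop
        exact h2.const_div_atTop 2
      rw [mul_zero] at h0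
      exact squeeze_zero_norm hb h0
    have heq : (fun n : ℕ => ∫ y, g y * (1 / (1 + (((n + 1 : ℕ) : ℝ) * ζ y) ^ 2) * D i ζ y))
        = fun n : ℕ => - ∫ y, D i g y * h (n + 1) (ζ y) := by
      funext n
      exact hA (n + 1) (Nat.succ_pos n)
    rw [heq] at hlim1
    rw [neg_zero] at hlim2
    exact tendsto_nhds_unique hlim1 hlim2
  filter_upwards [ae_eq_zero_of_integral_contDiff_smul_eq_zero hloc key] with y hy h0
  rw [indicator_of_mem (by exact h0)] at hy
  exact hy

end Pool.Agent.Helper60.GM67
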