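import Pool.Agent.Helper60.GM67.TIbp

/-! Energy of test functions, Poincare inequality. -/

namespace Pool.Agent.Helper60.GM67

open MeasureTheory Set Metric Filter Topology
open Pool.Agent.R216.VPD (E D bv contDiff_D D_congr D_congr_nhds lap_eq D_mul D_comp D_add q D_q
  sum_inner_sq)
open scoped ContDiff

variable {N : ℕ}

/-- bilinear energy -/
noncomputable def aa (Ω : Set (E N)) (φ ζ : E N → ℝ) : ℝ := ∫ y in Ω, dot φ ζ y

/-- energy -/
noncomputable def en (Ω : Set (E N)) (φ : E N → ℝ) : ℝ := ∫ y in Ω, dot φ φ y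

theorem dot_self_nonneg (φ : E N → ℝ) (y : E N) : 0 ≤ dot φ φ y := by
  unfold dot
  exact Finset.sum_nonneg fun i _ => mul_self_nonneg _

theorem en_nonneg (Ω : Set (E N)) (φ : E N → ℝ) : 0 ≤ en Ω φ :=
  integral_nonneg fun y => dot_self_nonneg φ y

theorem T2.sub {Ω : Set (E N)} {a b : E N → ℝ} (ha : T2 Ω a) (hb : T2 Ω b) :
    T2 Ω (fun y => a y - b y) :=
  ⟨ha.1.sub hb.1, fun x hx => by simp [ha.2 x hx, hb.2 x hx]⟩

theorem T2.add {Ω : Set (E N)} {a b : E N → ℝ} (ha : T2 Ω a) (hb : T2 Ω b) :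
    T2 Ω (fun y => a y + b y) :=
  ⟨ha.1.add hb.1, fun x hx => by simp [ha.2 x hx, hb.2 x hx]⟩

theorem T2.cmul {Ω : Set (E N)} {a : E N → ℝ} (ha : T2 Ω a) (c : ℝ) : T2 Ω (fun y => c * a y) :=
  ⟨contDiff_const.mul ha.1, fun x hx => by simp [ha.2 x hx]⟩

theorem T2.mulR {Ω : Set (E N)} {a f : E N → ℝ} (ha : T2 Ω a) (hf : ContDiff ℝ 2 f) :
    T2 Ω (fun y => a y * f y) :=
  ⟨ha.1.mul hf, fun x hx => by simp [ha.2 x hx]⟩

theorem T2.comp {Ω : Set (E N)} {a : E N → ℝ} (ha : T2 Ω a) {p : ℝ → ℝ} (hp : ContDiff ℝ 2 p)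
    (h0 : p 0 = 0) : T2 Ω (fun y => p (a y)) :=
  ⟨hp.comp ha.1, fun x hx => by simp [ha.2 x hx, h0]⟩

theorem D_cmul {f : E N → ℝ} (hf : Differentiable ℝ f) (c : ℝ) (i : Fin N) :
    D i (fun y => c * f y) = fun y => c * D i f y := by
  funext y
  unfold D
  rw [fderiv_const_mul (hf y)]
  simp

theorem dot_comm (φ ζ : E N → ℝ) (y : E N) : dot φ ζ y = dot ζ φ y := by
  unfold dot
  exact Finset.sum_congr rfl fun i _ => mul_comm _ _

theorem aa_comm (Ω : Set (E N)) (φ ζ : E N → ℝ) : aa Ω φ ζ = aa Ω ζ φ := by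
  unfold aa; congr 1; funext y; exact dot_comm _ _ _

theorem dot_sub_left {a b ζ : E N → ℝ} (ha : ContDiff ℝ 2 a) (hb : ContDiff ℝ 2 b) (y : E N) :
    dot (fun y => a y - b y) ζ y = dot a ζ y - dot b ζ y := by
  unfold dot
  rw [← Finset.sum_sub_distrib]
  refine Finset.sum_congr rfl fun i _ => ?_
  rw [D_sub (c2_diff ha) (c2_diff hb)]; ring

theorem dot_add_left {a b ζ : E N → ℝ} (ha : ContDiff ℝ 2 a) (hb : ContDiff ℝ 2 b) (y : E N) :
    dot (fun y => a y + b y) ζ y = dot a ζ y + dot b ζ y := by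
  unfold dot
  rw [← Finset.sum_add_distrib]
  refine Finset.sum_congr rfl fun i _ => ?_
  rw [D_add (c2_diff ha) (c2_diff hb)]; ring

theorem dot_cmul_left {a ζ : E N → ℝ} (ha : ContDiff ℝ 2 a) (c : ℝ) (y : E N) :
    dot (fun y => c * a y) ζ y = c * dot a ζ y := by
  unfold dot
  rw [Finset.mul_sum]
  refine Finset.sum_congr rfl fun i _ => ?_
  rw [D_cmul (c2_diff ha)]; ring

theorem dot_comp_left {a ζ : E N → ℝ} (ha : ContDiff ℝ 2 a) {p p' : ℝ → ℝ}
    (hp : ∀ t, HasDerivAt p (p' t) t) (y : E N) :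
    dot (fun y => p (a y)) ζ y = p' (a y) * dot a ζ y := by
  unfold dot
  rw [Finset.mul_sum]
  refine Finset.sum_congr rfl fun i _ => ?_
  rw [D_comp (c2_diff ha) (fun t => (hp t).differentiableAt)]
  simp only
  rw [(hp (a y)).deriv]; ring

theorem dot_mul_left {a b ζ : E N → ℝ} (ha : ContDiff ℝ 2 a) (hb : ContDiff ℝ 2 b) (y : E N) :
    dot (fun y => a y * b y) ζ y = a y * dot b ζ y + b y * dot a ζ y := by
  unfold dot
  rw [Finset.mul_sum, Finset.mul_sum, ← Finset.sum_add_distrib]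
  refine Finset.sum_congr rfl fun i _ => ?_
  rw [D_mul (c2_diff ha) (c2_diff hb)]; ring

theorem aa_sub_left {Ω : Set (E N)} (hb : Bornology.IsBounded Ω) {a b ζ : E N → ℝ}
    (ha : ContDiff ℝ 2 a) (hb' : ContDiff ℝ 2 b) (hζ : ContDiff ℝ 2 ζ) :
    aa Ω (fun y => a y - b y) ζ = aa Ω a ζ - aa Ω b ζ := by
  unfold aa
  rw [← integral_sub (iob hb (dot_cont ha hζ)) (iob hb (dot_cont hb' hζ))]
  congr 1; funext y; exact dot_sub_left ha hb' y

theorem aa_add_left {Ω : Set (E N)} (hb : Bornology.IsBounded Ω) {a b ζ : E N → ℝ}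
    (ha : ContDiff ℝ 2 a) (hb' : ContDiff ℝ 2 b) (hζ : ContDiff ℝ 2 ζ) :
    aa Ω (fun y => a y + b y) ζ = aa Ω a ζ + aa Ω b ζ := by
  unfold aa
  rw [← integral_add (iob hb (dot_cont ha hζ)) (iob hb (dot_cont hb' hζ))]
  congr 1; funext y; exact dot_add_left ha hb' y

theorem aa_cmul_left {Ω : Set (E N)} {a ζ : E N → ℝ} (ha : ContDiff ℝ 2 a) (c : ℝ) :
    aa Ω (fun y => c * a y) ζ = c * aa Ω a ζ := by
  unfold aa
  rw [← integral_const_mul]
  congr 1; funext y; exact dot_cmul_left ha c y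

theorem en_eq (Ω : Set (E N)) (φ : E N → ℝ) : en Ω φ = aa Ω φ φ := rfl

theorem en_add_smul {Ω : Set (E N)} (hb : Bornology.IsBounded Ω) {φ ζ : E N → ℝ}
    (hφ : ContDiff ℝ 2 φ) (hζ : ContDiff ℝ 2 ζ) (t : ℝ) :
    en Ω (fun y => φ y + t * ζ y) = en Ω φ + 2 * t * aa Ω φ ζ + t ^ 2 * en Ω ζ := by
  have htζ : ContDiff ℝ 2 (fun y => t * ζ y) := contDiff_const.mul hζ
  have hs : ContDiff ℝ 2 (fun y => φ y + t * ζ y) := hφ.add htζ
  rw [en_eq, aa_add_left hb hφ htζ hs, aa_cmul_left hζ, aa_comm Ω φ, aa_comm Ω ζ,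
    aa_add_left hb hφ htζ hφ, aa_add_left hb hφ htζ hζ, aa_cmul_left hζ, aa_cmul_left hζ,
    aa_comm Ω ζ φ, en_eq, en_eq]
  ring

/-- the squared norm -/
noncomputable def nsq (y : E N) : ℝ := ‖y‖ ^ 2

theorem nsq_c2 : ContDiff ℝ 2 (nsq (N := N)) := by
  have : ContDiff ℝ ∞ (fun z : E N => ‖z‖ ^ 2) := contDiff_norm_sq ℝ
  exact this.of_le (by norm_cast)

theorem D_nsq (i : Fin N) (y : E N) : D i nsq y = 2 * inner ℝ y (bv i) := by
  have h : nsq (N := N) = q 0 0 := by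
    funext y; unfold nsq q; simp
  rw [h, D_q]
  simp [inner_neg_left]

theorem lap_nsq (y : E N) : lap nsq y = 2 * N := by
  have h := lap_radial (N := N) (b := id) contDiff_id y
  have h2 : (fun y : E N => id (‖y‖ ^ 2)) = nsq := rfl
  rw [h2] at h
  unfold lap
  rw [h]
  have h3 : deriv (id : ℝ → ℝ) = fun _ => 1 := by funext t; simp
  rw [h3]
  simp

theorem inner_bv_le (y : E N) (i : Fin N) : (inner ℝ y (bv i : E N)) ^ 2 ≤ ‖y‖ ^ 2 := by
  rw [← sum_inner_sq y]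
  exact Finset.single_le_sum (f := fun i => (inner ℝ y (bv i : E N)) ^ 2)
    (fun i _ => sq_nonneg _) (Finset.mem_univ i)

/-- Poincare -/
theorem poinc {Ω : Set (E N)} (hN : 0 < N) (hΩ : IsOpen Ω) {R : ℝ} (hR : Ω ⊆ closedBall 0 R)
    {φ : E N → ℝ} (hφ : T2 Ω φ) : ∫ y in Ω, (φ y) ^ 2 ≤ 4 * R ^ 2 / N * en Ω φ := by
  have hb : Bornology.IsBounded Ω := isBounded_closedBall.subset hR
  have hψ : T2 Ω (fun y => φ y * φ y) := hφ.mulR hφ.1
  have h1 := ibpT hΩ hb hψ (nsq_c2)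
  simp only [lap_nsq] at h1
  rw [integral_mul_const] at h1
  have hint1 : IntegrableOn (fun y => φ y * φ y) Ω := iob hb (hψ.1.continuous)
  have hint2 : IntegrableOn (fun y => dot φ φ y) Ω := iob hb (dot_cont hφ.1 hφ.1)
  have h2 : ∫ y in Ω, -(N * (φ y * φ y) + 4 * R ^ 2 * dot φ φ y)
      ≤ ∫ y in Ω, dot (fun y => φ y * φ y) nsq y := by
    refine setIntegral_mono_on ((hint1.const_mul _).add (hint2.const_mul _)).neg
      (iob hb (dot_cont hψ.1 nsq_c2)) hΩ.measurableSet fun y hy => ?_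
    rw [dot_mul_left hφ.1 hφ.1]
    have hyR : ‖y‖ ≤ R := by
      have := hR hy
      rwa [mem_closedBall, dist_zero_right] at this
    have hR2 : ‖y‖ ^ 2 ≤ R ^ 2 := by gcongr
    have h3 : ∀ i ∈ Finset.univ, -(φ y * φ y + 4 * R ^ 2 * (D i φ y * D i φ y))
        ≤ 2 * (φ y * (D i φ y * D i nsq y)) := by
      intro i _
      rw [D_nsq]
      have h4 := inner_bv_le y i
      have h5 : 4 * (inner ℝ y (bv i : E N)) ^ 2 * (D i φ y) ^ 2 ≤ 4 * R ^ 2 * (D i φ y) ^ 2 := by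
        have : 0 ≤ (D i φ y) ^ 2 := sq_nonneg _
        nlinarith
      nlinarith [sq_nonneg (φ y + 2 * (inner ℝ y (bv i : E N)) * D i φ y)]
    have h6 := Finset.sum_le_sum h3
    rw [Finset.sum_neg_distrib, Finset.sum_add_distrib, ← Finset.mul_sum, ← Finset.mul_sum,
      ← Finset.mul_sum] at h6
    simp only [Finset.sum_const, Finset.card_univ, Fintype.card_fin, nsmul_eq_mul] at h6
    have h7 : dot φ φ y = ∑ i, D i φ y * D i φ y := rfl
    have h8 : dot φ nsq y = ∑ i, D i φ y * D i nsq y := rfl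
    have h6' : ∑ i, φ y * (D i φ y * D i nsq y) = φ y * ∑ i, D i φ y * D i nsq y := by
      rw [Finset.mul_sum]
    rw [h6'] at h6
    rw [h7, h8]
    linarith
  rw [h1, integral_neg, integral_add (hint1.const_mul _) (hint2.const_mul _), integral_const_mul,
    integral_const_mul] at h2
  have h9 : ∫ y in Ω, φ y ^ 2 = ∫ y in Ω, φ y * φ y := by
    congr 1; funext y; ring
  have h10 : en Ω φ = ∫ y in Ω, dot φ φ y := rfl
  rw [h9, h10]
  have hN' : (0 : ℝ) < N := by exact_mod_cast hN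
  rw [div_mul_eq_mul_div, le_div_iff₀ hN']
  nlinarith

end Pool.Agent.Helper60.GM67
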