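import Pool.Agent.Helper60.GM67.TCalc

/-! Integration by parts for test functions on an arbitrary bounded open set. -/

namespace Pool.Agent.Helper60.GM67

open MeasureTheory Set Metric Filter Topology
open Pool.Agent.R216.VPD (E D bv contDiff_D D_congr D_congr_nhds lap_eq D_mul D_comp D_add bb
  bb_zero bb_le bb_nonneg bb_ge tendsto_bb contDiff_bb deriv_bb hasDerivAt_bb)
open scoped ContDiff

variable {N : ℕ}

/-- odd cutoff of the identity near zero -/
noncomputable def bt (τ t : ℝ) : ℝ := bb τ t - bb τ (-t)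

/-- its derivative -/
noncomputable def bt' (τ t : ℝ) : ℝ :=
  Real.smoothTransition (t / τ - 1) + Real.smoothTransition (-t / τ - 1)

theorem hasDerivAt_bt (τ t : ℝ) : HasDerivAt (bt τ) (bt' τ t) t := by
  have h1 := hasDerivAt_bb τ t
  have h2 : HasDerivAt (fun t : ℝ => bb τ (-t))
      (Real.smoothTransition (-t / τ - 1) * (-1)) t :=
    (hasDerivAt_bb τ (-t)).comp t (hasDerivAt_neg t)
  refine HasDerivAt.congr_deriv (h1.sub h2) ?_
  unfold bt'
  ring

theorem contDiff_bt (τ : ℝ) : ContDiff ℝ 2 (bt τ) :=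
  (contDiff_bb τ).sub ((contDiff_bb τ).comp contDiff_neg)

theorem bt_zero {τ t : ℝ} (hτ : 0 < τ) (ht : |t| ≤ τ) : bt τ t = 0 := by
  unfold bt
  rw [abs_le] at ht
  rw [bb_zero hτ ht.2, bb_zero hτ (by linarith [ht.1]), sub_zero]

theorem bt_abs_le {τ t : ℝ} (hτ : 0 < τ) : |bt τ t| ≤ |t| := by
  unfold bt
  rcases le_total 0 t with h | h
  · rw [bb_zero hτ (s := -t) (by linarith), sub_zero, abs_of_nonneg (bb_nonneg hτ),
      abs_of_nonneg h]
    exact bb_le h
  · rw [bb_zero hτ (s := t) (by linarith), zero_sub, abs_neg, abs_of_nonneg (bb_nonneg hτ),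
      abs_of_nonpos h]
    exact bb_le (by linarith)

theorem tendsto_bt (t : ℝ) {τ : ℕ → ℝ} (hτ : ∀ n, 0 < τ n) (hτ0 : Tendsto τ atTop (𝓝 0)) :
    Tendsto (fun n => bt (τ n) t) atTop (𝓝 t) := by
  have h := (tendsto_bb t hτ hτ0).sub (tendsto_bb (-t) hτ hτ0)
  have h2 : max t 0 - max (-t) 0 = t := by
    rcases le_total 0 t with h | h
    · rw [max_eq_left h, max_eq_right (by linarith)]; ring
    · rw [max_eq_right h, max_eq_left (by linarith)]; ring
  rw [h2] at h
  exact h

theorem bt'_nonneg (τ t : ℝ) : 0 ≤ bt' τ t :=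
  add_nonneg (Real.smoothTransition.nonneg _) (Real.smoothTransition.nonneg _)

theorem bt'_le_one {τ t : ℝ} (hτ : 0 < τ) : bt' τ t ≤ 1 := by
  unfold bt'
  rcases le_total 0 t with h | h
  · rw [Real.smoothTransition.zero_of_nonpos (x := -t / τ - 1), add_zero]
    · exact Real.smoothTransition.le_one _
    · have : -t / τ ≤ 0 := div_nonpos_of_nonpos_of_nonneg (by linarith) hτ.le
      linarith
  · rw [Real.smoothTransition.zero_of_nonpos (x := t / τ - 1), zero_add]
    · exact Real.smoothTransition.le_one _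
    · have : t / τ ≤ 0 := div_nonpos_of_nonpos_of_nonneg (by linarith) hτ.le
      linarith

theorem bt'_one {τ t : ℝ} (hτ : 0 < τ) (ht : 2 * τ ≤ |t|) : bt' τ t = 1 := by
  unfold bt'
  rcases le_total 0 t with h | h
  · rw [abs_of_nonneg h] at ht
    rw [Real.smoothTransition.zero_of_nonpos (x := -t / τ - 1), add_zero,
      Real.smoothTransition.one_of_one_le]
    · rw [le_sub_iff_add_le, le_div_iff₀ hτ]; linarith
    · have : -t / τ ≤ 0 := div_nonpos_of_nonpos_of_nonneg (by linarith) hτ.le
      linarith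
  · rw [abs_of_nonpos h] at ht
    rw [Real.smoothTransition.zero_of_nonpos (x := t / τ - 1), zero_add,
      Real.smoothTransition.one_of_one_le]
    · rw [le_sub_iff_add_le, le_div_iff₀ hτ]; linarith
    · have : t / τ ≤ 0 := div_nonpos_of_nonpos_of_nonneg (by linarith) hτ.le
      linarith

theorem bt'_cont (τ : ℝ) : Continuous (bt' τ) := by
  unfold bt'
  exact (Real.smoothTransition.continuous.comp (by fun_prop)).add
    (Real.smoothTransition.continuous.comp (by fun_prop))

/-- integration by parts: one of the functions vanishes on the boundary -/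
theorem ibpT {Ω : Set (E N)} (hΩ : IsOpen Ω) (hb : Bornology.IsBounded Ω) {ψ f : E N → ℝ}
    (hψ : T2 Ω ψ) (hf : ContDiff ℝ 2 f) :
    ∫ y in Ω, dot ψ f y = -∫ y in Ω, ψ y * lap f y := by
  set τ : ℕ → ℝ := fun n => 1 / ((n : ℝ) + 1) with hτdef
  have hτ : ∀ n, 0 < τ n := fun n => by rw [hτdef]; positivity
  have hτ0 : Tendsto τ atTop (𝓝 0) := tendsto_one_div_add_atTop_nhds_zero_nat
  have hψc := hψ.1.continuous
  set η : ℕ → E N → ℝ := fun n => Ω.indicator (fun y => bt (τ n) (ψ y)) with hηdef
  have hbc : ∀ n, ContDiff ℝ 2 (fun y => bt (τ n) (ψ y)) := fun n => (contDiff_bt (τ n)).comp hψ.1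
  have hnear : ∀ n y, y ∉ Ω → η n =ᶠ[𝓝 y] fun _ => 0 := by
    intro n y hy
    by_cases hcl : y ∈ closure Ω
    · have hfr : y ∈ frontier Ω := by
        rw [frontier, hΩ.interior_eq]; exact ⟨hcl, hy⟩
      have hlt : ∀ᶠ z in 𝓝 y, |ψ z| < τ n := by
        have : |ψ y| < τ n := by rw [hψ.2 y hfr, abs_zero]; exact hτ n
        exact hψc.abs.continuousAt.eventually_lt continuousAt_const this
      filter_upwards [hlt] with z hz
      by_cases hzΩ : z ∈ Ω
      · rw [hηdef]
        simp only
        rw [indicator_of_mem hzΩ]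
        exact bt_zero (hτ n) hz.le
      · rw [hηdef]
        simp only
        rw [indicator_of_notMem hzΩ]
    · have : ∀ᶠ z in 𝓝 y, z ∉ closure Ω := isClosed_closure.isOpen_compl.mem_nhds hcl
      filter_upwards [this] with z hz
      rw [hηdef]
      simp only
      rw [indicator_of_notMem (fun h => hz (subset_closure h))]
  have hin : ∀ n, ∀ y ∈ Ω, η n =ᶠ[𝓝 y] fun y => bt (τ n) (ψ y) := by
    intro n y hy
    filter_upwards [hΩ.mem_nhds hy] with z hz
    rw [hηdef]
    simp only
    rw [indicator_of_mem hz]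
  have hηc : ∀ n, ContDiff ℝ 2 (η n) := by
    intro n
    rw [contDiff_iff_contDiffAt]
    intro y
    by_cases hy : y ∈ Ω
    · exact (hbc n).contDiffAt.congr_of_eventuallyEq (hin n y hy)
    · exact contDiffAt_const.congr_of_eventuallyEq (hnear n y hy)
  have hts : ∀ n, tsupport (η n) ⊆ Ω := by
    intro n y hy
    by_contra hc
    exact (notMem_tsupport_iff_eventuallyEq.2 (hnear n y hc)) hy
  have hcs : ∀ n, HasCompactSupport (η n) := by
    intro n
    refine (hb.isCompact_closure).of_isClosed_subset (isClosed_tsupport _) ?_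
    exact (hts n).trans subset_closure
  have hDin : ∀ n, ∀ y ∈ Ω, ∀ i, D i (η n) y = bt' (τ n) (ψ y) * D i ψ y := by
    intro n y hy i
    rw [D_congr (hin n y hy) i,
      D_comp (c2_diff hψ.1) (fun t => (hasDerivAt_bt (τ n) t).differentiableAt) i]
    simp only
    rw [(hasDerivAt_bt (τ n) (ψ y)).deriv]
  have hDout : ∀ n, ∀ y, y ∉ Ω → ∀ i, D i (η n) y = 0 := by
    intro n y hy i
    rw [D_congr (hnear n y hy) i]
    unfold D; simp
  have hmain : ∀ n, ∫ y in Ω, bt' (τ n) (ψ y) * dot ψ f y = -∫ y in Ω, bt (τ n) (ψ y) * lap f y := by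
    intro n
    have h1 := ibp1 (hηc n) (hcs n) hf
    have h2 : ∫ y, dot (η n) f y = ∫ y in Ω, bt' (τ n) (ψ y) * dot ψ f y := by
      rw [← setIntegral_eq_integral_of_forall_compl_eq_zero (s := Ω)]
      · refine setIntegral_congr_fun hΩ.measurableSet fun y hy => ?_
        unfold dot
        rw [Finset.mul_sum]
        refine Finset.sum_congr rfl fun i _ => ?_
        rw [hDin n y hy i]; ring
      · intro y hy
        unfold dot
        exact Finset.sum_eq_zero fun i _ => by rw [hDout n y hy i, zero_mul]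
    have h3 : ∫ y, η n y * lap f y = ∫ y in Ω, bt (τ n) (ψ y) * lap f y := by
      rw [← setIntegral_eq_integral_of_forall_compl_eq_zero (s := Ω)]
      · refine setIntegral_congr_fun hΩ.measurableSet fun y hy => ?_
        simp only [hηdef]
        rw [indicator_of_mem hy]
      · intro y hy
        simp only [hηdef]
        rw [indicator_of_notMem hy, zero_mul]
    rw [h2, h3] at h1
    exact h1
  have hL : Tendsto (fun n => ∫ y in Ω, bt' (τ n) (ψ y) * dot ψ f y) atTop
      (𝓝 (∫ y in Ω, dot ψ f y)) := by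
    refine tendsto_integral_of_dominated_convergence (fun y => |dot ψ f y|) ?_ ?_ ?_ ?_
    · intro n
      exact (((bt'_cont (τ n)).comp hψc).mul (dot_cont hψ.1 hf)).aestronglyMeasurable
    · exact (iob hb (dot_cont hψ.1 hf)).abs
    · intro n
      refine Eventually.of_forall fun y => ?_
      rw [Real.norm_eq_abs, abs_mul, abs_of_nonneg (bt'_nonneg _ _)]
      exact mul_le_of_le_one_left (abs_nonneg _) (bt'_le_one (hτ n))
    · have hae : ∀ᵐ y ∂(volume.restrict Ω), ∀ i, ψ y = 0 → D i ψ y = 0 := by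
        refine ae_restrict_of_ae ?_
        rw [ae_all_iff]
        exact fun i => grad_zero_ae hψ.1 i
      filter_upwards [hae] with y hy
      by_cases h0 : ψ y = 0
      · have : dot ψ f y = 0 := by
          unfold dot
          exact Finset.sum_eq_zero fun i _ => by rw [hy i h0, zero_mul]
        simp [this]
      · refine tendsto_const_nhds.congr' ?_
        have h1 : ∀ᶠ n in atTop, τ n < |ψ y| / 2 := by
          refine hτ0.eventually_lt_const ?_
          have := abs_pos.2 h0
          positivity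
        filter_upwards [h1] with n hn
        rw [bt'_one (hτ n) (by linarith), one_mul]
  have hR : Tendsto (fun n => -∫ y in Ω, bt (τ n) (ψ y) * lap f y) atTop
      (𝓝 (-∫ y in Ω, ψ y * lap f y)) := by
    refine Tendsto.neg ?_
    refine tendsto_integral_of_dominated_convergence (fun y => |ψ y * lap f y|) ?_ ?_ ?_ ?_
    · intro n
      exact (((contDiff_bt (τ n)).continuous.comp hψc).mul (lap_cont hf)).aestronglyMeasurable
    · exact (iob hb (hψc.mul (lap_cont hf))).abs
    · intro n
      refine Eventually.of_forall fun y => ?_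
      rw [Real.norm_eq_abs, abs_mul, abs_mul]
      exact mul_le_mul_of_nonneg_right (bt_abs_le (hτ n)) (abs_nonneg _)
    · refine Eventually.of_forall fun y => ?_
      exact (tendsto_bt (ψ y) hτ hτ0).mul_const _
  have heq : (fun n => ∫ y in Ω, bt' (τ n) (ψ y) * dot ψ f y)
      = fun n => -∫ y in Ω, bt (τ n) (ψ y) * lap f y := funext hmain
  rw [heq] at hL
  exact tendsto_nhds_unique hL hR

end Pool.Agent.Helper60.GM67
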